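import Mathlib

set_option autoImplicit false

open Filter Set Topology Metric

namespace Pool.Agent.R260.Bl

/-- the algebraic identity `|1 - conj s z|² - |z - s|² = (1-|z|²)(1-|s|²)` -/
lemma ident (z s : ℂ) : ‖1 - (starRingEnd ℂ) s * z‖ ^ 2 - ‖z - s‖ ^ 2
    = (1 - ‖z‖ ^ 2) * (1 - ‖s‖ ^ 2) := by
  rw [← Complex.normSq_eq_norm_sq, ← Complex.normSq_eq_norm_sq, ← Complex.normSq_eq_norm_sq,
    ← Complex.normSq_eq_norm_sq]
  simp only [Complex.normSq_apply, Complex.sub_re, Complex.sub_im, Complex.mul_re, Complex.mul_im,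
    Complex.one_re, Complex.one_im, Complex.conj_re, Complex.conj_im]
  ring

/-- dividing out one zero of a bounded holomorphic function -/
lemma divide (g : ℂ → ℂ) (M : ℝ) (hg : DifferentiableOn ℂ g (ball 0 1))
    (hM : ∀ z ∈ ball (0:ℂ) 1, ‖g z‖ ≤ M) (s : ℂ) (hs : s ∈ ball (0:ℂ) 1) (hgs : g s = 0) :
    ∃ g1 : ℂ → ℂ, DifferentiableOn ℂ g1 (ball 0 1) ∧ (∀ z ∈ ball (0:ℂ) 1, ‖g1 z‖ ≤ M) ∧
      ∀ z, g z * (1 - (starRingEnd ℂ) s * z) = (z - s) * g1 z := by
  have hM0 : 0 ≤ M := (norm_nonneg _).trans (hM 0 (by simp))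
  set g1 : ℂ → ℂ := fun z => dslope g s z * (1 - (starRingEnd ℂ) s * z) with hg1
  have hmul : ∀ z, g z * (1 - (starRingEnd ℂ) s * z) = (z - s) * g1 z := by
    intro z
    have h1 : (z - s) • dslope g s z = g z - g s := sub_smul_dslope g s z
    rw [hgs, sub_zero, smul_eq_mul] at h1
    rw [hg1]
    simp only
    rw [← h1]; ring
  have hnhds : ball (0:ℂ) 1 ∈ 𝓝 s := isOpen_ball.mem_nhds hs
  have hd1 : DifferentiableOn ℂ g1 (ball 0 1) := by
    apply DifferentiableOn.mul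
    · exact (Complex.differentiableOn_dslope hnhds).mpr hg
    · fun_prop
  refine ⟨g1, hd1, ?_, hmul⟩
  intro z0 hz0
  rw [mem_ball_zero_iff] at hz0 hs
  -- for every r close to 1
  have hbound : ∀ r : ℝ, max ‖z0‖ ‖s‖ < r → r < 1 →
      ‖g1 z0‖ ≤ M * Real.sqrt (1 + (1 - r^2) / (r - ‖s‖)^2) := by
    intro r hr1 hr2
    have hrz : ‖z0‖ < r := lt_of_le_of_lt (le_max_left _ _) hr1
    have hrs : ‖s‖ < r := lt_of_le_of_lt (le_max_right _ _) hr1
    have hr0 : 0 < r := lt_of_le_of_lt (norm_nonneg _) hrz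
    have hsub : closedBall (0:ℂ) r ⊆ ball 0 1 := closedBall_subset_ball hr2
    have hdc : DiffContOnCl ℂ g1 (ball 0 r) := by
      apply DifferentiableOn.diffContOnCl
      rw [closure_ball _ hr0.ne']
      exact hd1.mono hsub
    apply Complex.norm_le_of_forall_mem_frontier_norm_le isBounded_ball hdc
    · intro z hz
      rw [frontier_ball _ hr0.ne', mem_sphere_zero_iff_norm] at hz
      have hzs : r - ‖s‖ ≤ ‖z - s‖ := by
        rw [← hz]; exact norm_sub_norm_le z s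
      have hzs0 : 0 < ‖z - s‖ := by linarith
      have h1 := hmul z
      have h2 : ‖g z‖ * ‖1 - (starRingEnd ℂ) s * z‖ = ‖z - s‖ * ‖g1 z‖ := by
        rw [← norm_mul, ← norm_mul, h1]
      have h3 : ‖g z‖ ≤ M := hM z (hsub (by rw [mem_closedBall_zero_iff]; exact hz.le))
      have h4 : ‖1 - (starRingEnd ℂ) s * z‖ ≤
          ‖z - s‖ * Real.sqrt (1 + (1 - r^2) / (r - ‖s‖)^2) := by
        rw [← Real.sqrt_sq (norm_nonneg (z - s)), ← Real.sqrt_mul (sq_nonneg _)]
        apply Real.le_sqrt_of_sq_le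
        have h5 := ident z s
        rw [hz] at h5
        have h6 : (1 - r^2) * (1 - ‖s‖^2) ≤ ‖z - s‖^2 * ((1 - r^2) / (r - ‖s‖)^2) := by
          have h7 : (r - ‖s‖)^2 ≤ ‖z - s‖^2 := by
            apply pow_le_pow_left₀ (by linarith) hzs
          have h8 : 0 ≤ 1 - r^2 := by nlinarith
          have h9 : 1 - ‖s‖^2 ≤ 1 := by nlinarith [sq_nonneg ‖s‖]
          have h10 : 0 < (r - ‖s‖)^2 := by
            apply pow_pos; linarith
          calc (1 - r^2) * (1 - ‖s‖^2) ≤ (1 - r^2) * 1 := by gcongr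
            _ = (r - ‖s‖)^2 * ((1 - r^2) / (r - ‖s‖)^2) := by
              rw [mul_div_cancel₀ _ h10.ne', mul_one]
            _ ≤ _ := by gcongr
        linarith
      have h5 : ‖z - s‖ * ‖g1 z‖ ≤ ‖z - s‖ * (M * Real.sqrt (1 + (1 - r^2) / (r - ‖s‖)^2)) := by
        rw [← h2]
        calc ‖g z‖ * ‖1 - (starRingEnd ℂ) s * z‖
            ≤ M * (‖z - s‖ * Real.sqrt (1 + (1 - r^2) / (r - ‖s‖)^2)) := by gcongr
          _ = _ := by ring
      exact le_of_mul_le_mul_left h5 hzs0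
    · rw [closure_ball _ hr0.ne', mem_closedBall_zero_iff]
      exact hrz.le
  -- let r → 1
  have hlim : Tendsto (fun r : ℝ => M * Real.sqrt (1 + (1 - r^2) / (r - ‖s‖)^2)) (𝓝[<] 1)
      (𝓝 (M * Real.sqrt (1 + (1 - 1^2) / (1 - ‖s‖)^2))) := by
    have hne : (1 - ‖s‖)^2 ≠ 0 := by
      apply pow_ne_zero; linarith
    have : ContinuousAt (fun r : ℝ => M * Real.sqrt (1 + (1 - r^2) / (r - ‖s‖)^2)) 1 := by
      apply ContinuousAt.mul continuousAt_const
      apply ContinuousAt.sqrt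
      apply ContinuousAt.add continuousAt_const
      exact ContinuousAt.div (f := fun r : ℝ => 1 - r^2) (g := fun r : ℝ => (r - ‖s‖)^2)
        (by fun_prop) (by fun_prop) hne
    exact this.tendsto.mono_left nhdsWithin_le_nhds
  have hval : M * Real.sqrt (1 + (1 - 1^2) / (1 - ‖s‖)^2) = M := by
    simp
  rw [hval] at hlim
  apply ge_of_tendsto hlim
  have : ∀ᶠ r : ℝ in 𝓝[<] 1, max ‖z0‖ ‖s‖ < r := by
    apply (eventually_gt_nhds (max_lt hz0 hs)).filter_mono nhdsWithin_le_nhds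
  filter_upwards [this, self_mem_nhdsWithin] with r h1 h2
  exact hbound r h1 h2

/-- finite Blaschke bound at the origin -/
lemma blaschke (S : Finset ℂ) : ∀ (g : ℂ → ℂ) (M : ℝ), DifferentiableOn ℂ g (ball 0 1) →
    (∀ z ∈ ball (0:ℂ) 1, ‖g z‖ ≤ M) → (∀ s ∈ S, s ∈ ball (0:ℂ) 1 ∧ g s = 0) →
    ‖g 0‖ ≤ M * ∏ s ∈ S, ‖s‖ := by
  classical
  induction S using Finset.induction_on with
  | empty =>
    intro g M _ hM _
    simpa using hM 0 (by simp)
  | insert s S hsS ih =>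
    intro g M hg hM hS
    obtain ⟨hs1, hs2⟩ := hS s (Finset.mem_insert_self s S)
    obtain ⟨g1, hd, hb, hmul⟩ := divide g M hg hM s hs1 hs2
    have h1 := ih g1 M hd hb (by
      intro t ht
      obtain ⟨ht1, ht2⟩ := hS t (Finset.mem_insert_of_mem ht)
      refine ⟨ht1, ?_⟩
      have h2 := hmul t
      rw [ht2, zero_mul] at h2
      have hne : t - s ≠ 0 := by
        intro h
        have : t = s := by linear_combination h
        exact hsS (this ▸ ht)
      exact ((mul_eq_zero.mp h2.symm).resolve_left hne))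
    have h2 := hmul 0
    simp only [mul_zero, sub_zero, mul_one, zero_sub] at h2
    rw [Finset.prod_insert hsS, h2, norm_mul, norm_neg]
    calc ‖s‖ * ‖g1 0‖ ≤ ‖s‖ * (M * ∏ s ∈ S, ‖s‖) := by gcongr
      _ = _ := by ring

end Pool.Agent.R260.Bl
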