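import Pool.Agent.R260.BlA

set_option autoImplicit false

open Filter Set Topology Metric

namespace Pool.Agent.R260.Bp

/-- The Blaschke factor `(|a|/a) (a - z)/(1 - conj(a) z)`. -/
noncomputable def blF (a z : ℂ) : ℂ :=
  ((‖a‖ : ℂ) / a) * ((a - z) / (1 - (starRingEnd ℂ) a * z))

/-- `F` agrees on the unit disc with `e^{iθ} z^m ∏_i (|a_i|/a_i) (a_i - z)/(1 - conj(a_i) z)`, where
`a` is a family in the punctured disc with `∑ (1 - |a_i|) < ∞`. -/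
def HasForm (F : ℂ → ℂ) (θ : ℝ) (m : ℕ) (ι : Type) (a : ι → ℂ) : Prop :=
  (∀ i, a i ≠ 0 ∧ ‖a i‖ < 1) ∧ Summable (fun i => 1 - ‖a i‖) ∧
    ∀ z ∈ ball (0:ℂ) 1, F z = Complex.exp (θ * Complex.I) * z ^ m * ∏' i, blF (a i) z

/-- `F` is a Blaschke product (as a function on the unit disc): it is not constant there and has the
form `e^{iθ} z^m ∏_i (|a_i|/a_i) (a_i - z)/(1 - conj(a_i) z)`, the family `(a_i)` being finite or
countably infinite. -/
def IsBlaschke (F : ℂ → ℂ) : Prop :=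
  (¬ ∃ c : ℂ, ∀ z ∈ ball (0:ℂ) 1, F z = c) ∧
    ∃ (θ : ℝ) (m : ℕ) (ι : Type) (a : ι → ℂ), Countable ι ∧ HasForm F θ m ι a

/-- The conformal automorphism `w ↦ e^{iφ} (w - a)/(1 - conj(a) w)` of the unit disc. -/
noncomputable def autT (φ : ℝ) (a w : ℂ) : ℂ :=
  Complex.exp (φ * Complex.I) * ((w - a) / (1 - (starRingEnd ℂ) a * w))

/-- `B` is an indestructible Blaschke product. -/
def Indestructible (B : ℂ → ℂ) : Prop :=
  IsBlaschke B ∧ ∀ (φ : ℝ) (a : ℂ), ‖a‖ < 1 → IsBlaschke (fun z => autT φ a (B z))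

lemma den_ne (a z : ℂ) (ha : ‖a‖ < 1) (hz : ‖z‖ < 1) : 1 - (starRingEnd ℂ) a * z ≠ 0 := by
  intro h0
  have h1 : (starRingEnd ℂ) a * z = 1 := by linear_combination -h0
  have h2 : ‖a‖ * ‖z‖ = 1 := by
    rw [← RCLike.norm_conj a, ← norm_mul, h1, norm_one]
  nlinarith [norm_nonneg a, norm_nonneg z]

lemma den_ge (a z : ℂ) (ha : ‖a‖ < 1) : 1 - ‖z‖ ≤ ‖1 - (starRingEnd ℂ) a * z‖ := by
  have h1 := norm_sub_norm_le (1:ℂ) ((starRingEnd ℂ) a * z)
  rw [norm_one, norm_mul, RCLike.norm_conj] at h1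
  nlinarith [norm_nonneg a, norm_nonneg z]

lemma blF_norm (a z : ℂ) (ha0 : a ≠ 0) (ha : ‖a‖ < 1) (hz : ‖z‖ < 1) : ‖blF a z‖ < 1 := by
  have h1 : ‖((‖a‖ : ℂ) / a)‖ = 1 := by
    rw [norm_div, Complex.norm_real, norm_norm, div_self (norm_ne_zero_iff.mpr ha0)]
  unfold blF
  rw [norm_mul, h1, one_mul, norm_div]
  have hd := den_ne a z ha hz
  have hdp : 0 < ‖1 - (starRingEnd ℂ) a * z‖ := norm_pos_iff.mpr hd
  rw [div_lt_one hdp]
  have h2 := Pool.Agent.R260.Bl.ident z a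
  have h3 : 0 < (1 - ‖z‖ ^ 2) * (1 - ‖a‖ ^ 2) := by
    apply mul_pos <;> nlinarith [norm_nonneg a, norm_nonneg z]
  rw [norm_sub_rev a z]
  exact lt_of_pow_lt_pow_left₀ 2 hdp.le (by linarith)

lemma blF_sub_one (a z : ℂ) (ha0 : a ≠ 0) (ha : ‖a‖ < 1) (hz : ‖z‖ < 1) :
    ‖blF a z - 1‖ ≤ (1 - ‖a‖) * ((1 + ‖z‖) / (1 - ‖z‖)) := by
  have hd := den_ne a z ha hz
  have hn2 : (a * (starRingEnd ℂ) a) = (‖a‖:ℂ)^2 := by
    rw [Complex.mul_conj, Complex.normSq_eq_norm_sq]; push_cast; rfl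
  have e : blF a z - 1 = - (((1 - ‖a‖ : ℝ) : ℂ) * (a + ‖a‖ * z) / (a * (1 - (starRingEnd ℂ) a * z))) := by
    have e1 : ((‖a‖ : ℂ) / a) * ((a - z) / (1 - (starRingEnd ℂ) a * z)) - 1
        = ((‖a‖ : ℂ) * (a - z) - a * (1 - (starRingEnd ℂ) a * z))
          / (a * (1 - (starRingEnd ℂ) a * z)) := by
      rw [div_mul_div_comm, div_sub_one (mul_ne_zero ha0 hd)]
    unfold blF
    rw [e1, ← neg_div]
    congr 1
    push_cast
    linear_combination z * hn2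
  rw [e, norm_neg, norm_div, norm_mul, norm_mul, Complex.norm_real, Real.norm_eq_abs,
    abs_of_pos (by linarith)]
  have ha' : 0 < ‖a‖ := norm_pos_iff.mpr ha0
  have h1 : ‖a + ‖a‖ * z‖ ≤ ‖a‖ * (1 + ‖z‖) := by
    refine (norm_add_le _ _).trans ?_
    rw [norm_mul, Complex.norm_real, norm_norm]
    linarith
  have h2 := den_ge a z ha
  have h3 : 0 < 1 - ‖z‖ := by linarith
  calc (1 - ‖a‖) * ‖a + ‖a‖ * z‖ / (‖a‖ * ‖1 - (starRingEnd ℂ) a * z‖)
      ≤ (1 - ‖a‖) * (‖a‖ * (1 + ‖z‖)) / (‖a‖ * (1 - ‖z‖)) := by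
        have : 0 ≤ 1 - ‖a‖ := by linarith
        gcongr
    _ = _ := by field_simp

lemma summ_blF {ι : Type*} (a : ι → ℂ) (ha : ∀ i, a i ≠ 0 ∧ ‖a i‖ < 1)
    (hs : Summable (fun i => 1 - ‖a i‖)) (z : ℂ) (hz : ‖z‖ < 1) :
    Summable (fun i => ‖blF (a i) z - 1‖) := by
  refine Summable.of_nonneg_of_le (fun i => norm_nonneg _)
    (fun i => blF_sub_one (a i) z (ha i).1 (ha i).2 hz) (hs.mul_right _)

lemma mult_blF {ι : Type*} (a : ι → ℂ) (ha : ∀ i, a i ≠ 0 ∧ ‖a i‖ < 1)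
    (hs : Summable (fun i => 1 - ‖a i‖)) (z : ℂ) (hz : ‖z‖ < 1) :
    Multipliable (fun i => blF (a i) z) := by
  have := multipliable_one_add_of_summable (summ_blF a ha hs z hz)
  simpa using this

/-- the value of the product at the origin -/
lemma prod_zero {ι : Type*} (a : ι → ℂ) (ha : ∀ i, a i ≠ 0 ∧ ‖a i‖ < 1)
    (hs : Summable (fun i => 1 - ‖a i‖)) :
    ∃ P : ℝ, 0 < P ∧ ∏' i, blF (a i) 0 = (P:ℂ) ∧ P ≤ Real.exp (-∑' i, (1 - ‖a i‖)) := by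
  have h0 : ∀ i, blF (a i) 0 = ((‖a i‖ : ℝ) : ℂ) := by
    intro i
    unfold blF
    have := (ha i).1
    field_simp
    simp
  have hmul : Multipliable (fun i => ‖a i‖) := by
    have := (mult_blF a ha hs 0 (by simp)).norm
    refine this.congr (fun i => ?_)
    rw [h0 i, Complex.norm_real, norm_norm]
  have hlog : Summable (fun i => Real.log (‖a i‖)) := by
    have h1 : Summable (fun i => ‖((‖a i‖ : ℝ) - 1)‖) := by
      refine hs.congr (fun i => ?_)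
      rw [Real.norm_eq_abs, abs_sub_comm, abs_of_pos (by linarith [(ha i).2])]
    have h2 := Summable.summable_log_norm_one_add (f := fun i => (‖a i‖ : ℝ) - 1) h1
    refine h2.congr (fun i => ?_)
    simp
  refine ⟨∏' i, ‖a i‖, ?_, ?_, ?_⟩
  · rw [← Real.rexp_tsum_eq_tprod (fun i => norm_pos_iff.mpr (ha i).1) hlog]
    exact Real.exp_pos _
  · simp_rw [h0]
    exact (hmul.hasProd.map Complex.ofRealHom Complex.continuous_ofReal).tprod_eq
  · rw [← Real.rexp_tsum_eq_tprod (fun i => norm_pos_iff.mpr (ha i).1) hlog]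
    apply Real.exp_le_exp.mpr
    rw [← tsum_neg]
    apply Summable.tsum_le_tsum _ hlog hs.neg
    intro i
    have := Real.log_le_sub_one_of_pos (norm_pos_iff.mpr (ha i).1)
    linarith

end Pool.Agent.R260.Bp
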