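import Pool.Agent.R260.BpA

set_option autoImplicit false

open Filter Set Topology Metric

namespace Pool.Agent.R260.Bp

lemma HasForm.norm_le {F : ℂ → ℂ} {θ : ℝ} {m : ℕ} {ι : Type} {a : ι → ℂ} (h : HasForm F θ m ι a)
    (hne : 1 ≤ m ∨ Nonempty ι) (z : ℂ) (hz : z ∈ ball (0:ℂ) 1) : F z ∈ ball (0:ℂ) 1 := by
  obtain ⟨ha, hs, hF⟩ := h
  rw [mem_ball_zero_iff]
  have hz' : ‖z‖ < 1 := by rwa [mem_ball_zero_iff] at hz
  have hm := (mult_blF a ha hs z hz')
  rw [hF z hz, norm_mul, norm_mul, Complex.norm_exp_ofReal_mul_I, one_mul, norm_pow, hm.norm_tprod]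
  have hle : ∀ i, ‖blF (a i) z‖ ≤ 1 := fun i => (blF_norm _ _ (ha i).1 (ha i).2 hz').le
  have h1 : ∏' i, ‖blF (a i) z‖ ≤ 1 := by
    apply le_of_tendsto hm.norm.hasProd
    filter_upwards with s
    exact Finset.prod_le_one (fun i _ => norm_nonneg _) (fun i _ => hle i)
  have h0 : 0 ≤ ∏' i, ‖blF (a i) z‖ := by
    apply ge_of_tendsto hm.norm.hasProd
    filter_upwards with s
    exact Finset.prod_nonneg (fun i _ => norm_nonneg _)
  have hzm : ‖z‖ ^ m ≤ 1 := pow_le_one₀ (norm_nonneg _) hz'.le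
  rcases hne with hne | ⟨⟨i0⟩⟩
  · have : ‖z‖ ^ m < 1 := pow_lt_one₀ (norm_nonneg _) hz' (by omega)
    calc ‖z‖ ^ m * ∏' i, ‖blF (a i) z‖ ≤ ‖z‖ ^ m * 1 := by gcongr
      _ < 1 := by linarith
  · have h2 : ∏' i, ‖blF (a i) z‖ ≤ ‖blF (a i0) z‖ := by
      classical
      apply le_of_tendsto hm.norm.hasProd
      have : ∀ᶠ s : Finset ι in atTop, i0 ∈ s := by
        filter_upwards [eventually_ge_atTop {i0}] with s hs
        exact hs (Finset.mem_singleton_self i0)
      filter_upwards [this] with s hs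
      rw [← Finset.mul_prod_erase s _ hs]
      have h3 : ∏ i ∈ s.erase i0, ‖blF (a i) z‖ ≤ 1 :=
        Finset.prod_le_one (fun i _ => norm_nonneg _) (fun i _ => hle i)
      calc ‖blF (a i0) z‖ * ∏ i ∈ s.erase i0, ‖blF (a i) z‖ ≤ ‖blF (a i0) z‖ * 1 := by gcongr
        _ = _ := mul_one _
    have h3 := blF_norm (a i0) z (ha i0).1 (ha i0).2 hz'
    calc ‖z‖ ^ m * ∏' i, ‖blF (a i) z‖ ≤ 1 * ∏' i, ‖blF (a i) z‖ := by gcongr
      _ < 1 := by linarith

lemma HasForm.exists_zero {F : ℂ → ℂ} {θ : ℝ} {m : ℕ} {ι : Type} {a : ι → ℂ}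
    (h : HasForm F θ m ι a) (hne : 1 ≤ m ∨ Nonempty ι) : ∃ z ∈ ball (0:ℂ) 1, F z = 0 := by
  obtain ⟨ha, hs, hF⟩ := h
  rcases hne with hne | ⟨⟨i0⟩⟩
  · refine ⟨0, by simp, ?_⟩
    rw [hF 0 (by simp), zero_pow (by omega)]; simp
  · have hmem : a i0 ∈ ball (0:ℂ) 1 := by rw [mem_ball_zero_iff]; exact (ha i0).2
    refine ⟨a i0, hmem, ?_⟩
    rw [hF _ hmem]
    have h0 : blF (a i0) (a i0) = 0 := by unfold blF; simp
    have : ∏' i, blF (a i) (a i0) = 0 := tprod_of_exists_eq_zero ⟨i0, h0⟩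
    rw [this, mul_zero]

lemma HasForm.exists_ne {F : ℂ → ℂ} {θ : ℝ} {m : ℕ} {ι : Type} {a : ι → ℂ} [Countable ι]
    (h : HasForm F θ m ι a) : ∃ z ∈ ball (0:ℂ) 1, F z ≠ 0 := by
  obtain ⟨ha, hs, hF⟩ := h
  have hc : ({0} ∪ range a : Set ℂ).Countable := (countable_singleton 0).union (countable_range a)
  obtain ⟨z, hz, hz2⟩ : ∃ z ∈ ball (0:ℂ) 1, z ∉ ({0} ∪ range a : Set ℂ) := by
    by_contra hcon
    push Not at hcon
    have h1 : (ball (0:ℂ) 1).Countable := hc.mono hcon
    have h2 : ((fun x : ℝ => (x:ℂ)) ⁻¹' (ball (0:ℂ) 1)).Countable :=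
      h1.preimage Complex.ofReal_injective
    have h3 : (Ioo (0:ℝ) 1).Countable := by
      apply h2.mono
      intro x hx
      simp only [mem_preimage, mem_ball_zero_iff, Complex.norm_real, Real.norm_eq_abs]
      rw [abs_of_pos hx.1]; exact hx.2
    have h4 := Cardinal.mk_Ioo_real (show (0:ℝ) < 1 by norm_num)
    have h5 : Cardinal.mk (Ioo (0:ℝ) 1) ≤ Cardinal.aleph0 := Cardinal.mk_le_aleph0_iff.mpr h3
    rw [h4] at h5
    exact absurd h5 (not_le.mpr Cardinal.aleph0_lt_continuum)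
  refine ⟨z, hz, ?_⟩
  have hz' : ‖z‖ < 1 := by rwa [mem_ball_zero_iff] at hz
  rw [hF z hz]
  have hz0 : z ≠ 0 := by rintro rfl; exact hz2 (Or.inl rfl)
  have hp : ∏' i, blF (a i) z ≠ 0 := by
    have h1 := tprod_one_add_ne_zero_of_summable (f := fun i => blF (a i) z - 1) (by
      intro i
      have h2 : (1:ℂ) + (blF (a i) z - 1) = blF (a i) z := by ring
      rw [h2]
      unfold blF
      have hd := den_ne (a i) z (ha i).2 hz'
      have h3 : a i - z ≠ 0 := by
        intro h0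
        have : a i = z := by linear_combination h0
        exact hz2 (Or.inr ⟨i, this⟩)
      have h4 : ((‖a i‖ : ℝ) : ℂ) ≠ 0 := by
        exact_mod_cast (norm_ne_zero_iff.mpr (ha i).1)
      exact mul_ne_zero (div_ne_zero h4 (ha i).1) (div_ne_zero h3 hd))
      (summ_blF a ha hs z hz')
    simpa using h1
  exact mul_ne_zero (mul_ne_zero (Complex.exp_ne_zero _) (pow_ne_zero _ hz0)) hp

lemma HasForm.nonconst_iff {F : ℂ → ℂ} {θ : ℝ} {m : ℕ} {ι : Type} {a : ι → ℂ} [Countable ι]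
    (h : HasForm F θ m ι a) :
    (¬ ∃ c : ℂ, ∀ z ∈ ball (0:ℂ) 1, F z = c) ↔ (1 ≤ m ∨ Nonempty ι) := by
  constructor
  · intro hnc
    by_contra hcon
    push Not at hcon
    obtain ⟨hm, hι⟩ := hcon
    apply hnc
    refine ⟨Complex.exp (θ * Complex.I), ?_⟩
    intro z hz
    rw [h.2.2 z hz]
    have hm0 : m = 0 := by omega
    rw [hm0, tprod_empty]; simp
  · rintro hne ⟨c, hc⟩
    obtain ⟨z, hz, hz0⟩ := h.exists_zero hne
    obtain ⟨w, hw, hw0⟩ := h.exists_ne
    rw [hc z hz] at hz0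
    rw [hc w hw] at hw0
    exact hw0 hz0

/-- infinite products of Blaschke products -/
lemma prod_form {J : Type} (F : J → ℂ → ℂ) (θ : J → ℝ) (m : J → ℕ) (I : J → Type)
    (a : ∀ j, I j → ℂ) (hF : ∀ j, HasForm (F j) (θ j) (m j) (I j) (a j))
    (hsum : ∀ z ∈ ball (0:ℂ) 1, Summable (fun j => ‖F j z - 1‖)) :
    ∃ (Θ : ℝ) (M : ℕ), (∀ j, 1 ≤ m j → 1 ≤ M) ∧
      HasForm (fun z => ∏' j, F j z) Θ M (Σ j, I j) (fun p => a p.1 p.2) := by
  classical
  have h0mem : (0:ℂ) ∈ ball (0:ℂ) 1 := by simp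
  have hs0 := hsum 0 h0mem
  -- the exceptional finite set
  have hfin : {j | ¬ ‖F j 0 - 1‖ < 1/2}.Finite := by
    have h1 := hs0.tendsto_cofinite_zero
    have h2 : ∀ᶠ j in cofinite, ‖F j 0 - 1‖ < 1/2 := (tendsto_order.1 h1).2 _ (by norm_num)
    rw [eventually_cofinite] at h2
    exact h2
  set S0 : Finset J := hfin.toFinset with hS0
  have hnot : ∀ j, j ∉ S0 → ‖F j 0 - 1‖ < 1/2 := by
    intro j hj
    rw [hS0, Set.Finite.mem_toFinset] at hj
    by_contra hcon
    exact hj hcon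
  have hm0 : ∀ j, j ∉ S0 → m j = 0 := by
    intro j hj
    by_contra hne
    have h1 := hnot j hj
    rw [(hF j).2.2 0 h0mem, zero_pow hne] at h1
    simp at h1
    norm_num at h1
  choose P hP0 hP1 hP2 using fun j => prod_zero (a j) (hF j).1 (hF j).2.1
  have hF0 : ∀ j, j ∉ S0 → F j 0 = Complex.exp (θ j * Complex.I) * (P j : ℂ) := by
    intro j hj
    rw [(hF j).2.2 0 h0mem, hm0 j hj, pow_zero, mul_one, hP1 j]
  have hFn : ∀ j, j ∉ S0 → ‖F j 0‖ = P j := by
    intro j hj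
    rw [hF0 j hj, norm_mul, Complex.norm_exp_ofReal_mul_I, one_mul, Complex.norm_real,
      Real.norm_eq_abs, abs_of_pos (hP0 j)]
  have hdiff : ∀ j, j ∉ S0 → |1 - P j| ≤ ‖F j 0 - 1‖ := by
    intro j hj
    rw [← hFn j hj]
    have := abs_norm_sub_norm_le (F j 0) 1
    rw [norm_one, abs_sub_comm] at this
    exact this
  have hPhalf : ∀ j, j ∉ S0 → 1/2 < P j := by
    intro j hj
    have h1 := hdiff j hj
    have h2 := hnot j hj
    have := le_abs_self (1 - P j)
    linarith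
  -- summability of the sums
  have hsj : Summable (fun j => ∑' i, (1 - ‖a j i‖)) := by
    apply Summable.of_norm_bounded_eventually (hs0.mul_left 2)
    have : ∀ᶠ j in cofinite, j ∉ S0 := by
      rw [eventually_cofinite]
      apply (Finset.finite_toSet S0).subset
      intro j hj; simpa using hj
    filter_upwards [this] with j hj
    have hnn : 0 ≤ ∑' i, (1 - ‖a j i‖) := tsum_nonneg (fun i => by linarith [((hF j).1 i).2])
    rw [Real.norm_eq_abs, abs_of_nonneg hnn]
    have h1 := hP2 j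
    have h2 := hPhalf j hj
    have h3 := hdiff j hj
    have h4 : ∑' i, (1 - ‖a j i‖) ≤ - Real.log (P j) := by
      have := Real.log_le_log (hP0 j) h1
      rw [Real.log_exp] at this
      linarith
    have h5 : - Real.log (P j) ≤ 2 * |1 - P j| := by
      have h6 := Real.log_le_sub_one_of_pos (inv_pos.mpr (hP0 j))
      rw [Real.log_inv] at h6
      have h7 : (P j)⁻¹ - 1 ≤ 2 * |1 - P j| := by
        have e : (P j)⁻¹ - 1 = (1 - P j) / P j := by
          have := (hP0 j).ne'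
          field_simp
        rw [e, div_le_iff₀ (hP0 j)]
        have h8 := le_abs_self (1 - P j)
        have h9 := abs_nonneg (1 - P j)
        nlinarith
      linarith
    linarith
  have hall : ∀ p : (Σ j, I j), a p.1 p.2 ≠ 0 ∧ ‖a p.1 p.2‖ < 1 := fun p => (hF p.1).1 p.2
  have hsig : Summable (fun p : (Σ j, I j) => 1 - ‖a p.1 p.2‖) := by
    rw [summable_sigma_of_nonneg (fun p => by linarith [(hall p).2])]
    exact ⟨fun j => (hF j).2.1, hsj⟩
  -- the phases
  have hph : Summable (fun j => ‖Complex.exp (θ j * Complex.I) - 1‖) := by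
    apply Summable.of_norm_bounded_eventually (hs0.mul_left 2)
    have : ∀ᶠ j in cofinite, j ∉ S0 := by
      rw [eventually_cofinite]
      apply (Finset.finite_toSet S0).subset
      intro j hj; simpa using hj
    filter_upwards [this] with j hj
    rw [norm_norm]
    have h1 := hF0 j hj
    have h2 := hdiff j hj
    have h3 : Complex.exp (θ j * Complex.I) - 1
        = Complex.exp (θ j * Complex.I) * ((1 - P j : ℝ) : ℂ) + (F j 0 - 1) := by
      rw [h1]; push_cast; ring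
    rw [h3]
    refine (norm_add_le _ _).trans ?_
    rw [norm_mul, Complex.norm_exp_ofReal_mul_I, one_mul, Complex.norm_real, Real.norm_eq_abs]
    linarith
  have hphm : Multipliable (fun j => Complex.exp (θ j * Complex.I)) := by
    have := multipliable_one_add_of_summable hph
    simpa using this
  set E : ℂ := ∏' j, Complex.exp (θ j * Complex.I) with hE
  have hEn : ‖E‖ = 1 := by
    rw [hE, hphm.norm_tprod]
    simp_rw [Complex.norm_exp_ofReal_mul_I]
    exact tprod_one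
  refine ⟨E.arg, ∑ j ∈ S0, m j, ?_, hall, hsig, ?_⟩
  · intro j hj
    have hjS : j ∈ S0 := by
      by_contra hcon
      have := hm0 j hcon
      omega
    exact hj.trans (Finset.single_le_sum (f := m) (fun i _ => Nat.zero_le _) hjS)
  · intro z hz
    have hz' : ‖z‖ < 1 := by rwa [mem_ball_zero_iff] at hz
    have hEarg : Complex.exp (E.arg * Complex.I) = E := by
      have := Complex.norm_mul_exp_arg_mul_I E
      rw [hEn] at this
      simpa using this
    have hz1 : HasProd (fun j => z ^ m j) (z ^ ∑ j ∈ S0, m j) := by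
      rw [← Finset.prod_pow_eq_pow_sum]
      apply hasProd_prod_of_ne_finset_one
      intro j hj
      rw [hm0 j hj, pow_zero]
    have hz2 : HasProd (fun j => ∏' i, blF (a j i) z) (∏' p : (Σ j, I j), blF (a p.1 p.2) z) := by
      apply HasProd.sigma (mult_blF (fun p : (Σ j, I j) => a p.1 p.2) hall hsig z hz').hasProd
      intro j
      exact (mult_blF (a j) (hF j).1 (hF j).2.1 z hz').hasProd
    have hz3 := (hphm.hasProd.mul hz1).mul hz2
    have hz4 : (fun j => Complex.exp (θ j * Complex.I) * z ^ m j * ∏' i, blF (a j i) z)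
        = fun j => F j z := by
      ext j
      exact ((hF j).2.2 z hz).symm
    rw [hz4] at hz3
    show ∏' j, F j z = _
    rw [hEarg, hz3.tprod_eq]

/-- `autT` composed with a Blaschke factor relation -/
lemma blF_eq_autT (a w : ℂ) (ha : a ≠ 0) : blF a w = autT (-((‖a‖:ℂ) / a)).arg a w := by
  unfold blF autT
  have h1 : ‖-((‖a‖:ℂ) / a)‖ = 1 := by
    rw [norm_neg, norm_div, Complex.norm_real, norm_norm, div_self (norm_ne_zero_iff.mpr ha)]
  have h2 := Complex.norm_mul_exp_arg_mul_I (-((‖a‖:ℂ) / a))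
  rw [h1] at h2
  simp only [Complex.ofReal_one, one_mul] at h2
  rw [h2]
  ring

lemma comp_blaschke (B C : ℂ → ℂ) (hB : IsBlaschke B) (hC : Indestructible C) :
    IsBlaschke (fun z => B (C z)) := by
  obtain ⟨hBnc, θ, m, ι, a, hι, hBf⟩ := hB
  obtain ⟨hCB, hCT⟩ := hC
  have hBne := hBf.nonconst_iff.mp hBnc
  -- C maps the disc to itself
  have hCmap : ∀ z ∈ ball (0:ℂ) 1, C z ∈ ball (0:ℂ) 1 := by
    obtain ⟨hnc, θ', m', ι', a', hι', hf⟩ := hCB
    exact fun z hz => hf.norm_le (hf.nonconst_iff.mp hnc) z hz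
  -- the family of factors
  set F : (Fin m ⊕ ι) → ℂ → ℂ := Sum.elim (fun _ => C) (fun i z => blF (a i) (C z)) with hFdef
  have hFB : ∀ j, IsBlaschke (F j) := by
    rintro (j | i)
    · exact hCB
    · have h1 := hCT (-((‖a i‖:ℂ) / a i)).arg (a i) (hBf.1 i).2
      have h2 : F (Sum.inr i) = fun z => autT (-((‖a i‖:ℂ) / a i)).arg (a i) (C z) := by
        ext z
        simp only [hFdef, Sum.elim_inr]
        exact blF_eq_autT (a i) (C z) (hBf.1 i).1
      rw [h2]; exact h1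
  choose hnc θ' m' I' a' hc hf using hFB
  have hne : ∀ j, 1 ≤ m' j ∨ Nonempty (I' j) := fun j => by
    have := hc j
    exact (hf j).nonconst_iff.mp (hnc j)
  have hsum : ∀ z ∈ ball (0:ℂ) 1, Summable (fun j => ‖F j z - 1‖) := by
    intro z hz
    apply Summable.sum
    · exact (hasSum_fintype _).summable
    · exact summ_blF a hBf.1 hBf.2.1 (C z) (by have := hCmap z hz; rwa [mem_ball_zero_iff] at this)
  obtain ⟨Θ, M, hM, hform⟩ := prod_form F θ' m' I' a' hf hsum
  have hJ : Nonempty (Fin m ⊕ ι) := by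
    rcases hBne with h | ⟨⟨i⟩⟩
    · exact ⟨Sum.inl ⟨0, by omega⟩⟩
    · exact ⟨Sum.inr i⟩
  have hform2 : HasForm (fun z => B (C z)) (θ + Θ) M (Σ j, I' j) (fun p => a' p.1 p.2) := by
    refine ⟨hform.1, hform.2.1, ?_⟩
    intro z hz
    have h1 := hform.2.2 z hz
    have hCz := hCmap z hz
    have hCz' : ‖C z‖ < 1 := by rwa [mem_ball_zero_iff] at hCz
    have h2 : HasProd (fun j => F j z) ((C z) ^ m * ∏' i, blF (a i) (C z)) := by
      apply HasProd.sum
      · have : (C z) ^ m = ∏ j : Fin m, C z := by simp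
        rw [this]
        exact hasProd_fintype _
      · exact (mult_blF a hBf.1 hBf.2.1 (C z) hCz').hasProd
    show B (C z) = _
    have h1' : ∏' j, F j z = _ := h1
    rw [hBf.2.2 (C z) hCz, mul_assoc, ← h2.tprod_eq, h1']
    push_cast
    rw [add_mul, Complex.exp_add]
    ring
  have hcount : Countable (Σ j, I' j) := by
    have := hc
    infer_instance
  refine ⟨?_, θ + Θ, M, (Σ j, I' j), fun p => a' p.1 p.2, hcount, hform2⟩
  rw [hform2.nonconst_iff]
  obtain ⟨j⟩ := hJ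
  rcases hne j with h | ⟨⟨i⟩⟩
  · exact Or.inl (hM j h)
  · exact Or.inr ⟨⟨j, i⟩⟩

end Pool.Agent.R260.Bp
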