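import Mathlib

set_option autoImplicit false

open Filter Set Topology

namespace Pool.Agent.R260.Co

/-- Kummer's function `M(a,b,z) = ∑ (a)_k/(b)_k z^k/k!`. -/
noncomputable def kummerM (a b z : ℂ) : ℂ :=
  ∑' k : ℕ, (ascPochhammer ℂ k).eval a / (ascPochhammer ℂ k).eval b * z ^ k / (k.factorial : ℂ)

/-- The regular Coulomb wave function. -/
noncomputable def coulombF (L η ρ : ℝ) : ℂ :=
  ((2 ^ L * Real.exp (-(Real.pi * η) / 2) * ‖Complex.Gamma (L + 1 + Complex.I * η)‖ /
      Real.Gamma (2 * L + 2) : ℝ) : ℂ) * ((ρ ^ (L + 1) : ℝ) : ℂ) * Complex.exp (-(Complex.I * ρ)) *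
    kummerM (L + 1 - Complex.I * η) (2 * L + 2) (2 * Complex.I * ρ)

/-- `ρ` is the `n`-th positive zero of `F_{L,η}`. -/
def IsNthZero (L η : ℝ) (n : ℕ) (ρ : ℝ) : Prop :=
  0 < ρ ∧ coulombF L η ρ = 0 ∧ {x : ℝ | 0 < x ∧ x < ρ ∧ coulombF L η x = 0}.Finite ∧
    {x : ℝ | 0 < x ∧ x < ρ ∧ coulombF L η x = 0}.ncard + 1 = n

lemma coulombF_zero_iff (L η ρ : ℝ) (hL : -1 < L) (hρ : 0 < ρ) :
    coulombF L η ρ = 0 ↔ kummerM (L + 1 - Complex.I * η) (2 * L + 2) (2 * Complex.I * ρ) = 0 := by
  unfold coulombF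
  have h1 : Complex.Gamma (L + 1 + Complex.I * η) ≠ 0 := by
    apply Complex.Gamma_ne_zero_of_re_pos
    simp; linarith
  have h2 : 0 < Real.Gamma (2 * L + 2) := Real.Gamma_pos_of_pos (by linarith)
  have h3 : (2 ^ L * Real.exp (-(Real.pi * η) / 2) * ‖Complex.Gamma (L + 1 + Complex.I * η)‖ /
      Real.Gamma (2 * L + 2) : ℝ) ≠ 0 := by
    have : 0 < ‖Complex.Gamma (L + 1 + Complex.I * η)‖ := norm_pos_iff.mpr h1
    positivity
  have h4 : (ρ ^ (L + 1) : ℝ) ≠ 0 := by positivity
  rw [mul_eq_zero, mul_eq_zero, mul_eq_zero]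
  simp only [Complex.ofReal_eq_zero, h3, h4, Complex.exp_ne_zero, false_or]

/-- the coefficient identity behind `M = e^{iρ} Φ` -/
lemma coeff_ident (a b : ℂ) (η : ℂ) (hb : ∀ n : ℕ, b + n ≠ 0) (hab : b - 2 * a = 2 * Complex.I * η)
    (c : ℕ → ℂ) (hc0 : c 0 = 1) (hc1 : b * c 1 = 2 * η * c 0)
    (hc : ∀ n : ℕ, ((n:ℂ) + 2) * (n + 1 + b) * c (n + 2) = 2 * η * c (n + 1) - c n) (k : ℕ) :
    (ascPochhammer ℂ k).eval a / (ascPochhammer ℂ k).eval b * (2 * Complex.I) ^ k /
      (k.factorial : ℂ) = ∑ p ∈ Finset.HasAntidiagonal.antidiagonal k, Complex.I ^ p.1 / (p.1.factorial : ℂ) * c p.2 := by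
  set E : PowerSeries ℂ := PowerSeries.mk (fun n => Complex.I ^ n / (n.factorial : ℂ)) with hE
  set Φ : PowerSeries ℂ := PowerSeries.mk c with hΦ
  set D := PowerSeries.derivative ℂ with hD
  have hDE : D E = PowerSeries.C Complex.I * E := by
    ext n
    rw [hD, PowerSeries.coeff_derivative, PowerSeries.coeff_C_mul, hE, PowerSeries.coeff_mk,
      PowerSeries.coeff_mk, Nat.factorial_succ]
    have : ((n:ℂ) + 1) ≠ 0 := Nat.cast_add_one_ne_zero n
    have h2 : ((n.factorial : ℕ) : ℂ) ≠ 0 := by exact_mod_cast Nat.factorial_ne_zero n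
    push_cast
    field_simp
    ring
  have hODE : PowerSeries.X * D (D Φ) + PowerSeries.C b * D Φ
      + (PowerSeries.X - PowerSeries.C (2 * η)) * Φ = 0 := by
    ext n
    rw [map_add, map_add, sub_mul, map_sub, PowerSeries.coeff_C_mul, PowerSeries.coeff_C_mul]
    rcases n with _ | n
    · rw [PowerSeries.coeff_zero_X_mul, PowerSeries.coeff_zero_X_mul, hD,
        PowerSeries.coeff_derivative, hΦ, PowerSeries.coeff_mk, PowerSeries.coeff_mk]
      simp only [map_zero]
      push_cast
      linear_combination hc1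
    · rw [PowerSeries.coeff_succ_X_mul, PowerSeries.coeff_succ_X_mul, hD,
        PowerSeries.coeff_derivative, PowerSeries.coeff_derivative,
        hΦ, PowerSeries.coeff_mk, PowerSeries.coeff_mk, PowerSeries.coeff_mk]
      have := hc n
      simp only [map_zero]
      push_cast
      linear_combination this
  set Y := E * Φ with hY
  have hD1 : D Y = E * (D Φ + PowerSeries.C Complex.I * Φ) := by
    rw [hY, Derivation.leibniz, hDE, smul_eq_mul, smul_eq_mul]; ring
  have hD2 : D (D Y) = E * (D (D Φ) + PowerSeries.C (2 * Complex.I) * D Φ - Φ) := by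
    rw [hD1, Derivation.leibniz, map_add, Derivation.leibniz, hDE]
    have hDC : D (PowerSeries.C Complex.I) = 0 := by
      ext n
      rw [hD, PowerSeries.coeff_derivative, PowerSeries.coeff_C]
      simp
    rw [hDC]
    simp only [smul_eq_mul, mul_zero, add_zero]
    have hI : PowerSeries.C Complex.I * PowerSeries.C Complex.I = (-1 : PowerSeries ℂ) := by
      rw [← map_mul, Complex.I_mul_I]; simp
    have h2I : PowerSeries.C (2 * Complex.I) = 2 * PowerSeries.C Complex.I := by
      rw [map_mul, map_ofNat]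
    rw [h2I]
    linear_combination (E * Φ) * hI
  have hYODE : PowerSeries.X * D (D Y) + (PowerSeries.C b - PowerSeries.C (2 * Complex.I) *
      PowerSeries.X) * D Y - PowerSeries.C (2 * Complex.I * a) * Y = 0 := by
    rw [hD2, hD1, hY]
    have hI : PowerSeries.C Complex.I * PowerSeries.C Complex.I = (-1 : PowerSeries ℂ) := by
      rw [← map_mul, Complex.I_mul_I]; simp
    have h2I : PowerSeries.C (2 * Complex.I) = 2 * PowerSeries.C Complex.I := by
      rw [map_mul, map_ofNat]
    have h2Ia : PowerSeries.C (2 * Complex.I * a) = 2 * PowerSeries.C Complex.I * PowerSeries.C a := by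
      rw [map_mul, h2I]
    have h2η : PowerSeries.C (2 * η) = 2 * (PowerSeries.C η : PowerSeries ℂ) := by
      rw [map_mul, map_ofNat]
    have hab' : PowerSeries.C b - 2 * PowerSeries.C a
        = 2 * PowerSeries.C Complex.I * (PowerSeries.C η : PowerSeries ℂ) := by
      have := congrArg (PowerSeries.C (R := ℂ)) hab
      rw [map_sub, map_mul, map_mul, map_mul, map_ofNat] at this
      exact this
    rw [h2I, h2Ia]
    rw [h2η] at hODE
    linear_combination E * hODE + (E * Φ * PowerSeries.C Complex.I) * hab'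
      + (-2 * PowerSeries.X * E * Φ + 2 * PowerSeries.C η * E * Φ) * hI
  have hrec : ∀ n : ℕ, ((n:ℂ) + 1) * (n + b) * PowerSeries.coeff (n + 1) Y
      = 2 * Complex.I * (n + a) * PowerSeries.coeff n Y := by
    intro n
    have h := congrArg (PowerSeries.coeff n) hYODE
    rw [sub_mul, mul_assoc (PowerSeries.C (2 * Complex.I))] at h
    rw [map_sub, map_add, map_sub, PowerSeries.coeff_C_mul, PowerSeries.coeff_C_mul,
      PowerSeries.coeff_C_mul, map_zero] at h
    rcases n with _ | n
    · rw [PowerSeries.coeff_zero_X_mul, PowerSeries.coeff_zero_X_mul, hD,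
        PowerSeries.coeff_derivative] at h
      push_cast at h ⊢
      linear_combination h
    · rw [PowerSeries.coeff_succ_X_mul, PowerSeries.coeff_succ_X_mul, hD,
        PowerSeries.coeff_derivative, PowerSeries.coeff_derivative,
        PowerSeries.coeff_derivative] at h
      push_cast at h ⊢
      linear_combination h
  have hY0 : PowerSeries.coeff 0 Y = 1 := by
    rw [hY, PowerSeries.coeff_mul]
    simp [hE, hΦ, hc0]
  have hfin : ∀ k, (ascPochhammer ℂ k).eval a / (ascPochhammer ℂ k).eval b * (2 * Complex.I) ^ k /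
      (k.factorial : ℂ) = PowerSeries.coeff k Y := by
    intro k
    induction k with
    | zero => rw [hY0]; simp
    | succ n ih =>
      have h1 := hrec n
      rw [← ih] at h1
      have hn1 : ((n:ℂ) + 1) ≠ 0 := Nat.cast_add_one_ne_zero n
      have hnb : (n:ℂ) + b ≠ 0 := by rw [add_comm]; exact hb n
      rw [ascPochhammer_succ_eval, ascPochhammer_succ_eval, Nat.factorial_succ, pow_succ]
      have hf : ((n.factorial : ℕ) : ℂ) ≠ 0 := by exact_mod_cast Nat.factorial_ne_zero n
      have hp : (ascPochhammer ℂ n).eval b ≠ 0 := by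
        have : ∀ m : ℕ, (ascPochhammer ℂ m).eval b ≠ 0 := by
          intro m
          induction m with
          | zero => simp
          | succ m ihm => rw [ascPochhammer_succ_eval]; exact mul_ne_zero ihm (hb m)
        exact this n
      have h2 : PowerSeries.coeff (n + 1) Y = (2 * Complex.I * (n + a) *
          ((ascPochhammer ℂ n).eval a / (ascPochhammer ℂ n).eval b * (2 * Complex.I) ^ n /
          (n.factorial : ℂ))) / (((n:ℂ) + 1) * (n + b)) := by
        rw [← h1]; field_simp
      rw [h2]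
      have hbn := hb n
      push_cast
      field_simp
      ring
  rw [hfin k, hY, PowerSeries.coeff_mul]
  simp [hE, hΦ]

end Pool.Agent.R260.Co
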