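import Pool.Agent.R260.CoA

set_option autoImplicit false

open Filter Set Topology

namespace Pool.Agent.R260.Co

/-- the real power series coefficients -/
noncomputable def cs (L η : ℝ) : ℕ → ℝ
  | 0 => 1
  | 1 => η / (L + 1)
  | (n + 2) => (2 * η * cs L η (n + 1) - cs L η n) / (((n:ℝ) + 2) * ((n:ℝ) + 3 + 2 * L))

lemma step (L η : ℝ) (k : ℕ) (x y : ℝ) (h1 : cs L η (k + 1) = x) (h0 : cs L η k = y) :
    cs L η (k + 2) = (2 * η * x - y) / (((k:ℝ) + 2) * ((k:ℝ) + 3 + 2 * L)) := by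
  rw [cs, h1, h0]

lemma cs_one :
    cs (-99/100) (1/10) 0 = (1) ∧
    cs (-99/100) (1/10) 1 = (10) ∧
    cs (-99/100) (1/10) 2 = (25/51) ∧
    cs (-99/100) (1/10) 3 = (-250/153) ∧
    cs (-99/100) (1/10) 4 = (-3125/46206) ∧
    cs (-99/100) (1/10) 5 = (374375/4643703) ∧
    cs (-99/100) (1/10) 6 = (19446875/6993416718) ∧
    cs (-99/100) (1/10) 7 = (-13997984375/7367564512413) ∧
    cs (-99/100) (1/10) 8 = (-89564921875/1591393934681208) ∧
    cs (-99/100) (1/10) 9 = (187384765625/7161272706065436) ∧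
    cs (-99/100) (1/10) 10 = (4405191015625/6459467980871023272) ∧
    cs (-99/100) (1/10) 11 = (-4203500509765625/17799064021290104625996) ∧
    cs (-99/100) (1/10) 12 = (-648960197275390625/117687411308770171787085552) ∧
    cs (-99/100) (1/10) 13 = (98799119039697265625/65677981753958668012321386984) := by
  have h0 : cs (-99/100) (1/10) 0 = 1 := by simp [cs]
  have h1 : cs (-99/100) (1/10) 1 = (10) := by simp only [cs]; norm_num
  have h2 : cs (-99/100) (1/10) 2 = (25/51) :=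
    (step (-99/100) (1/10) 0 _ _ h1 h0).trans (by norm_num)
  have h3 : cs (-99/100) (1/10) 3 = (-250/153) :=
    (step (-99/100) (1/10) 1 _ _ h2 h1).trans (by norm_num)
  have h4 : cs (-99/100) (1/10) 4 = (-3125/46206) :=
    (step (-99/100) (1/10) 2 _ _ h3 h2).trans (by norm_num)
  have h5 : cs (-99/100) (1/10) 5 = (374375/4643703) :=
    (step (-99/100) (1/10) 3 _ _ h4 h3).trans (by norm_num)
  have h6 : cs (-99/100) (1/10) 6 = (19446875/6993416718) :=
    (step (-99/100) (1/10) 4 _ _ h5 h4).trans (by norm_num)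
  have h7 : cs (-99/100) (1/10) 7 = (-13997984375/7367564512413) :=
    (step (-99/100) (1/10) 5 _ _ h6 h5).trans (by norm_num)
  have h8 : cs (-99/100) (1/10) 8 = (-89564921875/1591393934681208) :=
    (step (-99/100) (1/10) 6 _ _ h7 h6).trans (by norm_num)
  have h9 : cs (-99/100) (1/10) 9 = (187384765625/7161272706065436) :=
    (step (-99/100) (1/10) 7 _ _ h8 h7).trans (by norm_num)
  have h10 : cs (-99/100) (1/10) 10 = (4405191015625/6459467980871023272) :=
    (step (-99/100) (1/10) 8 _ _ h9 h8).trans (by norm_num)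
  have h11 : cs (-99/100) (1/10) 11 = (-4203500509765625/17799064021290104625996) :=
    (step (-99/100) (1/10) 9 _ _ h10 h9).trans (by norm_num)
  have h12 : cs (-99/100) (1/10) 12 = (-648960197275390625/117687411308770171787085552) :=
    (step (-99/100) (1/10) 10 _ _ h11 h10).trans (by norm_num)
  have h13 : cs (-99/100) (1/10) 13 = (98799119039697265625/65677981753958668012321386984) :=
    (step (-99/100) (1/10) 11 _ _ h12 h11).trans (by norm_num)
  exact ⟨h0, h1, h2, h3, h4, h5, h6, h7, h8, h9, h10, h11, h12, h13⟩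

lemma cs_two :
    cs (-3/4) (1/10) 0 = (1) ∧
    cs (-3/4) (1/10) 1 = (2/5) ∧
    cs (-3/4) (1/10) 2 = (-23/75) ∧
    cs (-3/4) (1/10) 3 = (-346/5625) ∧
    cs (-3/4) (1/10) 4 = (8279/393750) ∧
    cs (-3/4) (1/10) 5 = (129379/44296875) ∧
    cs (-3/4) (1/10) 6 = (-9055117/14617968750) ∧
    cs (-3/4) (1/10) 7 = (-222530467/3325587890625) ∧
    cs (-3/4) (1/10) 8 = (20155330241/1995352734375000) ∧
    cs (-3/4) (1/10) 9 = (40455690073/44895436523437500) ∧
    cs (-3/4) (1/10) 10 = (-4454037924079/42650664697265625000) ∧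
    cs (-3/4) (1/10) 11 = (-196618565770829/24630758862670898437500) ∧
    cs (-3/4) (1/10) 12 = (25328831880014567/33990447230485839843750000) ∧
    cs (-3/4) (1/10) 13 = (5595129294326861/111810681679229736328125000) := by
  have h0 : cs (-3/4) (1/10) 0 = 1 := by simp [cs]
  have h1 : cs (-3/4) (1/10) 1 = (2/5) := by simp only [cs]; norm_num
  have h2 : cs (-3/4) (1/10) 2 = (-23/75) :=
    (step (-3/4) (1/10) 0 _ _ h1 h0).trans (by norm_num)
  have h3 : cs (-3/4) (1/10) 3 = (-346/5625) :=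
    (step (-3/4) (1/10) 1 _ _ h2 h1).trans (by norm_num)
  have h4 : cs (-3/4) (1/10) 4 = (8279/393750) :=
    (step (-3/4) (1/10) 2 _ _ h3 h2).trans (by norm_num)
  have h5 : cs (-3/4) (1/10) 5 = (129379/44296875) :=
    (step (-3/4) (1/10) 3 _ _ h4 h3).trans (by norm_num)
  have h6 : cs (-3/4) (1/10) 6 = (-9055117/14617968750) :=
    (step (-3/4) (1/10) 4 _ _ h5 h4).trans (by norm_num)
  have h7 : cs (-3/4) (1/10) 7 = (-222530467/3325587890625) :=
    (step (-3/4) (1/10) 5 _ _ h6 h5).trans (by norm_num)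
  have h8 : cs (-3/4) (1/10) 8 = (20155330241/1995352734375000) :=
    (step (-3/4) (1/10) 6 _ _ h7 h6).trans (by norm_num)
  have h9 : cs (-3/4) (1/10) 9 = (40455690073/44895436523437500) :=
    (step (-3/4) (1/10) 7 _ _ h8 h7).trans (by norm_num)
  have h10 : cs (-3/4) (1/10) 10 = (-4454037924079/42650664697265625000) :=
    (step (-3/4) (1/10) 8 _ _ h9 h8).trans (by norm_num)
  have h11 : cs (-3/4) (1/10) 11 = (-196618565770829/24630758862670898437500) :=
    (step (-3/4) (1/10) 9 _ _ h10 h9).trans (by norm_num)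
  have h12 : cs (-3/4) (1/10) 12 = (25328831880014567/33990447230485839843750000) :=
    (step (-3/4) (1/10) 10 _ _ h11 h10).trans (by norm_num)
  have h13 : cs (-3/4) (1/10) 13 = (5595129294326861/111810681679229736328125000) :=
    (step (-3/4) (1/10) 11 _ _ h12 h11).trans (by norm_num)
  exact ⟨h0, h1, h2, h3, h4, h5, h6, h7, h8, h9, h10, h11, h12, h13⟩

lemma cs_bound (L η A : ℝ) (hL : -1 < L) (hη : |η| ≤ 1/10) (hA : 0 ≤ A) (N : ℕ) (hN : 8 ≤ N)
    (h0 : |cs L η N| ≤ A * (1/8)^N) (h1 : |cs L η (N+1)| ≤ A * (1/8)^(N+1)) (j : ℕ) :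
    |cs L η (N + j)| ≤ A * (1/8)^(N + j) := by
  induction j using Nat.twoStepInduction with
  | zero => exact h0
  | one => exact h1
  | more j ih1 ih2 =>
    have e : N + (j + 2) = (N + j) + 2 := by ring
    have e1 : N + (j + 1) = (N + j) + 1 := by ring
    rw [e1] at ih2
    rw [e, cs]
    have hNj : (8:ℝ) ≤ ((N + j : ℕ) : ℝ) := by exact_mod_cast (by omega : 8 ≤ N + j)
    set k : ℕ := N + j with hk
    have hden : 90 ≤ ((k:ℝ) + 2) * ((k:ℝ) + 3 + 2 * L) := by nlinarith
    rw [abs_div, abs_of_pos (by linarith : 0 < ((k:ℝ) + 2) * ((k:ℝ) + 3 + 2 * L)),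
      div_le_iff₀ (by linarith)]
    have hp : 0 < (1/8:ℝ)^k := by positivity
    have h3 : |2 * η * cs L η (k + 1) - cs L η k| ≤ 2 * (1/10) * (A * (1/8)^(k+1)) + A * (1/8)^k := by
      refine (abs_sub _ _).trans ?_
      rw [abs_mul, abs_mul, abs_two]
      gcongr
    refine h3.trans ?_
    have hAp : 0 ≤ A * (1/8)^k := by positivity
    have h4 : A * (1/8)^(k+2) * 90 ≤ A * (1/8)^(k+2) * (((k:ℝ) + 2) * ((k:ℝ) + 3 + 2 * L)) := by
      gcongr
    refine le_trans ?_ h4
    have h5 : A * (1/8:ℝ)^(k+2) = (A * (1/8)^k) / 64 := by rw [pow_add]; ring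
    have h6 : A * (1/8:ℝ)^(k+1) = (A * (1/8)^k) / 8 := by rw [pow_add]; ring
    rw [h5, h6]
    linarith

/-- the real power series -/
noncomputable def Phi (L η r : ℝ) : ℝ := ∑' k : ℕ, cs L η k * r ^ k

lemma cs_summ (L η A : ℝ) (N : ℕ) (hA : 0 ≤ A) (h : ∀ j, |cs L η (N + j)| ≤ A * (1/8)^(N + j))
    (r : ℝ) (hr0 : 0 ≤ r) (hr : r < 8) : Summable (fun k : ℕ => |cs L η k| * r ^ k) := by
  rw [← summable_nat_add_iff N]
  have hg : Summable (fun k : ℕ => A * (r/8)^(k + N)) := by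
    apply Summable.mul_left
    rw [summable_nat_add_iff N]
    exact summable_geometric_of_lt_one (by positivity) (by linarith)
  refine Summable.of_nonneg_of_le (fun k => by positivity) (fun k => ?_) hg
  have h1 := h k
  rw [add_comm N k] at h1
  calc |cs L η (k + N)| * r ^ (k + N) ≤ (A * (1/8)^(k + N)) * r ^ (k + N) := by gcongr
    _ = A * (r/8)^(k + N) := by rw [mul_assoc, ← mul_pow]; congr 2; ring

lemma Phi_tail (L η A : ℝ) (N : ℕ) (hA : 0 ≤ A) (h : ∀ j, |cs L η (N + j)| ≤ A * (1/8)^(N + j))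
    (r : ℝ) (hr0 : 0 ≤ r) (hr : r < 8) :
    |Phi L η r - ∑ k ∈ Finset.range N, cs L η k * r ^ k| ≤ A * (r/8)^N / (1 - r/8) := by
  have hs : Summable (fun k : ℕ => cs L η k * r ^ k) := by
    apply Summable.of_norm
    refine (cs_summ L η A N hA h r hr0 hr).congr (fun k => ?_)
    rw [norm_mul, Real.norm_eq_abs, norm_pow, Real.norm_eq_abs, abs_of_nonneg hr0]
  unfold Phi
  rw [← hs.sum_add_tsum_nat_add N, add_sub_cancel_left]
  have hgeo : HasSum (fun j : ℕ => A * (r/8)^N * (r/8)^j) (A * (r/8)^N * (1 - r/8)⁻¹) :=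
    (hasSum_geometric_of_lt_one (by positivity) (by linarith)).mul_left _
  have := tsum_of_norm_bounded hgeo (f := fun k : ℕ => cs L η (k + N) * r ^ (k + N)) (by
    intro k
    rw [norm_mul, Real.norm_eq_abs, norm_pow, Real.norm_eq_abs, abs_of_nonneg hr0]
    have h1 := h k
    rw [add_comm N k] at h1
    calc |cs L η (k + N)| * r ^ (k + N) ≤ (A * (1/8)^(k + N)) * r ^ (k + N) := by gcongr
      _ = A * (r/8)^N * (r/8)^k := by
        rw [mul_assoc, ← mul_pow, mul_assoc, ← pow_add, add_comm N k]; congr 2; ring)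
  rw [Real.norm_eq_abs] at this
  rw [div_eq_mul_inv]
  exact this

lemma Phi_cont (L η A : ℝ) (N : ℕ) (hA : 0 ≤ A) (h : ∀ j, |cs L η (N + j)| ≤ A * (1/8)^(N + j)) :
    ContinuousOn (Phi L η) (Icc 0 4) := by
  apply continuousOn_tsum (u := fun k => |cs L η k| * 4 ^ k)
  · intro k; fun_prop
  · exact cs_summ L η A N hA h 4 (by norm_num) (by norm_num)
  · intro k r hr
    rw [norm_mul, Real.norm_eq_abs, norm_pow, Real.norm_eq_abs, abs_of_nonneg hr.1]
    gcongr
    · exact hr.1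
    · exact hr.2

lemma kummer_eq (L η A : ℝ) (hL : -1 < L) (N : ℕ) (hA : 0 ≤ A)
    (h : ∀ j, |cs L η (N + j)| ≤ A * (1/8)^(N + j)) (r : ℝ) (hr0 : 0 ≤ r) (hr : r < 8) :
    kummerM (L + 1 - Complex.I * η) (2 * L + 2) (2 * Complex.I * r)
      = Complex.exp (Complex.I * r) * (Phi L η r : ℂ) := by
  have hcoef := coeff_ident (L + 1 - Complex.I * η) (2 * L + 2) η (by
      intro n h0
      have h1 : ((2 * L + 2 + n : ℝ) : ℂ) = 0 := by push_cast; exact h0
      have h2 : 2 * L + 2 + n = 0 := by exact_mod_cast h1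
      have : (0:ℝ) ≤ n := by positivity
      linarith) (by ring) (fun k => ((cs L η k : ℝ) : ℂ)) (by simp [cs]) (by
      simp only [cs]
      have : (L:ℂ) + 1 ≠ 0 := by
        have : L + 1 ≠ 0 := by linarith
        exact_mod_cast this
      push_cast
      field_simp) (by
      intro n
      have h1 : ((n:ℝ) + 2) * (n + 3 + 2 * L) * cs L η (n + 2)
          = 2 * η * cs L η (n + 1) - cs L η n := by
        rw [cs, mul_div_cancel₀]
        have : (0:ℝ) ≤ n := by positivity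
        apply ne_of_gt
        apply mul_pos <;> linarith
      have h2 := congrArg (fun t : ℝ => (t : ℂ)) h1
      push_cast at h2
      linear_combination h2)
  unfold kummerM
  have e1 : ∀ k : ℕ, (ascPochhammer ℂ k).eval ((L:ℂ) + 1 - Complex.I * η) /
      (ascPochhammer ℂ k).eval (2 * (L:ℂ) + 2) * (2 * Complex.I * r) ^ k / (k.factorial : ℂ)
      = ∑ p ∈ Finset.HasAntidiagonal.antidiagonal k,
        ((Complex.I * r) ^ p.1 / (p.1.factorial : ℂ)) * ((cs L η p.2 : ℂ) * (r:ℂ) ^ p.2) := by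
    intro k
    have e2 : (ascPochhammer ℂ k).eval ((L:ℂ) + 1 - Complex.I * η) /
      (ascPochhammer ℂ k).eval (2 * (L:ℂ) + 2) * (2 * Complex.I * r) ^ k / (k.factorial : ℂ)
      = (ascPochhammer ℂ k).eval ((L:ℂ) + 1 - Complex.I * η) /
      (ascPochhammer ℂ k).eval (2 * (L:ℂ) + 2) * (2 * Complex.I) ^ k / (k.factorial : ℂ) * (r:ℂ)^k := by
      rw [mul_pow (2 * Complex.I)]; ring
    rw [e2, hcoef k, Finset.sum_mul]
    apply Finset.sum_congr rfl
    intro p hp
    rw [Finset.HasAntidiagonal.mem_antidiagonal] at hp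
    rw [← hp, pow_add, mul_pow]
    ring
  simp_rw [e1]
  have hs1 : Summable (fun k : ℕ => ‖(Complex.I * r) ^ k / (k.factorial : ℂ)‖) :=
    NormedSpace.norm_expSeries_div_summable (Complex.I * (r:ℂ))
  have hs2 : Summable (fun k : ℕ => ‖(cs L η k : ℂ) * (r:ℂ) ^ k‖) := by
    refine (cs_summ L η A N hA h r hr0 hr).congr (fun k => ?_)
    rw [norm_mul, Complex.norm_real, Real.norm_eq_abs, norm_pow, Complex.norm_real,
      Real.norm_eq_abs, abs_of_nonneg hr0]
  rw [← tsum_mul_tsum_eq_tsum_sum_antidiagonal_of_summable_norm hs1 hs2]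
  congr 1
  · rw [Complex.exp_eq_exp_ℂ]
    exact (NormedSpace.expSeries_div_hasSum_exp (Complex.I * (r:ℂ))).tsum_eq
  · unfold Phi
    rw [Complex.ofReal_tsum]
    congr 1
    ext k
    push_cast; ring

lemma zero_iff (L η A : ℝ) (hL : -1 < L) (N : ℕ) (hA : 0 ≤ A)
    (h : ∀ j, |cs L η (N + j)| ≤ A * (1/8)^(N + j)) (r : ℝ) (hr0 : 0 < r) (hr : r < 8) :
    coulombF L η r = 0 ↔ Phi L η r = 0 := by
  rw [coulombF_zero_iff L η r hL hr0, kummer_eq L η A hL N hA h r hr0.le hr, mul_eq_zero]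
  simp only [Complex.exp_ne_zero, false_or, Complex.ofReal_eq_zero]

lemma first_zero (L η A : ℝ) (hL : -1 < L) (N : ℕ) (hA : 0 ≤ A)
    (h : ∀ j, |cs L η (N + j)| ≤ A * (1/8)^(N + j)) (r0 s : ℝ) (hr0 : 0 ≤ r0) (hrs : r0 < s)
    (hs : s ≤ 4) (hpos : ∀ r ∈ Icc 0 r0, 0 < Phi L η r) (hneg : Phi L η s < 0) :
    ∃ ρ : ℝ, r0 < ρ ∧ ρ < s ∧ IsNthZero L η 1 ρ := by
  have hcont := Phi_cont L η A N hA h
  have hcont2 : ContinuousOn (Phi L η) (Icc r0 s) :=
    hcont.mono (Icc_subset_Icc hr0 hs)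
  set Z : Set ℝ := Icc r0 s ∩ (Phi L η) ⁻¹' {0} with hZ
  have hZc : IsCompact Z :=
    isCompact_Icc.of_isClosed_subset (hcont2.preimage_isClosed_of_isClosed isClosed_Icc
      isClosed_singleton) inter_subset_left
  have hZne : Z.Nonempty := by
    have h1 := intermediate_value_Icc' hrs.le hcont2
    obtain ⟨x, hx, hx0⟩ := h1 (show (0:ℝ) ∈ Icc (Phi L η s) (Phi L η r0) from
      ⟨hneg.le, (hpos r0 ⟨hr0, le_rfl⟩).le⟩)
    exact ⟨x, hx, hx0⟩
  obtain ⟨ρ, hρ⟩ := hZc.exists_isLeast hZne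
  obtain ⟨⟨hρ1, hρ2⟩, hρ3⟩ := hρ
  have hρ0 : Phi L η ρ = 0 := hρ2
  have h1 : r0 < ρ := by
    rcases hρ1.1.eq_or_lt with h | h
    · exfalso
      have := hpos r0 ⟨hr0, le_rfl⟩
      rw [h, hρ0] at this
      exact lt_irrefl _ this
    · exact h
  have h2 : ρ < s := by
    rcases hρ1.2.eq_or_lt with h | h
    · exfalso; rw [← h, hρ0] at hneg; exact lt_irrefl _ hneg
    · exact h
  have hρpos : 0 < ρ := lt_of_le_of_lt hr0 h1
  have hempty : {x : ℝ | 0 < x ∧ x < ρ ∧ coulombF L η x = 0} = ∅ := by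
    rw [Set.eq_empty_iff_forall_notMem]
    rintro x ⟨hx1, hx2, hx3⟩
    rw [zero_iff L η A hL N hA h x hx1 (by linarith)] at hx3
    rcases le_or_gt x r0 with h3 | h3
    · have := hpos x ⟨hx1.le, h3⟩
      rw [hx3] at this; exact lt_irrefl _ this
    · have := hρ3 ⟨⟨h3.le, by linarith⟩, hx3⟩
      linarith
  refine ⟨ρ, h1, h2, hρpos, ?_, ?_, ?_⟩
  · rw [zero_iff L η A hL N hA h ρ hρpos (by linarith)]; exact hρ0
  · rw [hempty]; exact Set.finite_empty
  · rw [hempty]; simp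


lemma bound_one : ∀ j, |cs (-99/100) (1/10) (12 + j)| ≤ 830 * (1/8)^(12 + j) := by
  obtain ⟨_, _, _, _, _, _, _, _, _, _, _, _, h12, h13⟩ := cs_one
  apply cs_bound _ _ _ (by norm_num) (by rw [abs_of_pos] <;> norm_num) (by norm_num) 12 (by norm_num)
  · rw [h12, abs_of_neg (by norm_num)]; norm_num
  · rw [h13, abs_of_pos (by norm_num)]; norm_num

lemma bound_two : ∀ j, |cs (-3/4) (1/10) (12 + j)| ≤ 60 * (1/8)^(12 + j) := by
  obtain ⟨_, _, _, _, _, _, _, _, _, _, _, _, h12, h13⟩ := cs_two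
  apply cs_bound _ _ _ (by norm_num) (by rw [abs_of_pos] <;> norm_num) (by norm_num) 12 (by norm_num)
  · rw [h12, abs_of_pos (by norm_num)]; norm_num
  · rw [h13, abs_of_pos (by norm_num)]; norm_num

lemma neg_one : Phi (-99/100) (1/10) (18/5) < 0 := by
  have h := Phi_tail (-99/100) (1/10) 830 12 (by norm_num) bound_one (18/5) (by norm_num) (by norm_num)
  obtain ⟨h0, h1, h2, h3, h4, h5, h6, h7, h8, h9, h10, h11, _, _⟩ := cs_one
  simp only [Finset.sum_range_succ, Finset.range_zero, Finset.sum_empty, h0, h1, h2, h3, h4, h5,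
    h6, h7, h8, h9, h10, h11] at h
  rw [abs_le] at h
  norm_num at h
  linarith [h.2]

lemma neg_two : Phi (-3/4) (1/10) (27/10) < 0 := by
  have h := Phi_tail (-3/4) (1/10) 60 12 (by norm_num) bound_two (27/10) (by norm_num) (by norm_num)
  obtain ⟨h0, h1, h2, h3, h4, h5, h6, h7, h8, h9, h10, h11, _, _⟩ := cs_two
  simp only [Finset.sum_range_succ, Finset.range_zero, Finset.sum_empty, h0, h1, h2, h3, h4, h5,
    h6, h7, h8, h9, h10, h11] at h
  rw [abs_le] at h
  norm_num at h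
  linarith [h.2]

lemma pos_one (r : ℝ) (hr : r ∈ Icc (0:ℝ) (27/10)) : 0 < Phi (-99/100) (1/10) r := by
  obtain ⟨hr0, hr1⟩ := hr
  have h := Phi_tail (-99/100) (1/10) 830 12 (by norm_num) bound_one r hr0 (by linarith)
  obtain ⟨h0, h1, h2, h3, h4, h5, h6, h7, h8, h9, h10, h11, _, _⟩ := cs_one
  simp only [Finset.sum_range_succ, Finset.range_zero, Finset.sum_empty, h0, h1, h2, h3, h4, h5,
    h6, h7, h8, h9, h10, h11] at h
  have htail : 830 * (r/8)^12 / (1 - r/8) ≤ 1/10 := by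
    have hr8 : r/8 ≤ 27/80 := by linarith
    have h1 : (r/8)^12 ≤ (27/80)^12 := by gcongr
    rw [div_le_iff₀ (by linarith)]
    calc 830 * (r/8)^12 ≤ 830 * (27/80)^12 := by gcongr
      _ ≤ 1/10 * (1 - 27/80) := by norm_num
      _ ≤ _ := by linarith
  rw [abs_le] at h
  have hlow := h.1
  -- powers
  have p3 : r^3 ≤ (27/10) * r^2 := by
    have : 0 ≤ r^2 := by positivity
    nlinarith
  have p7 : r^7 ≤ (27/10)^3 * r^4 := by
    have e : r^7 = r^3 * r^4 := by ring
    rw [e]; gcongr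
  have p8 : r^8 ≤ (27/10)^4 * r^4 := by
    have e : r^8 = r^4 * r^4 := by ring
    rw [e]; gcongr
  have p11 : r^11 ≤ (27/10)^7 * r^4 := by
    have e : r^11 = r^7 * r^4 := by ring
    rw [e]; gcongr
  have p6 : 0 ≤ r^6 := by positivity
  have p9 : 0 ≤ r^9 := by positivity
  have p10 : 0 ≤ r^10 := by positivity
  have hmain : 0 < 9/10 + 10 * r + 25/51 * r^2 - 250/153 * r^3 - (3125/46206 + 7/100) * r^4
      + 374375/4643703 * r^5 := by
    have hr2 : r^2 ≤ (27/10) * r := by nlinarith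
    have hy : r^2 ≤ 729/100 := by nlinarith
    have hQ : 0 < 10 + 25/51 * r - 250/153 * r^2 - (3125/46206 + 7/100) * r^3
        + 374375/4643703 * r^4 := by
      nlinarith [sq_nonneg (729/100 - r^2), hr2, hy, p3]
    have e : 9/10 + 10 * r + 25/51 * r^2 - 250/153 * r^3 - (3125/46206 + 7/100) * r^4
      + 374375/4643703 * r^5 = 9/10 + r * (10 + 25/51 * r - 250/153 * r^2
        - (3125/46206 + 7/100) * r^3 + 374375/4643703 * r^4) := by ring
    rw [e]
    positivity
  have htail2 : -(830 * (r/8)^12 / (1 - r/8)) ≥ -(1/10) := by linarith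
  have hlow2 := htail2.le.trans hlow
  have e7 : (13997984375/7367564512413 : ℝ) * r^7 ≤ 13997984375/7367564512413 * ((27/10)^3 * r^4) := by
    gcongr
  have e8 : (89564921875/1591393934681208 : ℝ) * r^8 ≤
      89564921875/1591393934681208 * ((27/10)^4 * r^4) := by gcongr
  have e11 : (4203500509765625/17799064021290104625996 : ℝ) * r^11 ≤
      4203500509765625/17799064021290104625996 * ((27/10)^7 * r^4) := by gcongr
  have p4 : 0 ≤ r^4 := by positivity
  have e4 : 13997984375/7367564512413 * ((27/10)^3 * r^4)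
      + 89564921875/1591393934681208 * ((27/10)^4 * r^4)
      + 4203500509765625/17799064021290104625996 * ((27/10)^7 * r^4) ≤ 7/100 * r^4 := by
    have : (13997984375/7367564512413 * (27/10)^3 + 89564921875/1591393934681208 * (27/10)^4
      + 4203500509765625/17799064021290104625996 * (27/10)^7 : ℝ) ≤ 7/100 := by norm_num
    have h2 := mul_le_mul_of_nonneg_right this p4
    linarith
  have f6 : 0 ≤ (19446875/6993416718 : ℝ) * r^6 := by positivity
  have f9 : 0 ≤ (187384765625/7161272706065436 : ℝ) * r^9 := by positivity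
  have f10 : 0 ≤ (4405191015625/6459467980871023272 : ℝ) * r^10 := by positivity
  linarith

end Pool.Agent.R260.Co
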