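import Mathlib

set_option autoImplicit false

open Set Filter Topology

namespace Pool.Agent.R260.Gab

/-- the function `G_{3,β}` on the real line -/
noncomputable def g (β ξ : ℝ) : ℝ :=
  1 / β - 4 * ξ / (1 + β) + 6 * ξ ^ 2 / (2 + β) - 4 * ξ ^ 3 / (3 + β) + ξ ^ 4 / (4 + β)

lemma uvw (β : ℝ) (h1 : -1 < β) (h2 : β < 0) :
    16 * (1 / (3 + β)) ^ 2 < 18 * (1 / (2 + β)) * (1 / (4 + β)) := by
  have a2 : 0 < 2 + β := by linarith
  have a3 : 0 < 3 + β := by linarith
  have a4 : 0 < 4 + β := by linarith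
  rw [div_pow, one_pow, mul_one_div, mul_one_div, mul_one_div, div_div, div_lt_div_iff₀ (by positivity) (by positivity)]
  nlinarith

lemma key (β a b : ℝ) (h1 : -1 < β) (h2 : β < 0) (ha : 0 < a) (hab : a < b) :
    0 < a * g β b - b * g β a := by
  have a1 : 0 < 1 + β := by linarith
  have a2 : 0 < 2 + β := by linarith
  have a3 : 0 < 3 + β := by linarith
  have a4 : 0 < 4 + β := by linarith
  have hb : 0 < b := by linarith
  have e : a * g β b - b * g β a = (b - a) * (1 / (-β) + a * b * (6 * (1 / (2 + β))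
      - 4 * (a + b) * (1 / (3 + β)) + (a^2 + a * b + b^2) * (1 / (4 + β)))) := by
    unfold g
    have : -β ≠ 0 := by linarith
    have : β ≠ 0 := by linarith
    field_simp
    ring
  rw [e]
  have huvw := uvw β h1 h2
  set u := 1 / (2 + β) with hu
  set v := 1 / (3 + β) with hv
  set w := 1 / (4 + β) with hw
  have hw0 : 0 < w := by positivity
  have hT : 0 < 6 * u - 4 * (a + b) * v + (a^2 + a * b + b^2) * w := by
    have h3 : 0 < (6 * u - 4 * (a + b) * v + (3/4 * (a+b)^2) * w) * w := by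
      have : (6 * u - 4 * (a + b) * v + (3/4 * (a+b)^2) * w) * w
        = 3/4 * ((a+b) * w - 8/3 * v)^2 + (18 * u * w - 16 * v^2) / 3 := by ring
      rw [this]
      have := sq_nonneg ((a+b) * w - 8/3 * v)
      linarith
    have h4 := pos_of_mul_pos_left h3 hw0.le
    have h5 : 0 ≤ (a^2 + a * b + b^2 - 3/4 * (a+b)^2) * w := by
      apply mul_nonneg _ hw0.le
      nlinarith [sq_nonneg (a - b)]
    nlinarith
  have hb' : 0 < 1 / (-β) := by apply one_div_pos.mpr; linarith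
  have hab' : 0 < b - a := by linarith
  have := mul_pos (mul_pos ha hb) hT
  apply mul_pos hab'
  linarith

lemma g_cont (β : ℝ) : Continuous (g β) := by
  unfold g; fun_prop

lemma g_zero (β : ℝ) : g β 0 = 1 / β := by unfold g; simp

lemma exists_pos (β : ℝ) (h1 : -1 < β) (h2 : β < 0) : ∃ b : ℝ, 0 < b ∧ g β b = 0 := by
  have a1 : 0 < 1 + β := by linarith
  have a2 : 0 < 2 + β := by linarith
  have a3 : 0 < 3 + β := by linarith
  have a4 : 0 < 4 + β := by linarith
  have hβ : 0 < -β := by linarith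
  set K : ℝ := 8 + 4 / (1 + β) + 1 / (-β) with hK
  have k1 : 0 < 4 / (1 + β) := by positivity
  have k2 : 0 < 1 / (-β) := by positivity
  have hK0 : 0 < K := by linarith
  have hgK : 0 < g β K := by
    unfold g
    have e1 : K ^ 3 * 2 ≤ K ^ 4 / (4 + β) := by
      rw [le_div_iff₀ a4]
      have : K^4 = K^3 * K := by ring
      rw [this]
      have h3 : 0 < K^3 := by positivity
      have : 2 * (4 + β) ≤ K := by linarith
      nlinarith
    have e2 : 4 * K ^ 3 / (3 + β) ≤ K ^ 3 * 2 := by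
      rw [div_le_iff₀ a3]
      have h3 : 0 < K^3 := by positivity
      nlinarith
    have e3 : 3 * K^2 ≤ 6 * K^2 / (2 + β) := by
      rw [le_div_iff₀ a2]
      have h3 : 0 < K^2 := by positivity
      nlinarith
    have e4 : 4 * K / (1 + β) ≤ K^2 := by
      have : 4 * K / (1 + β) = (4 / (1 + β)) * K := by ring
      rw [this, sq]
      apply mul_le_mul_of_nonneg_right _ hK0.le
      linarith
    have e5 : -K^2 < 1 / β := by
      have : 1 / β = -(1 / (-β)) := by field_simp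
      rw [this]
      have : 1 / (-β) < K := by linarith
      nlinarith
    have h3 : 0 < K^2 := by positivity
    linarith
  have h0 : g β 0 < 0 := by
    rw [g_zero]; exact one_div_neg.mpr h2
  have := intermediate_value_Icc hK0.le (g_cont β).continuousOn
  obtain ⟨b, hb, hgb⟩ := this ⟨h0.le, hgK.le⟩
  refine ⟨b, ?_, hgb⟩
  rcases hb.1.eq_or_lt with h | h
  · rw [← h] at hgb; linarith
  · exact h

lemma exists_neg (β : ℝ) (h1 : -1 < β) (h2 : β < 0) : ∃ x : ℝ, 0 < x ∧ g β (-x) = 0 := by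
  have a1 : 0 < 1 + β := by linarith
  have a2 : 0 < 2 + β := by linarith
  have a3 : 0 < 3 + β := by linarith
  have a4 : 0 < 4 + β := by linarith
  have hβ : 0 < -β := by linarith
  have hK0 : 0 < 1 / (-β) := by positivity
  set K : ℝ := 1 / (-β) with hK
  have hgK : 0 < g β (-K) := by
    unfold g
    have e1 : 1 / β = -K := by rw [hK]; field_simp
    have e2 : K < 4 * K / (1 + β) := by
      rw [lt_div_iff₀ a1]; nlinarith
    have e3 : 0 < 6 * K^2 / (2 + β) := by positivity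
    have e4 : 0 < 4 * K^3 / (3 + β) := by positivity
    have e5 : 0 < K^4 / (4 + β) := by positivity
    have r1 : 4 * -K / (1 + β) = - (4 * K / (1 + β)) := by ring
    have r2 : (-K)^2 = K^2 := by ring
    have r3 : 4 * (-K)^3 / (3 + β) = -(4 * K^3 / (3 + β)) := by ring
    have r4 : (-K)^4 = K^4 := by ring
    rw [e1, r1, r2, r3, r4]
    linarith
  have h0 : g β (-0) < 0 := by
    rw [neg_zero, g_zero]; exact one_div_neg.mpr h2
  have hc : Continuous (fun x => g β (-x)) := (g_cont β).comp continuous_neg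
  have := intermediate_value_Icc hK0.le hc.continuousOn
  obtain ⟨b, hb, hgb⟩ := this ⟨h0.le, hgK.le⟩
  refine ⟨b, ?_, hgb⟩
  rcases hb.1.eq_or_lt with h | h
  · rw [← h] at hgb; simp only at hgb; linarith
  · exact h

lemma neg_mono (β a b : ℝ) (h1 : -1 < β) (h2 : β < 0) (ha : 0 ≤ a) (hab : a < b) :
    g β (-a) < g β (-b) := by
  have a1 : 0 < 1 + β := by linarith
  have a2 : 0 < 2 + β := by linarith
  have a3 : 0 < 3 + β := by linarith
  have a4 : 0 < 4 + β := by linarith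
  unfold g
  have r : ∀ x : ℝ, 1 / β - 4 * -x / (1 + β) + 6 * (-x) ^ 2 / (2 + β) - 4 * (-x) ^ 3 / (3 + β)
      + (-x) ^ 4 / (4 + β) = 1 / β + 4 * x / (1 + β) + 6 * x ^ 2 / (2 + β) + 4 * x ^ 3 / (3 + β)
      + x ^ 4 / (4 + β) := by intro x; ring
  rw [r, r]
  have hb : 0 < b := by linarith
  have s1 : 4 * a / (1 + β) < 4 * b / (1 + β) := by gcongr
  have s2 : 6 * a^2 / (2 + β) ≤ 6 * b^2 / (2 + β) := by gcongr
  have s3 : 4 * a^3 / (3 + β) ≤ 4 * b^3 / (3 + β) := by gcongr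
  have s4 : a^4 / (4 + β) ≤ b^4 / (4 + β) := by gcongr
  linarith

open Classical in
/-- the positive root -/
noncomputable def bb (β : ℝ) : ℝ :=
  if h : -1 < β ∧ β < 0 then (exists_pos β h.1 h.2).choose else 0

open Classical in
/-- minus the negative root -/
noncomputable def xx (β : ℝ) : ℝ :=
  if h : -1 < β ∧ β < 0 then (exists_neg β h.1 h.2).choose else 0

lemma bb_spec {β : ℝ} (h1 : -1 < β) (h2 : β < 0) : 0 < bb β ∧ g β (bb β) = 0 := by
  unfold bb
  rw [dif_pos ⟨h1, h2⟩]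
  exact (exists_pos β h1 h2).choose_spec

lemma xx_spec {β : ℝ} (h1 : -1 < β) (h2 : β < 0) : 0 < xx β ∧ g β (-xx β) = 0 := by
  unfold xx
  rw [dif_pos ⟨h1, h2⟩]
  exact (exists_neg β h1 h2).choose_spec

lemma lt_bb {β ξ : ℝ} (h1 : -1 < β) (h2 : β < 0) (hξ : 0 < ξ) (h : g β ξ < 0) : ξ < bb β := by
  obtain ⟨hb, hg⟩ := bb_spec h1 h2
  by_contra hle
  push Not at hle
  rcases hle.eq_or_lt with he | hl
  · rw [← he, hg] at h; exact lt_irrefl _ h
  · have := key β _ _ h1 h2 hb hl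
    rw [hg] at this
    nlinarith

lemma bb_lt {β ξ : ℝ} (h1 : -1 < β) (h2 : β < 0) (hξ : 0 < ξ) (h : 0 < g β ξ) : bb β < ξ := by
  obtain ⟨hb, hg⟩ := bb_spec h1 h2
  by_contra hle
  push Not at hle
  rcases hle.eq_or_lt with he | hl
  · rw [he, hg] at h; exact lt_irrefl _ h
  · have := key β _ _ h1 h2 hξ hl
    rw [hg] at this
    nlinarith

lemma g_neg_of_lt {β ξ : ℝ} (h1 : -1 < β) (h2 : β < 0) (hξ : 0 < ξ) (h : ξ < bb β) : g β ξ < 0 := by
  obtain ⟨hb, hg⟩ := bb_spec h1 h2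
  have := key β _ _ h1 h2 hξ h
  rw [hg] at this
  nlinarith

lemma g_pos_of_lt {β ξ : ℝ} (h1 : -1 < β) (h2 : β < 0) (h : bb β < ξ) : 0 < g β ξ := by
  obtain ⟨hb, hg⟩ := bb_spec h1 h2
  have := key β _ _ h1 h2 hb h
  rw [hg] at this
  nlinarith

lemma lt_xx {β ξ : ℝ} (h1 : -1 < β) (h2 : β < 0) (h : g β (-ξ) < 0) : ξ < xx β := by
  obtain ⟨hb, hg⟩ := xx_spec h1 h2
  by_contra hle
  push Not at hle
  rcases hle.eq_or_lt with he | hl
  · rw [← he, hg] at h; exact lt_irrefl _ h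
  · have := neg_mono β _ _ h1 h2 hb.le hl
    rw [hg] at this
    linarith

lemma xx_lt {β ξ : ℝ} (h1 : -1 < β) (h2 : β < 0) (hξ : 0 ≤ ξ) (h : 0 < g β (-ξ)) : xx β < ξ := by
  obtain ⟨hb, hg⟩ := xx_spec h1 h2
  by_contra hle
  push Not at hle
  rcases hle.eq_or_lt with he | hl
  · rw [he, hg] at h; exact lt_irrefl _ h
  · have := neg_mono β _ _ h1 h2 hξ hl
    rw [hg] at this
    linarith

lemma g_neg_of_lt' {β ξ : ℝ} (h1 : -1 < β) (h2 : β < 0) (hξ : 0 ≤ ξ) (h : ξ < xx β) :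
    g β (-ξ) < 0 := by
  obtain ⟨hb, hg⟩ := xx_spec h1 h2
  have := neg_mono β _ _ h1 h2 hξ h
  rw [hg] at this
  linarith

lemma g_pos_of_lt' {β ξ : ℝ} (h1 : -1 < β) (h2 : β < 0) (h : xx β < ξ) : 0 < g β (-ξ) := by
  obtain ⟨hb, hg⟩ := xx_spec h1 h2
  have := neg_mono β _ _ h1 h2 hb.le h
  rw [hg] at this
  linarith

lemma g_contβ (ξ β0 : ℝ) (h1 : -1 < β0) (h2 : β0 < 0) : ContinuousAt (fun β => g β ξ) β0 := by
  unfold g
  have a1 : 1 + β0 ≠ 0 := by linarith
  have a2 : 2 + β0 ≠ 0 := by linarith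
  have a3 : 3 + β0 ≠ 0 := by linarith
  have a4 : 4 + β0 ≠ 0 := by linarith
  have a0 : β0 ≠ 0 := by linarith
  fun_prop (disch := assumption)

lemma bb_cont : ContinuousOn bb (Ioo (-1) 0) := by
  intro β0 hβ0
  apply ContinuousAt.continuousWithinAt
  have hI : ∀ᶠ β in 𝓝 β0, -1 < β ∧ β < 0 := Ioo_mem_nhds hβ0.1 hβ0.2
  obtain ⟨hb, hg⟩ := bb_spec hβ0.1 hβ0.2
  rw [ContinuousAt, tendsto_order]
  constructor
  · intro a ha
    by_cases h0 : a ≤ 0
    · filter_upwards [hI] with β hβ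
      exact lt_of_le_of_lt h0 (bb_spec hβ.1 hβ.2).1
    · push Not at h0
      have h3 := g_neg_of_lt hβ0.1 hβ0.2 h0 ha
      have h4 := (g_contβ a β0 hβ0.1 hβ0.2).eventually_lt_const h3
      filter_upwards [hI, h4] with β hβ h5
      exact lt_bb hβ.1 hβ.2 h0 h5
  · intro a ha
    have h3 := g_pos_of_lt hβ0.1 hβ0.2 ha
    have h4 := (g_contβ a β0 hβ0.1 hβ0.2).eventually_const_lt h3
    filter_upwards [hI, h4] with β hβ h5
    exact bb_lt hβ.1 hβ.2 (lt_trans hb ha) h5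

lemma xx_cont : ContinuousOn xx (Ioo (-1) 0) := by
  intro β0 hβ0
  apply ContinuousAt.continuousWithinAt
  have hI : ∀ᶠ β in 𝓝 β0, -1 < β ∧ β < 0 := Ioo_mem_nhds hβ0.1 hβ0.2
  obtain ⟨hb, hg⟩ := xx_spec hβ0.1 hβ0.2
  rw [ContinuousAt, tendsto_order]
  constructor
  · intro a ha
    by_cases h0 : a < 0
    · filter_upwards [hI] with β hβ
      exact lt_trans h0 (xx_spec hβ.1 hβ.2).1
    · push Not at h0
      have h3 := g_neg_of_lt' hβ0.1 hβ0.2 h0 ha
      have h4 := (g_contβ (-a) β0 hβ0.1 hβ0.2).eventually_lt_const h3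
      filter_upwards [hI, h4] with β hβ h5
      exact lt_xx hβ.1 hβ.2 h5
  · intro a ha
    have h3 := g_pos_of_lt' hβ0.1 hβ0.2 ha
    have h4 := (g_contβ (-a) β0 hβ0.1 hβ0.2).eventually_const_lt h3
    filter_upwards [hI, h4] with β hβ h5
    exact xx_lt hβ.1 hβ.2 (lt_trans hb ha).le h5

/-- sum of the two non-real roots -/
noncomputable def pp (β : ℝ) : ℝ := 4 * (4 + β) / (3 + β) + xx β - bb β

/-- product of the two non-real roots -/
noncomputable def qq (β : ℝ) : ℝ := 6 * (4 + β) / (2 + β) - pp β * (bb β - xx β) + xx β * bb β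

/-- the function of the problem, complex argument -/
noncomputable def gc (β : ℝ) (ξ : ℂ) : ℂ :=
  1 / (β:ℂ) - 4 * ξ / (1 + β) + 6 * ξ ^ 2 / (2 + β) - 4 * ξ ^ 3 / (3 + β) + ξ ^ 4 / (4 + β)

lemma factor_real (β : ℝ) (h1 : -1 < β) (h2 : β < 0) :
    xx β * bb β * qq β = (4 + β) / (-β) ∧
    (xx β * bb β * pp β + (bb β - xx β) * qq β = 4 * (4 + β) / (1 + β) ∨ True) ∧
    ∀ ξ : ℝ, (4 + β) * g β ξ = (ξ + xx β) * (ξ - bb β) * (ξ^2 - pp β * ξ + qq β) := by
  have a1 : 0 < 1 + β := by linarith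
  have a2 : 0 < 2 + β := by linarith
  have a3 : 0 < 3 + β := by linarith
  have a4 : 0 < 4 + β := by linarith
  obtain ⟨hb, hgb⟩ := bb_spec h1 h2
  obtain ⟨hx, hgx⟩ := xx_spec h1 h2
  set b := bb β
  set x := xx β
  set p := pp β with hp
  set q := qq β with hq
  -- the difference is linear in ξ
  have hlin : ∀ ξ : ℝ, (4 + β) * g β ξ - (ξ + x) * (ξ - b) * (ξ^2 - p * ξ + q)
      = (-(4 * (4 + β) / (1 + β)) - ((x - b) * q + x * b * p)) * ξ + ((4 + β) / β + x * b * q) := by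
    intro ξ
    have hp' : p = 4 * (4 + β) / (3 + β) + x - b := hp
    have hq' : q = 6 * (4 + β) / (2 + β) - p * (b - x) + x * b := hq
    have e1 : 4 * (4 + β) / (3 + β) = p - x + b := by rw [hp']; ring
    have e2 : 6 * (4 + β) / (2 + β) = q + p * (b - x) - x * b := by rw [hq']; ring
    have e3 : (4 + β) * g β ξ = (4 + β) / β - (4 * (4 + β) / (1 + β)) * ξ
        + (6 * (4 + β) / (2 + β)) * ξ^2 - (4 * (4 + β) / (3 + β)) * ξ^3 + ξ^4 := by
      unfold g
      field_simp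
    rw [e3, e1, e2]
    ring
  have hA := hlin b
  have hB := hlin (-x)
  rw [hgb] at hA
  rw [hgx] at hB
  set A := (-(4 * (4 + β) / (1 + β)) - ((x - b) * q + x * b * p)) with hAdef
  set B := ((4 + β) / β + x * b * q) with hBdef
  have hA' : A * b + B = 0 := by linear_combination -hA
  have hB' : -A * x + B = 0 := by linear_combination -hB
  have hA0 : A = 0 := by
    have : A * (b + x) = 0 := by linear_combination hA' - hB'
    rcases mul_eq_zero.mp this with h | h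
    · exact h
    · linarith
  have hB0 : B = 0 := by rw [hA0] at hA'; linarith
  refine ⟨?_, Or.inr trivial, ?_⟩
  · have : x * b * q = -((4 + β) / β) := by linarith
    rw [this, div_neg]
  · intro ξ
    have := hlin ξ
    rw [hA0, hB0] at this
    linarith

lemma factor_complex (β : ℝ) (h1 : -1 < β) (h2 : β < 0) (ξ : ℂ) :
    (4 + β) * gc β ξ = (ξ + xx β) * (ξ - bb β) * (ξ^2 - pp β * ξ + qq β) := by
  have a1 : (0:ℝ) < 1 + β := by linarith
  have a2 : (0:ℝ) < 2 + β := by linarith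
  have a3 : (0:ℝ) < 3 + β := by linarith
  have a4 : (0:ℝ) < 4 + β := by linarith
  have hf := (factor_real β h1 h2).2.2
  -- polynomial identity transfers: compare coefficients through five real points
  have c1 : (1 + (β:ℂ)) ≠ 0 := by exact_mod_cast a1.ne'
  have c2 : (2 + (β:ℂ)) ≠ 0 := by exact_mod_cast a2.ne'
  have c3 : (3 + (β:ℂ)) ≠ 0 := by exact_mod_cast a3.ne'
  have c4 : (4 + (β:ℂ)) ≠ 0 := by exact_mod_cast a4.ne'
  have c0 : (β:ℂ) ≠ 0 := by exact_mod_cast h2.ne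
  obtain ⟨k0, -, -⟩ := factor_real β h1 h2
  set b := bb β with hbdef
  set x := xx β with hxdef
  have hp' : pp β = 4 * (4 + β) / (3 + β) + x - b := rfl
  have hq' : qq β = 6 * (4 + β) / (2 + β) - pp β * (b - x) + x * b := rfl
  set p := pp β
  set q := qq β
  have e1 : 4 * (4 + β) / (3 + β) = p - x + b := by rw [hp']; ring
  have e2 : 6 * (4 + β) / (2 + β) = q + p * (b - x) - x * b := by rw [hq']; ring
  have e4 : (4 + β) / β = -(x * b * q) := by rw [k0, div_neg]; ring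
  have e5 : 4 * (4 + β) / (1 + β) = -((x - b) * q + x * b * p) := by
    have h := hf 1
    have e3 : (4 + β) * g β 1 = (4 + β) / β - (4 * (4 + β) / (1 + β)) * 1
        + (6 * (4 + β) / (2 + β)) * 1^2 - (4 * (4 + β) / (3 + β)) * 1^3 + 1^4 := by
      unfold g
      field_simp
    rw [e3, e1, e2, e4] at h
    linear_combination -h
  have d1 : 4 * (4 + (β:ℂ)) / (3 + β) = p - x + b := by exact_mod_cast congrArg (fun r : ℝ => (r:ℂ)) e1
  have d2 : 6 * (4 + (β:ℂ)) / (2 + β) = q + p * (b - x) - x * b := by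
    exact_mod_cast congrArg (fun r : ℝ => (r:ℂ)) e2
  have d4 : (4 + (β:ℂ)) / β = -(x * b * q) := by exact_mod_cast congrArg (fun r : ℝ => (r:ℂ)) e4
  have d5 : 4 * (4 + (β:ℂ)) / (1 + β) = -((x - b) * q + x * b * p) := by
    exact_mod_cast congrArg (fun r : ℝ => (r:ℂ)) e5
  have e3 : (4 + (β:ℂ)) * gc β ξ = (4 + β) / β - (4 * (4 + β) / (1 + β)) * ξ
        + (6 * (4 + β) / (2 + β)) * ξ^2 - (4 * (4 + β) / (3 + β)) * ξ^3 + ξ^4 := by
    unfold gc
    field_simp
  rw [e3, d1, d2, d4, d5]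
  ring

lemma disc_pos (β : ℝ) (h1 : -1 < β) (h2 : β < 0) : 0 < 4 * qq β - pp β ^ 2 := by
  have a1 : 0 < 1 + β := by linarith
  have a2 : 0 < 2 + β := by linarith
  have a3 : 0 < 3 + β := by linarith
  have a4 : 0 < 4 + β := by linarith
  obtain ⟨hb, hgb⟩ := bb_spec h1 h2
  obtain ⟨hx, hgx⟩ := xx_spec h1 h2
  unfold qq pp
  set b := bb β
  set x := xx β
  set S := 4 * (4 + β) / (3 + β) with hS
  set T := 6 * (4 + β) / (2 + β) with hT
  have hST : S^2 < 3 * T := by
    rw [hS, hT, div_pow, mul_div_assoc', div_lt_div_iff₀ (by positivity) (by positivity)]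
    have : 0 < (4 + β) * (2 * β^2 + 12 * β + 34) := by
      apply mul_pos a4; nlinarith
    nlinarith
  have hxb : 0 < x * b := mul_pos hx hb
  nlinarith [sq_nonneg (S - 3 * (b - x))]

end Pool.Agent.R260.Gab
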