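import Pool.Agent.R260.GabA

set_option autoImplicit false

open Set Filter Topology

namespace Pool.Agent.R260.Gab

lemma bb_min : bb (-268/1000) < 37321/10000 := by
  apply bb_lt (by norm_num) (by norm_num) (by norm_num)
  unfold g; norm_num

/-- outside of a small interval the positive root is larger -/
lemma bb_big (β : ℝ) (h1 : -1 < β) (h2 : β < 0) (h : β ≤ -274/1000 ∨ -26195/100000 ≤ β) :
    37322/10000 < bb β := by
  apply lt_bb h1 h2 (by norm_num)
  have a1 : 0 < 1 + β := by linarith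
  have a2 : 0 < 2 + β := by linarith
  have a3 : 0 < 3 + β := by linarith
  have a4 : 0 < 4 + β := by linarith
  have hN : 0 < (1+β)*(2+β)*(3+β)*(4+β) - 4*(37322/10000)*β*(2+β)*(3+β)*(4+β)
      + 6*(37322/10000)^2*β*(1+β)*(3+β)*(4+β) - 4*(37322/10000)^3*β*(1+β)*(2+β)*(4+β)
      + (37322/10000)^4*β*(1+β)*(2+β)*(3+β) := by
    have hD : 0 ≤ (β + 274/1000) * (β + 26195/100000) := by
      rcases h with h | h
      · apply mul_nonneg_of_nonpos_of_nonpos <;> linarith
      · apply mul_nonneg <;> linarith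
    nlinarith [mul_nonneg hD (show (0:ℝ) ≤ 1 + β by linarith),
      mul_nonneg hD (sq_nonneg (β + 1)), hD]
  have e : g β (37322/10000) = ((1+β)*(2+β)*(3+β)*(4+β) - 4*(37322/10000)*β*(2+β)*(3+β)*(4+β)
      + 6*(37322/10000)^2*β*(1+β)*(3+β)*(4+β) - 4*(37322/10000)^3*β*(1+β)*(2+β)*(4+β)
      + (37322/10000)^4*β*(1+β)*(2+β)*(3+β)) / (β * (1+β)*(2+β)*(3+β)*(4+β)) := by
    unfold g
    have : β ≠ 0 := h2.ne
    field_simp
  rw [e]
  apply div_neg_of_pos_of_neg hN
  have : 0 < (1+β)*(2+β)*(3+β)*(4+β) := by positivity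
  nlinarith

lemma xx_third : 39179/100000 < xx (-1/3) := by
  apply lt_xx (by norm_num) (by norm_num)
  unfold g; norm_num

lemma bb_third : 375285/100000 < bb (-1/3) := by
  apply lt_bb (by norm_num) (by norm_num) (by norm_num)
  unfold g; norm_num

lemma qq_third : qq (-1/3) < 74814/10000 := by
  obtain ⟨h, -, -⟩ := factor_real (-1/3) (by norm_num) (by norm_num)
  have h1 := xx_third
  have h2 := bb_third
  have h3 : (39179/100000 : ℝ) * (375285/100000) < xx (-1/3) * bb (-1/3) := by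
    apply mul_lt_mul'' h1 h2 <;> norm_num
  have hpos : 0 < xx (-1/3) * bb (-1/3) := lt_trans (by norm_num) h3
  have h4 : qq (-1/3) = 11 / (xx (-1/3) * bb (-1/3)) := by
    rw [eq_div_iff hpos.ne']
    rw [mul_comm, h]; norm_num
  rw [h4, div_lt_iff₀ hpos]
  nlinarith

lemma neg_anti (β β1 x : ℝ) (h1 : -1 < β) (h2 : β1 < 0) (hx : 0 ≤ x) (h : β ≤ β1) :
    g β1 (-x) ≤ g β (-x) := by
  have a1 : 0 < 1 + β := by linarith
  have a2 : 0 < 2 + β := by linarith
  have a3 : 0 < 3 + β := by linarith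
  have a4 : 0 < 4 + β := by linarith
  unfold g
  have r : ∀ β : ℝ, 1 / β - 4 * -x / (1 + β) + 6 * (-x) ^ 2 / (2 + β) - 4 * (-x) ^ 3 / (3 + β)
      + (-x) ^ 4 / (4 + β) = 1 / β + 4 * x / (1 + β) + 6 * x ^ 2 / (2 + β) + 4 * x ^ 3 / (3 + β)
      + x ^ 4 / (4 + β) := by intro x; ring
  rw [r, r]
  have s0 : 1 / β1 ≤ 1 / β := one_div_le_one_div_of_neg_of_le h2 h
  have s1 : 4 * x / (1 + β1) ≤ 4 * x / (1 + β) := by gcongr
  have s2 : 6 * x^2 / (2 + β1) ≤ 6 * x^2 / (2 + β) := by gcongr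
  have s3 : 4 * x^3 / (3 + β1) ≤ 4 * x^3 / (3 + β) := by gcongr
  have s4 : x^4 / (4 + β1) ≤ x^4 / (4 + β) := by gcongr
  linarith

/-- one step of the estimate of the product on a small interval -/
lemma step (s1 s2 h β : ℝ) (hs2 : s2 < 1) (hs1 : 0 < s1) (hh : 0 < h)
    (hg : 0 < g (-s1) (-h)) (hc : h * (37321/10000) * (74814/10000) * s2 ≤ 4 - s2)
    (hb1 : -s2 ≤ β) (hb2 : β ≤ -s1) (hbb : bb β < 37321/10000) : 74814/10000 < qq β := by
  have h1 : -1 < β := by linarith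
  have h2 : β < 0 := by linarith
  have hg2 := lt_of_lt_of_le hg (neg_anti β (-s1) h h1 (by linarith) hh.le hb2)
  have hx := xx_lt h1 h2 hh.le hg2
  obtain ⟨hb0, -⟩ := bb_spec h1 h2
  obtain ⟨hx0, -⟩ := xx_spec h1 h2
  obtain ⟨hq, -, -⟩ := factor_real β h1 h2
  have hprod : xx β * bb β < h * (37321/10000) := mul_lt_mul'' hx hbb hx0.le hb0.le
  have hpos : 0 < xx β * bb β := mul_pos hx0 hb0
  have h4 : qq β = ((4 + β) / (-β)) / (xx β * bb β) := by
    rw [eq_div_iff hpos.ne', mul_comm, hq]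
  rw [h4, lt_div_iff₀ hpos, lt_div_iff₀ (by linarith)]
  have h5 : 74814/10000 * (xx β * bb β) * -β < h * (37321/10000) * (74814/10000) * s2 := by
    have : 74814/10000 * (xx β * bb β) < 74814/10000 * (h * (37321/10000)) := by linarith
    have h6 : 74814/10000 * (xx β * bb β) * -β < 74814/10000 * (h * (37321/10000)) * -β :=
      mul_lt_mul_of_pos_right this (by linarith)
    have h7 : 74814/10000 * (h * (37321/10000)) * -β ≤ 74814/10000 * (h * (37321/10000)) * s2 :=
      mul_le_mul_of_nonneg_left (by linarith) (by positivity)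
    linarith
  linarith

end Pool.Agent.R260.Gab
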