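import Mathlib

set_option autoImplicit false

open Polynomial Finset

namespace Pool.Agent.R260.Gsz

/-- `sum_{j<=n} C(n,j) alpha_j z^j` -/
noncomputable def bsum (n : ℕ) (α : ℕ → ℂ) (z : ℂ) : ℂ :=
  ∑ j ∈ range (n + 1), (n.choose j : ℂ) * α j * z ^ j

/-- polar derivative on the level of coefficients -/
def shift (w : ℂ) (α : ℕ → ℂ) : ℕ → ℂ := fun j => α j + w * α (j + 1)

noncomputable def bpoly (n : ℕ) (α : ℕ → ℂ) : ℂ[X] :=
  ∑ j ∈ range (n + 1), C ((n.choose j : ℂ) * α j) * X ^ j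

lemma bpoly_eval (n : ℕ) (α : ℕ → ℂ) (z : ℂ) : (bpoly n α).eval z = bsum n α z := by
  unfold bpoly bsum
  rw [eval_finsetSum]
  apply sum_congr rfl
  intro j _
  simp

lemma bpoly_natDegree (n : ℕ) (α : ℕ → ℂ) : (bpoly n α).natDegree ≤ n := by
  unfold bpoly
  apply natDegree_sum_le_of_forall_le
  intro j hj
  have := mem_range.mp hj
  refine le_trans (natDegree_C_mul_X_pow_le _ _) (by omega)

lemma bpoly_coeff (n : ℕ) (α : ℕ → ℂ) (j : ℕ) : (bpoly n α).coeff j = (n.choose j : ℂ) * α j := by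
  unfold bpoly
  rw [finsetSum_coeff]
  simp only [coeff_C_mul_X_pow]
  by_cases hj : j < n + 1
  · rw [sum_eq_single j]
    · simp
    · intro i _ hi
      rw [if_neg (Ne.symm hi)]
    · intro h
      exact absurd (mem_range.mpr hj) h
  · rw [sum_eq_zero, Nat.choose_eq_zero_of_lt (by omega)]
    · simp
    · intro i hi
      have := mem_range.mp hi
      rw [if_neg (by omega)]

/-- derivative identity -/
lemma bsum_deriv (n : ℕ) (α : ℕ → ℂ) (z : ℂ) :
    (derivative (bpoly (n + 1) α)).eval z = (n + 1) * bsum n (fun j => α (j + 1)) z := by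
  unfold bpoly bsum
  rw [derivative_sum, eval_finsetSum, sum_range_succ', mul_sum]
  simp only [derivative_C_mul_X_pow]
  rw [show eval z (C (((n + 1).choose 0 : ℂ) * α 0 * ((0:ℕ):ℂ)) * X ^ (0 - 1)) = 0 by simp,
    add_zero]
  apply sum_congr rfl
  intro j _
  simp only [eval_mul, eval_C, eval_pow, eval_X, Nat.add_sub_cancel]
  have h := Nat.add_one_mul_choose_eq n j
  have h' : ((n:ℂ) + 1) * (n.choose j : ℂ) = ((n+1).choose (j+1) : ℂ) * ((j:ℂ) + 1) := by
    exact_mod_cast h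
  push_cast
  linear_combination (-(α (j+1) * z^j)) * h'

lemma bsum_polar (n : ℕ) (α : ℕ → ℂ) (w z : ℂ) :
    (n + 1) * bsum n (shift w α) z = (n + 1) * bsum (n + 1) α z
      - (z - w) * (derivative (bpoly (n + 1) α)).eval z := by
  have h1 : bsum n (shift w α) z = bsum n α z + w * bsum n (fun j => α (j+1)) z := by
    unfold bsum shift
    rw [mul_sum, ← sum_add_distrib]
    apply sum_congr rfl
    intro j _
    ring
  have h2 : bsum (n + 1) α z = bsum n α z + z * bsum n (fun j => α (j+1)) z := by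
    unfold bsum
    rw [sum_range_succ', mul_sum]
    have : ∑ x ∈ range (n + 1), ((n + 1).choose (x + 1) : ℂ) * α (x + 1) * z ^ (x + 1)
        = ∑ x ∈ range (n+1), (n.choose (x+1) : ℂ) * α (x + 1) * z ^ (x + 1)
          + ∑ x ∈ range (n+1), z * ((n.choose x : ℂ) * α (x + 1) * z ^ x) := by
      rw [← sum_add_distrib]
      apply sum_congr rfl
      intro x _
      rw [Nat.choose_succ_succ]
      push_cast
      ring
    rw [this, sum_range_succ (fun x => (n.choose (x+1) : ℂ) * α (x + 1) * z ^ (x + 1)),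
      Nat.choose_succ_self]
    rw [sum_range_succ' (fun x => (n.choose x : ℂ) * α x * z ^ x)]
    simp only [Nat.choose_zero_right, Nat.cast_zero, Nat.cast_one]
    ring
  rw [bsum_deriv, h1, h2]
  ring

lemma disk_bound {z w ρ : ℂ} (hz : ‖z‖ < 1) (hρ : 1 ≤ ‖ρ‖) :
    ‖(w - ρ) / (z - ρ) - (1 - w * (starRingEnd ℂ) z) / (1 - (‖z‖:ℂ)^2)‖
      ≤ ‖z - w‖ / (1 - ‖z‖^2) := by
  have hne : z - ρ ≠ 0 := by
    intro h
    have : z = ρ := by linear_combination h
    rw [this] at hz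
    linarith
  have hzz : (0:ℝ) < 1 - ‖z‖^2 := by nlinarith [norm_nonneg z]
  have hzc : (1 - (‖z‖:ℂ)^2) ≠ 0 := by
    have : ((1 - ‖z‖^2 : ℝ) : ℂ) ≠ 0 := by exact_mod_cast hzz.ne'
    push_cast at this
    exact this
  have hcc : (‖z‖:ℂ)^2 = z * (starRingEnd ℂ) z := by
    rw [Complex.mul_conj, Complex.normSq_eq_norm_sq]; push_cast; rfl
  have e : (w - ρ) / (z - ρ) - (1 - w * (starRingEnd ℂ) z) / (1 - (‖z‖:ℂ)^2)
      = (z - w) * (1 - (starRingEnd ℂ) z * ρ) / ((ρ - z) * (1 - (‖z‖:ℂ)^2)) := by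
    have hne2 : ρ - z ≠ 0 := by
      intro h; apply hne; linear_combination -h
    rw [div_sub_div _ _ hne hzc, div_eq_div_iff (mul_ne_zero hne hzc) (mul_ne_zero hne2 hzc)]
    rw [hcc]
    ring
  rw [e, norm_div, norm_mul, norm_mul]
  have h1 : ‖(1 - (‖z‖:ℂ)^2)‖ = 1 - ‖z‖^2 := by
    have : (1 - (‖z‖:ℂ)^2) = ((1 - ‖z‖^2 : ℝ) : ℂ) := by push_cast; rfl
    rw [this, Complex.norm_real, Real.norm_of_nonneg hzz.le]
  rw [h1]
  have h2 : ‖1 - (starRingEnd ℂ) z * ρ‖ ≤ ‖ρ - z‖ := by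
    apply le_of_sq_le_sq _ (norm_nonneg _)
    rw [← Complex.normSq_eq_norm_sq, ← Complex.normSq_eq_norm_sq]
    have hz2 : Complex.normSq z < 1 := by
      rw [Complex.normSq_eq_norm_sq]; nlinarith [norm_nonneg z]
    have hρ2 : 1 ≤ Complex.normSq ρ := by
      rw [Complex.normSq_eq_norm_sq]; nlinarith [norm_nonneg ρ]
    rw [Complex.normSq_apply] at hz2 hρ2 ⊢
    rw [Complex.normSq_apply]
    simp
    nlinarith [mul_nonneg (sub_nonneg.mpr hρ2) (sub_nonneg.mpr hz2.le)]
  have hρz : 0 < ‖ρ - z‖ := by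
    rw [norm_pos_iff]; intro h; apply hne; linear_combination -h
  rw [div_le_div_iff₀ (by positivity) hzz]
  have := norm_nonneg (z - w)
  have h3 : ‖z - w‖ * ‖1 - (starRingEnd ℂ) z * ρ‖ ≤ ‖z - w‖ * ‖ρ - z‖ :=
    mul_le_mul_of_nonneg_left h2 this
  nlinarith [mul_le_mul_of_nonneg_right h3 hzz.le]

lemma center_big {z w : ℂ} (hz : ‖z‖ < 1) (hw : ‖w‖ < 1) :
    ‖z - w‖ / (1 - ‖z‖^2) < ‖(1 - w * (starRingEnd ℂ) z) / (1 - (‖z‖:ℂ)^2)‖ := by
  have hzz : (0:ℝ) < 1 - ‖z‖^2 := by nlinarith [norm_nonneg z]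
  have h1 : ‖(1 - (‖z‖:ℂ)^2)‖ = 1 - ‖z‖^2 := by
    have : (1 - (‖z‖:ℂ)^2) = ((1 - ‖z‖^2 : ℝ) : ℂ) := by push_cast; rfl
    rw [this, Complex.norm_real, Real.norm_of_nonneg hzz.le]
  rw [norm_div, h1]
  apply div_lt_div_of_pos_right _ hzz
  apply lt_of_pow_lt_pow_left₀ 2 (norm_nonneg _)
  rw [← Complex.normSq_eq_norm_sq, ← Complex.normSq_eq_norm_sq]
  have hz2 : Complex.normSq z < 1 := by
    rw [Complex.normSq_eq_norm_sq]; nlinarith [norm_nonneg z]
  have hw2 : Complex.normSq w < 1 := by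
    rw [Complex.normSq_eq_norm_sq]; nlinarith [norm_nonneg w]
  rw [Complex.normSq_apply] at hz2 hw2 ⊢
  rw [Complex.normSq_apply]
  simp
  nlinarith [mul_pos (sub_pos.mpr hw2) (sub_pos.mpr hz2)]

lemma multiset_bound (f : ℂ → ℂ) (c : ℂ) (R : ℝ) (s : Multiset ℂ)
    (h : ∀ ρ ∈ s, ‖f ρ - c‖ ≤ R) :
    ‖(s.map f).sum - (Multiset.card s : ℂ) * c‖ ≤ (Multiset.card s : ℝ) * R := by
  induction s using Multiset.induction with
  | empty => simp
  | cons a s ih =>
    have h1 := h a (Multiset.mem_cons_self a s)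
    have h2 := ih (fun ρ hρ => h ρ (Multiset.mem_cons_of_mem hρ))
    rw [Multiset.map_cons, Multiset.sum_cons, Multiset.card_cons]
    push_cast
    calc ‖f a + (s.map f).sum - ((Multiset.card s : ℂ) + 1) * c‖
        = ‖(f a - c) + ((s.map f).sum - (Multiset.card s : ℂ) * c)‖ := by ring_nf
      _ ≤ ‖f a - c‖ + ‖(s.map f).sum - (Multiset.card s : ℂ) * c‖ := norm_add_le _ _
      _ ≤ R + (Multiset.card s : ℝ) * R := add_le_add h1 h2
      _ = ((Multiset.card s : ℝ) + 1) * R := by ring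

/-- Laguerre theorem for the unit disk -/
lemma laguerre (n : ℕ) (α : ℕ → ℂ) (h : ∀ x : ℂ, ‖x‖ < 1 → bsum (n + 1) α x ≠ 0)
    (w : ℂ) (hw : ‖w‖ < 1) (z : ℂ) (hz : ‖z‖ < 1) : bsum n (shift w α) z ≠ 0 := by
  intro h0
  have hp := bsum_polar n α w z
  rw [h0, mul_zero] at hp
  set A := bpoly (n+1) α with hA
  have hAz : A.eval z ≠ 0 := by rw [hA, bpoly_eval]; exact h z hz
  have hsp : A.Splits := IsAlgClosed.splits A
  have hlog := hsp.eval_derivative_div_eval_of_ne_zero hAz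
  have hroots : ∀ ρ ∈ A.roots, 1 ≤ ‖ρ‖ := by
    intro ρ hρ
    by_contra hlt
    push Not at hlt
    have := (mem_roots'.mp hρ).2
    rw [IsRoot.def, hA, bpoly_eval] at this
    exact h ρ hlt this
  set c := (1 - w * (starRingEnd ℂ) z) / (1 - (‖z‖:ℂ)^2) with hc
  set R := ‖z - w‖ / (1 - ‖z‖^2) with hR
  have hcR : R < ‖c‖ := center_big hz hw
  have hb := multiset_bound (fun ρ => (w - ρ) / (z - ρ)) c R A.roots
    (fun ρ hρ => disk_bound hz (hroots ρ hρ))
  -- one lies in the disk too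
  have h1 : ‖(1:ℂ) - c‖ ≤ R := by
    have hzz : (0:ℝ) < 1 - ‖z‖^2 := by nlinarith [norm_nonneg z]
    have hzc : (1 - (‖z‖:ℂ)^2) ≠ 0 := by
      have : ((1 - ‖z‖^2 : ℝ) : ℂ) ≠ 0 := by exact_mod_cast hzz.ne'
      push_cast at this
      exact this
    have hcc : (‖z‖:ℂ)^2 = z * (starRingEnd ℂ) z := by
      rw [Complex.mul_conj, Complex.normSq_eq_norm_sq]; push_cast; rfl
    have e : (1:ℂ) - c = (w - z) * (starRingEnd ℂ) z / (1 - (‖z‖:ℂ)^2) := by
      rw [hc, eq_div_iff hzc, sub_mul, div_mul_cancel₀ _ hzc, hcc]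
      ring
    have hn : ‖(1 - (‖z‖:ℂ)^2)‖ = 1 - ‖z‖^2 := by
      have : (1 - (‖z‖:ℂ)^2) = ((1 - ‖z‖^2 : ℝ) : ℂ) := by push_cast; rfl
      rw [this, Complex.norm_real, Real.norm_of_nonneg hzz.le]
    rw [e, norm_div, hn, hR, norm_mul, RCLike.norm_conj, norm_sub_rev w z]
    apply div_le_div_of_nonneg_right _ hzz.le
    nlinarith [norm_nonneg (z - w), norm_nonneg z]
  have hcard : Multiset.card A.roots ≤ n + 1 :=
    le_trans (card_roots' A) (bpoly_natDegree _ _)
  obtain ⟨m, hm⟩ := Nat.exists_eq_add_of_le hcard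
  -- the sum
  have hsum : ((A.roots.map (fun ρ => (w - ρ) / (z - ρ))).sum) = (Multiset.card A.roots : ℂ)
      - (z - w) * (A.roots.map (fun ρ => 1 / (z - ρ))).sum := by
    have hne : ∀ ρ ∈ A.roots, z - ρ ≠ 0 := by
      intro ρ hρ h'
      have : z = ρ := by linear_combination h'
      have h2 := hroots ρ hρ
      rw [← this] at h2
      linarith
    clear hlog hb hcard hm
    generalize A.roots = s at hne
    induction s using Multiset.induction with
    | empty => simp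
    | cons a s ih =>
      rw [Multiset.map_cons, Multiset.sum_cons, Multiset.map_cons, Multiset.sum_cons,
        Multiset.card_cons, ih (fun ρ hρ => hne ρ (Multiset.mem_cons_of_mem hρ))]
      have := hne a (Multiset.mem_cons_self a s)
      push_cast
      field_simp
      ring
  have hzero : (n + 1 : ℂ) - (z - w) * (A.roots.map (fun ρ => 1 / (z - ρ))).sum = 0 := by
    rw [← hlog]
    have : (n + 1 : ℂ) * A.eval z - (z - w) * (derivative A).eval z = 0 := by
      rw [hA, bpoly_eval]; exact hp.symm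
    field_simp
    linear_combination this
  have hS : ((A.roots.map (fun ρ => (w - ρ) / (z - ρ))).sum) + m = 0 := by
    rw [hsum]
    have : (n + 1 : ℂ) = (Multiset.card A.roots : ℂ) + m := by exact_mod_cast hm
    rw [this] at hzero
    linear_combination hzero
  have hfin : ‖((n:ℂ) + 1) * c‖ ≤ (n + 1) * R := by
    have e : ((n:ℂ) + 1) * c = -(((A.roots.map (fun ρ => (w - ρ) / (z - ρ))).sum)
        - (Multiset.card A.roots : ℂ) * c) - m * (1 - c) := by
      have : (n + 1 : ℂ) = (Multiset.card A.roots : ℂ) + m := by exact_mod_cast hm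
      rw [this]
      linear_combination hS
    rw [e]
    calc _ ≤ ‖-(((A.roots.map (fun ρ => (w - ρ) / (z - ρ))).sum)
        - (Multiset.card A.roots : ℂ) * c)‖ + ‖(m:ℂ) * (1 - c)‖ := norm_sub_le _ _
      _ ≤ (Multiset.card A.roots : ℝ) * R + m * R := by
        rw [norm_neg, norm_mul, Complex.norm_natCast]
        exact add_le_add hb (mul_le_mul_of_nonneg_left h1 (Nat.cast_nonneg m))
      _ = (n + 1) * R := by
        have : (n + 1 : ℝ) = (Multiset.card A.roots : ℝ) + m := by exact_mod_cast hm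
        rw [this]; ring
  rw [norm_mul] at hfin
  have hn1 : ‖(n:ℂ) + 1‖ = n + 1 := by
    have : (n:ℂ) + 1 = ((n + 1 : ℕ) : ℂ) := by push_cast; rfl
    rw [this, Complex.norm_natCast]; push_cast; rfl
  rw [hn1] at hfin
  have hpos : (0:ℝ) < n + 1 := by positivity
  have := le_of_mul_le_mul_left hfin hpos
  linarith

/-- Grace-Szego composition for the unit disk -/
theorem comp_unit (n : ℕ) : ∀ (α : ℕ → ℂ) (B : ℂ[X]), B.natDegree ≤ n →
    (∀ x : ℂ, ‖x‖ < 1 → B.eval x ≠ 0) → (∀ x : ℂ, ‖x‖ < 1 → bsum n α x ≠ 0) →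
    ∀ z : ℂ, ‖z‖ < 1 → ∑ j ∈ range (n + 1), α j * B.coeff j * z ^ j ≠ 0 := by
  induction n with
  | zero =>
    intro α B hB hB0 hα z hz
    have h1 := hB0 0 (by simp)
    have h2 := hα 0 (by simp)
    rw [← coeff_zero_eq_eval_zero] at h1
    unfold bsum at h2
    simp at h2 ⊢
    exact ⟨h2, h1⟩
  | succ n ih =>
    intro α B hB hB0 hα z hz
    obtain ⟨b, B1, hb, hB1, hfac⟩ : ∃ (b : ℂ) (B1 : ℂ[X]), ‖b‖ ≤ 1 ∧ B1.natDegree ≤ n ∧
        B = (1 + C b * X) * B1 := by
      by_cases hd : B.natDegree ≤ n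
      · exact ⟨0, B, by simp, hd, by simp⟩
      · have hd1 : B.natDegree = n + 1 := by omega
        have hdeg : B.degree ≠ 0 := by
          intro h
          have := natDegree_eq_zero_iff_degree_le_zero.mpr h.le
          omega
        obtain ⟨σ, hσ⟩ := IsAlgClosed.exists_root B hdeg
        have hσ1 : 1 ≤ ‖σ‖ := by
          by_contra hlt
          push Not at hlt
          exact hB0 σ hlt hσ
        have hσ0 : σ ≠ 0 := by
          intro h; rw [h] at hσ1; simp at hσ1; linarith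
        obtain ⟨Q, hQ⟩ := dvd_iff_isRoot.mpr hσ
        have hBne : B ≠ 0 := by
          intro h; rw [h] at hd1; simp at hd1
        have hQne : Q ≠ 0 := by
          intro h; rw [h, mul_zero] at hQ; exact hBne hQ
        refine ⟨-σ⁻¹, C (-σ) * Q, ?_, ?_, ?_⟩
        · rw [norm_neg, norm_inv]
          exact inv_le_one_of_one_le₀ hσ1
        · have h1 : B.natDegree = (X - C σ).natDegree + Q.natDegree := by
            conv_lhs => rw [hQ]
            exact natDegree_mul (X_sub_C_ne_zero σ) hQne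
          rw [natDegree_X_sub_C] at h1
          have := natDegree_C_mul_le (-σ) Q
          omega
        · rw [hQ]
          have : (1 + C (-σ⁻¹) * X) * (C (-σ) * Q) = (C (-σ) + C (-σ⁻¹ * -σ) * X) * Q := by
            rw [C_mul]; ring
          rw [this]
          have h2 : -σ⁻¹ * -σ = 1 := by field_simp
          rw [h2, C_1, C_neg]
          ring
    have hB1nv : ∀ x : ℂ, ‖x‖ < 1 → B1.eval x ≠ 0 := by
      intro x hx h0
      apply hB0 x hx
      rw [hfac, eval_mul, h0, mul_zero]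
    have hw : ‖b * z‖ < 1 := by
      rw [norm_mul]
      nlinarith [norm_nonneg b, norm_nonneg z]
    have key := ih (shift (b * z) α) B1 hB1 hB1nv
      (fun x hx => laguerre n α hα (b*z) hw x hx) z hz
    intro h0
    apply key
    rw [← h0]
    unfold shift
    have hcoef0 : B.coeff 0 = B1.coeff 0 := by
      rw [hfac, add_mul, one_mul, coeff_add, mul_assoc, coeff_C_mul, coeff_zero_eq_eval_zero (X * B1)]
      simp
    have hcoefS : ∀ j, B.coeff (j+1) = B1.coeff (j+1) + b * B1.coeff j := by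
      intro j
      rw [hfac, add_mul, one_mul, coeff_add, mul_assoc, coeff_C_mul, coeff_X_mul]
    have hlast : B1.coeff (n+1) = 0 := coeff_eq_zero_of_natDegree_lt (by omega)
    rw [sum_range_succ' (fun j => α j * B.coeff j * z ^ j)]
    simp only [hcoef0, hcoefS]
    have e1 : ∑ k ∈ range (n + 1), α (k + 1) * (B1.coeff (k + 1) + b * B1.coeff k) * z ^ (k + 1)
        = ∑ k ∈ range (n+1), α (k+1) * B1.coeff (k+1) * z^(k+1)
          + ∑ k ∈ range (n+1), (b * z * α (k+1)) * B1.coeff k * z^k := by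
      rw [← sum_add_distrib]
      apply sum_congr rfl
      intro k _
      ring
    rw [e1, sum_range_succ (fun k => α (k+1) * B1.coeff (k+1) * z^(k+1)), hlast]
    have e2 : ∑ j ∈ range (n + 1), (α j + b * z * α (j + 1)) * B1.coeff j * z ^ j
        = ∑ j ∈ range (n+1), α j * B1.coeff j * z^j
          + ∑ j ∈ range (n+1), (b * z * α (j+1)) * B1.coeff j * z^j := by
      rw [← sum_add_distrib]
      apply sum_congr rfl
      intro k _
      ring
    rw [e2, sum_range_succ' (fun j => α j * B1.coeff j * z^j)]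
    ring

/-- nonvanishing of the binomial sum in a disk -/
def NV (n : ℕ) (γ : ℕ → ℂ) (r : ℝ) : Prop := ∀ x : ℂ, ‖x‖ < r → bsum n γ x ≠ 0

theorem NV.comp {n : ℕ} {α β : ℕ → ℂ} {r s : ℝ} (hr : 0 < r) (hs : 0 < s) (hα : NV n α r)
    (hβ : NV n β s) : NV n (fun j => α j * β j) (r * s) := by
  intro x hx
  have hα' : ∀ y : ℂ, ‖y‖ < 1 → bsum n (fun j => α j * (r:ℂ)^j) y ≠ 0 := by
    intro y hy
    have := hα (r * y) (by rw [norm_mul, Complex.norm_real, Real.norm_of_nonneg hr.le]; nlinarith)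
    convert this using 1
    unfold bsum
    apply sum_congr rfl
    intro j _
    rw [mul_pow]; ring
  have hβ' : ∀ y : ℂ, ‖y‖ < 1 → (bpoly n (fun j => β j * (s:ℂ)^j)).eval y ≠ 0 := by
    intro y hy
    rw [bpoly_eval]
    have := hβ (s * y) (by rw [norm_mul, Complex.norm_real, Real.norm_of_nonneg hs.le]; nlinarith)
    convert this using 1
    unfold bsum
    apply sum_congr rfl
    intro j _
    rw [mul_pow]; ring
  have hrs : 0 < r * s := mul_pos hr hs
  have := comp_unit n _ _ (bpoly_natDegree _ _) hβ' hα' (x / (r * s)) (by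
    rw [norm_div, norm_mul, Complex.norm_real, Complex.norm_real, Real.norm_of_nonneg hr.le,
      Real.norm_of_nonneg hs.le]
    rw [div_lt_one hrs]; exact hx)
  convert this using 1
  unfold bsum
  apply sum_congr rfl
  intro j _
  rw [bpoly_coeff, div_pow, mul_pow]
  have hr' : (r:ℂ) ≠ 0 := by exact_mod_cast hr.ne'
  have hs' : (s:ℂ) ≠ 0 := by exact_mod_cast hs.ne'
  field_simp

/-- all zeros of the binomial sum (of exact degree n) lie in the closed disk of radius `R` -/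
def ZB (n : ℕ) (γ : ℕ → ℂ) (R : ℝ) : Prop := γ n ≠ 0 ∧ ∀ z : ℂ, bsum n γ z = 0 → ‖z‖ ≤ R

lemma bsum_rev (n : ℕ) (γ : ℕ → ℂ) (x : ℂ) (hx : x ≠ 0) :
    bsum n (fun j => γ (n - j)) x = x ^ n * bsum n γ x⁻¹ := by
  unfold bsum
  rw [← sum_range_reflect, mul_sum]
  apply sum_congr rfl
  intro j hj
  have hj' := mem_range.mp hj
  have h1 : n + 1 - 1 - j = n - j := by omega
  rw [h1, Nat.choose_symm (by omega)]
  beta_reduce
  rw [show n - (n - j) = j by omega]
  have : x ^ n = x ^ (n - j) * x ^ j := by rw [← pow_add]; congr 1; omega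
  rw [this, inv_pow]
  field_simp

lemma ZB_iff_NV (n : ℕ) (γ : ℕ → ℂ) (R : ℝ) (hR : 0 < R) :
    ZB n γ R ↔ NV n (fun j => γ (n - j)) R⁻¹ := by
  constructor
  · rintro ⟨h1, h2⟩ x hx
    by_cases hx0 : x = 0
    · rw [hx0]
      unfold bsum
      rw [sum_range_succ']
      simp [h1]
    · rw [bsum_rev n γ x hx0]
      apply mul_ne_zero (pow_ne_zero _ hx0)
      intro h0
      have := h2 _ h0
      rw [norm_inv] at this
      have hxp : 0 < ‖x‖ := norm_pos_iff.mpr hx0
      have h3 : R < ‖x‖⁻¹ := by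
        rw [lt_inv_comm₀ hR hxp]
        exact hx
      linarith
  · intro h
    constructor
    · have := h 0 (by simpa using hR)
      unfold bsum at this
      rw [sum_range_succ'] at this
      simpa using this
    · intro z hz
      by_contra hlt
      push Not at hlt
      have hz0 : z ≠ 0 := by
        intro h0; rw [h0, norm_zero] at hlt; linarith
      have := h z⁻¹ (by
        rw [norm_inv]
        exact inv_strictAnti₀ hR hlt)
      rw [bsum_rev n γ _ (inv_ne_zero hz0), inv_inv, hz, mul_zero] at this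
      exact this rfl

theorem ZB.comp {n : ℕ} {α β : ℕ → ℂ} {R S : ℝ} (hR : 0 < R) (hS : 0 < S) (hα : ZB n α R)
    (hβ : ZB n β S) : ZB n (fun j => α j * β j) (R * S) := by
  rw [ZB_iff_NV _ _ _ hR] at hα
  rw [ZB_iff_NV _ _ _ hS] at hβ
  rw [ZB_iff_NV _ _ _ (mul_pos hR hS), mul_inv]
  exact NV.comp (inv_pos.mpr hR) (inv_pos.mpr hS) hα hβ

lemma ZB.mono {n : ℕ} {α : ℕ → ℂ} {R S : ℝ} (hα : ZB n α R) (h : R ≤ S) : ZB n α S :=
  ⟨hα.1, fun z hz => le_trans (hα.2 z hz) h⟩

lemma bsum_sign (n : ℕ) (α : ℕ → ℂ) (z : ℂ) :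
    bsum n (fun j => (-1)^j * α j) z = bsum n α (-z) := by
  unfold bsum
  apply sum_congr rfl
  intro j _
  rw [neg_pow z]
  ring

lemma ZB.sign {n : ℕ} {α : ℕ → ℂ} {R : ℝ} (hα : ZB n α R) : ZB n (fun j => (-1)^j * α j) R := by
  refine ⟨mul_ne_zero (pow_ne_zero _ (by norm_num)) hα.1, ?_⟩
  intro z hz
  rw [bsum_sign] at hz
  have := hα.2 _ hz
  rwa [norm_neg] at this

end Pool.Agent.R260.Gsz
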