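import Pool.Agent.R260.GszA

set_option autoImplicit false

open Polynomial Finset

namespace Pool.Agent.R260.Gsz

/-- rising factorial as a product -/
noncomputable def poch (x : ℂ) (k : ℕ) : ℂ := ∏ i ∈ range k, (x + i)

lemma poch_zero (x : ℂ) : poch x 0 = 1 := by simp [poch]

lemma poch_succ (x : ℂ) (k : ℕ) : poch x (k+1) = poch x k * (x + k) := by
  unfold poch; rw [prod_range_succ]

lemma poch_succ' (x : ℂ) (k : ℕ) : poch x (k+1) = x * poch (x+1) k := by
  unfold poch
  rw [prod_range_succ', mul_comm]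
  congr 1
  · simp
  · apply prod_congr rfl
    intro i _
    push_cast
    ring

lemma poch_eq (x : ℂ) (k : ℕ) : (ascPochhammer ℂ k).eval x = poch x k := by
  induction k with
  | zero => simp [poch]
  | succ k ih => rw [ascPochhammer_succ_eval, ih, poch_succ]

lemma poch_ne_zero {x : ℂ} (hx : ∀ m : ℕ, x ≠ -m) (k : ℕ) : poch x k ≠ 0 := by
  unfold poch
  rw [prod_ne_zero_iff]
  intro i _ h
  apply hx i
  linear_combination h

/-- A growth bound on coefficients gives a zero bound. -/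
lemma zero_bound (n : ℕ) (c : ℕ → ℂ) (Q : ℝ) (hQ : 0 ≤ Q) (hn : c n ≠ 0)
    (h : ∀ i < n, ‖c i‖ ≤ Q * ‖c (i+1)‖) (u : ℂ) (hu : 2 * Q < ‖u‖) :
    ∑ i ∈ range (n+1), c i * u ^ i ≠ 0 := by
  have key : ∀ k ≤ n, ‖∑ i ∈ range k, c i * u^i‖ ≤ ‖c k‖ * ‖u‖^k := by
    intro k
    induction k with
    | zero => intro _; simp
    | succ k ih =>
      intro hk
      rw [sum_range_succ]
      have h1 := ih (by omega)
      have h2 := h k (by omega)
      calc _ ≤ ‖∑ i ∈ range k, c i * u^i‖ + ‖c k * u^k‖ := norm_add_le _ _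
        _ ≤ ‖c k‖ * ‖u‖^k + ‖c k‖ * ‖u‖^k := by
          rw [norm_mul, norm_pow]
          linarith
        _ = 2 * (‖c k‖ * ‖u‖^k) := by ring
        _ ≤ 2 * ((Q * ‖c (k+1)‖) * ‖u‖^k) := by
          gcongr
        _ = (2 * Q) * (‖c (k+1)‖ * ‖u‖^k) := by ring
        _ ≤ ‖u‖ * (‖c (k+1)‖ * ‖u‖^k) := by
          apply mul_le_mul_of_nonneg_right hu.le (by positivity)
        _ = ‖c (k+1)‖ * ‖u‖^(k+1) := by ring
  intro h0
  rw [sum_range_succ] at h0
  have hu0 : 0 < ‖u‖ := by linarith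
  have hcn : 0 < ‖c n‖ := norm_pos_iff.mpr hn
  have e : ‖∑ i ∈ range n, c i * u^i‖ = ‖c n‖ * ‖u‖^n := by
    have : ∑ i ∈ range n, c i * u^i = -(c n * u^n) := by linear_combination h0
    rw [this, norm_neg, norm_mul, norm_pow]
  cases n with
  | zero =>
    simp at e
    exact hn (norm_eq_zero.mp e.symm)
  | succ n =>
    rw [sum_range_succ] at e
    have h1 := key n (by omega)
    have h2 := h n (by omega)
    have h3 : ‖∑ i ∈ range n, c i * u^i + c n * u^n‖ ≤ ‖c n‖ * ‖u‖^n + ‖c n‖ * ‖u‖^n := by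
      refine le_trans (norm_add_le _ _) ?_
      rw [norm_mul, norm_pow]
      linarith
    rw [e] at h3
    have h4 : ‖c n‖ * ‖u‖^n + ‖c n‖ * ‖u‖^n ≤ (2 * Q) * (‖c (n+1)‖ * ‖u‖^n) := by
      have : ‖c n‖ * ‖u‖^n ≤ (Q * ‖c (n+1)‖) * ‖u‖^n := by gcongr
      linarith
    have h5 : (2 * Q) * (‖c (n+1)‖ * ‖u‖^n) < ‖u‖ * (‖c (n+1)‖ * ‖u‖^n) :=
      mul_lt_mul_of_pos_right hu (by positivity)
    have h6 : ‖c (n+1)‖ * ‖u‖^(n+1) = ‖u‖ * (‖c (n+1)‖ * ‖u‖^n) := by ring
    linarith

/-- transformation of the terminating Gauss series -/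
lemma gauss_transform (n : ℕ) : ∀ (a b z : ℂ),
    ∑ j ∈ range (n+1), (n.choose j : ℂ) * (poch a j * poch (b + j) (n - j)) * z ^ j
      = ∑ i ∈ range (n+1), (n.choose i : ℂ) * (poch a i * poch (b - a) (n - i)) * (1 + z) ^ i := by
  induction n with
  | zero => intro a b z; simp [poch_zero]
  | succ n ih =>
    intro a b z
    have F : ∑ j ∈ range (n+1+1), ((n+1).choose j : ℂ) * (poch a j * poch (b + j) (n + 1 - j)) * z ^ j
        = (b + n) * ∑ j ∈ range (n+1), (n.choose j : ℂ) * (poch a j * poch (b + j) (n - j)) * z ^ j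
          + a * z * ∑ j ∈ range (n+1), (n.choose j : ℂ) *
            (poch (a+1) j * poch (b + 1 + j) (n - j)) * z ^ j := by
      rw [sum_range_succ']
      have e1 : ∑ k ∈ range (n + 1), ((n + 1).choose (k + 1) : ℂ) *
          (poch a (k + 1) * poch (b + ((k + 1 : ℕ):ℂ)) (n + 1 - (k + 1))) * z ^ (k + 1)
          = ∑ k ∈ range (n+1), (n.choose (k+1) : ℂ) *
            (poch a (k + 1) * poch (b + ((k + 1 : ℕ):ℂ)) (n - k)) * z ^ (k + 1)
            + a * z * ∑ j ∈ range (n+1), (n.choose j : ℂ) *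
            (poch (a+1) j * poch (b + 1 + j) (n - j)) * z ^ j := by
        rw [mul_sum, ← sum_add_distrib]
        apply sum_congr rfl
        intro k hk
        rw [Nat.choose_succ_succ, show n + 1 - (k+1) = n - k by omega]
        have : poch a (k+1) = a * poch (a+1) k := poch_succ' a k
        rw [this]
        have h2 : (b + ((k + 1 : ℕ):ℂ)) = b + 1 + k := by push_cast; ring
        rw [h2]
        push_cast
        ring
      rw [e1]
      have e2 : ∑ k ∈ range (n+1), (n.choose (k+1) : ℂ) *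
            (poch a (k + 1) * poch (b + ((k + 1 : ℕ):ℂ)) (n - k)) * z ^ (k + 1)
            + ((n+1).choose 0 : ℂ) * (poch a 0 * poch (b + ((0:ℕ):ℂ)) (n + 1 - 0)) * z ^ 0
          = ∑ j ∈ range (n+1), (b + n) * ((n.choose j : ℂ) *
            (poch a j * poch (b + j) (n - j)) * z ^ j) := by
        rw [sum_range_succ, Nat.choose_succ_self]
        rw [sum_range_succ' (fun j => (b + n) * ((n.choose j : ℂ) *
            (poch a j * poch (b + j) (n - j)) * z ^ j))]
        have e3 : ∀ k ∈ range n, (n.choose (k+1) : ℂ) *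
            (poch a (k + 1) * poch (b + ((k + 1 : ℕ):ℂ)) (n - k)) * z ^ (k + 1)
            = (b + n) * ((n.choose (k+1) : ℂ) *
            (poch a (k+1) * poch (b + ((k+1:ℕ):ℂ)) (n - (k+1))) * z ^ (k+1)) := by
          intro k hk
          have hk' := mem_range.mp hk
          obtain ⟨m, hm⟩ : ∃ m, n - k = m + 1 := ⟨n - k - 1, by omega⟩
          rw [hm, show n - (k+1) = m by omega, poch_succ (b + ((k+1:ℕ):ℂ)) m]
          have : (b + ((k+1:ℕ):ℂ) + m) = b + n := by
            have : n = k + (m + 1) := by omega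
            rw [this]; push_cast; ring
          rw [this]
          ring
        rw [sum_congr rfl e3]
        rw [poch_zero, show n + 1 - 0 = n + 1 by omega, poch_succ (b + ((0:ℕ):ℂ)) n,
          show n - 0 = n by omega]
        simp only [Nat.choose_zero_right, Nat.cast_zero, Nat.cast_one, pow_zero, add_zero,
          zero_mul, one_mul, mul_one]
        ring
      rw [mul_sum (range (n+1)) _ (b + (n:ℂ)), ← e2]
      ring
    have G : ∑ i ∈ range (n+1+1), ((n+1).choose i : ℂ) * (poch a i * poch (b - a) (n + 1 - i))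
          * (1 + z) ^ i
        = (b + n) * ∑ i ∈ range (n+1), (n.choose i : ℂ) * (poch a i * poch (b - a) (n - i))
          * (1 + z) ^ i
          + a * z * ∑ i ∈ range (n+1), (n.choose i : ℂ) *
            (poch (a+1) i * poch ((b + 1) - (a + 1)) (n - i)) * (1 + z) ^ i := by
      have hba : (b + 1) - (a + 1) = b - a := by ring
      rw [hba]
      rw [sum_range_succ']
      have e1 : ∑ k ∈ range (n + 1), ((n + 1).choose (k + 1) : ℂ) *
          (poch a (k + 1) * poch (b - a) (n + 1 - (k + 1))) * (1+z) ^ (k + 1)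
          = ∑ k ∈ range (n+1), (n.choose (k+1) : ℂ) *
            (poch a (k + 1) * poch (b - a) (n - k)) * (1+z) ^ (k + 1)
            + ∑ j ∈ range (n+1), (n.choose j : ℂ) *
            (poch a (j+1) * poch (b - a) (n - j)) * (1+z) ^ (j+1) := by
        rw [← sum_add_distrib]
        apply sum_congr rfl
        intro k hk
        rw [Nat.choose_succ_succ, show n + 1 - (k+1) = n - k by omega]
        push_cast
        ring
      have e2 : ∑ k ∈ range (n+1), (n.choose (k+1) : ℂ) *
            (poch a (k + 1) * poch (b - a) (n - k)) * (1+z) ^ (k + 1)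
            + ((n+1).choose 0 : ℂ) * (poch a 0 * poch (b - a) (n + 1 - 0)) * (1+z) ^ 0
          = ∑ j ∈ range (n+1), (n.choose j : ℂ) *
            (poch a j * poch (b - a) (n + 1 - j)) * (1+z) ^ j := by
        rw [sum_range_succ, Nat.choose_succ_self]
        rw [sum_range_succ' (fun j => (n.choose j : ℂ) *
            (poch a j * poch (b - a) (n + 1 - j)) * (1+z) ^ j)]
        have e3 : ∀ k ∈ range n, (n.choose (k+1) : ℂ) *
            (poch a (k + 1) * poch (b - a) (n - k)) * (1+z) ^ (k + 1)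
            = ((n.choose (k+1) : ℂ) *
            (poch a (k+1) * poch (b - a) (n + 1 - (k+1))) * (1+z) ^ (k+1)) := by
          intro k hk
          rw [show n + 1 - (k+1) = n - k by omega]
        rw [sum_congr rfl e3]
        simp
      have e4 : (b + n) * ∑ i ∈ range (n+1), (n.choose i : ℂ) * (poch a i * poch (b - a) (n - i))
          * (1 + z) ^ i
          = ∑ j ∈ range (n+1), (n.choose j : ℂ) *
            (poch a j * poch (b - a) (n + 1 - j)) * (1+z) ^ j
            + ∑ j ∈ range (n+1), (n.choose j : ℂ) *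
            (poch a (j+1) * poch (b - a) (n - j)) * (1+z) ^ j := by
        rw [mul_sum, ← sum_add_distrib]
        apply sum_congr rfl
        intro j hj
        have hj' := mem_range.mp hj
        rw [show n + 1 - j = (n - j) + 1 by omega, poch_succ, poch_succ]
        have : ((n - j : ℕ) : ℂ) = (n:ℂ) - j := by
          rw [Nat.cast_sub (by omega)]
        rw [this]
        ring
      have e5 : a * z * ∑ i ∈ range (n+1), (n.choose i : ℂ) *
            (poch (a+1) i * poch (b - a) (n - i)) * (1 + z) ^ i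
          = ∑ j ∈ range (n+1), (n.choose j : ℂ) *
            (poch a (j+1) * poch (b - a) (n - j)) * (1+z) ^ (j+1)
            - ∑ j ∈ range (n+1), (n.choose j : ℂ) *
            (poch a (j+1) * poch (b - a) (n - j)) * (1+z) ^ j := by
        rw [mul_sum, ← sum_sub_distrib]
        apply sum_congr rfl
        intro j _
        have : poch a (j+1) = a * poch (a+1) j := poch_succ' a j
        rw [this]
        ring
      rw [e1, e4, e5, ← e2]
      ring
    rw [F, G, ih a b z, ih (a+1) (b+1) z]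

lemma poch_split (b : ℂ) (j m : ℕ) : poch b (j + m) = poch b j * poch (b + j) m := by
  unfold poch
  rw [prod_range_add]
  congr 1
  apply prod_congr rfl
  intro i _
  push_cast
  ring

lemma exists_ratio (a : ℂ) (ha : ∀ m : ℕ, a ≠ -m) :
    ∃ Q : ℝ, 0 < Q ∧ ∀ i : ℕ, ((i:ℝ) + 1) ≤ Q * ‖a + i‖ := by
  have hpos : ∀ i : ℕ, 0 < ‖a + i‖ := by
    intro i
    rw [norm_pos_iff]
    intro h
    apply ha i
    linear_combination h
  obtain ⟨N, hN⟩ := exists_nat_gt (2 * ‖a‖ + 1)
  -- for i >= N, ‖a+i‖ >= i - ‖a‖ >= (i+1)/4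
  refine ⟨4 + ∑ i ∈ range N, ((i:ℝ)+1) / ‖a + i‖, ?_, ?_⟩
  · have : 0 ≤ ∑ i ∈ range N, ((i:ℝ)+1) / ‖a + i‖ := sum_nonneg (fun i _ => by positivity)
    linarith
  · intro i
    by_cases hi : i < N
    · have h1 : ((i:ℝ)+1) / ‖a + i‖ ≤ ∑ i ∈ range N, ((i:ℝ)+1) / ‖a + i‖ :=
        single_le_sum (f := fun i : ℕ => ((i:ℝ)+1) / ‖a + i‖) (fun j _ => by positivity)
          (mem_range.mpr hi)
      have h2 : ((i:ℝ)+1) / ‖a + i‖ ≤ 4 + ∑ i ∈ range N, ((i:ℝ)+1) / ‖a + i‖ := by linarith
      rwa [div_le_iff₀ (hpos i)] at h2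
    · push Not at hi
      have h1 : (N:ℝ) ≤ i := by exact_mod_cast hi
      have h2 : (i:ℝ) - ‖a‖ ≤ ‖a + i‖ := by
        have h3 : ‖(i:ℂ)‖ ≤ ‖a + i‖ + ‖a‖ := by
          calc ‖(i:ℂ)‖ = ‖(a + i) - a‖ := by ring_nf
            _ ≤ _ := norm_sub_le _ _
        rw [Complex.norm_natCast] at h3
        linarith
      have h3 : 0 ≤ ∑ i ∈ range N, ((i:ℝ)+1) / ‖a + i‖ := sum_nonneg (fun i _ => by positivity)
      have h4 : ((i:ℝ) + 1) ≤ 4 * ‖a + i‖ := by
        have := norm_nonneg a
        linarith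
      nlinarith [mul_nonneg h3 (hpos i).le]

/-- The pair factor. -/
theorem ZB_pair (a b : ℂ) (ha : ∀ m : ℕ, a ≠ -m) (hb : ∀ m : ℕ, b ≠ -m) :
    ∃ R : ℝ, 0 < R ∧ ∀ n : ℕ, ZB n (fun j => poch a j / poch b j) R := by
  obtain ⟨Q, hQ, hQi⟩ := exists_ratio a ha
  set T := Q * (1 + ‖b - a‖) with hT
  have hTpos : 0 < T := by positivity
  refine ⟨2 * T + 1, by positivity, ?_⟩
  intro n
  refine ⟨div_ne_zero (poch_ne_zero ha _) (poch_ne_zero hb _), ?_⟩
  intro z hz
  by_contra hlt
  push Not at hlt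
  have h1z : 2 * T < ‖1 + z‖ := by
    have : ‖z‖ ≤ ‖1 + z‖ + 1 := by
      calc ‖z‖ = ‖(1 + z) - 1‖ := by ring_nf
        _ ≤ ‖1 + z‖ + ‖(1:ℂ)‖ := norm_sub_le _ _
        _ = _ := by simp
    linarith
  have hcne : (fun i => (n.choose i : ℂ) * (poch a i * poch (b - a) (n - i))) n ≠ 0 := by
    simp [poch_zero, poch_ne_zero ha n]
  have := zero_bound n (fun i => (n.choose i : ℂ) * (poch a i * poch (b - a) (n - i))) T hTpos.le
    hcne ?_ (1+z) h1z
  · apply this
    rw [← gauss_transform]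
    have e : ∑ j ∈ range (n+1), (n.choose j : ℂ) * (poch a j * poch (b + j) (n - j)) * z ^ j
        = poch b n * bsum n (fun j => poch a j / poch b j) z := by
      unfold bsum
      rw [mul_sum]
      apply sum_congr rfl
      intro j hj
      have hj' := mem_range.mp hj
      have h2 : poch b n = poch b j * poch (b+j) (n-j) := by
        rw [← poch_split]; congr 1; omega
      rw [h2]
      have := poch_ne_zero hb j
      field_simp
    rw [e, hz, mul_zero]
  · intro i hi
    obtain ⟨m, hm⟩ : ∃ m, n - i = m + 1 := ⟨n - i - 1, by omega⟩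
    rw [hm, show n - (i+1) = m by omega, poch_succ, poch_succ]
    have hch : (n.choose i : ℝ) * ((m:ℝ) + 1) = (n.choose (i+1) : ℝ) * ((i:ℝ)+1) := by
      have := Nat.choose_succ_right_eq n i
      rw [hm] at this
      exact_mod_cast this.symm
    have hd : ‖b - a + m‖ ≤ (1 + ‖b - a‖) * ((m:ℝ) + 1) := by
      calc ‖b - a + m‖ ≤ ‖b - a‖ + ‖(m:ℂ)‖ := norm_add_le _ _
        _ = ‖b - a‖ + m := by rw [Complex.norm_natCast]
        _ ≤ _ := by nlinarith [norm_nonneg (b - a), Nat.cast_nonneg (α := ℝ) m]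
    rw [norm_mul, norm_mul, norm_mul, norm_mul, norm_mul, norm_mul, Complex.norm_natCast,
      Complex.norm_natCast]
    have h1 := hQi i
    have hA := norm_nonneg (poch a i)
    have hD := norm_nonneg (poch (b - a) m)
    calc (n.choose i : ℝ) * (‖poch a i‖ * (‖poch (b - a) m‖ * ‖b - a + m‖))
        ≤ (n.choose i : ℝ) * (‖poch a i‖ * (‖poch (b - a) m‖ * ((1 + ‖b - a‖) * ((m:ℝ) + 1)))) := by
          gcongr
      _ = (‖poch a i‖ * ‖poch (b - a) m‖ * (1 + ‖b - a‖)) * ((n.choose i : ℝ) * ((m:ℝ) + 1)) := by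
          ring
      _ = (‖poch a i‖ * ‖poch (b - a) m‖ * (1 + ‖b - a‖)) * ((n.choose (i+1) : ℝ) * ((i:ℝ)+1)) := by
          rw [hch]
      _ ≤ (‖poch a i‖ * ‖poch (b - a) m‖ * (1 + ‖b - a‖)) *
          ((n.choose (i+1) : ℝ) * (Q * ‖a + i‖)) := by
          gcongr
      _ = _ := by rw [hT]; ring

/-- The factorial factor. -/
theorem ZB_fact (n : ℕ) (hn : 1 ≤ n) : ZB n (fun j => poch 1 j) (8 / n) := by
  have hp : ∀ j : ℕ, poch 1 j = (j.factorial : ℂ) := by
    intro j
    induction j with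
    | zero => simp [poch]
    | succ j ih => rw [poch_succ, ih, Nat.factorial_succ]; push_cast; ring
  refine ⟨by beta_reduce; rw [hp]; exact_mod_cast Nat.factorial_ne_zero n, ?_⟩
  intro z hz
  by_contra hlt
  push Not at hlt
  have hnpos : (0:ℝ) < n := by exact_mod_cast hn
  have hz0 : 0 < ‖z‖ := lt_trans (by positivity) hlt
  have hzne : z ≠ 0 := norm_pos_iff.mp hz0
  have e : bsum n (fun j => poch 1 j) z = (n.factorial : ℂ) * z ^ n *
      ∑ i ∈ range (n+1), (z⁻¹)^i / (i.factorial : ℂ) := by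
    unfold bsum
    rw [mul_sum, ← sum_range_reflect]
    apply sum_congr rfl
    intro i hi
    have hi' := mem_range.mp hi
    rw [show n + 1 - 1 - i = n - i by omega]
    beta_reduce
    rw [hp]
    have h1 : (n.choose (n - i) : ℂ) * ((n-i).factorial : ℂ) * (i.factorial : ℂ)
        = (n.factorial : ℂ) := by
      have := Nat.choose_mul_factorial_mul_factorial (show n - i ≤ n by omega)
      rw [show n - (n - i) = i by omega] at this
      exact_mod_cast this
    rw [← h1]
    have h2 : z ^ n = z ^ (n - i) * z ^ i := by rw [← pow_add]; congr 1; omega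
    rw [h2, inv_pow]
    have h3 : (i.factorial : ℂ) ≠ 0 := by exact_mod_cast Nat.factorial_ne_zero i
    field_simp
  rw [e] at hz
  have hzn : z ^ n ≠ 0 := pow_ne_zero _ hzne
  have hfn : (n.factorial : ℂ) ≠ 0 := by exact_mod_cast Nat.factorial_ne_zero n
  have hs : ∑ i ∈ range (n+1), (z⁻¹)^i / (i.factorial : ℂ) = 0 := by
    rcases mul_eq_zero.mp hz with h | h
    · exact absurd h (mul_ne_zero hfn hzn)
    · exact h
  have hwn : ‖z⁻¹‖ < n / 8 := by
    rw [norm_inv, inv_lt_comm₀ hz0 (by positivity)]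
    calc ((n:ℝ)/8)⁻¹ = 8 / n := by rw [inv_div]
      _ < _ := hlt
  have hb := Complex.exp_bound' (x := z⁻¹) (n := n+1) (by
    rw [div_le_iff₀ (by positivity)]
    push_cast
    linarith)
  rw [hs, sub_zero, Complex.norm_exp] at hb
  have hlow : Real.exp (-‖z⁻¹‖) ≤ Real.exp (z⁻¹).re :=
    Real.exp_le_exp.mpr (by
      have := Complex.abs_re_le_norm z⁻¹
      have := neg_abs_le (z⁻¹).re
      linarith)
  set t := ‖z⁻¹‖ with ht
  have ht0 : 0 ≤ t := norm_nonneg _
  have h8 : (8 * t)^(n+1) / ((n+1).factorial : ℝ) ≤ Real.exp (8 * t) :=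
    Real.pow_div_factorial_le_exp (8*t) (by positivity) (n+1)
  have h9 : t^(n+1) / ((n+1).factorial : ℝ) ≤ Real.exp (8*t) / 8^(n+1) := by
    rw [le_div_iff₀ (by positivity)]
    calc t ^ (n + 1) / ((n + 1).factorial : ℝ) * 8 ^ (n + 1)
        = (8 * t)^(n+1) / ((n+1).factorial : ℝ) := by rw [mul_pow]; ring
      _ ≤ _ := h8
  have h10 : Real.exp (-t) ≤ Real.exp (8*t) / 8^(n+1) * 2 := by linarith
  have h11 : 1 ≤ Real.exp (9*t) / 8^(n+1) * 2 := by
    have := mul_le_mul_of_nonneg_left h10 (Real.exp_pos t).le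
    rw [← Real.exp_add] at this
    simp only [add_neg_cancel, Real.exp_zero] at this
    have e2 : Real.exp t * (Real.exp (8*t) / 8^(n+1) * 2) = Real.exp (9*t) / 8^(n+1) * 2 := by
      have : Real.exp (9*t) = Real.exp t * Real.exp (8*t) := by rw [← Real.exp_add]; congr 1; ring
      rw [this]; ring
    linarith
  have h12 : Real.exp (9*t) < 4^(n+1) := by
    have h13 : Real.exp (9*t) < Real.exp ((n+1 : ℕ) * (9/8)) := by
      apply Real.exp_lt_exp.mpr
      push_cast
      linarith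
    rw [Real.exp_nat_mul] at h13
    have h14 : Real.exp (9/8) < 4 := by
      have h15 : Real.exp (9/8) = Real.exp 1 * Real.exp (1/8) := by
        rw [← Real.exp_add]; congr 1; norm_num
      have h16 : Real.exp (1/8) ≤ 8/7 := by
        have := Real.exp_bound_div_one_sub_of_interval (x := 1/8) (by norm_num) (by norm_num)
        linarith
      have h17 := Real.exp_one_lt_d9
      rw [h15]
      have := Real.exp_pos (1/8 : ℝ)
      nlinarith
    refine lt_of_lt_of_le h13 ?_
    exact pow_le_pow_left₀ (Real.exp_pos _).le h14.le _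
  have h13 : Real.exp (9*t) / 8^(n+1) * 2 < 1 := by
    rw [div_mul_eq_mul_div, div_lt_one (by positivity)]
    have h8 : (8:ℝ)^(n+1) = 4^(n+1) * 2^(n+1) := by rw [← mul_pow]; norm_num
    have h2 : (2:ℝ) ≤ 2^(n+1) := by
      rw [pow_succ]
      have : (1:ℝ) ≤ 2^n := one_le_pow₀ (by norm_num)
      linarith
    rw [h8]
    have h4 : (0:ℝ) < 4^(n+1) := by positivity
    nlinarith
  linarith

end Pool.Agent.R260.Gsz
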