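import Pool.Agent.R260.GszB

set_option autoImplicit false

open Polynomial Finset

namespace Pool.Agent.R260.Gsz

section bessel

variable (n : ℕ) (lam : ℂ)

noncomputable def BP : ℂ[X] := bpoly n (fun j => (-1)^j * poch (n + lam) j)

lemma BP_coeff (j : ℕ) : (BP n lam).coeff j = (n.choose j : ℂ) * ((-1)^j * poch (n + lam) j) :=
  bpoly_coeff _ _ _

lemma BP_rec (j : ℕ) : ((j:ℂ) + 1) * (BP n lam).coeff (j+1)
    = ((j:ℂ) - n) * (j + n + lam) * (BP n lam).coeff j := by
  rw [BP_coeff, BP_coeff, poch_succ]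
  by_cases hj : j ≤ n
  · have h : ((n.choose (j+1) : ℕ) : ℂ) * ((j:ℂ) + 1) = (n.choose j : ℂ) * ((n:ℂ) - j) := by
      have := Nat.choose_succ_right_eq n j
      have h2 : ((n - j : ℕ) : ℂ) = (n:ℂ) - j := by rw [Nat.cast_sub hj]
      rw [← h2]
      exact_mod_cast this
    rw [pow_succ]
    linear_combination (-(-1)^j * poch (n+lam) j * (n + lam + j)) * h
  · rw [Nat.choose_eq_zero_of_lt (by omega), Nat.choose_eq_zero_of_lt (by omega)]
    simp

lemma BP_ode : X^2 * derivative (derivative (BP n lam)) + (C (1 + lam) * X - 1) * derivative (BP n lam)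
    - C ((n:ℂ) * (n + lam)) * BP n lam = 0 := by
  ext j
  have hr := BP_rec n lam j
  rw [coeff_sub, coeff_add, sub_mul, coeff_sub, one_mul, coeff_C_mul, mul_assoc, coeff_C_mul,
    coeff_zero, coeff_derivative]
  rcases j with _ | _ | j
  · rw [coeff_X_mul_zero, pow_two, mul_assoc, coeff_X_mul_zero]
    simp only [Nat.cast_zero, zero_add] at hr ⊢
    linear_combination (-1:ℂ) * hr
  · rw [coeff_X_mul, pow_two, mul_assoc, coeff_X_mul, coeff_X_mul_zero, coeff_derivative]
    simp only [Nat.cast_zero, zero_add, Nat.cast_one] at hr ⊢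
    push_cast at hr ⊢
    linear_combination (-1:ℂ) * hr
  · rw [coeff_X_mul, pow_two, mul_assoc, coeff_X_mul, coeff_X_mul, coeff_derivative,
      coeff_derivative]
    push_cast at hr ⊢
    linear_combination (-1:ℂ) * hr

lemma BP_ode_iter (m : ℕ) : X^2 * derivative^[m+2] (BP n lam)
    + (C (2 * (m:ℂ) + 1 + lam) * X - 1) * derivative^[m+1] (BP n lam)
    + C ((m:ℂ) * (m - 1) + (1 + lam) * m - (n:ℂ) * (n + lam)) * derivative^[m] (BP n lam) = 0 := by
  induction m with
  | zero =>
    have := BP_ode n lam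
    simp only [Function.iterate_succ, Function.iterate_zero, Function.comp, id]
    rw [← this]
    simp only [Nat.cast_zero, mul_zero, zero_add, zero_mul, zero_sub, C_neg]
    ring
  | succ m ih =>
    have h := congrArg derivative ih
    have e1 : derivative (derivative^[m] (BP n lam)) = derivative^[m+1] (BP n lam) :=
      (Function.iterate_succ_apply' _ _ _).symm
    have e2 : derivative (derivative^[m+1] (BP n lam)) = derivative^[m+2] (BP n lam) :=
      (Function.iterate_succ_apply' _ _ _).symm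
    have e3 : derivative (derivative^[m+2] (BP n lam)) = derivative^[m+1+2] (BP n lam) :=
      (Function.iterate_succ_apply' _ _ _).symm
    rw [derivative_zero, derivative_add, derivative_add, derivative_mul, derivative_mul,
      derivative_mul, derivative_C, zero_mul, zero_add, derivative_sub, derivative_mul,
      derivative_C, zero_mul, zero_add, derivative_X, derivative_one, derivative_X_pow,
      e1, e2, e3] at h
    rw [show m + 1 + 1 = m + 2 by ring, ← h]
    push_cast
    simp only [C_add, C_sub, C_mul, C_1, C_ofNat, map_natCast]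
    norm_num
    ring

lemma sum_re_bound (ζ : ℂ) (s : Multiset ℂ) (h : ∀ z ∈ s, ‖z‖ ≤ ‖ζ‖ ∧ z ≠ ζ) :
    (Multiset.card s : ℝ) / 2 ≤ (ζ * (s.map (fun z => 1 / (ζ - z))).sum).re := by
  induction s using Multiset.induction with
  | empty => simp
  | cons a s ih =>
    have h1 := ih (fun z hz => h z (Multiset.mem_cons_of_mem hz))
    obtain ⟨ha, hane⟩ := h a (Multiset.mem_cons_self a s)
    rw [Multiset.map_cons, Multiset.sum_cons, Multiset.card_cons, mul_add, Complex.add_re]
    have h2 : (1:ℝ)/2 ≤ (ζ * (1 / (ζ - a))).re := by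
      have hne : ζ - a ≠ 0 := sub_ne_zero.mpr (Ne.symm hane)
      have hpos : 0 < Complex.normSq (ζ - a) := Complex.normSq_pos.mpr hne
      have e : ζ * (1 / (ζ - a)) = ζ / (ζ - a) := by ring
      rw [e, Complex.div_re, ← add_div, div_le_div_iff₀ (by norm_num) hpos]
      have ha2 : Complex.normSq a ≤ Complex.normSq ζ := by
        rw [Complex.normSq_eq_norm_sq, Complex.normSq_eq_norm_sq]
        exact pow_le_pow_left₀ (norm_nonneg _) ha 2
      rw [Complex.normSq_apply, Complex.normSq_apply] at ha2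
      rw [Complex.normSq_apply]
      simp only [Complex.sub_re, Complex.sub_im]
      nlinarith
    push_cast
    linarith

theorem ZB_bessel (hn1 : 1 ≤ n) (hpos : 0 < (n:ℝ) + lam.re) (hne : poch (n + lam) n ≠ 0) :
    ZB n (fun j => poch (n + lam) j) (1 / ((n:ℝ) + lam.re)) := by
  refine ⟨hne, ?_⟩
  set P := BP n lam with hP
  have hcn : P.coeff n ≠ 0 := by
    rw [hP, BP_coeff, Nat.choose_self]
    simp [hne]
  have hP0 : P ≠ 0 := by intro h; rw [h] at hcn; simp at hcn
  have hdeg : P.natDegree = n :=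
    le_antisymm (bpoly_natDegree _ _) (le_natDegree_of_ne_zero hcn)
  have heval0 : P.eval 0 = 1 := by
    rw [← coeff_zero_eq_eval_zero, hP, BP_coeff]
    simp [poch_zero]
  have hrootsne : P.roots.toFinset.Nonempty := by
    obtain ⟨x, hx⟩ := IsAlgClosed.exists_root P (by
      rw [degree_eq_natDegree hP0, hdeg]
      intro h
      have : n = 0 := by exact_mod_cast h
      omega)
    exact ⟨x, Multiset.mem_toFinset.mpr (mem_roots'.mpr ⟨hP0, hx⟩)⟩
  obtain ⟨ζ, hζ, hmax⟩ := P.roots.toFinset.exists_max_image (fun z => ‖z‖) hrootsne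
  have hζr : P.IsRoot ζ := (mem_roots'.mp (Multiset.mem_toFinset.mp hζ)).2
  have hζ0 : ζ ≠ 0 := by
    intro h
    rw [h, IsRoot.def, heval0] at hζr
    exact one_ne_zero hζr
  obtain ⟨Q, hQ⟩ := dvd_iff_isRoot.mpr hζr
  have hQ0 : Q ≠ 0 := by intro h; rw [h, mul_zero] at hQ; exact hP0 hQ
  have hQdeg : Q.natDegree + 1 = n := by
    have := natDegree_mul (X_sub_C_ne_zero ζ) hQ0
    rw [← hQ, hdeg, natDegree_X_sub_C] at this
    omega
  have hd1 : (derivative P).eval ζ = Q.eval ζ := by
    rw [hQ, derivative_mul]; simp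
  have hd2 : (derivative (derivative P)).eval ζ = 2 * (derivative Q).eval ζ := by
    rw [hQ, derivative_mul, derivative_add, derivative_mul, derivative_mul]; simp; ring
  have hQζ : Q.eval ζ ≠ 0 := by
    intro h0
    have hall : ∀ m : ℕ, (derivative^[m] P).eval ζ = 0 ∧ (derivative^[m+1] P).eval ζ = 0 := by
      intro m
      induction m with
      | zero => exact ⟨hζr, by simpa [h0] using hd1⟩
      | succ m ih =>
        refine ⟨ih.2, ?_⟩
        have := congrArg (eval ζ) (BP_ode_iter n lam m)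
        rw [← hP, eval_add, eval_add, eval_mul, eval_mul, eval_mul, ih.1, ih.2, mul_zero,
          mul_zero, add_zero, add_zero, eval_zero] at this
        rcases mul_eq_zero.mp this with h | h
        · simp at h; exact absurd h hζ0
        · exact h
    have hlast := (hall n).1
    have hnd : (derivative^[n] P).natDegree = 0 := by
      have := natDegree_iterate_derivative P n
      omega
    rw [eq_C_of_natDegree_eq_zero hnd, eval_C, coeff_iterate_derivative, zero_add] at hlast
    rw [nsmul_eq_mul] at hlast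
    rcases mul_eq_zero.mp hlast with h | h
    · rw [Nat.descFactorial_self] at h
      exact Nat.factorial_ne_zero n (by exact_mod_cast h)
    · exact hcn h
  have hlog := (IsAlgClosed.splits Q).eval_derivative_div_eval_of_ne_zero hQζ
  have hcard : Multiset.card Q.roots = Q.natDegree :=
    ((IsAlgClosed.splits Q).natDegree_eq_card_roots).symm
  have hsum := sum_re_bound ζ Q.roots (by
    intro z hz
    obtain ⟨_, hzr⟩ := mem_roots'.mp hz
    constructor
    · apply hmax
      rw [Multiset.mem_toFinset, mem_roots']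
      refine ⟨hP0, ?_⟩
      rw [IsRoot.def, hQ, eval_mul, hzr.eq_zero, mul_zero]
    · intro h
      rw [h] at hzr
      exact hQζ hzr)
  rw [← hlog, hcard] at hsum
  have hode := congrArg (eval ζ) (BP_ode n lam)
  rw [← hP, eval_sub, eval_add, eval_mul, eval_mul, eval_mul, hd1, hd2, hζr.eq_zero] at hode
  simp only [eval_pow, eval_X, eval_sub, eval_mul, eval_C, eval_one, mul_zero, sub_zero,
    eval_zero] at hode
  have hkey : 2 * (ζ * ((derivative Q).eval ζ / Q.eval ζ)) = -(1 + lam) + ζ⁻¹ := by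
    field_simp
    linear_combination hode
  have hre : (2 * (ζ * ((derivative Q).eval ζ / Q.eval ζ))).re = -(1 + lam.re) + (ζ⁻¹).re := by
    rw [hkey]; simp
  have h2re : (2 * (ζ * ((derivative Q).eval ζ / Q.eval ζ))).re
      = 2 * (ζ * ((derivative Q).eval ζ / Q.eval ζ)).re := by
    simp
  have hQn : (Q.natDegree : ℝ) + 1 = n := by exact_mod_cast hQdeg
  have hfin : (n:ℝ) + lam.re ≤ ‖ζ‖⁻¹ := by
    have h1 : (ζ⁻¹).re ≤ ‖ζ‖⁻¹ := by
      rw [← norm_inv]; exact Complex.re_le_norm _
    linarith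
  have hζb : ‖ζ‖ ≤ 1 / ((n:ℝ) + lam.re) := by
    rw [one_div]
    exact (le_inv_comm₀ hpos (norm_pos_iff.mpr hζ0)).mp hfin
  intro z hz
  have hz' : P.eval (-z) = 0 := by
    rw [hP, BP, bpoly_eval, bsum_sign, neg_neg]; exact hz
  have := hmax (-z) (by
    rw [Multiset.mem_toFinset, mem_roots']
    exact ⟨hP0, hz'⟩)
  rw [norm_neg] at this
  linarith

end bessel

lemma ZB_one (n : ℕ) : ZB n (fun _ => 1) 1 := by
  refine ⟨one_ne_zero, ?_⟩
  intro z hz
  have : bsum n (fun _ => 1) z = (1 + z)^n := by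
    unfold bsum
    rw [add_comm 1 z, add_pow]
    apply sum_congr rfl
    intro j _
    simp [mul_comm]
  rw [this] at hz
  have h1 := eq_zero_of_pow_eq_zero hz
  have : z = -1 := by linear_combination h1
  rw [this]; simp

/-- `ZE g e`: zeros of the n-th binomial sum are `O(n^(-e))` -/
def ZE (γ : ℕ → ℂ) (e : ℕ) : Prop := ∃ M : ℝ, 0 < M ∧ ∀ n : ℕ, 1 ≤ n → ZB n γ (M / (n:ℝ)^e)

lemma ZE.mul {α β : ℕ → ℂ} {e f : ℕ} (hα : ZE α e) (hβ : ZE β f) :
    ZE (fun j => α j * β j) (e + f) := by
  obtain ⟨M, hM, h1⟩ := hα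
  obtain ⟨N, hN, h2⟩ := hβ
  refine ⟨M * N, mul_pos hM hN, ?_⟩
  intro n hn
  have hnp : (0:ℝ) < n := by exact_mod_cast hn
  have := ZB.comp (by positivity) (by positivity) (h1 n hn) (h2 n hn)
  convert this using 1
  rw [pow_add]
  field_simp

lemma ZE.prod {ι : Type*} (s : Finset ι) (γ : ι → ℕ → ℂ) (e : ℕ) (h : ∀ i, ZE (γ i) e) :
    ZE (fun j => ∏ i ∈ s, γ i j) (s.card * e) := by
  classical
  induction s using Finset.induction_on with
  | empty =>
    refine ⟨1, one_pos, ?_⟩
    intro n _
    simpa using ZB_one n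
  | insert i s hi ih =>
    have := (h i).mul ih
    simp only [prod_insert hi, card_insert_of_notMem hi]
    rw [add_mul, one_mul, add_comm (s.card * e) e]
    exact this

lemma ZE_pair (a b : ℂ) (ha : ∀ m : ℕ, a ≠ -m) (hb : ∀ m : ℕ, b ≠ -m) :
    ZE (fun j => poch a j / poch b j) 0 := by
  obtain ⟨R, hR, h⟩ := ZB_pair a b ha hb
  refine ⟨R, hR, ?_⟩
  intro n _
  simpa using h n

lemma one_adm : ∀ m : ℕ, (1:ℂ) ≠ -m := by
  intro m h
  have h2 : ((1 + m : ℕ) : ℂ) = 0 := by push_cast; linear_combination h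
  have : 1 + m = 0 := by exact_mod_cast h2
  omega

lemma ZE_up (a : ℂ) (ha : ∀ m : ℕ, a ≠ -m) : ZE (fun j => poch a j) 1 := by
  have h1 : ZE (fun j => poch 1 j) 1 := ⟨8, by norm_num, fun n hn => by simpa using ZB_fact n hn⟩
  have := (ZE_pair a 1 ha one_adm).mul h1
  rw [zero_add] at this
  convert this using 2 with j
  rw [div_mul_cancel₀ _ (poch_ne_zero one_adm j)]

end Pool.Agent.R260.Gsz
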