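import Mathlib

set_option autoImplicit false

open Finset ComplexConjugate

namespace Pool.Agent.R260.Il

/-- the two half-plane conditions (interlacing at the point `y`) -/
def R (y u v : ℂ) : Prop := 0 ≤ (conj u * v).im ∧ 0 ≤ (y * u * conj v).im

lemma R_refl {y : ℂ} (hy : 0 ≤ y.im) (v : ℂ) : R y v v := by
  have h1 : conj v * v = ((Complex.normSq v : ℝ) : ℂ) := by rw [mul_comm, Complex.mul_conj]
  have h2 : y * v * conj v = y * ((Complex.normSq v : ℝ) : ℂ) := by
    rw [mul_assoc, Complex.mul_conj]
  refine ⟨?_, ?_⟩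
  · rw [h1, Complex.ofReal_im]
  · rw [h2, Complex.im_mul_ofReal]
    exact mul_nonneg hy (Complex.normSq_nonneg v)

lemma R_zero_left (y v : ℂ) : R y 0 v := by constructor <;> simp

lemma R_zero_right (y v : ℂ) : R y v 0 := by constructor <;> simp

lemma R_add_left {y u u' v : ℂ} (h : R y u v) (h' : R y u' v) : R y (u + u') v := by
  refine ⟨?_, ?_⟩
  · have : conj (u + u') * v = conj u * v + conj u' * v := by rw [map_add]; ring
    rw [this, Complex.add_im]; exact add_nonneg h.1 h'.1
  · have : y * (u + u') * conj v = y * u * conj v + y * u' * conj v := by ring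
    rw [this, Complex.add_im]; exact add_nonneg h.2 h'.2

lemma R_add_right {y u v v' : ℂ} (h : R y u v) (h' : R y u v') : R y u (v + v') := by
  refine ⟨?_, ?_⟩
  · have : conj u * (v + v') = conj u * v + conj u * v' := by ring
    rw [this, Complex.add_im]; exact add_nonneg h.1 h'.1
  · have : y * u * conj (v + v') = y * u * conj v + y * u * conj v' := by rw [map_add]; ring
    rw [this, Complex.add_im]; exact add_nonneg h.2 h'.2

lemma R_smul_left {y u v : ℂ} {a : ℝ} (ha : 0 ≤ a) (h : R y u v) : R y (a * u) v := by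
  refine ⟨?_, ?_⟩
  · have : conj ((a:ℂ) * u) * v = (a:ℂ) * (conj u * v) := by
      rw [map_mul, Complex.conj_ofReal]; ring
    rw [this, Complex.im_ofReal_mul]
    exact mul_nonneg ha h.1
  · have : y * ((a:ℂ) * u) * conj v = (a:ℂ) * (y * u * conj v) := by ring
    rw [this, Complex.im_ofReal_mul]
    exact mul_nonneg ha h.2

lemma R_smul_right {y u v : ℂ} {a : ℝ} (ha : 0 ≤ a) (h : R y u v) : R y u (a * v) := by
  refine ⟨?_, ?_⟩
  · have : conj u * ((a:ℂ) * v) = (a:ℂ) * (conj u * v) := by ring
    rw [this, Complex.im_ofReal_mul]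
    exact mul_nonneg ha h.1
  · have : y * u * conj ((a:ℂ) * v) = (a:ℂ) * (y * u * conj v) := by
      rw [map_mul, Complex.conj_ofReal]; ring
    rw [this, Complex.im_ofReal_mul]
    exact mul_nonneg ha h.2

/-- rotation -/
lemma R_rot {y u v : ℂ} (h : R y u v) : R y v (y * u) := by
  refine ⟨?_, ?_⟩
  · have : conj v * (y * u) = y * u * conj v := by ring
    rw [this]; exact h.2
  · have : y * v * conj (y * u) = ((Complex.normSq y : ℝ) : ℂ) * (conj u * v) := by
      rw [map_mul, ← Complex.mul_conj]; ring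
    rw [this, Complex.im_ofReal_mul]
    exact mul_nonneg (Complex.normSq_nonneg y) h.1

lemma R_mul_y {y u v : ℂ} (h : R y u v) : R y (y * u) (y * v) := R_rot (R_rot h)

lemma R_sum_left {ι : Type*} {y v : ℂ} (s : Finset ι) (a : ι → ℝ) (u : ι → ℂ)
    (ha : ∀ i, 0 ≤ a i) (h : ∀ i ∈ s, R y (u i) v) : R y (∑ i ∈ s, (a i : ℂ) * u i) v := by
  classical
  induction s using Finset.induction_on with
  | empty => simpa using R_zero_left y v
  | insert i s hi ih =>
    rw [sum_insert hi]
    exact R_add_left (R_smul_left (ha i) (h i (mem_insert_self _ _)))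
      (ih (fun j hj => h j (mem_insert_of_mem hj)))

lemma R_sum_right {ι : Type*} {y v : ℂ} (s : Finset ι) (a : ι → ℝ) (u : ι → ℂ)
    (ha : ∀ i, 0 ≤ a i) (h : ∀ i ∈ s, R y v (u i)) : R y v (∑ i ∈ s, (a i : ℂ) * u i) := by
  classical
  induction s using Finset.induction_on with
  | empty => simpa using R_zero_right y v
  | insert i s hi ih =>
    rw [sum_insert hi]
    exact R_add_right (R_smul_right (ha i) (h i (mem_insert_self _ _)))
      (ih (fun j hj => h j (mem_insert_of_mem hj)))

lemma ne_zero_of {y w v : ℂ} (h : 0 < (y * w * conj v).im) : v ≠ 0 := by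
  intro h0
  rw [h0] at h
  simp at h

lemma pos_term {y w : ℂ} (hy : 0 < y.im) (hw : w ≠ 0) {a : ℝ} (ha : 0 < a) :
    0 < (y * w * conj ((a:ℂ) * w)).im := by
  have : y * w * conj ((a:ℂ) * w) = ((a * Complex.normSq w : ℝ) : ℂ) * y := by
    rw [map_mul, Complex.conj_ofReal]
    push_cast
    rw [← Complex.mul_conj]; ring
  rw [this, Complex.im_ofReal_mul]
  have := Complex.normSq_pos.mpr hw
  positivity

section positive_r

/-- the recursion for `r ≥ 1` -/
structure Rec (n r : ℕ) (a : ℕ → ℝ) (y : ℂ) (c : ℕ → ℕ → ℂ) : Prop where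
  init : ∀ j ≤ n, c j 0 = 1
  step : ∀ j < n, ∀ m, c j (m+1) = a j * c j m + c (j+1) (m+1)
  top : ∀ m, c n (m+1) = y * (if r ≤ m + 1 then c 0 (m + 1 - r) else 0)

variable {n r : ℕ} {a : ℕ → ℝ} {y : ℂ} {c : ℕ → ℕ → ℂ}

/-- the past values -/
noncomputable def U (c : ℕ → ℕ → ℂ) (m k : ℕ) : ℂ := if k ≤ m then c 0 (m - k) else 0

lemma U_succ (c : ℕ → ℕ → ℂ) (m k : ℕ) : U c (m+1) (k+1) = U c m k := by
  unfold U
  simp only [Nat.add_le_add_iff_right, Nat.add_sub_add_right]

lemma U_zero (c : ℕ → ℕ → ℂ) (m : ℕ) : U c m 0 = c 0 m := by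
  unfold U; simp

lemma rec_sum (h : Rec n r a y c) (m j : ℕ) (hj : j ≤ n) :
    c j (m+1) = ∑ i ∈ Ico j n, (a i : ℂ) * c i m + c n (m+1) := by
  obtain ⟨k, hk⟩ := Nat.exists_eq_add_of_le hj
  induction k generalizing j with
  | zero =>
    have : j = n := by omega
    rw [this]; simp
  | succ k ih =>
    rw [h.step j (by omega) m, ih (j+1) (by omega) (by omega),
      sum_eq_sum_Ico_succ_bot (by omega : j < n)]
    ring

structure Inv (n r : ℕ) (y : ℂ) (c : ℕ → ℕ → ℂ) (m : ℕ) : Prop where
  one : ∀ i j, i ≤ j → j < n → R y (c i m) (c j m)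
  two : ∀ k < r, ∀ i < n, R y (U c m k) (c i m)
  three : ∀ k l, k ≤ l → l < r → R y (U c m l) (U c m k)
  four : ∀ i < n, c i m ≠ 0

theorem inv_all (hn : 1 ≤ n) (hr : 1 ≤ r) (ha : ∀ i, 0 < a i) (hy : 0 < y.im)
    (h : Rec n r a y c) (m : ℕ) : Inv n r y c m := by
  induction m with
  | zero =>
    refine ⟨?_, ?_, ?_, ?_⟩
    · intro i j hij hj
      rw [h.init i (by omega), h.init j (by omega)]
      exact R_refl hy.le 1
    · intro k hk i hi
      rw [h.init i (by omega)]
      rcases Nat.eq_zero_or_pos k with h0 | h0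
      · rw [h0, U_zero, h.init 0 (by omega)]; exact R_refl hy.le 1
      · unfold U
        rw [if_neg (by omega)]; exact R_zero_left _ _
    · intro k l hkl hl
      rcases Nat.eq_zero_or_pos l with h0 | h0
      · rw [h0, show k = 0 by omega]; exact R_refl hy.le _
      · have : U c 0 l = 0 := by unfold U; rw [if_neg (by omega)]
        rw [this]; exact R_zero_left _ _
    · intro i hi
      rw [h.init i (by omega)]; exact one_ne_zero
  | succ m ih =>
    set G := c n (m+1) with hG
    have hGU : G = y * U c m (r-1) := by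
      rw [hG, h.top m]
      unfold U
      congr 1
      by_cases h1 : r ≤ m + 1
      · rw [if_pos h1, if_pos (by omega)]; congr 1; omega
      · rw [if_neg h1, if_neg (by omega)]
    have hfG : ∀ i < n, R y (c i m) G := by
      intro i hi
      rw [hGU]; exact R_rot (ih.two (r-1) (by omega) i hi)
    have hUG : ∀ k < r, R y (U c m k) G := by
      intro k hk
      rw [hGU]; exact R_rot (ih.three k (r-1) (by omega) (by omega))
    have hfh : ∀ i, i < n → ∀ j, i ≤ j → j ≤ n → R y (c i m) (c j (m+1)) := by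
      intro i hi j hij hj
      rw [rec_sum h m j hj]
      refine R_add_right (R_sum_right _ a _ (fun i => (ha i).le) ?_) (hfG i hi)
      intro l hl
      have := mem_Ico.mp hl
      exact ih.one i l (by omega) (by omega)
    have hUh : ∀ k < r, ∀ j ≤ n, R y (U c m k) (c j (m+1)) := by
      intro k hk j hj
      rw [rec_sum h m j hj]
      refine R_add_right (R_sum_right _ a _ (fun i => (ha i).le) ?_) (hUG k hk)
      intro l hl
      have := mem_Ico.mp hl
      exact ih.two k hk l (by omega)
    have hhh : ∀ j k, j ≤ k → k ≤ n → R y (c j (m+1)) (c k (m+1)) := by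
      intro j k hjk hk
      have e : c j (m+1) = ∑ i ∈ Ico j k, (a i : ℂ) * c i m + c k (m+1) := by
        rw [rec_sum h m j (by omega), rec_sum h m k hk, ← add_assoc,
          sum_Ico_consecutive _ hjk hk]
      rw [e]
      refine R_add_left (R_sum_left _ a _ (fun i => (ha i).le) ?_) (R_refl hy.le _)
      intro l hl
      have := mem_Ico.mp hl
      exact hfh l (by omega) k (by omega) hk
    refine ⟨?_, ?_, ?_, ?_⟩
    · intro i j hij hj
      exact hhh i j hij hj.le
    · intro k hk i hi
      rcases k with _ | k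
      · rw [U_zero]; exact hhh 0 i (by omega) hi.le
      · rw [U_succ]; exact hUh k (by omega) i hi.le
    · intro k l hkl hl
      rcases k with _ | k
      · rw [U_zero]
        rcases l with _ | l
        · rw [U_zero]; exact R_refl hy.le _
        · rw [U_succ]; exact hUh l (by omega) 0 (by omega)
      · obtain ⟨l, rfl⟩ : ∃ l', l = l' + 1 := ⟨l - 1, by omega⟩
        rw [U_succ, U_succ]
        exact ih.three k l (by omega) (by omega)
    · intro j hj
      apply ne_zero_of (y := y) (w := c j m)
      rw [rec_sum h m j hj.le, sum_eq_sum_Ico_succ_bot hj]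
      have p1 := pos_term hy (ih.four j hj) (ha j)
      have p2 : R y (c j m) (∑ i ∈ Ico (j+1) n, (a i : ℂ) * c i m) := by
        apply R_sum_right _ a _ (fun i => (ha i).le)
        intro l hl
        have := mem_Ico.mp hl
        exact ih.one j l (by omega) (by omega)
      have p3 := hfG j hj
      have e : y * c j m * conj ((a j : ℂ) * c j m + ∑ k ∈ Ico (j + 1) n, (a k : ℂ) * c k m + G)
          = y * c j m * conj ((a j : ℂ) * c j m) + y * c j m * conj (∑ k ∈ Ico (j + 1) n, (a k : ℂ) * c k m)
            + y * c j m * conj G := by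
        rw [map_add, map_add]; ring
      rw [← hG, e, Complex.add_im, Complex.add_im]
      have := p2.2
      have := p3.2
      linarith

end positive_r

section zero_r

/-- the recursion for `r = 0` -/
structure Rec0 (n : ℕ) (a : ℕ → ℝ) (y : ℂ) (c : ℕ → ℕ → ℂ) : Prop where
  init : ∀ j < n, c j 0 = 1
  step : ∀ j < n, ∀ m, c j (m+1) = ∑ i ∈ Ico j n, (a i : ℂ) * c i m
    + y * ∑ i ∈ range j, (a i : ℂ) * c i m

variable {n : ℕ} {a : ℕ → ℝ} {y : ℂ} {c : ℕ → ℕ → ℂ}

theorem inv0_all (ha : ∀ i, 0 < a i) (hy : 0 < y.im) (h : Rec0 n a y c) (m : ℕ) :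
    (∀ i j, i ≤ j → j < n → R y (c i m) (c j m)) ∧ ∀ i < n, c i m ≠ 0 := by
  induction m with
  | zero =>
    refine ⟨?_, ?_⟩
    · intro i j hij hj
      rw [h.init i (by omega), h.init j hj]
      exact R_refl hy.le 1
    · intro i hi
      rw [h.init i hi]; exact one_ne_zero
  | succ m ih =>
    obtain ⟨ih1, ih2⟩ := ih
    -- sums over ordered blocks
    have hblock : ∀ (s t : Finset ℕ), (∀ i ∈ s, ∀ j ∈ t, i ≤ j ∧ j < n) →
        R y (∑ i ∈ s, (a i : ℂ) * c i m) (∑ j ∈ t, (a j : ℂ) * c j m) := by
      intro s t hst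
      apply R_sum_left _ a _ (fun i => (ha i).le)
      intro i hi
      apply R_sum_right _ a _ (fun i => (ha i).le)
      intro j hj
      exact ih1 i j (hst i hi j hj).1 (hst i hi j hj).2
    refine ⟨?_, ?_⟩
    · intro j k hjk hk
      rw [h.step j (by omega) m, h.step k hk m, ← sum_Ico_consecutive _ hjk hk.le,
        ← sum_range_add_sum_Ico _ hjk]
      set A := ∑ i ∈ Ico k n, (a i : ℂ) * c i m
      set B := ∑ i ∈ Ico j k, (a i : ℂ) * c i m
      set C := ∑ i ∈ range j, (a i : ℂ) * c i m
      have hBA : R y B A := hblock _ _ (by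
        intro i hi l hl
        have := mem_Ico.mp hi
        have := mem_Ico.mp hl
        omega)
      have hCB : R y C B := hblock _ _ (by
        intro i hi l hl
        have := mem_range.mp hi
        have := mem_Ico.mp hl
        omega)
      have e : B + A + y * C = (A + y * C) + B := by ring
      have e' : A + y * (C + B) = (A + y * C) + y * B := by ring
      rw [e, e']
      refine R_add_left (R_add_right (R_refl hy.le _) ?_) (R_add_right ?_ ?_)
      · exact R_add_left (R_rot hBA) (R_mul_y hCB)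
      · exact R_add_right hBA (R_rot hCB)
      · exact R_rot (R_refl hy.le B)
    · intro j hj
      apply ne_zero_of (y := y) (w := c j m)
      rw [h.step j hj m, sum_eq_sum_Ico_succ_bot hj]
      have p1 := pos_term hy (ih2 j hj) (ha j)
      have p2 : R y (c j m) (∑ i ∈ Ico (j+1) n, (a i : ℂ) * c i m) := by
        apply R_sum_right _ a _ (fun i => (ha i).le)
        intro l hl
        have := mem_Ico.mp hl
        exact ih1 j l (by omega) (by omega)
      have p3 : R y (c j m) (y * ∑ i ∈ range j, (a i : ℂ) * c i m) := by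
        apply R_rot
        apply R_sum_left _ a _ (fun i => (ha i).le)
        intro l hl
        have := mem_range.mp hl
        exact ih1 l j (by omega) hj
      have e : y * c j m * conj ((a j : ℂ) * c j m + ∑ k ∈ Ico (j + 1) n, (a k : ℂ) * c k m
          + y * ∑ i ∈ range j, (a i : ℂ) * c i m)
          = y * c j m * conj ((a j : ℂ) * c j m) + y * c j m * conj (∑ k ∈ Ico (j + 1) n, (a k : ℂ) * c k m)
            + y * c j m * conj (y * ∑ i ∈ range j, (a i : ℂ) * c i m) := by
        rw [map_add, map_add]; ring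
      rw [e, Complex.add_im, Complex.add_im]
      have := p2.2
      have := p3.2
      linarith

end zero_r

end Pool.Agent.R260.Il
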