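import Pool.Agent.R260.IlA

set_option autoImplicit false

open Finset ComplexConjugate

namespace Pool.Agent.R260.Il

/-- the product `∏_{i<j} (1 - a_i t)` as a power series -/
noncomputable def Pr (a : ℕ → ℝ) (j : ℕ) : PowerSeries ℂ :=
  ∏ i ∈ range j, (1 - PowerSeries.C (a i : ℂ) * PowerSeries.X)

lemma Pr_zero (a : ℕ → ℝ) : Pr a 0 = 1 := by simp [Pr]

lemma Pr_succ (a : ℕ → ℝ) (j : ℕ) :
    Pr a (j+1) = (1 - PowerSeries.C (a j : ℂ) * PowerSeries.X) * Pr a j := by
  unfold Pr; rw [prod_range_succ, mul_comm]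

lemma Pr_const (a : ℕ → ℝ) (j : ℕ) : PowerSeries.constantCoeff (Pr a j) = 1 := by
  induction j with
  | zero => simp [Pr]
  | succ j ih => rw [Pr_succ, map_mul, ih]; simp

noncomputable def HH (a : ℕ → ℝ) (n r : ℕ) (y : ℂ) : PowerSeries ℂ :=
  Pr a n - PowerSeries.C y * PowerSeries.X ^ r

noncomputable def cc (a : ℕ → ℝ) (n r : ℕ) (y : ℂ) (j m : ℕ) : ℂ :=
  PowerSeries.coeff m (Pr a j * (HH a n r y)⁻¹)

lemma cc_step (a : ℕ → ℝ) (n r : ℕ) (y : ℂ) (j m : ℕ) :
    cc a n r y j (m+1) = a j * cc a n r y j m + cc a n r y (j+1) (m+1) := by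
  unfold cc
  rw [Pr_succ, sub_mul, one_mul, sub_mul, map_sub]
  have e : PowerSeries.C (a j : ℂ) * PowerSeries.X * Pr a j * (HH a n r y)⁻¹
      = PowerSeries.C (a j : ℂ) * (PowerSeries.X * (Pr a j * (HH a n r y)⁻¹)) := by ring
  rw [e, PowerSeries.coeff_C_mul, PowerSeries.coeff_succ_X_mul]
  ring

lemma HH_const (a : ℕ → ℝ) (n r : ℕ) (y : ℂ) (hr : 1 ≤ r) :
    PowerSeries.constantCoeff (HH a n r y) = 1 := by
  unfold HH
  rw [map_sub, Pr_const, map_mul, map_pow]
  simp [show r ≠ 0 by omega]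

lemma HH_const0 (a : ℕ → ℝ) (n : ℕ) (y : ℂ) :
    PowerSeries.constantCoeff (HH a n 0 y) = 1 - y := by
  unfold HH
  rw [map_sub, Pr_const]
  simp

theorem rec_cc (a : ℕ → ℝ) (n r : ℕ) (y : ℂ) (hr : 1 ≤ r) : Rec n r a y (cc a n r y) := by
  have hne : PowerSeries.constantCoeff (HH a n r y) ≠ 0 := by
    rw [HH_const a n r y hr]; exact one_ne_zero
  refine ⟨?_, ?_, ?_⟩
  · intro j _
    unfold cc
    rw [PowerSeries.coeff_zero_eq_constantCoeff_apply, map_mul, Pr_const,
      PowerSeries.constantCoeff_inv, HH_const a n r y hr]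
    simp
  · intro j _ m
    exact cc_step a n r y j m
  · intro m
    have h1 : Pr a n * (HH a n r y)⁻¹ = 1 + PowerSeries.C y * (PowerSeries.X ^ r * (HH a n r y)⁻¹) := by
      have h2 := PowerSeries.mul_inv_cancel (HH a n r y) hne
      have h3 : Pr a n = HH a n r y + PowerSeries.C y * PowerSeries.X ^ r := by unfold HH; ring
      calc Pr a n * (HH a n r y)⁻¹ = (HH a n r y + PowerSeries.C y * PowerSeries.X ^ r) * (HH a n r y)⁻¹ := by
            rw [← h3]
        _ = HH a n r y * (HH a n r y)⁻¹ + PowerSeries.C y * (PowerSeries.X ^ r * (HH a n r y)⁻¹) := by ring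
        _ = _ := by rw [h2]
    show PowerSeries.coeff (m+1) (Pr a n * (HH a n r y)⁻¹) = _
    rw [h1, map_add, PowerSeries.coeff_C_mul, PowerSeries.coeff_X_pow_mul', PowerSeries.coeff_one,
      if_neg (by omega), zero_add]
    unfold cc
    rw [Pr_zero, one_mul]

theorem rec0_cc (a : ℕ → ℝ) (n : ℕ) (y : ℂ) (hy : y ≠ 1) :
    Rec0 n a y (fun j m => (1 - y)^(m+1) * cc a n 0 y j m) := by
  have h1y : 1 - y ≠ 0 := fun h => hy (by linear_combination -h)
  have hne : PowerSeries.constantCoeff (HH a n 0 y) ≠ 0 := by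
    rw [HH_const0]; exact h1y
  have htop : ∀ m, cc a n 0 y n (m+1) = y * cc a n 0 y 0 (m+1) := by
    intro m
    have h2 := PowerSeries.mul_inv_cancel (HH a n 0 y) hne
    have h3 : Pr a n = HH a n 0 y + PowerSeries.C y := by unfold HH; simp
    have h1 : Pr a n * (HH a n 0 y)⁻¹ = 1 + PowerSeries.C y * (HH a n 0 y)⁻¹ := by
      calc Pr a n * (HH a n 0 y)⁻¹ = (HH a n 0 y + PowerSeries.C y) * (HH a n 0 y)⁻¹ := by rw [← h3]
        _ = HH a n 0 y * (HH a n 0 y)⁻¹ + PowerSeries.C y * (HH a n 0 y)⁻¹ := by ring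
        _ = _ := by rw [h2]
    unfold cc
    rw [h1, map_add, PowerSeries.coeff_C_mul, PowerSeries.coeff_one, if_neg (by omega), zero_add,
      Pr_zero, one_mul]
  have hsum : ∀ m j, j ≤ n → cc a n 0 y j (m+1) = ∑ i ∈ Ico j n, (a i : ℂ) * cc a n 0 y i m
      + cc a n 0 y n (m+1) := by
    intro m j hj
    obtain ⟨k, hk⟩ := Nat.exists_eq_add_of_le hj
    induction k generalizing j with
    | zero =>
      have : j = n := by omega
      rw [this]; simp
    | succ k ih =>
      rw [cc_step, ih (j+1) (by omega) (by omega), sum_eq_sum_Ico_succ_bot (by omega : j < n)]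
      ring
  refine ⟨?_, ?_⟩
  · intro j _
    simp only [cc, zero_add, pow_one]
    rw [PowerSeries.coeff_zero_eq_constantCoeff_apply, map_mul, Pr_const,
      PowerSeries.constantCoeff_inv, HH_const0, one_mul, mul_inv_cancel₀ h1y]
  · intro j hj m
    have e0 := hsum m 0 (Nat.zero_le _)
    have ej := hsum m j hj.le
    rw [htop] at e0 ej
    have hA : ∀ s : Finset ℕ, ∑ i ∈ s, (a i : ℂ) * ((1 - y)^(m+1) * cc a n 0 y i m)
        = (1-y)^(m+1) * ∑ i ∈ s, (a i : ℂ) * cc a n 0 y i m := by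
      intro s
      rw [mul_sum]
      apply sum_congr rfl
      intro i _; ring
    simp only [hA]
    have hsplit : ∑ i ∈ Ico 0 n, (a i : ℂ) * cc a n 0 y i m
        = ∑ i ∈ range j, (a i : ℂ) * cc a n 0 y i m + ∑ i ∈ Ico j n, (a i : ℂ) * cc a n 0 y i m := by
      rw [Finset.range_eq_Ico, sum_Ico_consecutive _ (Nat.zero_le _) hj.le]
    rw [hsplit] at e0
    set A := ∑ i ∈ Ico j n, (a i : ℂ) * cc a n 0 y i m
    set B := ∑ i ∈ range j, (a i : ℂ) * cc a n 0 y i m
    set X := cc a n 0 y 0 (m+1)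
    have hX : (1 - y) * X = B + A := by linear_combination e0
    rw [ej, pow_succ]
    linear_combination ((1-y)^(m+1) * y) * hX

open ComplexOrder in
theorem pos_cc (a : ℕ → ℝ) (ha : ∀ i, 0 < a i) (n r : ℕ) (y : ℝ) (hy : 0 ≤ y) (hr : 1 ≤ r)
    (m : ℕ) : ∀ j < n, 0 < cc a n r y j m := by
  have hrec := rec_cc a n r y hr
  induction m using Nat.strong_induction_on with
  | _ m ih =>
    rcases m with _ | m
    · intro j hj
      rw [hrec.init j hj.le]; exact one_pos
    · intro j hj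
      rw [rec_sum hrec m j hj.le]
      have h1 : 0 < ∑ i ∈ Ico j n, (a i : ℂ) * cc a n r y i m := by
        apply sum_pos
        · intro i hi
          have := mem_Ico.mp hi
          exact mul_pos (by exact_mod_cast ha i) (ih m (by omega) i (by omega))
        · exact ⟨j, mem_Ico.mpr ⟨le_rfl, hj⟩⟩
      have h2 : 0 ≤ cc a n r y n (m+1) := by
        rw [hrec.top m]
        apply mul_nonneg (by exact_mod_cast hy)
        split_ifs with h
        · exact (ih _ (by omega) 0 (by omega)).le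
        · exact le_rfl
      exact add_pos_of_pos_of_nonneg h1 h2

open ComplexOrder in
theorem pos0 (a : ℕ → ℝ) (ha : ∀ i, 0 < a i) (n : ℕ) (y : ℝ) (hy : 0 ≤ y) (c : ℕ → ℕ → ℂ)
    (hrec : Rec0 n a y c) (m : ℕ) : ∀ j < n, 0 < c j m := by
  induction m with
  | zero =>
    intro j hj
    rw [hrec.init j hj]; exact one_pos
  | succ m ih =>
    intro j hj
    rw [hrec.step j hj m]
    have h1 : 0 < ∑ i ∈ Ico j n, (a i : ℂ) * c i m := by
      apply sum_pos
      · intro i hi
        have := mem_Ico.mp hi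
        exact mul_pos (by exact_mod_cast ha i) (ih i (by omega))
      · exact ⟨j, mem_Ico.mpr ⟨le_rfl, hj⟩⟩
    have h2 : 0 ≤ (y:ℂ) * ∑ i ∈ range j, (a i : ℂ) * c i m := by
      apply mul_nonneg (by exact_mod_cast hy)
      apply sum_nonneg
      intro i hi
      have := mem_range.mp hi
      exact mul_nonneg (by exact_mod_cast (ha i).le) (ih i (by omega)).le
    exact add_pos_of_pos_of_nonneg h1 h2

open Polynomial in
/-- a product over positive roots -/
lemma prod_roots (s : Multiset ℂ) (hs : ∀ x ∈ s, x.im = 0 ∧ 0 < x.re) :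
    ∃ a : ℕ → ℝ, (∀ i, 0 < a i) ∧ ∃ k : ℂ, (s.map (fun x => (X - C x : ℂ[X]))).prod
      = C k * ∏ i ∈ range (Multiset.card s), (1 - C (a i : ℂ) * X) := by
  induction s using Multiset.induction with
  | empty => exact ⟨fun _ => 1, fun _ => one_pos, 1, by simp⟩
  | cons x s ih =>
    obtain ⟨a, ha, k, hk⟩ := ih (fun y hy => hs y (Multiset.mem_cons_of_mem hy))
    obtain ⟨hx1, hx2⟩ := hs x (Multiset.mem_cons_self x s)
    refine ⟨fun i => if i < Multiset.card s then a i else 1 / x.re, ?_, -x * k, ?_⟩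
    · intro i
      simp only
      split_ifs
      · exact ha i
      · positivity
    · rw [Multiset.map_cons, Multiset.prod_cons, hk, Multiset.card_cons, prod_range_succ]
      beta_reduce
      rw [if_neg (lt_irrefl _)]
      have e1 : ∏ i ∈ range (Multiset.card s), (1 - C (((if i < Multiset.card s then a i else 1 / x.re) : ℝ) : ℂ) * X)
          = ∏ i ∈ range (Multiset.card s), (1 - C (a i : ℂ) * X) := by
        apply prod_congr rfl
        intro i hi
        rw [if_pos (mem_range.mp hi)]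
      rw [e1]
      have hxx : x = ((x.re : ℝ) : ℂ) := by
        apply Complex.ext <;> simp [hx1]
      have hx0 : (x.re : ℂ) ≠ 0 := by exact_mod_cast hx2.ne'
      have e2 : (X - C x : ℂ[X]) = C (-x) * (1 - C (((1 / x.re : ℝ)) : ℂ) * X) := by
        have h3 : x * (((1 / x.re : ℝ)) : ℂ) = 1 := by
          conv_lhs => rw [hxx]
          push_cast
          simp only [Complex.ofReal_re]
          field_simp
        have h4 : C x * C (((1 / x.re : ℝ)) : ℂ) = (1 : ℂ[X]) := by
          rw [← C_mul, h3, C_1]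
        rw [C_neg]
        linear_combination (-X : ℂ[X]) * h4
      rw [e2, C_mul]
      ring

end Pool.Agent.R260.Il
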