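import Mathlib

set_option autoImplicit false

open MeasureTheory Filter Set Topology

namespace Pool.Agent.R260.Lac

/-- weak convergence to zero from a pi-system -/
lemma weak_conv (μ : Measure ℝ) [IsFiniteMeasure μ] (g : ℕ → ℝ → ℝ) (C : ℝ)
    (hg : ∀ m, Integrable (g m) μ) (hg2 : ∀ m, Integrable (fun x => (g m x)^2) μ)
    (hC : ∀ m, ∫ x, (g m x)^2 ∂μ ≤ C)
    (hu : Tendsto (fun m => ∫ x, g m x ∂μ) atTop (𝓝 0))
    (h : ∀ a, Tendsto (fun m => ∫ x in Iic a, g m x ∂μ) atTop (𝓝 0))
    (W : Set ℝ) (hW : MeasurableSet W) :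
    Tendsto (fun m => ∫ x in W, g m x ∂μ) atTop (𝓝 0) := by
  have hC0 : 0 ≤ C := le_trans (integral_nonneg (fun x => sq_nonneg _)) (hC 0)
  -- uniform integrability
  have hui : ∀ (A : Set ℝ) (m : ℕ) (l : ℝ), 0 < l → MeasurableSet A →
      |∫ x in A, g m x ∂μ| ≤ (l * μ.real A + C / l) / 2 := by
    intro A m l hl hA
    calc |∫ x in A, g m x ∂μ| ≤ ∫ x in A, |g m x| ∂μ := abs_integral_le_integral_abs
      _ ≤ ∫ x in A, (l + (g m x)^2 / l) / 2 ∂μ := by
          apply integral_mono (hg m).abs.integrableOn
          · apply Integrable.div_const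
            apply Integrable.add
            · exact integrable_const _
            · exact ((hg2 m).div_const l).integrableOn
          · intro x
            have h1 : 0 ≤ (l - |g m x|)^2 / l := by positivity
            have h2 : (l - |g m x|)^2 / l = l - 2 * |g m x| + (g m x)^2 / l := by
              rw [sub_sq, sq_abs]; field_simp
            show |g m x| ≤ (l + (g m x)^2 / l) / 2
            linarith
      _ = (l * μ.real A + (∫ x in A, (g m x)^2 ∂μ) / l) / 2 := by
          rw [integral_div, integral_add (integrable_const _) (((hg2 m).div_const l).integrableOn),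
            integral_div]
          simp [mul_comm]
      _ ≤ (l * μ.real A + C / l) / 2 := by
          have : ∫ x in A, (g m x)^2 ∂μ ≤ ∫ x, (g m x)^2 ∂μ :=
            setIntegral_le_integral (hg2 m) (Eventually.of_forall (fun x => sq_nonneg _))
          have h3 := hC m
          gcongr
          linarith
  refine MeasurableSpace.induction_on_inter (C := fun W _ =>
    Tendsto (fun m => ∫ x in W, g m x ∂μ) atTop (𝓝 0)) (borel_eq_generateFrom_Iic ℝ)
    isPiSystem_Iic ?_ ?_ ?_ ?_ W hW
  · simp
  · rintro _ ⟨a, rfl⟩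
    exact h a
  · intro t ht hlim
    have : (fun m => ∫ x in tᶜ, g m x ∂μ) = fun m => (∫ x, g m x ∂μ) - ∫ x in t, g m x ∂μ := by
      ext m
      rw [← integral_add_compl ht (hg m)]; ring
    rw [this]
    simpa using hu.sub hlim
  · intro f hd hf hlim
    rw [Metric.tendsto_atTop]
    intro ε hε
    set l : ℝ := 2 * C / ε + 1 with hl
    have hlpos : 0 < l := by positivity
    have hCl : C / l < ε / 2 := by
      rw [div_lt_iff₀ hlpos, hl]
      have : ε / 2 * (2 * C / ε + 1) = C + ε / 2 := by field_simp
      linarith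
    -- tails
    have htail : Tendsto (fun N => μ.real (⋃ i ∈ Ici N, f i)) atTop (𝓝 0) := by
      have h1 : Tendsto (fun N => μ (⋃ i ∈ Ici N, f i)) atTop (𝓝 0) := by
        have h2 := tendsto_measure_biUnion_Ici_zero_of_pairwise_disjoint (μ := μ) (Es := f)
          (fun i => (hf i).nullMeasurableSet) hd
        simpa [Function.comp_def] using h2
      have := (ENNReal.tendsto_toReal (by simp : (0 : ENNReal) ≠ ⊤)).comp h1
      simpa [Measure.real, Function.comp_def] using this
    have hex : ∃ N, μ.real (⋃ i ∈ Ici N, f i) < ε / (2 * l) := by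
      have := htail.eventually (gt_mem_nhds (show (0:ℝ) < ε / (2 * l) by positivity))
      exact this.exists
    obtain ⟨N, hN⟩ := hex
    have hsplit : ∀ m, ∫ x in ⋃ i, f i, g m x ∂μ =
        (∑ i ∈ Finset.range N, ∫ x in f i, g m x ∂μ) + ∫ x in ⋃ i ∈ Ici N, f i, g m x ∂μ := by
      intro m
      have hU : (⋃ i, f i) = (⋃ i ∈ Finset.range N, f i) ∪ ⋃ i ∈ Ici N, f i := by
        ext x
        simp only [mem_iUnion, mem_union, Finset.mem_range, mem_Ici, exists_prop]
        constructor
        · rintro ⟨i, hi⟩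
          rcases lt_or_ge i N with h | h
          · exact Or.inl ⟨i, h, hi⟩
          · exact Or.inr ⟨i, h, hi⟩
        · rintro (⟨i, _, hi⟩ | ⟨i, _, hi⟩) <;> exact ⟨i, hi⟩
      rw [hU, setIntegral_union]
      · congr 1
        rw [integral_biUnion_finset]
        · intro i _; exact hf i
        · intro i _ j _ hij; exact hd hij
        · intro i _; exact (hg m).integrableOn
      · rw [Set.disjoint_left]
        intro x hx hx'
        simp only [mem_iUnion, Finset.mem_range, mem_Ici, exists_prop] at hx hx'
        obtain ⟨i, hi, hxi⟩ := hx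
        obtain ⟨j, hj, hxj⟩ := hx'
        have hij : i ≠ j := by omega
        exact Set.disjoint_left.mp (hd hij) hxi hxj
      · exact MeasurableSet.biUnion (to_countable _) (fun i _ => hf i)
      · exact (hg m).integrableOn
      · exact (hg m).integrableOn
    have hfin : Tendsto (fun m => ∑ i ∈ Finset.range N, ∫ x in f i, g m x ∂μ) atTop (𝓝 0) := by
      have := tendsto_finsetSum (Finset.range N) (fun i _ => hlim i)
      simpa using this
    rw [Metric.tendsto_atTop] at hfin
    have hgap : 0 < ε / 4 := by positivity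
    obtain ⟨m0, hm0⟩ := hfin (ε / 4) hgap
    refine ⟨m0, fun m hm => ?_⟩
    have h1 := hm0 m hm
    rw [Real.dist_eq, sub_zero] at h1 ⊢
    rw [hsplit m]
    have h2 := hui (⋃ i ∈ Ici N, f i) m l hlpos
      (MeasurableSet.biUnion (to_countable _) (fun i _ => hf i))
    have h3 : l * μ.real (⋃ i ∈ Ici N, f i) < ε / 2 := by
      calc l * μ.real (⋃ i ∈ Ici N, f i) < l * (ε / (2 * l)) := by gcongr
        _ = ε / 2 := by field_simp
    calc _ ≤ |∑ i ∈ Finset.range N, ∫ x in f i, g m x ∂μ| + |∫ x in ⋃ i ∈ Ici N, f i, g m x ∂μ| :=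
          abs_add_le _ _
      _ < ε := by linarith

end Pool.Agent.R260.Lac
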