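import Mathlib

set_option autoImplicit false

open MeasureTheory Filter Set Topology

namespace Pool.Agent.R260.Lac

/-- cosine polynomials of degree at most `N` -/
def TP (N : ℕ) : Submodule ℝ (ℝ → ℝ) :=
  Submodule.span ℝ {f | ∃ j : ℕ, j ≤ N ∧ f = fun x => Real.cos ((j : ℝ) * x)}

lemma cos_mem_TP {j N : ℕ} (h : j ≤ N) : (fun x => Real.cos ((j : ℝ) * x)) ∈ TP N :=
  Submodule.subset_span ⟨j, h, rfl⟩

lemma TP_mono {N M : ℕ} (h : N ≤ M) : TP N ≤ TP M := by
  apply Submodule.span_mono
  rintro f ⟨j, hj, rfl⟩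
  exact ⟨j, hj.trans h, rfl⟩

lemma TP_mul {N M : ℕ} {f g : ℝ → ℝ} (hf : f ∈ TP N) (hg : g ∈ TP M) : f * g ∈ TP (N + M) := by
  have h : TP N * TP M ≤ TP (N + M) := by
    unfold TP
    rw [Submodule.span_mul_span, Submodule.span_le]
    rintro _ ⟨f, ⟨j, hj, rfl⟩, g, ⟨k, hk, rfl⟩, rfl⟩
    have e : ((fun x => Real.cos ((j : ℝ) * x)) * (fun x => Real.cos ((k : ℝ) * x)) : ℝ → ℝ)
        = (1 / 2 : ℝ) • (fun x => Real.cos (((j + k : ℕ) : ℝ) * x))
          + (1 / 2 : ℝ) • (fun x => Real.cos ((((max j k - min j k : ℕ)) : ℝ) * x)) := by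
      ext x
      simp only [Pi.mul_apply, Pi.add_apply, Pi.smul_apply, smul_eq_mul]
      rcases le_total j k with h | h
      · rw [max_eq_right h, min_eq_left h]
        push_cast [Nat.cast_sub h]
        rw [sub_mul, add_mul, Real.cos_sub, Real.cos_add]; ring
      · rw [max_eq_left h, min_eq_right h]
        push_cast [Nat.cast_sub h]
        rw [sub_mul, add_mul, Real.cos_sub, Real.cos_add]; ring
    show ((fun x => Real.cos ((j : ℝ) * x)) * (fun x => Real.cos ((k : ℝ) * x)) : ℝ → ℝ) ∈ _
    rw [e]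
    apply Submodule.add_mem
    · exact Submodule.smul_mem _ _ (Submodule.subset_span ⟨j + k, by omega, rfl⟩)
    · exact Submodule.smul_mem _ _ (Submodule.subset_span ⟨_, by omega, rfl⟩)
  exact h (Submodule.mul_mem_mul hf hg)

lemma integral_cos_nat {N : ℕ} (h : N ≠ 0) :
    ∫ x in (0:ℝ)..(2 * Real.pi), Real.cos ((N : ℝ) * x) = 0 := by
  have hN : (N : ℝ) ≠ 0 := by exact_mod_cast h
  have := intervalIntegral.integral_comp_mul_left (a := 0) (b := 2 * Real.pi)
    (fun x => Real.cos x) hN
  rw [this]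
  simp only [mul_zero, integral_cos, Real.sin_zero, sub_zero, smul_eq_mul]
  have : Real.sin ((N : ℝ) * (2 * Real.pi)) = 0 := by
    have := Real.sin_nat_mul_pi (N * 2)
    push_cast at this
    rw [← mul_assoc]; exact this
  rw [this, mul_zero]

lemma TP_cont_orth {M N : ℕ} (h : M < N) {f : ℝ → ℝ} (hf : f ∈ TP M) :
    Continuous f ∧ ∫ x in (0:ℝ)..(2 * Real.pi), f x * Real.cos ((N : ℝ) * x) = 0 := by
  unfold TP at hf
  induction hf using Submodule.span_induction with
  | mem f hf =>
    obtain ⟨j, hj, rfl⟩ := hf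
    refine ⟨by fun_prop, ?_⟩
    have e : ∀ x : ℝ, Real.cos ((j : ℝ) * x) * Real.cos ((N : ℝ) * x)
        = (1/2) * Real.cos (((N + j : ℕ) : ℝ) * x) + (1/2) * Real.cos (((N - j : ℕ) : ℝ) * x) := by
      intro x
      push_cast [Nat.cast_sub (show j ≤ N by omega)]
      rw [sub_mul, add_mul, Real.cos_sub, Real.cos_add]; ring
    simp_rw [e]
    rw [intervalIntegral.integral_add, intervalIntegral.integral_const_mul,
      intervalIntegral.integral_const_mul, integral_cos_nat (by omega), integral_cos_nat (by omega)]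
    · simp
    · exact Continuous.intervalIntegrable (by fun_prop) _ _
    · exact Continuous.intervalIntegrable (by fun_prop) _ _
  | zero => exact ⟨continuous_const, by simp⟩
  | add f g _ _ hf hg =>
    refine ⟨hf.1.add hg.1, ?_⟩
    have : ∀ x, (f + g) x * Real.cos ((N : ℝ) * x)
      = f x * Real.cos ((N : ℝ) * x) + g x * Real.cos ((N : ℝ) * x) := by
      intro x; simp only [Pi.add_apply]; ring
    simp_rw [this]
    rw [intervalIntegral.integral_add, hf.2, hg.2, add_zero]
    · exact Continuous.intervalIntegrable (hf.1.mul (by fun_prop)) _ _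
    · exact Continuous.intervalIntegrable (hg.1.mul (by fun_prop)) _ _
  | smul c f _ hf =>
    refine ⟨hf.1.const_smul c, ?_⟩
    have : ∀ x, (c • f) x * Real.cos ((N : ℝ) * x)
      = c * (f x * Real.cos ((N : ℝ) * x)) := by
      intro x; simp only [Pi.smul_apply, smul_eq_mul]; ring
    simp_rw [this]
    rw [intervalIntegral.integral_const_mul, hf.2, mul_zero]

/-- partial sums with coefficients -/
noncomputable def PS (n : ℕ → ℕ) (c : ℕ → ℝ) (m : ℕ) (x : ℝ) : ℝ :=
  ∑ k ∈ Finset.range m, c k * Real.cos ((n k : ℝ) * x)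

lemma PS_succ (n : ℕ → ℕ) (c : ℕ → ℝ) (m : ℕ) (x : ℝ) :
    PS n c (m+1) x = PS n c m x + c m * Real.cos ((n m : ℝ) * x) := by
  unfold PS; rw [Finset.sum_range_succ]

lemma PS_cont (n : ℕ → ℕ) (c : ℕ → ℝ) (m : ℕ) : Continuous (PS n c m) := by
  unfold PS; fun_prop

lemma PS_mem (n : ℕ → ℕ) (c : ℕ → ℝ) (h0 : 0 < n 0) (h4 : ∀ k, 4 * n k ≤ n (k+1)) (m : ℕ) :
    ∃ B, PS n c m ∈ TP B ∧ 3 * B < n m := by
  have hpos : ∀ k, 0 < n k := by
    intro k; induction k with
    | zero => exact h0
    | succ k ih => have := h4 k; omega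
  have hmono : Monotone n := monotone_nat_of_le_succ (fun k => by have := h4 k; omega)
  cases m with
  | zero =>
    refine ⟨0, ?_, by have := hpos 0; omega⟩
    have : PS n c 0 = 0 := by ext x; simp [PS]
    rw [this]; exact Submodule.zero_mem _
  | succ m =>
    refine ⟨n m, ?_, by have := h4 m; have := hpos m; omega⟩
    have : PS n c (m+1) = ∑ k ∈ Finset.range (m+1), (c k) • (fun x => Real.cos ((n k : ℝ) * x)) := by
      ext x; simp [PS]
    rw [this]
    apply Submodule.sum_mem
    intro k hk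
    apply Submodule.smul_mem
    apply cos_mem_TP
    apply hmono
    have := Finset.mem_range.mp hk
    omega

lemma PS_moments (n : ℕ → ℕ) (c : ℕ → ℝ) (h0 : 0 < n 0) (h4 : ∀ k, 4 * n k ≤ n (k+1))
    (hc : ∀ k, |c k| ≤ 1) (m : ℕ) :
    (∫ x in (0:ℝ)..(2 * Real.pi), (PS n c m x)^2 ≤ Real.pi * m) ∧
    (∫ x in (0:ℝ)..(2 * Real.pi), (PS n c m x)^4 ≤ 6 * Real.pi * m^2) := by
  have hpi := Real.pi_pos
  have hpos : ∀ k, 0 < n k := by
    intro k; induction k with
    | zero => exact h0
    | succ k ih => have := h4 k; omega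
  induction m with
  | zero => simp [PS]
  | succ m ih =>
    obtain ⟨B, hB, hB3⟩ := PS_mem n c h0 h4 m
    obtain ⟨ih2, ih4⟩ := ih
    set s := PS n c m with hs
    have hsc : Continuous s := PS_cont n c m
    set C : ℝ → ℝ := fun x => Real.cos ((n m : ℝ) * x) with hC
    have hCc : Continuous C := by rw [hC]; fun_prop
    have hii : ∀ f : ℝ → ℝ, Continuous f → IntervalIntegrable f volume 0 (2 * Real.pi) :=
      fun f hf => hf.intervalIntegrable _ _
    have o1 : ∫ x in (0:ℝ)..(2 * Real.pi), s x * C x = 0 :=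
      (TP_cont_orth (M := B) (by omega) hB).2
    have o3 : ∫ x in (0:ℝ)..(2 * Real.pi), (s x)^3 * C x = 0 := by
      have hm : s * s * s ∈ TP (B + B + B) := TP_mul (TP_mul hB hB) hB
      have := (TP_cont_orth (M := B + B + B) (N := n m) (by omega) hm).2
      simp only [Pi.mul_apply] at this
      have e : ∀ x, (s x)^3 * C x = s x * s x * s x * Real.cos ((n m : ℝ) * x) := by
        intro x; rw [hC]; ring
      simp_rw [e]; exact this
    have o1' : ∫ x in (0:ℝ)..(2 * Real.pi), s x * Real.cos (((3 * n m : ℕ) : ℝ) * x) = 0 :=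
      (TP_cont_orth (M := B) (N := 3 * n m) (by omega) hB).2
    have oc3 : ∫ x in (0:ℝ)..(2 * Real.pi), s x * (C x)^3 = 0 := by
      have e : ∀ x, s x * (C x)^3 = (1/4) * (s x * Real.cos (((3 * n m : ℕ) : ℝ) * x))
          + (3/4) * (s x * C x) := by
        intro x
        have h3 := Real.cos_three_mul ((n m : ℝ) * x)
        have h3' : Real.cos (((3 * n m : ℕ) : ℝ) * x) = 4 * (C x)^3 - 3 * C x := by
          rw [hC]; push_cast; rw [mul_assoc]; exact h3
        rw [h3']; ring
      simp_rw [e]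
      rw [intervalIntegral.integral_add (hii _ (by fun_prop)) (hii _ (by fun_prop)),
        intervalIntegral.integral_const_mul, intervalIntegral.integral_const_mul, o1', o1]
      simp
    have oC2 : ∫ x in (0:ℝ)..(2 * Real.pi), (C x)^2 = Real.pi := by
      have e : ∀ x, (C x)^2 = (1/2) * Real.cos (((2 * n m : ℕ) : ℝ) * x) + 1/2 := by
        intro x
        have h2 := Real.cos_two_mul ((n m : ℝ) * x)
        have h2' : Real.cos (((2 * n m : ℕ) : ℝ) * x) = 2 * (C x)^2 - 1 := by
          rw [hC]; push_cast; rw [mul_assoc]; exact h2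
        rw [h2']; ring
      simp_rw [e]
      rw [intervalIntegral.integral_add (hii _ (by fun_prop)) (hii _ (by fun_prop)),
        intervalIntegral.integral_const_mul, integral_cos_nat (by have := hpos m; omega)]
      simp
      ring
    have hCb : ∀ x, |C x| ≤ 1 := fun x => by rw [hC]; exact Real.abs_cos_le_one _
    have hcm := hc m
    have hcm2 : (c m)^2 ≤ 1 := by rw [← sq_abs]; nlinarith [abs_nonneg (c m)]
    have hcm4 : (c m)^4 ≤ 1 := by nlinarith [sq_nonneg (c m)]
    constructor
    · have e : ∀ x, (PS n c (m+1) x)^2 = (s x)^2 + (2 * c m) * (s x * C x) + (c m)^2 * (C x)^2 := by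
        intro x; rw [PS_succ]; show (s x + c m * C x)^2 = _; ring
      simp_rw [e]
      rw [intervalIntegral.integral_add (hii _ (by fun_prop)) (hii _ (by fun_prop)),
        intervalIntegral.integral_add (hii _ (by fun_prop)) (hii _ (by fun_prop)),
        intervalIntegral.integral_const_mul, intervalIntegral.integral_const_mul, o1, oC2]
      push_cast
      nlinarith
    · have e : ∀ x, (PS n c (m+1) x)^4 = (s x)^4 + (4 * c m) * ((s x)^3 * C x)
          + (6 * (c m)^2) * ((s x)^2 * (C x)^2) + (4 * (c m)^3) * (s x * (C x)^3)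
          + (c m)^4 * (C x)^4 := by
        intro x; rw [PS_succ]; show (s x + c m * C x)^4 = _; ring
      simp_rw [e]
      rw [intervalIntegral.integral_add (hii _ (by fun_prop)) (hii _ (by fun_prop)),
        intervalIntegral.integral_add (hii _ (by fun_prop)) (hii _ (by fun_prop)),
        intervalIntegral.integral_add (hii _ (by fun_prop)) (hii _ (by fun_prop)),
        intervalIntegral.integral_add (hii _ (by fun_prop)) (hii _ (by fun_prop)),
        intervalIntegral.integral_const_mul, intervalIntegral.integral_const_mul,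
        intervalIntegral.integral_const_mul, intervalIntegral.integral_const_mul, o3, oc3]
      have b1 : ∫ x in (0:ℝ)..(2 * Real.pi), (s x)^2 * (C x)^2 ≤
          ∫ x in (0:ℝ)..(2 * Real.pi), (s x)^2 := by
        apply intervalIntegral.integral_mono (by positivity) (hii _ (by fun_prop))
          (hii _ (by fun_prop))
        intro x
        have h1 : (C x)^2 ≤ 1 := by rw [← sq_abs]; have := hCb x; nlinarith [abs_nonneg (C x)]
        show (s x)^2 * (C x)^2 ≤ (s x)^2
        nlinarith [sq_nonneg (s x)]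
      have b2 : ∫ x in (0:ℝ)..(2 * Real.pi), (C x)^4 ≤ Real.pi := by
        refine le_trans ?_ oC2.le
        apply intervalIntegral.integral_mono (by positivity) (hii _ (by fun_prop))
          (hii _ (by fun_prop))
        intro x
        have h1 : (C x)^2 ≤ 1 := by rw [← sq_abs]; have := hCb x; nlinarith [abs_nonneg (C x)]
        show (C x)^4 ≤ (C x)^2
        nlinarith [sq_nonneg (C x)]
      have b3 : 0 ≤ ∫ x in (0:ℝ)..(2 * Real.pi), (s x)^2 * (C x)^2 :=
        intervalIntegral.integral_nonneg (by positivity) (fun x _ => by positivity)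
      have b4 : 0 ≤ ∫ x in (0:ℝ)..(2 * Real.pi), (C x)^4 :=
        intervalIntegral.integral_nonneg (by positivity) (fun x _ => by positivity)
      have c1 : (6 * (c m)^2) * ∫ x in (0:ℝ)..(2 * Real.pi), (s x)^2 * (C x)^2 ≤
          6 * (Real.pi * m) := by
        calc _ ≤ 6 * 1 * ∫ x in (0:ℝ)..(2 * Real.pi), (s x)^2 * (C x)^2 := by gcongr
          _ ≤ 6 * (Real.pi * m) := by linarith
      have c2 : (c m)^4 * ∫ x in (0:ℝ)..(2 * Real.pi), (C x)^4 ≤ Real.pi := by
        calc _ ≤ 1 * ∫ x in (0:ℝ)..(2 * Real.pi), (C x)^4 := by gcongr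
          _ ≤ Real.pi := by linarith
      push_cast
      nlinarith

end Pool.Agent.R260.Lac
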