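import Pool.Agent.R260.LacA
import Pool.Agent.R260.LacB

set_option autoImplicit false

open MeasureTheory Filter Set Topology

namespace Pool.Agent.R260.Lac

/-- the partial sums -/
noncomputable def S (n : ℕ → ℕ) (m : ℕ) (x : ℝ) : ℝ :=
  ∑ k ∈ Finset.range m, Real.cos ((n k : ℝ) * x)

lemma S_succ (n : ℕ → ℕ) (m : ℕ) (x : ℝ) :
    S n (m+1) x = S n m x + Real.cos ((n m : ℝ) * x) := by
  unfold S; rw [Finset.sum_range_succ]

lemma S_cont (n : ℕ → ℕ) (m : ℕ) : Continuous (S n m) := by
  unfold S; fun_prop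

lemma sum_classes (F : ℕ → ℝ) (p m : ℕ) :
    ∑ k ∈ Finset.range (p * m), F k = ∑ i ∈ Finset.range p, ∑ l ∈ Finset.range m, F (p * l + i) := by
  rw [Finset.sum_comm]
  induction m with
  | zero => simp
  | succ m ih =>
    rw [Finset.sum_range_succ, ← ih, mul_add, mul_one, Finset.sum_range_add]

lemma geo (n : ℕ → ℕ) (q : ℝ) (hq : 1 < q) (hpos : ∀ k, 0 < n k)
    (h : ∀ k, q * (n k : ℝ) ≤ (n (k + 1) : ℝ)) (k j : ℕ) :
    q ^ j * (n k : ℝ) ≤ (n (k + j) : ℝ) := by
  induction j with
  | zero => simp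
  | succ j ih =>
    have := h (k + j)
    have hq0 : 0 ≤ q := by linarith
    calc q ^ (j+1) * (n k : ℝ) = q * (q ^ j * (n k : ℝ)) := by ring
      _ ≤ q * (n (k + j) : ℝ) := by gcongr
      _ ≤ _ := this

lemma fourth (n : ℕ → ℕ) (q : ℝ) (hq : 1 < q) (hpos : ∀ k, 0 < n k)
    (h : ∀ k, q * (n k : ℝ) ≤ (n (k + 1) : ℝ)) :
    ∃ C : ℝ, ∀ m, (∫ x in (0:ℝ)..(2 * Real.pi), (S n m x)^2 ≤ C * m) ∧
      ∫ x in (0:ℝ)..(2 * Real.pi), (S n m x)^4 ≤ C * m^2 := by
  obtain ⟨p, hp⟩ : ∃ p : ℕ, 4 < q ^ p := pow_unbounded_of_one_lt 4 hq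
  have hpi := Real.pi_pos
  have hp0 : 0 < p := by
    rcases Nat.eq_zero_or_pos p with h | h
    · rw [h] at hp; norm_num at hp
    · exact h
  refine ⟨6 * Real.pi * p ^ 4, fun m => ?_⟩
  -- class decomposition
  set c : ℕ → ℕ → ℝ := fun i l => if p * l + i < m then 1 else 0 with hcdef
  have hc1 : ∀ i l, |c i l| ≤ 1 := by
    intro i l; rw [hcdef]; dsimp only; split_ifs <;> simp
  have hdec : ∀ x, S n m x = ∑ i ∈ Finset.range p, PS (fun l => n (p * l + i)) (c i) m x := by
    intro x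
    have h1 : S n m x = ∑ k ∈ Finset.range (p * m),
        (if k < m then Real.cos ((n k : ℝ) * x) else 0) := by
      unfold S
      rw [← Finset.sum_filter]
      apply Finset.sum_congr _ (fun _ _ => rfl)
      ext k
      simp only [Finset.mem_range, Finset.mem_filter]
      constructor
      · intro hk; exact ⟨by nlinarith, hk⟩
      · intro hk; exact hk.2
    rw [h1, sum_classes]
    apply Finset.sum_congr rfl
    intro i _
    unfold PS
    apply Finset.sum_congr rfl
    intro l _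
    rw [hcdef]
    dsimp only
    split_ifs <;> simp
  have hmom : ∀ i, (∫ x in (0:ℝ)..(2 * Real.pi), (PS (fun l => n (p * l + i)) (c i) m x)^2
      ≤ Real.pi * m) ∧ (∫ x in (0:ℝ)..(2 * Real.pi), (PS (fun l => n (p * l + i)) (c i) m x)^4
      ≤ 6 * Real.pi * m^2) := by
    intro i
    apply PS_moments
    · exact hpos _
    · intro k
      have h1 := geo n q hq hpos h (p * k + i) p
      have h2 : (4 : ℝ) * (n (p * k + i) : ℝ) ≤ (n (p * (k+1) + i) : ℝ) := by
        have e : p * (k+1) + i = p * k + i + p := by ring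
        rw [e]
        refine le_trans ?_ h1
        have : (0:ℝ) < n (p * k + i) := by exact_mod_cast hpos _
        nlinarith
      exact_mod_cast h2
    · exact hc1 i
  have hPc : ∀ i, Continuous (PS (fun l => n (p * l + i)) (c i) m) := fun i => PS_cont _ _ _
  have hsq : ∀ x, (S n m x)^2 ≤ p * ∑ i ∈ Finset.range p,
      (PS (fun l => n (p * l + i)) (c i) m x)^2 := by
    intro x
    rw [hdec x]
    have := sq_sum_le_card_mul_sum_sq (s := Finset.range p)
      (f := fun i => PS (fun l => n (p * l + i)) (c i) m x)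
    simpa using this
  have hq4 : ∀ x, (S n m x)^4 ≤ p^3 * ∑ i ∈ Finset.range p,
      (PS (fun l => n (p * l + i)) (c i) m x)^4 := by
    intro x
    have h1 := hsq x
    have h2 := sq_sum_le_card_mul_sum_sq (s := Finset.range p)
      (f := fun i => (PS (fun l => n (p * l + i)) (c i) m x)^2)
    have h3 : ∀ i, ((PS (fun l => n (p * l + i)) (c i) m x)^2)^2
      = (PS (fun l => n (p * l + i)) (c i) m x)^4 := by intro i; ring
    simp_rw [h3] at h2
    simp only [Finset.card_range] at h2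
    have h4 : (0:ℝ) ≤ (S n m x)^2 := sq_nonneg _
    calc (S n m x)^4 = ((S n m x)^2)^2 := by ring
      _ ≤ (p * ∑ i ∈ Finset.range p, (PS (fun l => n (p * l + i)) (c i) m x)^2)^2 := by gcongr
      _ = p^2 * (∑ i ∈ Finset.range p, (PS (fun l => n (p * l + i)) (c i) m x)^2)^2 := by ring
      _ ≤ p^2 * (p * ∑ i ∈ Finset.range p, (PS (fun l => n (p * l + i)) (c i) m x)^4) := by gcongr
      _ = _ := by ring
  have hSc := S_cont n m
  have hp1 : (1:ℝ) ≤ p := by exact_mod_cast hp0
  constructor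
  · calc ∫ x in (0:ℝ)..(2 * Real.pi), (S n m x)^2
        ≤ ∫ x in (0:ℝ)..(2 * Real.pi), p * ∑ i ∈ Finset.range p,
          (PS (fun l => n (p * l + i)) (c i) m x)^2 := by
          apply intervalIntegral.integral_mono (by positivity)
          · exact Continuous.intervalIntegrable (by fun_prop) _ _
          · exact Continuous.intervalIntegrable (by fun_prop) _ _
          · exact hsq
      _ = p * ∑ i ∈ Finset.range p, ∫ x in (0:ℝ)..(2 * Real.pi),
          (PS (fun l => n (p * l + i)) (c i) m x)^2 := by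
          rw [intervalIntegral.integral_const_mul, intervalIntegral.integral_finset_sum]
          intro i _
          exact Continuous.intervalIntegrable (by fun_prop) _ _
      _ ≤ p * ∑ i ∈ Finset.range p, Real.pi * m := by
          gcongr with i hi
          exact (hmom i).1
      _ = Real.pi * p^2 * m := by simp; ring
      _ ≤ 6 * Real.pi * p^4 * m := by
          have : Real.pi * (p:ℝ)^2 ≤ 6 * Real.pi * p^4 := by
            have h1 : (p:ℝ)^2 ≤ p^4 := pow_le_pow_right₀ hp1 (by norm_num)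
            nlinarith [pow_pos (lt_of_lt_of_le one_pos hp1) 4]
          gcongr
  · calc ∫ x in (0:ℝ)..(2 * Real.pi), (S n m x)^4
        ≤ ∫ x in (0:ℝ)..(2 * Real.pi), p^3 * ∑ i ∈ Finset.range p,
          (PS (fun l => n (p * l + i)) (c i) m x)^4 := by
          apply intervalIntegral.integral_mono (by positivity)
          · exact Continuous.intervalIntegrable (by fun_prop) _ _
          · exact Continuous.intervalIntegrable (by fun_prop) _ _
          · exact hq4
      _ = p^3 * ∑ i ∈ Finset.range p, ∫ x in (0:ℝ)..(2 * Real.pi),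
          (PS (fun l => n (p * l + i)) (c i) m x)^4 := by
          rw [intervalIntegral.integral_const_mul, intervalIntegral.integral_finset_sum]
          intro i _
          exact Continuous.intervalIntegrable (by fun_prop) _ _
      _ ≤ p^3 * ∑ i ∈ Finset.range p, 6 * Real.pi * m^2 := by
          gcongr with i hi
          exact (hmom i).2
      _ = 6 * Real.pi * p^4 * m^2 := by simp; ring

/-- integrals over initial intervals -/
lemma int_cos_le (t l : ℝ) (hl : 0 < l) : |∫ x in (0:ℝ)..t, Real.cos (l * x)| ≤ 1 / l := by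
  rw [intervalIntegral.integral_comp_mul_left (fun x => Real.cos x) hl.ne']
  simp only [mul_zero, integral_cos, Real.sin_zero, sub_zero, smul_eq_mul]
  rw [abs_mul, abs_of_pos (inv_pos.mpr hl), one_div]
  have := Real.abs_sin_le_one (l * t)
  have h2 : 0 < l⁻¹ := inv_pos.mpr hl
  nlinarith

lemma n_ge (n : ℕ → ℕ) (q : ℝ) (hq : 1 < q) (hpos : ∀ k, 0 < n k)
    (h : ∀ k, q * (n k : ℝ) ≤ (n (k + 1) : ℝ)) (k : ℕ) : q ^ k ≤ (n k : ℝ) := by
  have := geo n q hq hpos h 0 k
  have h0 : (1:ℝ) ≤ n 0 := by exact_mod_cast hpos 0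
  simp only [zero_add] at this
  have hqk : 0 < q ^ k := by positivity
  nlinarith

lemma int_S (n : ℕ → ℕ) (q : ℝ) (hq : 1 < q) (hpos : ∀ k, 0 < n k)
    (h : ∀ k, q * (n k : ℝ) ≤ (n (k + 1) : ℝ)) (t : ℝ) (m : ℕ) :
    |∫ x in (0:ℝ)..t, S n m x| ≤ (1 - q⁻¹)⁻¹ := by
  have hq0 : 0 < q := by linarith
  unfold S
  rw [intervalIntegral.integral_finset_sum]
  swap
  · intro i _
    exact Continuous.intervalIntegrable (by fun_prop) _ _
  calc |∑ k ∈ Finset.range m, ∫ x in (0:ℝ)..t, Real.cos ((n k : ℝ) * x)|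
      ≤ ∑ k ∈ Finset.range m, |∫ x in (0:ℝ)..t, Real.cos ((n k : ℝ) * x)| :=
        Finset.abs_sum_le_sum_abs _ _
    _ ≤ ∑ k ∈ Finset.range m, (q⁻¹) ^ k := by
        apply Finset.sum_le_sum
        intro k _
        have hk : (0:ℝ) < n k := by exact_mod_cast hpos k
        refine (int_cos_le t _ hk).trans ?_
        rw [inv_pow, one_div]
        exact inv_anti₀ (by positivity) (n_ge n q hq hpos h k)
    _ ≤ ∑' k, (q⁻¹) ^ k := by
        apply Summable.sum_le_tsum
        · intro i _; positivity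
        · exact summable_geometric_of_lt_one (by positivity) (inv_lt_one_of_one_lt₀ hq)
    _ = (1 - q⁻¹)⁻¹ := tsum_geometric_of_lt_one (by positivity) (inv_lt_one_of_one_lt₀ hq)

/-- The increments of the centred second moment tend to zero. -/
lemma incr (n : ℕ → ℕ) (q : ℝ) (hq : 1 < q) (hpos : ∀ k, 0 < n k)
    (h : ∀ k, q * (n k : ℝ) ≤ (n (k + 1) : ℝ)) (t : ℝ) :
    Tendsto (fun m => ∫ x in (0:ℝ)..t, (2 * S n m x * Real.cos ((n m : ℝ) * x)
      + Real.cos ((n m : ℝ) * x)^2 - 1/2)) atTop (𝓝 0) := by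
  have hq0 : 0 < q := by linarith
  have hqi : q⁻¹ < 1 := inv_lt_one_of_one_lt₀ hq
  have hqi0 : 0 < q⁻¹ := by positivity
  set D : ℝ := (1 - q⁻¹)⁻¹ with hD
  have hDpos : 0 < D := by rw [hD]; apply inv_pos.mpr; linarith
  have hbound : ∀ m, |∫ x in (0:ℝ)..t, (2 * S n m x * Real.cos ((n m : ℝ) * x)
      + Real.cos ((n m : ℝ) * x)^2 - 1/2)| ≤ (2 * D * m + 1) * (q⁻¹)^m := by
    intro m
    have hm : (0:ℝ) < n m := by exact_mod_cast hpos m
    have hmq := n_ge n q hq hpos h m
    have e : ∀ x, (2 * S n m x * Real.cos ((n m : ℝ) * x)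
      + Real.cos ((n m : ℝ) * x)^2 - 1/2) =
      (∑ k ∈ Finset.range m, (Real.cos (((n m : ℝ) + n k) * x) + Real.cos (((n m : ℝ) - n k) * x)))
        + (1/2) * Real.cos ((2 * (n m : ℝ)) * x) := by
      intro x
      have h2 := Real.cos_two_mul ((n m : ℝ) * x)
      have e2 : (2 * (n m : ℝ)) * x = 2 * ((n m : ℝ) * x) := by ring
      rw [e2, h2]
      unfold S
      have : 2 * (∑ k ∈ Finset.range m, Real.cos ((n k : ℝ) * x)) * Real.cos ((n m : ℝ) * x)
        = ∑ k ∈ Finset.range m, (Real.cos (((n m : ℝ) + n k) * x)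
          + Real.cos (((n m : ℝ) - n k) * x)) := by
        rw [Finset.mul_sum, Finset.sum_mul]
        apply Finset.sum_congr rfl
        intro k _
        rw [add_mul, sub_mul, Real.cos_add, Real.cos_sub]; ring
      rw [this]; ring
    simp_rw [e]
    rw [intervalIntegral.integral_add, intervalIntegral.integral_finset_sum,
      intervalIntegral.integral_const_mul]
    rotate_left
    · intro i _
      exact Continuous.intervalIntegrable (by fun_prop) _ _
    · exact Continuous.intervalIntegrable (by fun_prop) _ _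
    · exact Continuous.intervalIntegrable (by fun_prop) _ _
    have hterm : ∀ k ∈ Finset.range m, |∫ x in (0:ℝ)..t, (Real.cos (((n m : ℝ) + n k) * x)
        + Real.cos (((n m : ℝ) - n k) * x))| ≤ 2 * D * (q⁻¹)^m := by
      intro k hk
      rw [Finset.mem_range] at hk
      have hk0 : (0:ℝ) < n k := by exact_mod_cast hpos k
      have hkm : (n k : ℝ) ≤ q⁻¹ * n m := by
        have h1 := geo n q hq hpos h k (m - k)
        rw [show k + (m - k) = m by omega] at h1
        have h2 : q ≤ q ^ (m - k) := by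
          calc q = q ^ 1 := (pow_one q).symm
            _ ≤ q ^ (m - k) := pow_le_pow_right₀ hq.le (by omega)
        have h3 : q * n k ≤ n m := le_trans (by gcongr) h1
        rw [inv_mul_eq_div, le_div_iff₀ hq0]; linarith
      have hdiff : D⁻¹ * n m ≤ (n m : ℝ) - n k := by
        rw [hD, inv_inv]; linarith
      have hDm : 0 < D⁻¹ * n m := by positivity
      have b1 : 1 / ((n m : ℝ) - n k) ≤ D * (q⁻¹)^m := by
        calc 1 / ((n m : ℝ) - n k) ≤ 1 / (D⁻¹ * n m) := one_div_le_one_div_of_le hDm hdiff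
          _ = D * (n m : ℝ)⁻¹ := by field_simp
          _ ≤ D * (q⁻¹)^m := by
            rw [inv_pow]; gcongr
      have b2 : 1 / ((n m : ℝ) + n k) ≤ D * (q⁻¹)^m :=
        le_trans (one_div_le_one_div_of_le (by linarith) (by linarith)) b1
      rw [intervalIntegral.integral_add]
      rotate_left
      · exact Continuous.intervalIntegrable (by fun_prop) _ _
      · exact Continuous.intervalIntegrable (by fun_prop) _ _
      calc _ ≤ |∫ x in (0:ℝ)..t, Real.cos (((n m : ℝ) + n k) * x)|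
            + |∫ x in (0:ℝ)..t, Real.cos (((n m : ℝ) - n k) * x)| := abs_add_le _ _
        _ ≤ 1 / ((n m : ℝ) + n k) + 1 / ((n m : ℝ) - n k) :=
            add_le_add (int_cos_le t _ (by linarith)) (int_cos_le t _ (by linarith))
        _ ≤ 2 * D * (q⁻¹)^m := by linarith
    have hlast : |(1/2) * ∫ x in (0:ℝ)..t, Real.cos ((2 * (n m : ℝ)) * x)| ≤ (q⁻¹)^m := by
      have h1 := int_cos_le t (2 * (n m : ℝ)) (by linarith)
      have h2 : 1 / (2 * (n m : ℝ)) ≤ (q⁻¹)^m := by
        rw [inv_pow, one_div]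
        exact inv_anti₀ (by positivity) (by linarith)
      rw [abs_mul, abs_of_pos (by norm_num : (0:ℝ) < 1/2)]
      have := abs_nonneg (∫ x in (0:ℝ)..t, Real.cos ((2 * (n m : ℝ)) * x))
      linarith
    calc _ ≤ |∑ k ∈ Finset.range m, ∫ x in (0:ℝ)..t, (Real.cos (((n m : ℝ) + n k) * x)
        + Real.cos (((n m : ℝ) - n k) * x))| + |(1/2) * ∫ x in (0:ℝ)..t,
          Real.cos ((2 * (n m : ℝ)) * x)| := abs_add_le _ _
      _ ≤ (∑ k ∈ Finset.range m, |∫ x in (0:ℝ)..t, (Real.cos (((n m : ℝ) + n k) * x)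
        + Real.cos (((n m : ℝ) - n k) * x))|) + (q⁻¹)^m :=
          add_le_add (Finset.abs_sum_le_sum_abs _ _) hlast
      _ ≤ (∑ k ∈ Finset.range m, 2 * D * (q⁻¹)^m) + (q⁻¹)^m := by
          gcongr with k hk
          exact hterm k hk
      _ = _ := by simp; ring
  apply squeeze_zero_norm hbound
  have t1 : Tendsto (fun m : ℕ => (m : ℝ) * (q⁻¹)^m) atTop (𝓝 0) :=
    tendsto_self_mul_const_pow_of_lt_one hqi0.le hqi
  have t2 : Tendsto (fun m : ℕ => (q⁻¹)^m) atTop (𝓝 0) :=
    tendsto_pow_atTop_nhds_zero_of_lt_one hqi0.le hqi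
  have : (fun m : ℕ => (2 * D * m + 1) * (q⁻¹)^m) =
      fun m : ℕ => 2 * D * ((m : ℝ) * (q⁻¹)^m) + (q⁻¹)^m := by ext m; ring
  rw [this]
  simpa using (t1.const_mul (2 * D)).add t2

end Pool.Agent.R260.Lac
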