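import Pool.Agent.R260.LacC

set_option autoImplicit false

open MeasureTheory Filter Set Topology

namespace Pool.Agent.R260.Lac

lemma int_Iic (f : ℝ → ℝ) (a : ℝ) :
    ∫ x in Iic a, f x ∂(volume.restrict (Ioc 0 (2 * Real.pi)))
      = ∫ x in (0:ℝ)..(max 0 (min (2 * Real.pi) a)), f x := by
  rw [Measure.restrict_restrict measurableSet_Iic,
    intervalIntegral.integral_of_le (le_max_left _ _)]
  congr 2
  ext x
  simp only [mem_inter_iff, mem_Iic, mem_Ioc, le_max_iff, le_min_iff]
  constructor
  · rintro ⟨h1, h2, h3⟩; exact ⟨h2, Or.inr ⟨h3, h1⟩⟩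
  · rintro ⟨h1, h2 | h2⟩
    · linarith
    · exact ⟨h2.2, h1, h2.1⟩

lemma unbdd (n : ℕ → ℕ) (q : ℝ) (hq : 1 < q) (hpos : ∀ k, 0 < n k)
    (h : ∀ k, q * (n k : ℝ) ≤ (n (k + 1) : ℝ)) (σ : ℝ) (hσ : |σ| = 1) (K : ℝ) (hK : 0 ≤ K)
    (M : ℕ) :
    (volume.restrict (Ioc 0 (2 * Real.pi))) {x | ∀ m ≥ M, -K ≤ σ * S n m x} = 0 := by
  have hpi := Real.pi_pos
  set μ := (volume.restrict (Ioc (0:ℝ) (2 * Real.pi))) with hμ
  have : IsFiniteMeasure μ := by rw [hμ]; infer_instance
  set W := {x | ∀ m ≥ M, -K ≤ σ * S n m x} with hW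
  have hWcl : IsClosed W := by
    have : W = ⋂ m ∈ Ici M, {x | -K ≤ σ * S n m x} := by
      ext x; simp [hW]
    rw [this]
    apply isClosed_biInter
    intro m _
    exact isClosed_le continuous_const (continuous_const.mul (S_cont n m))
  have hWm : MeasurableSet W := hWcl.measurableSet
  obtain ⟨C, hC⟩ := fourth n q hq hpos h
  have hSc := S_cont n
  have hint : ∀ f : ℝ → ℝ, Continuous f → Integrable f μ := fun f hf =>
    (hf.integrableOn_Ioc)
  have hfull : ∀ f : ℝ → ℝ, ∫ x, f x ∂μ = ∫ x in (0:ℝ)..(2 * Real.pi), f x := by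
    intro f; rw [intervalIntegral.integral_of_le (by positivity)]
  have hC0 : 0 ≤ C := by
    have h1 := (hC 1).1
    have h2 : 0 ≤ ∫ x in (0:ℝ)..(2 * Real.pi), (S n 1 x)^2 :=
      intervalIntegral.integral_nonneg (by positivity) (fun x _ => by positivity)
    simp at h1; linarith
  -- first moment
  have hsqrt : Tendsto (fun m : ℕ => Real.sqrt m) atTop atTop :=
    Real.tendsto_sqrt_atTop.comp tendsto_natCast_atTop_atTop
  have hsqrti : Tendsto (fun m : ℕ => (Real.sqrt m)⁻¹) atTop (𝓝 0) :=
    tendsto_inv_atTop_zero.comp hsqrt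
  have hbd : ∀ t : ℝ, Tendsto (fun m : ℕ => ∫ x in (0:ℝ)..t, (Real.sqrt (m:ℝ))⁻¹ * S n m x)
      atTop (𝓝 0) := by
    intro t
    apply squeeze_zero_norm (a := fun m : ℕ => (Real.sqrt m)⁻¹ * (1 - q⁻¹)⁻¹)
    · intro m
      rw [intervalIntegral.integral_const_mul, norm_mul, Real.norm_eq_abs, Real.norm_eq_abs,
        abs_of_nonneg (by positivity)]
      gcongr
      exact int_S n q hq hpos h t m
    · simpa using hsqrti.mul_const ((1 - q⁻¹)⁻¹)
  have hA : Tendsto (fun m : ℕ => ∫ x in W, (Real.sqrt (m:ℝ))⁻¹ * S n m x ∂μ) atTop (𝓝 0) := by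
    apply weak_conv μ (fun (m:ℕ) x => (Real.sqrt (m:ℝ))⁻¹ * S n m x) C
    · intro m; exact hint _ (by have := hSc m; fun_prop)
    · intro m; exact hint _ (by have := hSc m; fun_prop)
    · intro m
      rw [hfull]
      rcases Nat.eq_zero_or_pos m with hm | hm
      · subst hm; simp [S]; exact hC0
      · have hm' : (0:ℝ) < m := by exact_mod_cast hm
        have : ∀ x, ((Real.sqrt m)⁻¹ * S n m x)^2 = (m:ℝ)⁻¹ * (S n m x)^2 := by
          intro x; rw [mul_pow, inv_pow, Real.sq_sqrt hm'.le]
        simp_rw [this]
        rw [intervalIntegral.integral_const_mul, inv_mul_le_iff₀ hm']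
        have := (hC m).1
        linarith
    · simp_rw [hfull]; exact hbd _
    · intro a
      simp_rw [hμ, int_Iic]
      exact hbd _
    · exact hWm
  -- second moment
  have hbd2 : ∀ t : ℝ, Tendsto (fun m : ℕ => ∫ x in (0:ℝ)..t, ((m:ℝ)⁻¹ * (S n m x)^2 - 1/2))
      atTop (𝓝 0) := by
    intro t
    have hces := (incr n q hq hpos h t).cesaro
    refine hces.congr' ?_
    filter_upwards [eventually_ge_atTop 1] with m hm
    have hm' : (m:ℝ) ≠ 0 := by have : 0 < m := hm; positivity
    have hsum : ∀ m : ℕ, ∑ i ∈ Finset.range m, ∫ x in (0:ℝ)..t,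
        (2 * S n i x * Real.cos ((n i : ℝ) * x) + Real.cos ((n i : ℝ) * x)^2 - 1/2)
        = ∫ x in (0:ℝ)..t, ((S n m x)^2 - m/2) := by
      intro m
      induction m with
      | zero => simp [S]
      | succ m ih =>
        rw [Finset.sum_range_succ, ih, ← intervalIntegral.integral_add]
        · congr 1
          ext x
          rw [S_succ]; push_cast; ring
        · exact Continuous.intervalIntegrable (by have := hSc m; fun_prop) _ _
        · exact Continuous.intervalIntegrable (by have := hSc m; fun_prop) _ _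
    rw [hsum, ← intervalIntegral.integral_const_mul]
    congr 1
    ext x
    field_simp
  have hB : Tendsto (fun m : ℕ => ∫ x in W, ((m:ℝ)⁻¹ * (S n m x)^2 - 1/2) ∂μ) atTop (𝓝 0) := by
    apply weak_conv μ (fun (m:ℕ) x => (m:ℝ)⁻¹ * (S n m x)^2 - 1/2) (2 * C + Real.pi)
    · intro m; exact hint _ (by have := hSc m; fun_prop)
    · intro m; exact hint _ (by have := hSc m; fun_prop)
    · intro m
      rw [hfull]
      calc ∫ x in (0:ℝ)..(2 * Real.pi), ((m:ℝ)⁻¹ * (S n m x)^2 - 1/2)^2
          ≤ ∫ x in (0:ℝ)..(2 * Real.pi), (2 * ((m:ℝ)⁻¹)^2 * (S n m x)^4 + 1/2) := by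
            apply intervalIntegral.integral_mono (by positivity)
            · exact Continuous.intervalIntegrable (by have := hSc m; fun_prop) _ _
            · exact Continuous.intervalIntegrable (by have := hSc m; fun_prop) _ _
            · intro x
              show ((m:ℝ)⁻¹ * (S n m x)^2 - 1/2)^2 ≤ 2 * ((m:ℝ)⁻¹)^2 * (S n m x)^4 + 1/2
              nlinarith [sq_nonneg ((m:ℝ)⁻¹ * (S n m x)^2 + 1/2)]
        _ = 2 * ((m:ℝ)⁻¹)^2 * (∫ x in (0:ℝ)..(2 * Real.pi), (S n m x)^4) + Real.pi := by
            rw [intervalIntegral.integral_add, intervalIntegral.integral_const_mul]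
            · simp; ring
            · exact Continuous.intervalIntegrable (by have := hSc m; fun_prop) _ _
            · exact Continuous.intervalIntegrable (by fun_prop) _ _
        _ ≤ 2 * C + Real.pi := by
            rcases Nat.eq_zero_or_pos m with hm | hm
            · subst hm; simp; positivity
            · have hm' : (0:ℝ) < m := by exact_mod_cast hm
              have h4 := (hC m).2
              have : ((m:ℝ)⁻¹)^2 * (∫ x in (0:ℝ)..(2 * Real.pi), (S n m x)^4) ≤ C := by
                rw [inv_pow, inv_mul_le_iff₀ (by positivity)]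
                linarith
              linarith
    · simp_rw [hfull]; exact hbd2 _
    · intro a
      simp_rw [hμ, int_Iic]
      exact hbd2 _
    · exact hWm
  -- conclusion
  by_contra hne
  have hWpos : 0 < μ.real W := by
    rw [Measure.real, ENNReal.toReal_pos_iff]
    exact ⟨pos_iff_ne_zero.mpr hne, measure_lt_top _ _⟩
  have hcompare : ∀ l : ℝ, 0 < l → μ.real W / 2 ≤ C / l^2 := by
    intro l hl
    have hL : Tendsto (fun m : ℕ => ∫ x in W, ((m:ℝ)⁻¹ * (S n m x)^2) ∂μ) atTop
        (𝓝 (μ.real W / 2)) := by
      have := hB.add_const (μ.real W / 2)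
      rw [zero_add] at this
      refine this.congr (fun m => ?_)
      rw [integral_sub]
      · simp; ring
      · exact (hint _ (by have := hSc m; fun_prop)).integrableOn
      · exact (hint _ (by fun_prop)).integrableOn
    have hR : Tendsto (fun m : ℕ => l * (σ * (∫ x in W, (Real.sqrt m)⁻¹ * S n m x ∂μ)
        + 2 * K * μ.real W * (Real.sqrt m)⁻¹) + C / l^2) atTop (𝓝 (C / l^2)) := by
      have := (((hA.const_mul σ).add (hsqrti.const_mul (2 * K * μ.real W))).const_mul l).add_const
        (C / l^2)
      simpa using this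
    refine le_of_tendsto_of_tendsto hL hR ?_
    filter_upwards [eventually_ge_atTop (max M 1)] with m hm
    have hmM : M ≤ m := le_trans (le_max_left _ _) hm
    have hm1 : 1 ≤ m := le_trans (le_max_right _ _) hm
    have hm' : (0:ℝ) < m := by exact_mod_cast hm1
    set r := Real.sqrt m with hr
    have hrpos : 0 < r := Real.sqrt_pos.mpr hm'
    have hr2 : r^2 = m := Real.sq_sqrt hm'.le
    have hSm := hSc m
    calc ∫ x in W, ((m:ℝ)⁻¹ * (S n m x)^2) ∂μ
        ≤ ∫ x in W, ((l * (σ * (r⁻¹ * S n m x) + 2 * K * r⁻¹)
            + (1 / (l^2 * m^2)) * (S n m x)^4)) ∂μ := by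
          apply setIntegral_mono_on
          · exact (hint _ (by fun_prop)).integrableOn
          · exact (hint _ (by fun_prop)).integrableOn
          · exact hWm
          · intro x hx
            have hxm : -K ≤ σ * S n m x := hx m hmM
            have habs : |S n m x| ≤ σ * S n m x + 2 * K := by
              have e : |S n m x| = |σ * S n m x| := by rw [abs_mul, hσ, one_mul]
              rw [e]
              rcases abs_cases (σ * S n m x) with ⟨h1, _⟩ | ⟨h1, _⟩ <;> linarith
            -- pointwise inequality
            have key : (m:ℝ)⁻¹ * (S n m x)^2 ≤ l * (r⁻¹ * |S n m x|)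
                + (1 / (l^2 * m^2)) * (S n m x)^4 := by
              set y := r⁻¹ * |S n m x| with hy
              have hy0 : 0 ≤ y := by positivity
              have e1 : (m:ℝ)⁻¹ * (S n m x)^2 = y^2 := by
                rw [hy, mul_pow, inv_pow, hr2, sq_abs]
              have e2 : (1 / (l^2 * m^2)) * (S n m x)^4 = y^4 / l^2 := by
                have : y^4 = (m:ℝ)⁻¹^2 * (S n m x)^4 := by
                  have : y^4 = (y^2)^2 := by ring
                  rw [this, ← e1]; ring
                rw [this]; field_simp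
              rw [e1, e2]
              rcases le_total y l with hyl | hyl
              · have : 0 ≤ y^4 / l^2 := by positivity
                nlinarith
              · have : y^2 ≤ y^4 / l^2 := by
                  rw [le_div_iff₀ (by positivity)]
                  have : l^2 ≤ y^2 := by gcongr
                  nlinarith [sq_nonneg y]
                have : 0 ≤ l * y := by positivity
                linarith
            refine key.trans ?_
            have : l * (r⁻¹ * |S n m x|) ≤ l * (σ * (r⁻¹ * S n m x) + 2 * K * r⁻¹) := by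
              have hri : 0 < r⁻¹ := by positivity
              apply mul_le_mul_of_nonneg_left _ hl.le
              nlinarith
            linarith
      _ = l * (σ * (∫ x in W, r⁻¹ * S n m x ∂μ) + 2 * K * μ.real W * r⁻¹)
          + (1 / (l^2 * m^2)) * ∫ x in W, (S n m x)^4 ∂μ := by
          rw [integral_add, integral_const_mul, integral_add, integral_const_mul,
            integral_const_mul]
          · have e1 : ∫ x in W, 2 * K * r⁻¹ ∂μ = 2 * K * μ.real W * r⁻¹ := by
              simp; ring
            rw [e1, integral_const_mul]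
          · exact (hint _ (by fun_prop)).integrableOn
          · exact (hint _ (by fun_prop)).integrableOn
          · exact (hint _ (by fun_prop)).integrableOn
          · exact (hint _ (by fun_prop)).integrableOn
      _ ≤ _ := by
          have h4 := (hC m).2
          have h5 : ∫ x in W, (S n m x)^4 ∂μ ≤ ∫ x, (S n m x)^4 ∂μ :=
            setIntegral_le_integral (hint _ (by fun_prop))
              (Eventually.of_forall (fun x => by positivity))
          rw [hfull] at h5
          have : (1 / (l^2 * m^2)) * ∫ x in W, (S n m x)^4 ∂μ ≤ C / l^2 := by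
            rw [div_mul_eq_mul_div, one_mul, div_le_div_iff₀ (by positivity) (by positivity)]
            nlinarith [sq_nonneg l]
          linarith
  -- choose l large
  have h1 := hcompare (Real.sqrt (4 * (C + 1) / μ.real W)) (by positivity)
  rw [Real.sq_sqrt (by positivity)] at h1
  rw [div_div_eq_mul_div, div_le_div_iff₀ (by norm_num) (by positivity)] at h1
  nlinarith

end Pool.Agent.R260.Lac
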