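import Pool.Agent.R260.LacD

set_option autoImplicit false

open MeasureTheory Filter Set Topology

namespace Pool.Agent.R260.Lac

lemma near_neg (a x : ℝ) (ha : 0 < a) : ∃ y, |y - x| ≤ Real.pi / a ∧ Real.cos (a * y) = -1 := by
  have hpi := Real.pi_pos
  set j : ℤ := ⌊a * x / (2 * Real.pi)⌋ with hj
  have h1 : (j:ℝ) ≤ a * x / (2 * Real.pi) := Int.floor_le _
  have h2 : a * x / (2 * Real.pi) < j + 1 := Int.lt_floor_add_one _
  rw [le_div_iff₀ (by positivity)] at h1
  rw [div_lt_iff₀ (by positivity)] at h2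
  refine ⟨(j * (2 * Real.pi) + Real.pi) / a, ?_, ?_⟩
  · rw [le_div_iff₀ ha, ← abs_of_pos ha, ← abs_mul, abs_of_pos ha]
    have : ((j * (2 * Real.pi) + Real.pi) / a - x) * a = j * (2 * Real.pi) + Real.pi - a * x := by
      field_simp
    rw [this, abs_le]
    constructor <;> linarith
  · have : a * ((j * (2 * Real.pi) + Real.pi) / a) = Real.pi + j * (2 * Real.pi) := by
      field_simp; ring
    rw [this, Real.cos_add_int_mul_two_pi, Real.cos_pi]

lemma near_pos (a x : ℝ) (ha : 0 < a) : ∃ y, |y - x| ≤ Real.pi / a ∧ Real.cos (a * y) = 1 := by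
  obtain ⟨y, h1, h2⟩ := near_neg a (x - Real.pi / a) ha
  refine ⟨y + Real.pi / a, ?_, ?_⟩
  · convert h1 using 2; ring
  · have : a * (y + Real.pi / a) = a * y + Real.pi := by field_simp
    rw [this, Real.cos_add_pi, h2]; norm_num

lemma ivt (f : ℝ → ℝ) (hf : Continuous f) (x y ξ r : ℝ) (hr : |y - x| ≤ r)
    (h : (f x - ξ) * (f y - ξ) ≤ 0) : ∃ z, |z - x| ≤ r ∧ f z = ξ := by
  have hmem : ξ ∈ uIcc (f x) (f y) := by
    rw [mem_uIcc]
    by_contra hcon
    push Not at hcon
    rcases lt_trichotomy (f x) ξ with h1 | h1 | h1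
    · have h2 := hcon.1 h1.le
      nlinarith [mul_pos (sub_pos.mpr h1) (sub_pos.mpr h2)]
    · rcases le_total ξ (f y) with h2 | h2
      · have := hcon.1 h1.le; linarith
      · have := hcon.2 h2; linarith
    · have h2 : ξ < f y := by
        by_contra h3
        push Not at h3
        have := hcon.2 h3
        linarith
      nlinarith [mul_pos (sub_pos.mpr h1) (sub_pos.mpr h2)]
  obtain ⟨z, hz, hfz⟩ := intermediate_value_uIcc hf.continuousOn hmem
  refine ⟨z, ?_, hfz⟩
  have := abs_sub_left_of_mem_uIcc hz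
  rw [abs_sub_comm] at this
  have h3 : |z - x| ≤ |y - x| := by
    rw [mem_uIcc] at hz
    rcases hz with hz | hz
    · rw [abs_of_nonneg (by linarith), abs_of_nonneg (by linarith)]; linarith
    · rw [abs_of_nonpos (by linarith), abs_of_nonpos (by linarith)]; linarith
  linarith

lemma crossing (n : ℕ → ℕ) (hpos : ∀ k, 0 < n k) (m : ℕ) (x ξ : ℝ)
    (h : (S n m x - ξ) * (S n (m+1) x - ξ) < 0) :
    ∃ y, |y - x| ≤ Real.pi / n m ∧ (S n m y = ξ ∨ S n (m+1) y = ξ) := by
  have ha : (0:ℝ) < n m := by exact_mod_cast hpos m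
  rcases lt_trichotomy (S n m x) ξ with h1 | h1 | h1
  · have h2 : ξ < S n (m+1) x := by
      by_contra h3; push Not at h3
      nlinarith [mul_nonneg (sub_nonneg.mpr h1.le) (sub_nonneg.mpr h3)]
    obtain ⟨y0, hy, hc⟩ := near_neg (n m) x ha
    rcases lt_or_ge (S n m y0) ξ with h3 | h3
    · have h4 : S n (m+1) y0 < ξ := by rw [S_succ, hc]; linarith
      obtain ⟨z, hz, hz2⟩ := ivt (S n (m+1)) (S_cont n (m+1)) x y0 ξ _ hy
        (by nlinarith [mul_pos (sub_pos.mpr h2) (sub_pos.mpr h4)])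
      exact ⟨z, hz, Or.inr hz2⟩
    · obtain ⟨z, hz, hz2⟩ := ivt (S n m) (S_cont n m) x y0 ξ _ hy
        (by nlinarith [mul_nonneg (sub_nonneg.mpr h1.le) (sub_nonneg.mpr h3)])
      exact ⟨z, hz, Or.inl hz2⟩
  · rw [h1] at h; simp at h
  · have h2 : S n (m+1) x < ξ := by
      by_contra h3; push Not at h3
      nlinarith [mul_nonneg (sub_nonneg.mpr h1.le) (sub_nonneg.mpr h3)]
    obtain ⟨y0, hy, hc⟩ := near_pos (n m) x ha
    rcases lt_or_ge ξ (S n m y0) with h3 | h3
    · have h4 : ξ < S n (m+1) y0 := by rw [S_succ, hc]; linarith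
      obtain ⟨z, hz, hz2⟩ := ivt (S n (m+1)) (S_cont n (m+1)) x y0 ξ _ hy
        (by nlinarith [mul_pos (sub_pos.mpr h2) (sub_pos.mpr h4)])
      exact ⟨z, hz, Or.inr hz2⟩
    · obtain ⟨z, hz, hz2⟩ := ivt (S n m) (S_cont n m) x y0 ξ _ hy
        (by nlinarith [mul_nonneg (sub_nonneg.mpr h1.le) (sub_nonneg.mpr h3)])
      exact ⟨z, hz, Or.inl hz2⟩

lemma sum_le (n : ℕ → ℕ) (q : ℝ) (hq : 1 < q)
    (h : ∀ k, q * (n k : ℝ) ≤ (n (k + 1) : ℝ)) (m : ℕ) :
    ∑ k ∈ Finset.range (m+1), (n k : ℝ) ≤ (1 - q⁻¹)⁻¹ * n m := by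
  have hq0 : 0 < q := by linarith
  have hq1 : 0 < 1 - q⁻¹ := by
    have : q⁻¹ < 1 := inv_lt_one_of_one_lt₀ hq
    linarith
  induction m with
  | zero =>
    simp only [zero_add, Finset.sum_range_one]
    have h1 : 1 ≤ (1 - q⁻¹)⁻¹ := by
      rw [one_le_inv₀ hq1]
      have : 0 < q⁻¹ := by positivity
      linarith
    have h2 : (0:ℝ) ≤ n 0 := by positivity
    nlinarith
  | succ m ih =>
    rw [Finset.sum_range_succ]
    have h1 := h m
    have h2 : (n m : ℝ) ≤ q⁻¹ * n (m+1) := by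
      rw [← mul_le_mul_iff_right₀ hq0]; field_simp; linarith
    have h3 : (1 - q⁻¹)⁻¹ * n m ≤ (1 - q⁻¹)⁻¹ * (q⁻¹ * n (m+1)) := by
      gcongr
    have h4 : (1 - q⁻¹)⁻¹ * (q⁻¹ * n (m+1)) + n (m+1) = (1 - q⁻¹)⁻¹ * n (m+1) := by
      have h5 : (1 - q⁻¹)⁻¹ * (1 - q⁻¹) = 1 := inv_mul_cancel₀ hq1.ne'
      linear_combination -(n (m+1) : ℝ) * h5
    linarith

lemma lip (n : ℕ → ℕ) (m : ℕ) (x y : ℝ) :
    |S n m x - S n m y| ≤ (∑ k ∈ Finset.range m, (n k : ℝ)) * |x - y| := by
  unfold S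
  rw [← Finset.sum_sub_distrib, Finset.sum_mul]
  refine (Finset.abs_sum_le_sum_abs _ _).trans (Finset.sum_le_sum (fun k _ => ?_))
  have := Real.abs_cos_sub_cos_le ((n k : ℝ) * x) ((n k : ℝ) * y)
  refine this.trans ?_
  rw [← mul_sub, abs_mul, abs_of_nonneg (by positivity : (0:ℝ) ≤ n k)]

lemma n_tendsto (n : ℕ → ℕ) (q : ℝ) (hq : 1 < q) (hpos : ∀ k, 0 < n k)
    (h : ∀ k, q * (n k : ℝ) ≤ (n (k + 1) : ℝ)) :
    Tendsto (fun m => (n m : ℝ)) atTop atTop := by
  have h1 : ∀ m, q ^ m ≤ (n m : ℝ) := by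
    intro m
    induction m with
    | zero =>
      have h0 : 1 ≤ n 0 := hpos 0
      simpa using h0
    | succ m ih =>
      rw [pow_succ]
      have : q * q ^ m ≤ q * n m := by gcongr
      linarith [h m]
  exact tendsto_atTop_mono h1 (tendsto_pow_atTop_atTop_of_one_lt hq)

lemma cross_null (n : ℕ → ℕ) (q : ℝ) (hq : 1 < q) (hpos : ∀ k, 0 < n k)
    (h : ∀ k, q * (n k : ℝ) ≤ (n (k + 1) : ℝ)) (ξ ε : ℝ) (hε : 0 < ε) (M : ℕ) :
    volume {x : ℝ | (∀ m ≥ M, ε ≤ |S n m x - ξ|) ∧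
      ∃ᶠ m in atTop, (S n m x - ξ) * (S n (m+1) x - ξ) < 0} = 0 := by
  have hpi := Real.pi_pos
  have hq1 : 0 < 1 - q⁻¹ := by
    have : q⁻¹ < 1 := inv_lt_one_of_one_lt₀ hq
    linarith
  set D := (1 - q⁻¹)⁻¹ with hD
  have hDpos : 0 < D := by positivity
  set W := {x : ℝ | ∀ m ≥ M, ε ≤ |S n m x - ξ|} with hW
  have hWcl : IsClosed W := by
    have : W = ⋂ m ∈ Ici M, {x | ε ≤ |S n m x - ξ|} := by
      ext x; simp [hW]
    rw [this]
    apply isClosed_biInter
    intro m _
    exact isClosed_le continuous_const (((S_cont n m).sub continuous_const).abs)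
  set K := 2 * Real.pi * D / ε with hK
  have hae := IsUnifLocDoublingMeasure.ae_tendsto_measure_inter_div (volume : Measure ℝ) W K
  rw [ae_restrict_iff' hWcl.measurableSet, ae_iff] at hae
  refine measure_mono_null ?_ hae
  rintro x ⟨hxW, hfreq⟩
  simp only [mem_ofPred_eq, Classical.not_imp]
  refine ⟨hxW, ?_⟩
  intro hcon
  set P : Set ℕ := {m | (S n m x - ξ) * (S n (m+1) x - ξ) < 0} with hP
  have hne : (atTop ⊓ 𝓟 P : Filter ℕ).NeBot := by
    rw [← Filter.frequently_mem_iff_neBot]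
    exact hfreq
  have hex : ∀ m, ∃ y, m ∈ P → |y - x| ≤ Real.pi / n m ∧ (S n m y = ξ ∨ S n (m+1) y = ξ) := by
    intro m
    by_cases hm : m ∈ P
    · obtain ⟨y, hy⟩ := crossing n hpos m x ξ hm
      exact ⟨y, fun _ => hy⟩
    · exact ⟨0, fun hh => absurd hh hm⟩
  choose w hw using hex
  set δ : ℕ → ℝ := fun m => ε / (2 * D * n m) with hδ
  have hnpos : ∀ m, (0:ℝ) < n m := fun m => by exact_mod_cast hpos m
  have hδpos : ∀ m, 0 < δ m := fun m => by
    have := hnpos m
    simp only [hδ]; positivity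
  have hδlim : Tendsto δ (atTop ⊓ 𝓟 P) (𝓝[>] 0) := by
    apply Tendsto.mono_left _ inf_le_left
    rw [tendsto_nhdsWithin_iff]
    refine ⟨?_, Eventually.of_forall hδpos⟩
    have h1 := (n_tendsto n q hq hpos h).const_mul_atTop (by positivity : 0 < 2 * D)
    exact h1.const_div_atTop ε
  have hx : ∀ᶠ j in (atTop ⊓ 𝓟 P), x ∈ Metric.closedBall (w j) (K * δ j) := by
    have : ∀ᶠ j in (atTop ⊓ 𝓟 P), j ∈ P := mem_inf_of_right (mem_principal_self P)
    filter_upwards [this] with j hj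
    rw [Metric.mem_closedBall, Real.dist_eq, abs_sub_comm]
    refine ((hw j hj).1).trans ?_
    have := hnpos j
    simp only [hK, hδ]
    apply le_of_eq
    field_simp
  have hlim := hcon w δ hδlim hx
  have hzero : ∀ᶠ j in (atTop ⊓ 𝓟 P),
      volume (W ∩ Metric.closedBall (w j) (δ j)) / volume (Metric.closedBall (w j) (δ j)) = 0 := by
    have h1 : ∀ᶠ j in (atTop ⊓ 𝓟 P), j ∈ P := mem_inf_of_right (mem_principal_self P)
    have h2 : ∀ᶠ j in (atTop ⊓ 𝓟 P), M ≤ j :=
      (eventually_ge_atTop M).filter_mono inf_le_left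
    filter_upwards [h1, h2] with j hj hMj
    have : W ∩ Metric.closedBall (w j) (δ j) = ∅ := by
      rw [Set.eq_empty_iff_forall_notMem]
      rintro z ⟨hzW, hz⟩
      rw [Metric.mem_closedBall, Real.dist_eq] at hz
      have hs := sum_le n q hq h j
      have hs' : ∑ k ∈ Finset.range j, (n k : ℝ) ≤ D * n j := by
        rw [Finset.sum_range_succ] at hs
        have := hnpos j
        linarith
      have hn := hnpos j
      have hδ2 : D * n j * δ j = ε / 2 := by
        simp only [hδ]; field_simp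
      rcases (hw j hj).2 with h3 | h3
      · have h4 := lip n j z (w j)
        rw [h3] at h4
        have h5 := hzW j hMj
        have h6 : (∑ k ∈ Finset.range j, (n k : ℝ)) * |z - w j| ≤ D * n j * δ j := by
          apply mul_le_mul hs' hz (abs_nonneg _) (by positivity)
        linarith
      · have h4 := lip n (j+1) z (w j)
        rw [h3] at h4
        have h5 := hzW (j+1) (by omega)
        have h6 : (∑ k ∈ Finset.range (j+1), (n k : ℝ)) * |z - w j| ≤ D * n j * δ j := by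
          apply mul_le_mul hs hz (abs_nonneg _) (by positivity)
        linarith
    rw [this]; simp
  have h0 : Tendsto (fun j => volume (W ∩ Metric.closedBall (w j) (δ j)) /
      volume (Metric.closedBall (w j) (δ j))) (atTop ⊓ 𝓟 P) (𝓝 0) := by
    refine (tendsto_const_nhds).congr' ?_
    filter_upwards [hzero] with j hj
    exact hj.symm
  have := tendsto_nhds_unique hlim h0
  exact one_ne_zero this

lemma not_freq_null (n : ℕ → ℕ) (q : ℝ) (hq : 1 < q) (hpos : ∀ k, 0 < n k)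
    (h : ∀ k, q * (n k : ℝ) ≤ (n (k + 1) : ℝ)) (ξ ε : ℝ) (hε : 0 < ε) :
    (volume.restrict (Ioc 0 (2 * Real.pi)))
      {x : ℝ | ¬ ∃ᶠ m in atTop, |S n m x - ξ| < ε} = 0 := by
  set μ := (volume.restrict (Ioc (0:ℝ) (2 * Real.pi))) with hμ
  have h1 : μ (⋃ M : ℕ, {x : ℝ | (∀ m ≥ M, ε ≤ |S n m x - ξ|) ∧
      ∃ᶠ m in atTop, (S n m x - ξ) * (S n (m+1) x - ξ) < 0}) = 0 := by
    rw [measure_iUnion_null_iff]
    intro M
    exact Measure.absolutelyContinuous_of_le Measure.restrict_le_self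
      (cross_null n q hq hpos h ξ ε hε M)
  have h2 : μ (⋃ M : ℕ, {x | ∀ m ≥ M, -|ξ| ≤ 1 * S n m x}) = 0 := by
    rw [measure_iUnion_null_iff]
    intro M
    exact unbdd n q hq hpos h 1 (by simp) |ξ| (abs_nonneg _) M
  have h3 : μ (⋃ M : ℕ, {x | ∀ m ≥ M, -|ξ| ≤ (-1) * S n m x}) = 0 := by
    rw [measure_iUnion_null_iff]
    intro M
    exact unbdd n q hq hpos h (-1) (by simp) |ξ| (abs_nonneg _) M
  refine measure_mono_null ?_ (measure_union_null (measure_union_null h1 h2) h3)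
  intro x hx
  simp only [mem_ofPred_eq, not_frequently, not_lt, eventually_atTop] at hx
  obtain ⟨M, hM⟩ := hx
  by_cases hc : ∃ᶠ m in atTop, (S n m x - ξ) * (S n (m+1) x - ξ) < 0
  · left; left
    rw [mem_iUnion]
    exact ⟨M, hM, hc⟩
  · simp only [not_frequently, not_lt, eventually_atTop] at hc
    obtain ⟨M', hM'⟩ := hc
    set N := max M M' with hN
    have hne : ∀ m ≥ N, S n m x - ξ ≠ 0 := by
      intro m hm h0
      have := hM m (le_trans (le_max_left _ _) hm)
      rw [h0] at this; simp at this; linarith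
    rcases lt_or_gt_of_ne (hne N le_rfl) with h0 | h0
    · right
      rw [mem_iUnion]
      refine ⟨N, ?_⟩
      have : ∀ m, S n (N + m) x - ξ < 0 := by
        intro m
        induction m with
        | zero => exact h0
        | succ m ih =>
          have h5 := hM' (N + m) (le_trans (le_max_right _ _) (Nat.le_add_right _ _))
          have h6 := hne (N + m + 1) (by omega)
          rw [← add_assoc]
          by_contra h7
          push Not at h7
          have h8 : 0 < S n (N + m + 1) x - ξ := lt_of_le_of_ne h7 (Ne.symm h6)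
          have := mul_pos h8 (neg_pos.mpr ih)
          linarith
      intro m hm
      obtain ⟨j, rfl⟩ := Nat.exists_eq_add_of_le hm
      have := this j
      have := neg_abs_le ξ
      have := le_abs_self ξ
      linarith
    · left; right
      rw [mem_iUnion]
      refine ⟨N, ?_⟩
      have : ∀ m, 0 < S n (N + m) x - ξ := by
        intro m
        induction m with
        | zero => exact h0
        | succ m ih =>
          have h5 := hM' (N + m) (le_trans (le_max_right _ _) (Nat.le_add_right _ _))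
          have h6 := hne (N + m + 1) (by omega)
          rw [← add_assoc]
          by_contra h7
          push Not at h7
          have h8 : S n (N + m + 1) x - ξ < 0 := lt_of_le_of_ne h7 h6
          have := mul_pos ih (neg_pos.mpr h8)
          linarith
      intro m hm
      obtain ⟨j, rfl⟩ := Nat.exists_eq_add_of_le hm
      have := this j
      have := neg_abs_le ξ
      linarith

lemma all_null (n : ℕ → ℕ) (q : ℝ) (hq : 1 < q) (hpos : ∀ k, 0 < n k)
    (h : ∀ k, q * (n k : ℝ) ≤ (n (k + 1) : ℝ)) :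
    (volume.restrict (Ioc 0 (2 * Real.pi)))
      {x : ℝ | ¬ ∀ ξ : ℝ, ∀ ε : ℝ, 0 < ε → ∃ᶠ m in atTop, |S n m x - ξ| < ε} = 0 := by
  set μ := (volume.restrict (Ioc (0:ℝ) (2 * Real.pi))) with hμ
  have h1 : μ (⋃ ξ : ℚ, ⋃ k : ℕ,
      {x : ℝ | ¬ ∃ᶠ m in atTop, |S n m x - (ξ:ℝ)| < 1 / ((k:ℝ) + 1)}) = 0 := by
    rw [measure_iUnion_null_iff]
    intro ξ
    rw [measure_iUnion_null_iff]
    intro k
    exact not_freq_null n q hq hpos h ξ _ (by positivity)
  refine measure_mono_null ?_ h1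
  intro x hx
  simp only [mem_ofPred_eq, not_forall] at hx
  obtain ⟨ξ, ε, hε, hx⟩ := hx
  obtain ⟨k, hk⟩ := exists_nat_one_div_lt (half_pos hε)
  obtain ⟨r, hr1, hr2⟩ := exists_rat_btwn (show ξ - ε / 2 < ξ by linarith)
  simp only [mem_iUnion]
  refine ⟨r, k, ?_⟩
  intro hf
  apply hx
  refine hf.mono (fun m hm => ?_)
  have : S n m x - ξ = (S n m x - r) + (r - ξ) := by ring
  rw [this]
  refine lt_of_le_of_lt (abs_add_le _ _) ?_
  have : |(r:ℝ) - ξ| < ε / 2 := by rw [abs_lt]; constructor <;> linarith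
  linarith

end Pool.Agent.R260.Lac
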