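import Mathlib

set_option autoImplicit false

open MeasureTheory Filter Set Topology

namespace Pool.Agent.R260.Lip

lemma inner1 {b c : ℝ} (hbc : b < c) (hb : 0 < b) (H : ℝ) (hH : 0 ≤ H) :
    ∫⁻ t in Ioi (0:ℝ), (if t < H then ENNReal.ofReal (H ^ b * t ^ (c - 1 - b)) else 0)
      = ENNReal.ofReal (H ^ c / (c - b)) := by
  have h1 : ∫⁻ t in Ioi (0:ℝ), (if t < H then ENNReal.ofReal (H ^ b * t ^ (c - 1 - b)) else 0)
      = ∫⁻ t in Ioc (0:ℝ) H, ENNReal.ofReal (H ^ b * t ^ (c - 1 - b)) := by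
    have h2 : ∫⁻ t in Ioi (0:ℝ), (if t < H then ENNReal.ofReal (H ^ b * t ^ (c - 1 - b)) else 0)
        = ∫⁻ t in Ioi (0:ℝ), (Iio H).indicator
            (fun t => ENNReal.ofReal (H ^ b * t ^ (c - 1 - b))) t := by
      congr 1
    rw [h2, lintegral_indicator measurableSet_Iio, Measure.restrict_restrict measurableSet_Iio]
    have h3 : Iio H ∩ Ioi 0 = Ioo 0 H := by ext; simp [and_comm]
    rw [h3, restrict_Ioo_eq_restrict_Ioc]
  rw [h1, ← ofReal_integral_eq_lintegral_ofReal]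
  · congr 1
    rw [← intervalIntegral.integral_of_le hH, intervalIntegral.integral_const_mul,
      integral_rpow (Or.inl (by linarith))]
    have e : c - 1 - b + 1 = c - b := by ring
    rw [e, Real.zero_rpow (by linarith), sub_zero]
    rcases hH.eq_or_lt with h0 | h0
    · have hb' : b ≠ 0 := hb.ne'
      have hc' : c ≠ 0 := (hb.trans hbc).ne'
      rw [← h0, Real.zero_rpow hb', Real.zero_rpow hc']; simp
    · rw [← mul_div_assoc, ← Real.rpow_add h0]; congr 2; ring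
  · have := (intervalIntegral.intervalIntegrable_rpow' (a := 0) (b := H)
      (show -1 < c - 1 - b by linarith)).const_mul (H ^ b)
    rw [intervalIntegrable_iff_integrableOn_Ioc_of_le hH] at this
    exact this
  · filter_upwards [ae_restrict_mem measurableSet_Ioc] with t ht
    have := ht.1
    show 0 ≤ H ^ b * t ^ (c - 1 - b)
    positivity

lemma inner2 {a c : ℝ} (hca : c < a) (hc : 0 < c) (H : ℝ) (hH : 0 ≤ H) :
    ∫⁻ t in Ioi (0:ℝ), (if H ≤ t then ENNReal.ofReal (H ^ a * t ^ (c - 1 - a)) else 0)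
      = ENNReal.ofReal (H ^ c / (a - c)) := by
  rcases hH.eq_or_lt with h0 | h0
  · subst h0
    rw [Real.zero_rpow (by linarith), Real.zero_rpow (by linarith)]
    simp
  have h1 : ∫⁻ t in Ioi (0:ℝ), (if H ≤ t then ENNReal.ofReal (H ^ a * t ^ (c - 1 - a)) else 0)
      = ∫⁻ t in Ioi H, ENNReal.ofReal (H ^ a * t ^ (c - 1 - a)) := by
    have h2 : ∫⁻ t in Ioi (0:ℝ), (if H ≤ t then ENNReal.ofReal (H ^ a * t ^ (c - 1 - a)) else 0)
        = ∫⁻ t in Ioi (0:ℝ), (Ici H).indicator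
            (fun t => ENNReal.ofReal (H ^ a * t ^ (c - 1 - a))) t := by
      congr 1
    rw [h2, lintegral_indicator measurableSet_Ici, Measure.restrict_restrict measurableSet_Ici]
    have h3 : Ici H ∩ Ioi 0 = Ici H := by
      ext x; simp only [mem_inter_iff, mem_Ici, mem_Ioi, and_iff_left_iff_imp]
      intro h; linarith
    rw [h3, restrict_Ioi_eq_restrict_Ici]
  rw [h1, ← ofReal_integral_eq_lintegral_ofReal]
  · congr 1
    rw [integral_const_mul, integral_Ioi_rpow_of_lt (by linarith) h0]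
    have e : c - 1 - a + 1 = c - a := by ring
    rw [e]
    have e2 : -H ^ (c - a) / (c - a) = H ^ (c - a) / (a - c) := by
      rw [← neg_sub a c, neg_div_neg_eq]
    rw [e2, ← mul_div_assoc, ← Real.rpow_add h0]; congr 2; ring
  · exact (integrableOn_Ioi_rpow_of_lt (by linarith) h0).const_mul _
  · filter_upwards [ae_restrict_mem measurableSet_Ioi] with t ht
    have : 0 < t := lt_trans h0 ht
    show 0 ≤ H ^ a * t ^ (c - 1 - a)
    positivity

lemma lc {Ω : Type*} [MeasurableSpace Ω] (μ : Measure Ω) [SFinite μ] {a b c : ℝ} (hb : 0 < b)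
    (hbc : b < c) (hca : c < a) (F : Ω → ℝ) (hF0 : 0 ≤ F) (hF : AEMeasurable F μ) (H : Ω → ℝ)
    (hH0 : 0 ≤ H) (hH : Measurable H)
    (h : ∀ t : ℝ, 0 < t → μ {ω | t < F ω} ≤
      ENNReal.ofReal (t^(-b)) * ∫⁻ ω in {ω | t < H ω}, ENNReal.ofReal (H ω ^ b) ∂μ
      + ENNReal.ofReal (t^(-a)) * ∫⁻ ω in {ω | H ω ≤ t}, ENNReal.ofReal (H ω ^ a) ∂μ) :
    ∫⁻ ω, ENNReal.ofReal (F ω ^ c) ∂μ
      ≤ ENNReal.ofReal (c / (c - b) + c / (a - c)) * ∫⁻ ω, ENNReal.ofReal (H ω ^ c) ∂μ := by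
  have hc : 0 < c := hb.trans hbc
  set K1 : ℝ → Ω → ENNReal := fun t ω =>
    if t < H ω then ENNReal.ofReal (H ω ^ b * t ^ (c - 1 - b)) else 0 with hK1
  set K2 : ℝ → Ω → ENNReal := fun t ω =>
    if H ω ≤ t then ENNReal.ofReal (H ω ^ a * t ^ (c - 1 - a)) else 0 with hK2
  have mK1 : Measurable (Function.uncurry K1) := by
    apply Measurable.ite
    · exact measurableSet_lt measurable_fst (hH.comp measurable_snd)
    · exact (((hH.comp measurable_snd).pow_const b).mul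
        (measurable_fst.pow_const (c - 1 - b))).ennreal_ofReal
    · exact measurable_const
  have mK2 : Measurable (Function.uncurry K2) := by
    apply Measurable.ite
    · exact measurableSet_le (hH.comp measurable_snd) measurable_fst
    · exact (((hH.comp measurable_snd).pow_const a).mul
        (measurable_fst.pow_const (c - 1 - a))).ennreal_ofReal
    · exact measurable_const
  rw [lintegral_rpow_eq_lintegral_meas_lt_mul μ (Eventually.of_forall hF0) hF hc]
  have step : ∫⁻ t in Ioi (0:ℝ), μ {ω | t < F ω} * ENNReal.ofReal (t ^ (c - 1))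
      ≤ ∫⁻ t in Ioi (0:ℝ), ((∫⁻ ω, K1 t ω ∂μ) + ∫⁻ ω, K2 t ω ∂μ) := by
    apply setLIntegral_mono' measurableSet_Ioi
    intro t ht
    have ht0 : (0:ℝ) < t := ht
    have e1 : ∫⁻ ω, K1 t ω ∂μ = ENNReal.ofReal (t^(-b)) *
        (∫⁻ ω in {ω | t < H ω}, ENNReal.ofReal (H ω ^ b) ∂μ) * ENNReal.ofReal (t ^ (c - 1)) := by
      have : ∫⁻ ω, K1 t ω ∂μ = ∫⁻ ω, ({ω | t < H ω} : Set Ω).indicator
          (fun ω => ENNReal.ofReal (H ω ^ b * t ^ (c - 1 - b))) ω ∂μ := by
        congr 1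
      rw [this, lintegral_indicator (measurableSet_lt measurable_const hH)]
      have e : ∀ ω, ENNReal.ofReal (H ω ^ b * t ^ (c - 1 - b))
          = ENNReal.ofReal (t ^ (c - 1 - b)) * ENNReal.ofReal (H ω ^ b) := by
        intro ω
        rw [mul_comm, ENNReal.ofReal_mul (by positivity)]
      simp_rw [e]
      rw [lintegral_const_mul _ (by fun_prop), mul_right_comm, ← ENNReal.ofReal_mul (by positivity),
        ← Real.rpow_add ht0]
      congr 3; ring
    have e2 : ∫⁻ ω, K2 t ω ∂μ = ENNReal.ofReal (t^(-a)) *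
        (∫⁻ ω in {ω | H ω ≤ t}, ENNReal.ofReal (H ω ^ a) ∂μ) * ENNReal.ofReal (t ^ (c - 1)) := by
      have : ∫⁻ ω, K2 t ω ∂μ = ∫⁻ ω, ({ω | H ω ≤ t} : Set Ω).indicator
          (fun ω => ENNReal.ofReal (H ω ^ a * t ^ (c - 1 - a))) ω ∂μ := by
        congr 1
      rw [this, lintegral_indicator (measurableSet_le hH measurable_const)]
      have e : ∀ ω, ENNReal.ofReal (H ω ^ a * t ^ (c - 1 - a))
          = ENNReal.ofReal (t ^ (c - 1 - a)) * ENNReal.ofReal (H ω ^ a) := by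
        intro ω
        rw [mul_comm, ENNReal.ofReal_mul (by positivity)]
      simp_rw [e]
      rw [lintegral_const_mul _ (by fun_prop), mul_right_comm, ← ENNReal.ofReal_mul (by positivity),
        ← Real.rpow_add ht0]
      congr 3; ring
    rw [e1, e2, ← add_mul]
    gcongr
    exact h t ht0
  have step2 : ∫⁻ t in Ioi (0:ℝ), ((∫⁻ ω, K1 t ω ∂μ) + ∫⁻ ω, K2 t ω ∂μ)
      = ENNReal.ofReal (1 / (c - b) + 1 / (a - c)) * ∫⁻ ω, ENNReal.ofReal (H ω ^ c) ∂μ := by
    rw [lintegral_add_left (f := fun t => ∫⁻ ω, K1 t ω ∂μ) mK1.lintegral_prod_right']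
    rw [lintegral_lintegral_swap mK1.aemeasurable, lintegral_lintegral_swap mK2.aemeasurable]
    have i1 : ∀ ω, ∫⁻ t in Ioi (0:ℝ), K1 t ω = ENNReal.ofReal (1 / (c - b)) *
        ENNReal.ofReal (H ω ^ c) := by
      intro ω
      rw [hK1]
      simp only
      rw [inner1 hbc hb (H ω) (hH0 ω), ← ENNReal.ofReal_mul (by
        apply one_div_nonneg.mpr; linarith)]
      congr 1; ring
    have i2 : ∀ ω, ∫⁻ t in Ioi (0:ℝ), K2 t ω = ENNReal.ofReal (1 / (a - c)) *
        ENNReal.ofReal (H ω ^ c) := by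
      intro ω
      rw [hK2]
      simp only
      rw [inner2 hca hc (H ω) (hH0 ω), ← ENNReal.ofReal_mul (by
        apply one_div_nonneg.mpr; linarith)]
      congr 1; ring
    simp_rw [i1, i2]
    rw [lintegral_const_mul _ (by fun_prop), lintegral_const_mul _ (by fun_prop), ← add_mul,
      ENNReal.ofReal_add (by apply one_div_nonneg.mpr; linarith)
        (by apply one_div_nonneg.mpr; linarith)]
  calc ENNReal.ofReal c * ∫⁻ t in Ioi (0:ℝ), μ {ω | t < F ω} * ENNReal.ofReal (t ^ (c - 1))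
      ≤ ENNReal.ofReal c * (ENNReal.ofReal (1 / (c - b) + 1 / (a - c)) *
          ∫⁻ ω, ENNReal.ofReal (H ω ^ c) ∂μ) := by
        rw [← step2]; gcongr
    _ = _ := by
        rw [← mul_assoc, ← ENNReal.ofReal_mul hc.le]
        congr 2; ring

lemma eLp_pow {Ω : Type*} [MeasurableSpace Ω] (μ : Measure Ω) {f : Ω → ℂ} {p : ℝ} (hp : 0 < p) :
    eLpNorm f (ENNReal.ofReal p) μ ^ p = ∫⁻ x, ENNReal.ofReal (‖f x‖ ^ p) ∂μ := by
  rw [eLpNorm_eq_lintegral_rpow_enorm_toReal (by simpa using hp) ENNReal.ofReal_ne_top,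
    ENNReal.toReal_ofReal hp.le, ← ENNReal.rpow_mul, one_div_mul_cancel hp.ne', ENNReal.rpow_one]
  congr
  ext x
  rw [← ofReal_norm, ENNReal.ofReal_rpow_of_nonneg (norm_nonneg _) hp.le]

lemma markov {Ω : Type*} [MeasurableSpace Ω] (μ : Measure Ω) {f : Ω → ℂ}
    (hf : AEStronglyMeasurable f μ) {p : ℝ} (hp : 0 < p) (t : ℝ) (ht : 0 < t) :
    μ {ω | t < ‖f ω‖} ≤ ENNReal.ofReal (t ^ (-p)) * eLpNorm f (ENNReal.ofReal p) μ ^ p := by
  have h1 := mul_meas_ge_le_pow_eLpNorm' μ (p := ENNReal.ofReal p) (by simpa using hp)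
    ENNReal.ofReal_ne_top hf (ENNReal.ofReal t)
  rw [ENNReal.toReal_ofReal hp.le] at h1
  have h2 : μ {ω | t < ‖f ω‖} ≤ μ {ω | ENNReal.ofReal t ≤ ‖f ω‖ₑ} := by
    apply measure_mono
    intro ω hω
    simp only [mem_ofPred_eq] at hω ⊢
    rw [← ofReal_norm]
    exact ENNReal.ofReal_le_ofReal hω.le
  refine h2.trans ?_
  have h3 : ENNReal.ofReal (t ^ (-p)) * (ENNReal.ofReal t ^ p) = 1 := by
    rw [ENNReal.ofReal_rpow_of_pos ht, ← ENNReal.ofReal_mul (by positivity), ← Real.rpow_add ht]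
    simp
  calc μ {ω | ENNReal.ofReal t ≤ ‖f ω‖ₑ}
      = ENNReal.ofReal (t ^ (-p)) * (ENNReal.ofReal t ^ p * μ {ω | ENNReal.ofReal t ≤ ‖f ω‖ₑ}) := by
        rw [← mul_assoc, h3, one_mul]
    _ ≤ _ := by gcongr

end Pool.Agent.R260.Lip
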