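import Pool.Agent.R260.LipA

set_option autoImplicit false

open MeasureTheory Filter Set Topology

namespace Pool.Agent.R260.Lip

/-- Lebesgue measure on `[0,1]`. -/
noncomputable abbrev mu01 : Measure ℝ := volume.restrict (Set.Icc (0:ℝ) 1)

/-- The maps `U` allowed in the problem, with their Lipschitz constants `M0` on `L^β` and `M1` on
`L^α`. -/
structure Adm (β α : ENNReal) (U : Lp ℂ β mu01 → Lp ℂ β mu01) (M0 M1 : NNReal) : Prop where
  lip_beta : ∀ x y : Lp ℂ β mu01,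
    eLpNorm (⇑(U x) - ⇑(U y)) β mu01 ≤ M0 * eLpNorm (⇑x - ⇑y) β mu01
  maps : ∀ x : Lp ℂ β mu01, MemLp x α mu01 → MemLp (U x) α mu01
  lip_alpha : ∀ x y : Lp ℂ β mu01, MemLp x α mu01 → MemLp y α mu01 →
    eLpNorm (⇑(U x) - ⇑(U y)) α mu01 ≤ M1 * eLpNorm (⇑x - ⇑y) α mu01

lemma split_bound {p : ℝ} (hp : 0 < p) (M : ℝ) (hM : 0 < M) (f g : ℝ → ℂ)
    (hf : AEStronglyMeasurable f mu01) (hg : Measurable g) (A : Set ℝ) (hA : MeasurableSet A)
    (h : eLpNorm f (ENNReal.ofReal p) mu01 ≤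
      ENNReal.ofReal M * eLpNorm (A.indicator g) (ENNReal.ofReal p) mu01) (t : ℝ) (ht : 0 < t) :
    mu01 {ω | t / 2 < ‖f ω‖} ≤ ENNReal.ofReal (t ^ (-p)) *
      ∫⁻ ω in A, ENNReal.ofReal ((2 * M * ‖g ω‖) ^ p) ∂mu01 := by
  refine (markov mu01 hf hp (t/2) (by positivity)).trans ?_
  have h1 : eLpNorm f (ENNReal.ofReal p) mu01 ^ p ≤
      ENNReal.ofReal (M ^ p) * ∫⁻ ω in A, ENNReal.ofReal (‖g ω‖ ^ p) ∂mu01 := by
    calc eLpNorm f (ENNReal.ofReal p) mu01 ^ p
        ≤ (ENNReal.ofReal M * eLpNorm (A.indicator g) (ENNReal.ofReal p) mu01) ^ p := by gcongr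
      _ = ENNReal.ofReal (M ^ p) * eLpNorm (A.indicator g) (ENNReal.ofReal p) mu01 ^ p := by
        rw [ENNReal.mul_rpow_of_nonneg _ _ hp.le, ENNReal.ofReal_rpow_of_pos hM]
      _ = _ := by
        rw [eLp_pow mu01 hp, ← lintegral_indicator hA]
        congr 2
        ext ω
        by_cases hω : ω ∈ A
        · simp [hω]
        · simp [hω, Real.zero_rpow hp.ne']
  calc ENNReal.ofReal ((t/2) ^ (-p)) * eLpNorm f (ENNReal.ofReal p) mu01 ^ p
      ≤ ENNReal.ofReal ((t/2) ^ (-p)) * (ENNReal.ofReal (M ^ p) *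
          ∫⁻ ω in A, ENNReal.ofReal (‖g ω‖ ^ p) ∂mu01) := by gcongr
    _ = ENNReal.ofReal (t ^ (-p)) * (ENNReal.ofReal ((2 * M) ^ p) *
          ∫⁻ ω in A, ENNReal.ofReal (‖g ω‖ ^ p) ∂mu01) := by
        rw [← mul_assoc, ← mul_assoc, ← ENNReal.ofReal_mul (by positivity),
          ← ENNReal.ofReal_mul (by positivity)]
        congr 2
        rw [Real.div_rpow ht.le (by norm_num), Real.mul_rpow (by norm_num) hM.le,
          Real.rpow_neg (by norm_num : (0:ℝ) ≤ 2)]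
        field_simp
    _ = _ := by
        rw [← lintegral_const_mul _ (by fun_prop)]
        congr 2
        ext ω
        rw [← ENNReal.ofReal_mul (by positivity), Real.mul_rpow (by positivity) (norm_nonneg _)]

/-- the constant -/
noncomputable def Cst (b c a : ℝ) : ℝ := 2 * (c / (c - b) + c / (a - c)) ^ (1 / c)

lemma Cst_pos {b c a : ℝ} (hb : 0 < b) (hbc : b < c) (hca : c < a) : 0 < Cst b c a := by
  unfold Cst
  have : 0 < c := hb.trans hbc
  have h1 : 0 < c - b := by linarith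
  have h2 : 0 < a - c := by linarith
  positivity

lemma core {b c a : ℝ} (hb : 1 ≤ b) (hbc : b < c) (hca : c < a)
    (U : Lp ℂ (ENNReal.ofReal b) mu01 → Lp ℂ (ENNReal.ofReal b) mu01) (M0 M1 : NNReal)
    (hU : Adm (ENNReal.ofReal b) (ENNReal.ofReal a) U M0 M1) (hM : 0 < max M0 M1)
    (x y : Lp ℂ (ENNReal.ofReal b) mu01) (hx : MemLp x (ENNReal.ofReal a) mu01)
    (hy : MemLp y (ENNReal.ofReal a) mu01) :
    eLpNorm (⇑(U x) - ⇑(U y)) (ENNReal.ofReal c) mu01
      ≤ ENNReal.ofReal (Cst b c a * (max M0 M1 : NNReal)) *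
        eLpNorm (⇑x - ⇑y) (ENNReal.ofReal c) mu01 := by
  have hb0 : 0 < b := by linarith
  have hc0 : 0 < c := by linarith
  have ha0 : 0 < a := by linarith
  set M : ℝ := ((max M0 M1 : NNReal) : ℝ) with hMdef
  have hMpos : 0 < M := by exact_mod_cast hM
  have hM0 : (M0 : ENNReal) ≤ ENNReal.ofReal M := by
    rw [hMdef, ENNReal.ofReal_coe_nnreal]
    exact_mod_cast le_max_left _ _
  have hM1 : (M1 : ENNReal) ≤ ENNReal.ofReal M := by
    rw [hMdef, ENNReal.ofReal_coe_nnreal]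
    exact_mod_cast le_max_right _ _
  set g : ℝ → ℂ := ⇑x - ⇑y with hg
  have hgsm : StronglyMeasurable g := (Lp.stronglyMeasurable x).sub (Lp.stronglyMeasurable y)
  have hgm : Measurable g := hgsm.measurable
  have hgb : MemLp g (ENNReal.ofReal b) mu01 := (Lp.memLp x).sub (Lp.memLp y)
  have hga : MemLp g (ENNReal.ofReal a) mu01 := hx.sub hy
  have key := lc mu01 hb0 hbc hca (fun ω => ‖(⇑(U x) - ⇑(U y)) ω‖) (fun ω => norm_nonneg _)
    (((Lp.aestronglyMeasurable (U x)).sub (Lp.aestronglyMeasurable (U y))).norm.aemeasurable)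
    (fun ω => 2 * M * ‖g ω‖) (fun ω => by positivity) (by fun_prop) ?_
  · -- conclude
    rw [← eLp_pow mu01 hc0] at key
    have e1 : ∫⁻ ω, ENNReal.ofReal ((2 * M * ‖g ω‖) ^ c) ∂mu01
        = ENNReal.ofReal ((2 * M) ^ c) * eLpNorm g (ENNReal.ofReal c) mu01 ^ c := by
      rw [eLp_pow mu01 hc0, ← lintegral_const_mul _ (by fun_prop)]
      congr 1
      ext ω
      rw [← ENNReal.ofReal_mul (by positivity), Real.mul_rpow (by positivity) (norm_nonneg _)]
    rw [e1, ← mul_assoc, ← ENNReal.ofReal_mul (by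
      have h1 : 0 < c - b := by linarith
      have h2 : 0 < a - c := by linarith
      positivity)] at key
    have h1 : 0 < c - b := by linarith
    have h2 : 0 < a - c := by linarith
    have e2 : (c / (c - b) + c / (a - c)) * (2 * M) ^ c = (Cst b c a * M) ^ c := by
      have h3 : ((c / (c - b) + c / (a - c)) ^ (1 / c)) ^ c = c / (c - b) + c / (a - c) := by
        rw [← Real.rpow_mul (by positivity), one_div_mul_cancel hc0.ne', Real.rpow_one]
      unfold Cst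
      have e : 2 * (c / (c - b) + c / (a - c)) ^ (1 / c) * M
          = (2 * M) * (c / (c - b) + c / (a - c)) ^ (1 / c) := by ring
      rw [e, Real.mul_rpow (x := 2 * M) (by positivity) (by positivity), h3]
      ring
    have hCp := Cst_pos hb0 hbc hca
    rw [e2, ← ENNReal.ofReal_rpow_of_pos (by positivity), ← ENNReal.mul_rpow_of_nonneg _ _ hc0.le,
      ENNReal.rpow_le_rpow_iff hc0] at key
    exact key
  · intro t ht
    set A : Set ℝ := {ω | t < 2 * M * ‖g ω‖} with hA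
    have hAm : MeasurableSet A := measurableSet_lt measurable_const (by fun_prop)
    have hAc : Aᶜ = {ω | 2 * M * ‖g ω‖ ≤ t} := by
      ext ω; simp [hA]
    have hzb : MemLp (⇑y + Aᶜ.indicator g) (ENNReal.ofReal b) mu01 :=
      (Lp.memLp y).add (hgb.indicator hAm.compl)
    have hza : MemLp (⇑y + Aᶜ.indicator g) (ENNReal.ofReal a) mu01 :=
      hy.add (hga.indicator hAm.compl)
    set z : Lp ℂ (ENNReal.ofReal b) mu01 := hzb.toLp _ with hz
    have hzc : ⇑z =ᵐ[mu01] ⇑y + Aᶜ.indicator g := hzb.coeFn_toLp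
    have hz' : MemLp z (ENNReal.ofReal a) mu01 := hza.ae_eq hzc.symm
    have hxz : (⇑x - ⇑z) =ᵐ[mu01] A.indicator g := by
      filter_upwards [hzc] with ω hω
      have : (A.indicator g + Aᶜ.indicator g) ω = g ω := by
        rw [indicator_self_add_compl]
      simp only [Pi.sub_apply, Pi.add_apply] at this hω ⊢
      rw [hω]
      have hgω : g ω = x ω - y ω := rfl
      rw [hgω] at this
      linear_combination -this
    have hzy : (⇑z - ⇑y) =ᵐ[mu01] Aᶜ.indicator g := by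
      filter_upwards [hzc] with ω hω
      simp only [Pi.sub_apply, Pi.add_apply] at hω ⊢
      rw [hω]; ring
    have b1 := split_bound hb0 M hMpos (⇑(U x) - ⇑(U z)) g
      ((Lp.aestronglyMeasurable (U x)).sub (Lp.aestronglyMeasurable (U z))) hgm A hAm
      (by
        refine (hU.lip_beta x z).trans ?_
        rw [eLpNorm_congr_ae hxz]
        gcongr) t ht
    have b2 := split_bound ha0 M hMpos (⇑(U z) - ⇑(U y)) g
      ((Lp.aestronglyMeasurable (U z)).sub (Lp.aestronglyMeasurable (U y))) hgm Aᶜ hAm.compl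
      (by
        refine (hU.lip_alpha z y hz' hy).trans ?_
        rw [eLpNorm_congr_ae hzy]
        gcongr) t ht
    rw [hAc] at b2
    refine le_trans ?_ (add_le_add b1 b2)
    refine le_trans (measure_mono ?_) (measure_union_le _ _)
    intro ω hω
    simp only [mem_ofPred_eq, mem_union] at hω ⊢
    by_contra hcon
    push Not at hcon
    have e : (⇑(U x) - ⇑(U y)) ω = (⇑(U x) - ⇑(U z)) ω + (⇑(U z) - ⇑(U y)) ω := by
      simp
    rw [e] at hω
    have := norm_add_le ((⇑(U x) - ⇑(U z)) ω) ((⇑(U z) - ⇑(U y)) ω)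
    linarith [hcon.1, hcon.2]

lemma fact1 : IsProbabilityMeasure mu01 := ⟨by simp⟩

lemma toy {b : ℝ} (hb : 0 < b) (f : ℕ → ℝ → ℂ) (g : ℝ → ℂ) (c : ℝ) (K : ENNReal)
    (hf : ∀ n, AEStronglyMeasurable (f n) mu01) (hg : AEStronglyMeasurable g mu01)
    (hlim : Tendsto (fun n => eLpNorm (f n - g) (ENNReal.ofReal b) mu01) atTop (𝓝 0))
    (u : ℕ → ENNReal) (hu : Tendsto u atTop (𝓝 K))
    (hb' : ∀ n, eLpNorm (f n) (ENNReal.ofReal c) mu01 ≤ u n) :
    eLpNorm g (ENNReal.ofReal c) mu01 ≤ K := by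
  have hmeas : TendstoInMeasure mu01 f atTop g :=
    tendstoInMeasure_of_tendsto_eLpNorm (by simpa using hb) hf hg hlim
  by_cases hK : K = ⊤
  · rw [hK]; exact le_top
  apply ENNReal.le_of_forall_pos_le_add
  intro ε hε _
  apply eLpNorm_le_of_tendstoInMeasure (u := atTop) (f := f) _ hmeas hf
  have : ∀ᶠ n in atTop, u n < K + ε := by
    apply (tendsto_order.1 hu).2
    exact ENNReal.lt_add_right hK (by exact_mod_cast hε.ne')
  filter_upwards [this] with n hn
  exact (hb' n).trans hn.le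

lemma main {b c a : ℝ} (hb : 1 ≤ b) (hbc : b < c) (hca : c < a)
    (U : Lp ℂ (ENNReal.ofReal b) mu01 → Lp ℂ (ENNReal.ofReal b) mu01) (M0 M1 : NNReal)
    (hU : Adm (ENNReal.ofReal b) (ENNReal.ofReal a) U M0 M1)
    (x y : Lp ℂ (ENNReal.ofReal b) mu01) (hx : MemLp x (ENNReal.ofReal c) mu01)
    (hy : MemLp y (ENNReal.ofReal c) mu01) :
    eLpNorm (⇑(U x) - ⇑(U y)) (ENNReal.ofReal c) mu01
      ≤ ENNReal.ofReal (Cst b c a * (max M0 M1 : NNReal)) *
        eLpNorm (⇑x - ⇑y) (ENNReal.ofReal c) mu01 := by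
  have := fact1
  have hb0 : 0 < b := by linarith
  have hc0 : 0 < c := by linarith
  have ha0 : 0 < a := by linarith
  rcases (zero_le (a := max M0 M1)).eq_or_lt with hM | hM
  · -- trivial case
    have h0 : M0 = 0 := by
      have := le_max_left M0 M1
      rw [← hM] at this
      exact le_antisymm this (zero_le)
    have h1 := hU.lip_beta x y
    rw [h0] at h1
    simp only [ENNReal.coe_zero, zero_mul, nonpos_iff_eq_zero] at h1
    rw [eLpNorm_eq_zero_iff ((Lp.aestronglyMeasurable (U x)).sub (Lp.aestronglyMeasurable (U y)))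
      (by simpa using hb0)] at h1
    rw [eLpNorm_congr_ae h1]
    simp
  have happ : ∀ w : Lp ℂ (ENNReal.ofReal b) mu01, MemLp w (ENNReal.ofReal c) mu01 → ∀ n : ℕ,
      ∃ z : Lp ℂ (ENNReal.ofReal b) mu01, MemLp z (ENNReal.ofReal a) mu01 ∧
        eLpNorm (⇑w - ⇑z) (ENNReal.ofReal c) mu01 ≤ ENNReal.ofReal (1 / ((n:ℝ) + 1)) := by
    intro w hw n
    obtain ⟨s, hs1, _⟩ := hw.exists_simpleFunc_eLpNorm_sub_lt ENNReal.ofReal_ne_top
      (ε := ENNReal.ofReal (1 / ((n:ℝ) + 1))) (by simpa using (by positivity : (0:ℝ) < (n:ℝ) + 1))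
    have hsb : MemLp s (ENNReal.ofReal b) mu01 := SimpleFunc.memLp_of_isFiniteMeasure s _ _
    have hsa : MemLp s (ENNReal.ofReal a) mu01 := SimpleFunc.memLp_of_isFiniteMeasure s _ _
    refine ⟨hsb.toLp _, hsa.ae_eq hsb.coeFn_toLp.symm, ?_⟩
    refine le_trans (le_of_eq ?_) hs1.le
    apply eLpNorm_congr_ae
    exact (EventuallyEq.refl _ _).sub hsb.coeFn_toLp
  choose X hXa hXc using happ x hx
  choose Y hYa hYc using happ y hy
  have hone : Tendsto (fun n : ℕ => ENNReal.ofReal (1 / ((n:ℝ) + 1))) atTop (𝓝 0) := by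
    rw [← ENNReal.ofReal_zero]
    exact ENNReal.tendsto_ofReal tendsto_one_div_add_atTop_nhds_zero_nat
  have hle : ∀ f : ℝ → ℂ, AEStronglyMeasurable f mu01 →
      eLpNorm f (ENNReal.ofReal b) mu01 ≤ eLpNorm f (ENNReal.ofReal c) mu01 := by
    intro f hf
    exact eLpNorm_le_eLpNorm_of_exponent_le (ENNReal.ofReal_le_ofReal hbc.le) hf
  have hsm : ∀ z : Lp ℂ (ENNReal.ofReal b) mu01, AEStronglyMeasurable z mu01 :=
    fun z => Lp.aestronglyMeasurable z
  have h1b : (1 : ENNReal) ≤ ENNReal.ofReal b := by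
    rw [← ENNReal.ofReal_one]; exact ENNReal.ofReal_le_ofReal hb
  have h1c : (1 : ENNReal) ≤ ENNReal.ofReal c := by
    rw [← ENNReal.ofReal_one]; exact ENNReal.ofReal_le_ofReal (by linarith)
  set Kc := ENNReal.ofReal (Cst b c a * (max M0 M1 : NNReal)) with hKc
  have hlim : ∀ (w : Lp ℂ (ENNReal.ofReal b) mu01) (W : ℕ → Lp ℂ (ENNReal.ofReal b) mu01),
      (∀ n, eLpNorm (⇑w - ⇑(W n)) (ENNReal.ofReal c) mu01 ≤ ENNReal.ofReal (1 / ((n:ℝ) + 1))) →
      Tendsto (fun n => eLpNorm (⇑(U w) - ⇑(U (W n))) (ENNReal.ofReal b) mu01) atTop (𝓝 0) := by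
    intro w W hW
    have h0 : Tendsto (fun n : ℕ => (M0 : ENNReal) * ENNReal.ofReal (1 / ((n:ℝ) + 1))) atTop
        (𝓝 0) := by
      have := ENNReal.Tendsto.const_mul (a := (M0 : ENNReal)) hone (Or.inr (by simp))
      simpa using this
    refine tendsto_of_tendsto_of_tendsto_of_le_of_le tendsto_const_nhds h0 (fun n => zero_le) ?_
    intro n
    refine (hU.lip_beta w (W n)).trans ?_
    dsimp only
    gcongr
    exact (hle _ ((hsm w).sub (hsm (W n)))).trans (hW n)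
  have hlx := hlim x X hXc
  have hly := hlim y Y hYc
  apply toy hb0 (fun n => ⇑(U (X n)) - ⇑(U (Y n))) (⇑(U x) - ⇑(U y)) c _
    (fun n => (hsm _).sub (hsm _)) ((hsm _).sub (hsm _)) _
    (fun n => Kc * (eLpNorm (⇑x - ⇑y) (ENNReal.ofReal c) mu01 +
      (ENNReal.ofReal (1 / ((n:ℝ) + 1)) + ENNReal.ofReal (1 / ((n:ℝ) + 1)))))
  · have h2 := (hone.add hone).const_add (eLpNorm (⇑x - ⇑y) (ENNReal.ofReal c) mu01)
    have h3 := ENNReal.Tendsto.const_mul (a := Kc) h2 (Or.inr ENNReal.ofReal_ne_top)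
    simpa using h3
  · intro n
    refine (core hb hbc hca U M0 M1 hU hM (X n) (Y n) (hXa n) (hYa n)).trans ?_
    gcongr
    have e : (⇑(X n) - ⇑(Y n)) = (⇑x - ⇑y) + ((⇑y - ⇑(Y n)) - (⇑x - ⇑(X n))) := by
      ext ω; simp only [Pi.sub_apply, Pi.add_apply]; ring
    rw [e]
    refine (eLpNorm_add_le ((hsm _).sub (hsm _))
      (((hsm _).sub (hsm _)).sub ((hsm _).sub (hsm _))) h1c).trans ?_
    gcongr
    refine (eLpNorm_sub_le ((hsm _).sub (hsm _)) ((hsm _).sub (hsm _)) h1c).trans ?_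
    exact add_le_add (hYc n) (hXc n)
  · have h4 := hlx.add hly
    rw [add_zero] at h4
    refine tendsto_of_tendsto_of_tendsto_of_le_of_le tendsto_const_nhds h4 (fun n => zero_le) ?_
    intro n
    have e : (⇑(U (X n)) - ⇑(U (Y n)) - (⇑(U x) - ⇑(U y)))
        = (⇑(U y) - ⇑(U (Y n))) - (⇑(U x) - ⇑(U (X n))) := by
      ext ω; simp only [Pi.sub_apply]; ring
    dsimp only
    rw [e, add_comm]
    exact eLpNorm_sub_le ((hsm _).sub (hsm _)) ((hsm _).sub (hsm _)) h1b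

lemma main_mem {b c a : ℝ} (hb : 1 ≤ b) (hbc : b < c) (hca : c < a)
    (U : Lp ℂ (ENNReal.ofReal b) mu01 → Lp ℂ (ENNReal.ofReal b) mu01) (M0 M1 : NNReal)
    (hU : Adm (ENNReal.ofReal b) (ENNReal.ofReal a) U M0 M1)
    (x : Lp ℂ (ENNReal.ofReal b) mu01) (hx : MemLp x (ENNReal.ofReal c) mu01) :
    MemLp (U x) (ENNReal.ofReal c) mu01 := by
  have := fact1
  have h0a : MemLp (⇑(0 : Lp ℂ (ENNReal.ofReal b) mu01)) (ENNReal.ofReal a) mu01 :=
    MemLp.zero.ae_eq (Lp.coeFn_zero _ _ _).symm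
  have h0c : MemLp (⇑(0 : Lp ℂ (ENNReal.ofReal b) mu01)) (ENNReal.ofReal c) mu01 :=
    MemLp.zero.ae_eq (Lp.coeFn_zero _ _ _).symm
  have h1 := main hb hbc hca U M0 M1 hU x 0 hx h0c
  have h2 : MemLp (⇑(U 0)) (ENNReal.ofReal c) mu01 :=
    (hU.maps 0 h0a).mono_exponent (ENNReal.ofReal_le_ofReal hca.le)
  have h3 : MemLp (⇑(U x) - ⇑(U 0)) (ENNReal.ofReal c) mu01 := by
    refine ⟨(Lp.aestronglyMeasurable (U x)).sub (Lp.aestronglyMeasurable (U 0)), ?_⟩
    refine lt_of_le_of_lt h1 ?_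
    exact ENNReal.mul_lt_top ENNReal.ofReal_lt_top (hx.sub h0c).2
  have h4 := h3.add h2
  simpa using h4

end Pool.Agent.R260.Lip
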