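import Mathlib

set_option autoImplicit false

open MeasureTheory Filter Set Topology ENNReal

namespace Pool.Agent.R260.Lr

/-- `a` is a Stieltjes moment sequence. -/
def Stj (a : ℕ → ℝ) : Prop :=
  (∀ n, 0 ≤ a n) ∧ ∃ ν : Measure NNReal, ∀ n, ∫⁻ t : NNReal, (t : ENNReal) ^ n ∂ν = ENNReal.ofReal (a n)

lemma fin_of {a : ℕ → ℝ} {ν : Measure NNReal}
    (h : ∀ n, ∫⁻ t : NNReal, (t : ENNReal) ^ n ∂ν = ENNReal.ofReal (a n)) : IsFiniteMeasure ν := by
  constructor
  have := h 0
  simp only [pow_zero, lintegral_const, one_mul] at this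
  rw [this]; exact ofReal_lt_top

lemma Stj.mul {a b : ℕ → ℝ} (ha : Stj a) (hb : Stj b) : Stj (fun n => a n * b n) := by
  obtain ⟨ha0, ν1, h1⟩ := ha
  obtain ⟨hb0, ν2, h2⟩ := hb
  have := fin_of h1
  have := fin_of h2
  refine ⟨fun n => mul_nonneg (ha0 n) (hb0 n), (ν1.prod ν2).map (fun p => p.1 * p.2), fun n => ?_⟩
  rw [lintegral_map (by fun_prop) (by fun_prop)]
  have e : ∀ p : NNReal × NNReal, (((p.1 * p.2 : NNReal)) : ENNReal) ^ n
      = (p.1 : ENNReal) ^ n * (p.2 : ENNReal) ^ n := by
    intro p; rw [coe_mul, mul_pow]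
  simp_rw [e]
  rw [lintegral_prod_mul (f := fun x : NNReal => (x : ENNReal) ^ n)
    (g := fun x : NNReal => (x : ENNReal) ^ n) (by fun_prop) (by fun_prop), h1, h2,
    ← ofReal_mul (ha0 n)]

lemma Stj.geom (κ : ℝ) (hκ : 0 ≤ κ) : Stj (fun n => κ ^ n) := by
  refine ⟨fun n => by positivity, Measure.dirac κ.toNNReal, fun n => ?_⟩
  rw [lintegral_dirac' _ (by fun_prop)]
  rw [← ENNReal.ofReal, ofReal_pow hκ]

lemma Stj.const_mul {a : ℕ → ℝ} (ha : Stj a) (c : ℝ) (hc : 0 ≤ c) : Stj (fun n => c * a n) := by
  obtain ⟨ha0, ν, h⟩ := ha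
  refine ⟨fun n => mul_nonneg hc (ha0 n), ENNReal.ofReal c • ν, fun n => ?_⟩
  rw [lintegral_smul_measure, h, smul_eq_mul, ← ofReal_mul hc]

lemma Stj.congr {a b : ℕ → ℝ} (ha : Stj a) (h : ∀ n, a n = b n) : Stj b := by
  have : a = b := funext h
  rwa [← this]

lemma Stj.one : Stj (fun _ => 1) := by
  have := Stj.geom 1 zero_le_one
  simpa using this

lemma Stj.prod {ι : Type*} (s : Finset ι) (a : ι → ℕ → ℝ) (h : ∀ i ∈ s, Stj (a i)) :
    Stj (fun n => ∏ i ∈ s, a i n) := by
  classical
  induction s using Finset.induction_on with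
  | empty => simpa using Stj.one
  | insert i s his ih =>
    have h1 := ih (fun j hj => h j (Finset.mem_insert_of_mem hj))
    have h2 := (h i (Finset.mem_insert_self i s)).mul h1
    refine h2.congr (fun n => ?_)
    rw [Finset.prod_insert his]

/-- the ratio `Γ(δ n + a)/Γ(δ n + b)` with `0 < a < b` -/
lemma Stj.ratio (δ a c : ℝ) (hδ : 0 ≤ δ) (ha : 0 < a) (hc : 0 < c) :
    Stj (fun n => Real.Gamma (δ * n + a) / Real.Gamma (δ * n + (a + c))) := by
  have hpos : ∀ n : ℕ, 0 ≤ δ * n := fun n => by positivity
  have hG1 : ∀ n : ℕ, 0 < Real.Gamma (δ * n + a) := fun n =>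
    Real.Gamma_pos_of_pos (by have := hpos n; linarith)
  have hG2 : ∀ n : ℕ, 0 < Real.Gamma (δ * n + (a + c)) := fun n =>
    Real.Gamma_pos_of_pos (by have := hpos n; linarith)
  have hGc : 0 < Real.Gamma c := Real.Gamma_pos_of_pos hc
  have hGa : 0 < Real.Gamma a := Real.Gamma_pos_of_pos ha
  have hGac : 0 < Real.Gamma (a + c) := Real.Gamma_pos_of_pos (by linarith)
  have key : Stj (fun n => ProbabilityTheory.beta (a + δ * n) c / ProbabilityTheory.beta a c) := by
    refine ⟨fun n => ?_, (ProbabilityTheory.betaMeasure a c).map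
      (fun x : ℝ => (x ^ δ).toNNReal), fun n => ?_⟩
    · have h1 := ProbabilityTheory.beta_pos (show 0 < a + δ * n by have := hpos n; linarith) hc
      have h2 := ProbabilityTheory.beta_pos ha hc
      positivity
    · rw [lintegral_map (by fun_prop) (by fun_prop)]
      have hbm : ProbabilityTheory.betaMeasure a c
          = volume.withDensity (ProbabilityTheory.betaPDF a c) := rfl
      have hmeas : Measurable (ProbabilityTheory.betaPDF a c) :=
        (ProbabilityTheory.measurable_betaPDFReal a c).ennreal_ofReal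
      rw [hbm, lintegral_withDensity_eq_lintegral_mul _ hmeas (by fun_prop)]
      have hpt : ∀ x : ℝ, (ProbabilityTheory.betaPDF a c * fun x : ℝ =>
          (((x ^ δ).toNNReal : NNReal) : ENNReal) ^ n) x
          = ENNReal.ofReal (ProbabilityTheory.beta (a + δ * n) c / ProbabilityTheory.beta a c) *
            ProbabilityTheory.betaPDF (a + δ * n) c x := by
        intro x
        have b1 := ProbabilityTheory.beta_pos (show 0 < a + δ * n by have := hpos n; linarith) hc
        have b2 := ProbabilityTheory.beta_pos ha hc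
        simp only [Pi.mul_apply, ProbabilityTheory.betaPDF, ProbabilityTheory.betaPDFReal]
        by_cases hx : 0 < x ∧ x < 1
        · rw [if_pos hx, if_pos hx]
          have hx1 : 0 < 1 - x := by linarith [hx.2]
          have hx0 : 0 < x := hx.1
          have e1 : (((x ^ δ).toNNReal : NNReal) : ENNReal) ^ n = ENNReal.ofReal (x ^ (δ * n)) := by
            rw [← ENNReal.ofReal, ← ofReal_pow (by positivity), ← Real.rpow_natCast,
              ← Real.rpow_mul hx0.le]
          rw [e1, ← ofReal_mul (by positivity), ← ofReal_mul (by positivity)]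
          congr 1
          have e2 : x ^ (a + δ * n - 1) = x ^ (a - 1) * x ^ (δ * n) := by
            rw [← Real.rpow_add hx0]; congr 1; ring
          rw [e2]
          field_simp
        · rw [if_neg hx, if_neg hx]; simp
      simp_rw [hpt]
      have hmeas2 : Measurable (ProbabilityTheory.betaPDF (a + δ * n) c) :=
        (ProbabilityTheory.measurable_betaPDFReal _ _).ennreal_ofReal
      rw [lintegral_const_mul _ hmeas2, ProbabilityTheory.lintegral_betaPDF_eq_one (by have := hpos n; linarith) hc, mul_one]
  refine (key.const_mul (Real.Gamma a / Real.Gamma (a + c)) (by positivity)).congr (fun n => ?_)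
  unfold ProbabilityTheory.beta
  have e1 : a + δ * n = δ * n + a := by ring
  have e2 : a + δ * n + c = δ * n + (a + c) := by ring
  rw [e2, e1]
  have h1 := hG1 n
  have h2 := hG2 n
  field_simp

/-- equal parameters are allowed too -/
lemma Stj.ratio' (δ a b : ℝ) (hδ : 0 ≤ δ) (ha : 0 < a) (hab : a ≤ b) :
    Stj (fun n => Real.Gamma (δ * n + a) / Real.Gamma (δ * n + b)) := by
  rcases hab.eq_or_lt with h | h
  · subst h
    refine Stj.one.congr (fun n => ?_)
    have : 0 < Real.Gamma (δ * n + a) := Real.Gamma_pos_of_pos (by positivity)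
    rw [div_self this.ne']
  · have := Stj.ratio δ a (b - a) hδ ha (by linarith)
    have e : a + (b - a) = b := by ring
    rwa [e] at this

/-- the moment sequence with density `(y - 1/4)^2 e^{-y}` in the variable `y^δ` -/
lemma Stj.special (δ : ℝ) (hδ : 0 ≤ δ) :
    Stj (fun n => Real.Gamma (1 + δ * n) * (δ * n + 5/4)^2) := by
  have hpos : ∀ n : ℕ, 0 ≤ δ * n := fun n => by positivity
  refine ⟨fun n => ?_, (((volume.restrict (Ioi (0:ℝ))).withDensity
    (fun y => ENNReal.ofReal ((y - 1/4)^2 * Real.exp (-y)))).map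
      (fun x : ℝ => (x ^ δ).toNNReal)), fun n => ?_⟩
  · have := hpos n
    have : 0 < Real.Gamma (1 + δ * n) := Real.Gamma_pos_of_pos (by linarith)
    positivity
  · rw [lintegral_map (by fun_prop) (by fun_prop),
      lintegral_withDensity_eq_lintegral_mul _ (by fun_prop) (by fun_prop)]
    have hpt : ∀ y ∈ Ioi (0:ℝ), ((fun y => ENNReal.ofReal ((y - 1/4)^2 * Real.exp (-y))) *
        fun x : ℝ => (((x ^ δ).toNNReal : NNReal) : ENNReal) ^ n) y
        = ENNReal.ofReal (Real.exp (-y) * y ^ ((δ * n + 3) - 1)
          - (1/2) * (Real.exp (-y) * y ^ ((δ * n + 2) - 1))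
          + (1/16) * (Real.exp (-y) * y ^ ((δ * n + 1) - 1))) := by
      intro y hy
      have hy0 : 0 < y := hy
      simp only [Pi.mul_apply]
      have e1 : (((y ^ δ).toNNReal : NNReal) : ENNReal) ^ n = ENNReal.ofReal (y ^ (δ * n)) := by
        rw [← ENNReal.ofReal, ← ofReal_pow (by positivity), ← Real.rpow_natCast,
          ← Real.rpow_mul hy0.le]
      rw [e1, ← ofReal_mul (by positivity)]
      congr 1
      have e2 : y ^ ((δ * n + 3) - 1) = y ^ (δ * n) * y ^ 2 := by
        rw [← Real.rpow_natCast y 2, ← Real.rpow_add hy0]; congr 1; push_cast; ring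
      have e3 : y ^ ((δ * n + 2) - 1) = y ^ (δ * n) * y := by
        rw [← Real.rpow_add_one hy0.ne']; congr 1; ring
      have e4 : y ^ ((δ * n + 1) - 1) = y ^ (δ * n) := by congr 1; ring
      rw [e2, e3, e4]; ring
    rw [setLIntegral_congr_fun measurableSet_Ioi hpt]
    have i3 := Real.GammaIntegral_convergent (s := δ * n + 3) (by have := hpos n; linarith)
    have i2 := Real.GammaIntegral_convergent (s := δ * n + 2) (by have := hpos n; linarith)
    have i1 := Real.GammaIntegral_convergent (s := δ * n + 1) (by have := hpos n; linarith)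
    have i32 : IntegrableOn (fun x : ℝ => Real.exp (-x) * x ^ ((δ * n + 3) - 1)
        - (1/2) * (Real.exp (-x) * x ^ ((δ * n + 2) - 1))) (Ioi 0) := i3.sub (i2.const_mul _)
    rw [← ofReal_integral_eq_lintegral_ofReal]
    · congr 1
      rw [integral_add i32 (i1.const_mul _),
        integral_sub i3 (i2.const_mul _), integral_const_mul, integral_const_mul,
        ← Real.Gamma_eq_integral (by have := hpos n; linarith),
        ← Real.Gamma_eq_integral (by have := hpos n; linarith),
        ← Real.Gamma_eq_integral (by have := hpos n; linarith)]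
      have g3 : Real.Gamma (δ * n + 3) = (δ * n + 2) * ((δ * n + 1) * Real.Gamma (1 + δ * n)) := by
        have h1 : δ * n + 3 = (δ * n + 2) + 1 := by ring
        have h2 : δ * n + 2 = (1 + δ * n) + 1 := by ring
        rw [h1, Real.Gamma_add_one (by have := hpos n; linarith)]
        congr 1
        rw [h2, Real.Gamma_add_one (by have := hpos n; linarith)]
        ring
      have g2 : Real.Gamma (δ * n + 2) = (δ * n + 1) * Real.Gamma (1 + δ * n) := by
        have h2 : δ * n + 2 = (1 + δ * n) + 1 := by ring
        rw [h2, Real.Gamma_add_one (by have := hpos n; linarith)]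
        ring
      have g1 : Real.Gamma (δ * n + 1) = Real.Gamma (1 + δ * n) := by congr 1; ring
      rw [g3, g2, g1]; ring
    · exact (i32.add (i1.const_mul _))
    · filter_upwards [ae_restrict_mem measurableSet_Ioi] with y hy
      have hy0 : (0:ℝ) < y := hy
      show 0 ≤ Real.exp (-y) * y ^ ((δ * n + 3) - 1)
          - (1/2) * (Real.exp (-y) * y ^ ((δ * n + 2) - 1))
          + (1/16) * (Real.exp (-y) * y ^ ((δ * n + 1) - 1))
      have e2 : y ^ ((δ * n + 3) - 1) = y ^ (δ * n) * y ^ 2 := by
        rw [← Real.rpow_natCast y 2, ← Real.rpow_add hy0]; congr 1; push_cast; ring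
      have e3 : y ^ ((δ * n + 2) - 1) = y ^ (δ * n) * y := by
        rw [← Real.rpow_add_one hy0.ne']; congr 1; ring
      have e4 : y ^ ((δ * n + 1) - 1) = y ^ (δ * n) := by congr 1; ring
      rw [e2, e3, e4]
      have e5 : Real.exp (-y) * (y ^ (δ * n) * y ^ 2) - 1 / 2 * (Real.exp (-y) * (y ^ (δ * n) * y))
        + 1 / 16 * (Real.exp (-y) * y ^ (δ * n)) = Real.exp (-y) * y ^ (δ * n) * (y - 1/4)^2 := by
        ring
      rw [e5]
      positivity

/-- Gauss's multiplication formula, with an unspecified constant -/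
lemma gauss (m : ℕ) (hm : 0 < m) : ∃ C : ℝ, 0 < C ∧ ∀ x : ℝ, 0 < x →
    Real.Gamma x = C * (m:ℝ) ^ x * ∏ j ∈ Finset.range m, Real.Gamma ((x + j) / m) := by
  have hm' : (0:ℝ) < m := by exact_mod_cast hm
  set P : ℝ → ℝ := fun x => ∏ j ∈ Finset.range m, Real.Gamma ((x + j) / m) with hP
  have hPpos : ∀ x : ℝ, 0 < x → 0 < P x := by
    intro x hx
    apply Finset.prod_pos
    intro j _
    exact Real.Gamma_pos_of_pos (by positivity)
  set C : ℝ := 1 / ((m:ℝ) ^ (1:ℝ) * P 1) with hC
  have hP1 := hPpos 1 one_pos
  have hCpos : 0 < C := by positivity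
  set f : ℝ → ℝ := fun x => C * (m:ℝ) ^ x * P x with hf
  have hfpos : ∀ {y : ℝ}, 0 < y → 0 < f y := by
    intro y hy
    have := hPpos y hy
    simp only [hf]
    positivity
  have hlog : ∀ x ∈ Ioi (0:ℝ), (Real.log ∘ f) x = Real.log C + x * Real.log m +
      ∑ j ∈ Finset.range m, (Real.log ∘ Real.Gamma) ((x + j) / m) := by
    intro x hx
    have hx' : (0:ℝ) < x := hx
    have := hPpos x hx'
    simp only [Function.comp_apply, hf]
    rw [Real.log_mul (by positivity) this.ne', Real.log_mul hCpos.ne' (by positivity),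
      Real.log_rpow hm', hP]
    simp only
    rw [Real.log_prod]
    intro j _
    exact (Real.Gamma_pos_of_pos (by positivity)).ne'
  have hconv : ConvexOn ℝ (Ioi 0) (Real.log ∘ f) := by
    have h1 : ConvexOn ℝ (Ioi (0:ℝ)) (fun x => Real.log C + x * Real.log m +
      ∑ j ∈ Finset.range m, (Real.log ∘ Real.Gamma) ((x + j) / m)) := by
      apply ConvexOn.add
      · refine ⟨convex_Ioi 0, ?_⟩
        intro x _ y _ a b _ _ hab
        simp only [smul_eq_mul]
        apply le_of_eq
        have : b = 1 - a := by linarith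
        rw [this]; ring
      · have hsum : ∀ s : Finset ℕ, ConvexOn ℝ (Ioi (0:ℝ)) (fun x =>
            ∑ j ∈ s, (Real.log ∘ Real.Gamma) ((x + j) / m)) := by
          intro s
          classical
          induction s using Finset.induction_on with
          | empty => simpa using convexOn_const (0:ℝ) (convex_Ioi (0:ℝ))
          | insert j s hj ih =>
            simp_rw [Finset.sum_insert hj]
            apply ConvexOn.add _ ih
            refine ⟨convex_Ioi 0, ?_⟩
            intro x hx y hy a b ha hb hab
            have hx' : (0:ℝ) < x := hx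
            have hy' : (0:ℝ) < y := hy
            have h2 := Real.convexOn_log_Gamma.2 (x := (x + j) / m) (y := (y + j) / m)
              (show (0:ℝ) < (x + j) / m by positivity) (show (0:ℝ) < (y + j) / m by positivity)
              ha hb hab
            have e : (a • x + b • y + (j:ℝ)) / m = a • ((x + j) / m) + b • ((y + j) / m) := by
              simp only [smul_eq_mul]
              have : b = 1 - a := by linarith
              rw [this]; field_simp; ring
            simp only [smul_eq_mul] at e h2 ⊢
            rw [e]; exact h2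
        exact hsum _
    exact h1.congr (fun x hx => (hlog x hx).symm)
  have hfeq : ∀ {y : ℝ}, 0 < y → f (y + 1) = y * f y := by
    intro y hy
    have h1 : P (y + 1) = (y / m) * P y := by
      have e1 : ∏ j ∈ Finset.range (m + 1), Real.Gamma ((y + j) / m)
          = P y * Real.Gamma ((y + m) / m) := by
        rw [Finset.prod_range_succ]
      have e2 : ∏ j ∈ Finset.range (m + 1), Real.Gamma ((y + j) / m)
          = P (y + 1) * Real.Gamma (y / m) := by
        rw [Finset.prod_range_succ']
        congr 1
        · apply Finset.prod_congr rfl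
          intro j _
          congr 2; push_cast; ring
        · congr 2; simp
      have e3 : Real.Gamma ((y + m) / m) = (y / m) * Real.Gamma (y / m) := by
        have : (y + m) / m = y / m + 1 := by field_simp
        rw [this, Real.Gamma_add_one (by positivity)]
      rw [e1, e3] at e2
      have hG : Real.Gamma (y / m) ≠ 0 := (Real.Gamma_pos_of_pos (by positivity)).ne'
      have e4 : P (y + 1) * Real.Gamma (y / m) = (y / m * P y) * Real.Gamma (y / m) := by
        rw [← e2]; ring
      exact mul_right_cancel₀ hG e4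
    simp only [hf]
    rw [h1, Real.rpow_add_one hm'.ne']
    field_simp
  have hf1 : f 1 = 1 := by
    simp only [hf, hC]
    field_simp
  refine ⟨C, hCpos, ?_⟩
  intro x hx
  exact (Real.eq_Gamma_of_log_convex hconv hfeq hfpos hf1 hx).symm

end Pool.Agent.R260.Lr
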