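import Pool.Agent.R260.LrA

set_option autoImplicit false

open MeasureTheory Filter Set Topology

namespace Pool.Agent.R260.Lr

/-- The Le Roy type Mittag-Leffler function on the real line. -/
noncomputable def leRoy (α β γ x : ℝ) : ℝ := ∑' n : ℕ, x ^ n / (Real.Gamma (α * n + β)) ^ γ

/-- complete monotonicity on `(0,∞)` -/
def IsCM (f : ℝ → ℝ) : Prop :=
  ContDiffOn ℝ (⊤ : ℕ∞) f (Ioi 0) ∧ ∀ k : ℕ, ∀ x : ℝ, 0 < x → 0 ≤ (-1) ^ k * iteratedDeriv k f x

lemma Gamma_lower (K y : ℝ) (hK : 0 < K) (hy : 1 ≤ y) :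
    K ^ (y - 1) * Real.exp (-K) ≤ Real.Gamma y := by
  rw [Real.Gamma_eq_integral (by linarith)]
  have h1 := Real.GammaIntegral_convergent (s := y) (by linarith)
  have hsub : Ioi K ⊆ Ioi (0:ℝ) := Ioi_subset_Ioi hK.le
  calc K ^ (y - 1) * Real.exp (-K) = ∫ x in Ioi K, Real.exp (-x) * K ^ (y - 1) := by
        rw [integral_mul_const, integral_exp_neg_Ioi]; ring
    _ ≤ ∫ x in Ioi K, Real.exp (-x) * x ^ (y - 1) := by
        apply setIntegral_mono_on
        · exact (integrableOn_exp_neg_Ioi K).mul_const _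
        · exact h1.mono_set hsub
        · exact measurableSet_Ioi
        · intro x hx
          have hx' : K < x := hx
          gcongr
    _ ≤ ∫ x in Ioi 0, Real.exp (-x) * x ^ (y - 1) := by
        apply setIntegral_mono_set h1
        · filter_upwards [ae_restrict_mem measurableSet_Ioi] with x hx
          have : (0:ℝ) < x := hx
          show 0 ≤ Real.exp (-x) * x ^ (y - 1)
          positivity
        · exact hsub.eventuallyLE

lemma summ_le (x : ℝ) : Summable (fun n : ℕ => |x| ^ n / (Real.Gamma ((1/72) * n + 1/56)) ^ 2) := by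
  set X : ℝ := 2 * |x| + 1 with hX
  have hX0 : 0 < X := by positivity
  set K : ℝ := X ^ 36 with hK
  have hK0 : 0 < K := by positivity
  have hKn : ∀ n : ℕ, K ^ ((1/72 : ℝ) * n + 1/56 - 1) ^ 1 = K ^ ((1/72 : ℝ) * n + 1/56 - 1) := by
    intro n; simp
  have hKpow : ∀ n : ℕ, (K ^ ((1/72 : ℝ) * n + 1/56 - 1)) ^ 2 = X ^ n * K ^ (2 * (1/56 - 1) : ℝ) := by
    intro n
    have e1 : (X:ℝ) ^ n = K ^ ((1/36 : ℝ) * n) := by
      rw [hK, ← Real.rpow_natCast X 36, ← Real.rpow_mul hX0.le, ← Real.rpow_natCast X n]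
      congr 1; push_cast; ring
    rw [e1, ← Real.rpow_add hK0, ← Real.rpow_natCast, ← Real.rpow_mul hK0.le]
    congr 1; push_cast; ring
  set c : ℝ := K ^ (2 * (1/56 - 1) : ℝ) * (Real.exp (-K))^2 with hc
  have hc0 : 0 < c := by positivity
  have hgeo : Summable (fun n : ℕ => (1/2 : ℝ) ^ n * c⁻¹) :=
    (summable_geometric_of_lt_one (by norm_num) (by norm_num)).mul_right _
  rw [← summable_nat_add_iff 72] at hgeo ⊢
  refine Summable.of_nonneg_of_le (fun n => by positivity) (fun n => ?_) hgeo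
  set N := n + 72 with hN
  have hN72 : (72:ℝ) ≤ N := by exact_mod_cast (by omega : 72 ≤ N)
  have hy : 1 ≤ (1/72 : ℝ) * N + 1/56 := by linarith
  have hG := Gamma_lower K _ hK0 hy
  have hG2 : X ^ N * c ≤ (Real.Gamma ((1/72) * N + 1/56)) ^ 2 := by
    have h1 : (K ^ ((1/72 : ℝ) * N + 1/56 - 1) * Real.exp (-K)) ^ 2
        ≤ (Real.Gamma ((1/72) * N + 1/56)) ^ 2 := by gcongr
    rw [mul_pow, hKpow N] at h1
    calc X ^ N * c = X ^ N * K ^ (2 * (1/56 - 1) : ℝ) * Real.exp (-K) ^ 2 := by rw [hc]; ring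
      _ ≤ _ := h1
  have hXN : 0 < X ^ N * c := by positivity
  calc |x| ^ N / (Real.Gamma ((1/72) * N + 1/56)) ^ 2 ≤ |x| ^ N / (X ^ N * c) :=
        div_le_div_of_nonneg_left (pow_nonneg (abs_nonneg x) N) hXN hG2
    _ = (|x| / X) ^ N * c⁻¹ := by rw [div_pow]; field_simp
    _ ≤ (1/2) ^ N * c⁻¹ := by
        have h3 : |x| / X ≤ 1/2 := by
          rw [div_le_div_iff₀ hX0 (by norm_num), hX]; linarith [abs_nonneg x]
        gcongr

/-- the moment sequence `n!/Γ(n/72 + 1/56)^2` -/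
lemma stj_main : Stj (fun n : ℕ => (n.factorial : ℝ) / (Real.Gamma ((1/72) * n + 1/56)) ^ 2) := by
  obtain ⟨C72, hC72, h72⟩ := gauss 72 (Nat.succ_pos 71)
  obtain ⟨C70, hC70, h70⟩ := gauss 70 (Nat.succ_pos 69)
  have s1 := Stj.special (35/36) (by norm_num)
  have s2 : Stj (fun n : ℕ => ∏ j ∈ Finset.range 70,
      (Real.Gamma ((1/72) * n + ((j:ℝ)+1)/72) / Real.Gamma ((1/72) * n + ((j:ℝ)+1)/70))) := by
    apply Stj.prod
    intro j _
    apply Stj.ratio' _ _ _ (by norm_num) (by positivity)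
    gcongr
    norm_num
  have s3 := Stj.ratio' (1/72) (71/72) (57/56) (by norm_num) (by norm_num) (by norm_num)
  have s4 := Stj.ratio' (1/72) (72/72) (57/56) (by norm_num) (by norm_num) (by norm_num)
  have s5 := Stj.geom (72 / (70:ℝ)^(35/36 : ℝ)) (by positivity)
  have s6 := (((s1.mul s2).mul (s3.mul s4)).mul s5).const_mul (C72 * 72 / (C70 * 70) / 4900)
    (by positivity)
  refine s6.congr (fun n => ?_)
  have hn : (0:ℝ) ≤ n := by positivity
  have g1 : (n.factorial : ℝ) = C72 * 72 * 72 ^ n * (∏ j ∈ Finset.range 70,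
      Real.Gamma ((1/72) * n + ((j:ℝ)+1)/72)) * (Real.Gamma ((1/72) * n + 71/72) *
      Real.Gamma ((1/72) * n + 72/72)) := by
    rw [← Real.Gamma_nat_eq_factorial, h72 _ (by positivity), Real.rpow_add_one (by norm_num),
      Real.rpow_natCast, Finset.prod_range_succ, Finset.prod_range_succ]
    have e : ∀ j : ℕ, (((n:ℝ) + 1 + j) / ((72:ℕ):ℝ)) = (1/72) * n + ((j:ℝ)+1)/72 := by
      intro j; push_cast; ring
    simp_rw [e]
    push_cast
    ring_nf
  have g2 : Real.Gamma (1 + (35/36) * n) = C70 * 70 * ((70:ℝ)^(35/36 : ℝ)) ^ n *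
      ∏ j ∈ Finset.range 70, Real.Gamma ((1/72) * n + ((j:ℝ)+1)/70) := by
    rw [h70 _ (by positivity)]
    have e1 : ((70:ℕ):ℝ) ^ (1 + (35/36 : ℝ) * n) = 70 * ((70:ℝ)^(35/36 : ℝ)) ^ n := by
      rw [Real.rpow_add (by norm_num), Real.rpow_one, Real.rpow_mul (by norm_num), Real.rpow_natCast]
      norm_num
    have e : ∀ j : ℕ, ((1 + (35/36) * (n:ℝ) + j) / ((70:ℕ):ℝ)) = (1/72) * n + ((j:ℝ)+1)/70 := by
      intro j; push_cast; ring
    simp_rw [e]
    rw [e1]; ring
  have g3 : Real.Gamma ((1/72) * n + 57/56) = ((1/72) * n + 1/56) * Real.Gamma ((1/72) * n + 1/56) := by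
    have : (1/72 : ℝ) * n + 57/56 = ((1/72) * n + 1/56) + 1 := by ring
    rw [this, Real.Gamma_add_one (by positivity)]
  have hP70 : 0 < ∏ j ∈ Finset.range 70, Real.Gamma ((1/72) * n + ((j:ℝ)+1)/70) := by
    apply Finset.prod_pos
    intro j _
    exact Real.Gamma_pos_of_pos (by positivity)
  have hG : 0 < Real.Gamma ((1/72) * n + 1/56) := Real.Gamma_pos_of_pos (by positivity)
  rw [g1, g2, g3, Finset.prod_div_distrib]
  have hs : (35/36 : ℝ) * n + 5/4 = 70 * ((1/72) * n + 1/56) := by ring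
  rw [hs, div_pow]
  have hs0 : (0:ℝ) < (1/72) * n + 1/56 := by positivity
  have h70p : (0:ℝ) < ((70:ℝ)^(35/36 : ℝ)) ^ n := by positivity
  set A := ∏ j ∈ Finset.range 70, Real.Gamma ((1/72) * n + ((j:ℝ)+1)/70)
  set B := ∏ j ∈ Finset.range 70, Real.Gamma ((1/72) * n + ((j:ℝ)+1)/72)
  set D := ((70:ℝ)^(35/36 : ℝ)) ^ n
  set s := (1/72 : ℝ) * n + 1/56
  set G := Real.Gamma s
  field_simp
  ring

lemma cm_main : IsCM (fun x => leRoy (1/72) (1/56) 2 (-x)) := by
  obtain ⟨hnn, ν, hν⟩ := stj_main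
  have hfin : IsFiniteMeasure ν := fin_of hν
  set X : NNReal → ℝ := fun t => (t:ℝ) with hX
  have hXm : Measurable X := by fun_prop
  have hX0 : ∀ t, 0 ≤ X t := fun t => t.2
  have hlint : ∀ n : ℕ, ∫⁻ t, ENNReal.ofReal (X t ^ n) ∂ν
      = ENNReal.ofReal ((n.factorial : ℝ) / (Real.Gamma ((1/72) * n + 1/56)) ^ 2) := by
    intro n
    rw [← hν n]
    congr 1
    ext t
    rw [ENNReal.ofReal_pow (hX0 t)]
    simp [hX]
  have hint : ∀ n : ℕ, Integrable (fun t => X t ^ n) ν := by
    intro n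
    refine ⟨by fun_prop, ?_⟩
    rw [hasFiniteIntegral_iff_ofReal (Eventually.of_forall (fun t => pow_nonneg (hX0 t) n)), hlint n]
    exact ENNReal.ofReal_lt_top
  have hmom : ∀ n : ℕ, ∫ t, X t ^ n ∂ν
      = (n.factorial : ℝ) / (Real.Gamma ((1/72) * n + 1/56)) ^ 2 := by
    intro n
    rw [integral_eq_lintegral_of_nonneg_ae (Eventually.of_forall (fun t => pow_nonneg (hX0 t) n))
      (by fun_prop), hlint n, ENNReal.toReal_ofReal (hnn n)]
  -- the function is the moment generating function at -x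
  have hmgf : ∀ x : ℝ, leRoy (1/72) (1/56) 2 (-x) = ProbabilityTheory.mgf X ν (-x) := by
    intro x
    have h1 := hasSum_integral_of_summable_integral_norm (μ := ν)
      (F := fun n : ℕ => fun t => (-x * X t) ^ n / (n.factorial : ℝ)) (by
        intro n
        have : (fun t => (-x * X t) ^ n / (n.factorial : ℝ))
            = fun t => ((-x) ^ n / (n.factorial : ℝ)) * X t ^ n := by
          ext t; rw [mul_pow]; ring
        rw [this]
        exact (hint n).const_mul _) (by
        refine (summ_le x).congr (fun n => ?_)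
        have : ∀ t, ‖(-x * X t) ^ n / (n.factorial : ℝ)‖ = (|x| ^ n / (n.factorial : ℝ)) * X t ^ n := by
          intro t
          rw [norm_div, norm_pow, norm_mul, norm_neg, Real.norm_eq_abs, Real.norm_eq_abs,
            abs_of_nonneg (hX0 t), Real.norm_eq_abs, Nat.abs_cast, mul_pow]
          ring
        simp_rw [this]
        rw [integral_const_mul, hmom n]
        have : (n.factorial : ℝ) ≠ 0 := by positivity
        field_simp)
    have h2 : ∫ t, (∑' n : ℕ, (-x * X t) ^ n / (n.factorial : ℝ)) ∂ν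
        = ProbabilityTheory.mgf X ν (-x) := by
      unfold ProbabilityTheory.mgf
      congr 1
      ext t
      rw [Real.exp_eq_exp_ℝ, NormedSpace.exp_eq_tsum_div]
    rw [h2] at h1
    rw [← h1.tsum_eq]
    unfold leRoy
    congr 1
    ext n
    have : (fun t => (-x * X t) ^ n / (n.factorial : ℝ))
        = fun t => ((-x) ^ n / (n.factorial : ℝ)) * X t ^ n := by
      ext t; rw [mul_pow]; ring
    rw [this, integral_const_mul, hmom n, Real.rpow_two]
    have : (n.factorial : ℝ) ≠ 0 := by positivity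
    field_simp
  have hfun : (fun x => leRoy (1/72) (1/56) 2 (-x)) = fun x => ProbabilityTheory.mgf X ν (-x) :=
    funext hmgf
  rw [hfun]
  have hset : ∀ x : ℝ, 0 < x → -x ∈ interior (ProbabilityTheory.integrableExpSet X ν) := by
    intro x hx
    rw [mem_interior]
    refine ⟨Iio 0, ?_, isOpen_Iio, by simpa using hx⟩
    intro s hs
    have hs' : s < 0 := hs
    show Integrable (fun t => Real.exp (s * X t)) ν
    refine Integrable.of_bound (by fun_prop) 1 (Eventually.of_forall (fun t => ?_))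
    rw [Real.norm_eq_abs, abs_of_pos (Real.exp_pos _), Real.exp_le_one_iff]
    nlinarith [hX0 t]
  constructor
  · intro x hx
    apply ContDiffAt.contDiffWithinAt
    have h1 : AnalyticAt ℝ (ProbabilityTheory.mgf X ν) (-x) :=
      ProbabilityTheory.analyticOnNhd_mgf (-x) (hset x hx)
    have h2 : ContDiffAt ℝ (⊤ : ℕ∞) (ProbabilityTheory.mgf X ν) (-x) := h1.contDiffAt
    exact h2.comp x contDiff_neg.contDiffAt
  · intro k x hx
    rw [iteratedDeriv_comp_neg, ProbabilityTheory.iteratedDeriv_mgf (hset x hx), smul_eq_mul,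
      ← mul_assoc, ← mul_pow]
    norm_num
    apply integral_nonneg
    intro t
    show 0 ≤ X t ^ k * Real.exp (-(x * X t))
    have := hX0 t
    positivity

end Pool.Agent.R260.Lr
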