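import Mathlib

set_option autoImplicit false

open Filter Set Topology Polynomial

namespace Pool.Agent.R260.MS

/-- `f` has only real zeros (the zero polynomial is admitted). -/
def RealRooted (f : ℝ[X]) : Prop := f = 0 ∨ ∀ z : ℂ, aeval z f = 0 → z.im = 0

/-- A simple set of polynomials: `deg q_k = k` for all `k`. -/
def SimpleSet (q : ℕ → ℝ[X]) : Prop := ∀ k, (q k).degree = k

/-- `γ` is a multiplier sequence for the simple set `q`. -/
def IsMS (q : ℕ → ℝ[X]) (γ : ℕ → ℝ) : Prop :=
  ∀ (n : ℕ) (a : ℕ → ℝ), RealRooted (∑ k ∈ Finset.range (n + 1), C (a k) * q k) →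
    RealRooted (∑ k ∈ Finset.range (n + 1), C (a k * γ k) * q k)

/-- the set of multiplier sequences of the simple set `q` -/
def MSset (q : ℕ → ℝ[X]) : Set (ℕ → ℝ) := {γ | IsMS q γ}

lemma RealRooted.deriv {f : ℝ[X]} (hf : RealRooted f) : RealRooted (derivative f) := by
  rcases hf with h0 | h
  · left; rw [h0]; simp
  by_cases hdeg : 0 < f.degree
  · right
    intro z hz
    have hsub := rootSet_derivative_subset_convexHull_rootSet (P := f.map (algebraMap ℝ ℂ))
      (by rw [degree_map]; exact hdeg)
    have hconv : Convex ℝ {w : ℂ | w.im = 0} := by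
      have : {w : ℂ | w.im = 0} = Complex.imLm ⁻¹' {0} := by ext; simp
      rw [this]
      exact (convex_singleton (0:ℝ)).linear_preimage Complex.imLm
    have hroots : (f.map (algebraMap ℝ ℂ)).rootSet ℂ ⊆ {w : ℂ | w.im = 0} := by
      intro w hw
      rw [mem_rootSet] at hw
      apply h
      have := hw.2
      rwa [coe_aeval_eq_eval, eval_map_algebraMap] at this
    have hmem : z ∈ (derivative (f.map (algebraMap ℝ ℂ))).rootSet ℂ := by
      rw [mem_rootSet]
      refine ⟨?_, ?_⟩
      · rw [derivative_map]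
        intro h1
        have h2 : derivative f = 0 := by
          apply Polynomial.map_injective (algebraMap ℝ ℂ) (algebraMap ℝ ℂ).injective
          rw [h1]; simp
        have h3 := derivative_eq_zero.mp h2
        have h4 := natDegree_pos_iff_degree_pos.mpr hdeg
        omega
      · rw [coe_aeval_eq_eval, derivative_map, eval_map_algebraMap]
        exact hz
    exact (convexHull_min hroots hconv) (hsub hmem)
  · left
    have : f.natDegree = 0 := by
      rw [← Nat.le_zero, natDegree_le_iff_degree_le]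
      push Not at hdeg
      simpa using hdeg
    exact derivative_of_natDegree_zero this

lemma RealRooted.iterate_deriv {f : ℝ[X]} (hf : RealRooted f) (k : ℕ) :
    RealRooted (derivative^[k] f) := by
  induction k with
  | zero => exact hf
  | succ k ih =>
    rw [Function.iterate_succ_apply']
    exact ih.deriv

lemma RealRooted.X_pow_mul {f : ℝ[X]} (hf : RealRooted f) (k : ℕ) :
    RealRooted (X ^ k * f) := by
  rcases hf with h0 | h
  · left; rw [h0, mul_zero]
  · right
    intro z hz
    rw [map_mul, map_pow, aeval_X, mul_eq_zero] at hz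
    rcases hz with hz | hz
    · have := eq_zero_of_pow_eq_zero hz
      rw [this]; simp
    · exact h z hz

/-- The key inequality for real-rooted polynomials. -/
lemma RealRooted.bound {f : ℝ[X]} (hf : RealRooted f) (n : ℕ) (hn : f.natDegree ≤ n) (z w : ℂ)
    (hz : z.im ≠ 0) : ‖aeval w f‖ ≤ (1 + ‖w - z‖ / |z.im|) ^ n * ‖aeval z f‖ := by
  rcases hf with h0 | h
  · rw [h0]; simp
  have hzpos : 0 < |z.im| := abs_pos.mpr hz
  by_cases hf0 : f = 0
  · rw [hf0]; simp
  have hsp : (f.map (algebraMap ℝ ℂ)).Splits := IsAlgClosed.splits _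
  have hev : ∀ w : ℂ, aeval w f = (f.leadingCoeff : ℂ) *
      ((f.map (algebraMap ℝ ℂ)).roots.map (fun a => w - a)).prod := by
    intro w
    have := hsp.eval_eq_prod_roots w
    rw [eval_map_algebraMap] at this
    rw [this, leadingCoeff_map]
    rfl
  set R := (f.map (algebraMap ℝ ℂ)).roots with hR
  have hRreal : ∀ r ∈ R, r.im = 0 := by
    intro r hr
    apply h
    rw [hR, mem_roots'] at hr
    have := hr.2
    rw [IsRoot.def, eval_map_algebraMap] at this
    exact this
  have hcard : R.card ≤ n := by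
    calc R.card ≤ (f.map (algebraMap ℝ ℂ)).natDegree := card_roots' _
      _ = f.natDegree := natDegree_map _
      _ ≤ n := hn
  set c : ℝ := 1 + ‖w - z‖ / |z.im| with hc
  have hc1 : 1 ≤ c := by
    have : 0 ≤ ‖w - z‖ / |z.im| := by positivity
    linarith
  have hmain : ∀ S : Multiset ℂ, (∀ r ∈ S, r.im = 0) →
      ‖(S.map (fun a => w - a)).prod‖ ≤ c ^ S.card * ‖(S.map (fun a => z - a)).prod‖ := by
    intro S
    induction S using Multiset.induction_on with
    | empty => intro _; simp
    | cons r S ih =>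
      intro hS
      have hr : r.im = 0 := hS r (Multiset.mem_cons_self r S)
      have ih' := ih (fun r' hr' => hS r' (Multiset.mem_cons_of_mem hr'))
      simp only [Multiset.map_cons, Multiset.prod_cons, Multiset.card_cons, norm_mul, pow_succ]
      have h1 : ‖w - r‖ ≤ c * ‖z - r‖ := by
        have h2 : |z.im| ≤ ‖z - r‖ := by
          have := Complex.abs_im_le_norm (z - r)
          rwa [Complex.sub_im, hr, sub_zero] at this
        have h3 : ‖w - r‖ ≤ ‖w - z‖ + ‖z - r‖ := by
          have : w - r = (w - z) + (z - r) := by ring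
          rw [this]; exact norm_add_le _ _
        have h4 : ‖w - z‖ ≤ ‖w - z‖ / |z.im| * ‖z - r‖ := by
          rw [div_mul_eq_mul_div, le_div_iff₀ hzpos]
          gcongr
        rw [hc]; linarith
      calc ‖w - r‖ * ‖(S.map (fun a => w - a)).prod‖
          ≤ (c * ‖z - r‖) * (c ^ S.card * ‖(S.map (fun a => z - a)).prod‖) := by
            gcongr
        _ = _ := by ring
  rw [hev w, hev z, norm_mul, norm_mul]
  calc ‖(f.leadingCoeff : ℂ)‖ * ‖(R.map (fun a => w - a)).prod‖
      ≤ ‖(f.leadingCoeff : ℂ)‖ * (c ^ R.card * ‖(R.map (fun a => z - a)).prod‖) := by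
        gcongr; exact hmain R hRreal
    _ ≤ ‖(f.leadingCoeff : ℂ)‖ * (c ^ n * ‖(R.map (fun a => z - a)).prod‖) := by
        gcongr
    _ = _ := by ring

lemma basis_exists (q : ℕ → ℝ[X]) (hq : SimpleSet q) (n : ℕ) (g : ℝ[X]) (hg : g.degree < (n:ℕ)) :
    ∃ b : ℕ → ℝ, (∀ l, n ≤ l → b l = 0) ∧ g = ∑ l ∈ Finset.range n, C (b l) * q l := by
  induction n generalizing g with
  | zero =>
    refine ⟨fun _ => 0, fun _ _ => rfl, ?_⟩
    simp only [CharP.cast_eq_zero] at hg
    have : g = 0 := by
      rw [← degree_eq_bot]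
      exact Nat.WithBot.lt_zero_iff.mp hg
    simp [this]
  | succ n ih =>
    have hqn := hq n
    have hq0 : q n ≠ 0 := by
      intro h; rw [h, degree_zero] at hqn; simp at hqn
    have hnat : (q n).natDegree = n := natDegree_eq_of_degree_eq_some hqn
    set c := g.coeff n / (q n).leadingCoeff with hc
    have hlc : (q n).leadingCoeff ≠ 0 := leadingCoeff_ne_zero.mpr hq0
    have hdeg : (g - C c * q n).degree < (n:ℕ) := by
      rw [degree_lt_iff_coeff_zero]
      intro m hm
      rcases hm.eq_or_lt with h | h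
      · subst h
        rw [coeff_sub, coeff_C_mul]
        have : (q n).coeff n = (q n).leadingCoeff := by rw [leadingCoeff, hnat]
        rw [this, hc, div_mul_cancel₀ _ hlc, sub_self]
      · rw [coeff_sub, coeff_C_mul]
        have h1 : g.coeff m = 0 := by
          rw [degree_lt_iff_coeff_zero] at hg
          exact hg m h
        have h2 : (q n).coeff m = 0 := by
          apply coeff_eq_zero_of_natDegree_lt
          rw [hnat]; exact h
        rw [h1, h2]; ring
    obtain ⟨b, hb1, hb2⟩ := ih _ hdeg
    refine ⟨fun l => if l = n then c else b l, ?_, ?_⟩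
    · intro l hl
      have : l ≠ n := by omega
      simp only [this, if_false]
      exact hb1 l (by omega)
    · rw [Finset.sum_range_succ]
      simp only [if_true]
      have : ∑ l ∈ Finset.range n, C (if l = n then c else b l) * q l
          = ∑ l ∈ Finset.range n, C (b l) * q l := by
        apply Finset.sum_congr rfl
        intro l hl
        rw [Finset.mem_range] at hl
        have : l ≠ n := by omega
        simp only [this, if_false]
      rw [this, ← hb2]; ring

lemma scale_lim (f : ℝ[X]) (k : ℕ) (hf : f.degree < (k:ℕ)) (w : ℂ) :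
    Tendsto (fun N : ℕ => (1 / ((N:ℂ) + 1)) ^ k * aeval (w * ((N:ℂ) + 1)) f) atTop (𝓝 0) := by
  have h1 : ∀ N : ℕ, (1 / ((N:ℂ) + 1)) ^ k * aeval (w * ((N:ℂ) + 1)) f
      = ∑ i ∈ Finset.range k, (f.coeff i : ℂ) * w ^ i * (1 / ((N:ℂ) + 1)) ^ (k - i) := by
    intro N
    have hN : (N:ℂ) + 1 ≠ 0 := Nat.cast_add_one_ne_zero N
    by_cases hf0 : f = 0
    · rw [hf0]; simp
    have hnat : f.natDegree < k := by
      rw [degree_eq_natDegree hf0] at hf
      exact_mod_cast hf
    rw [aeval_eq_sum_range' hnat, Finset.mul_sum]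
    apply Finset.sum_congr rfl
    intro i hi
    rw [Finset.mem_range] at hi
    obtain ⟨j, rfl⟩ : ∃ j, k = i + j := ⟨k - i, by omega⟩
    have : i + j - i = j := by omega
    rw [this, mul_pow, pow_add, Complex.real_smul]
    have h2 : (1 / ((N:ℂ) + 1)) ^ i * ((N:ℂ) + 1) ^ i = 1 := by
      rw [← mul_pow, one_div_mul_cancel hN, one_pow]
    linear_combination ((1 / ((N:ℂ) + 1)) ^ j * (f.coeff i : ℂ) * w ^ i) * h2
  simp_rw [h1]
  have h0 : Tendsto (fun N : ℕ => 1 / ((N:ℂ) + 1)) atTop (𝓝 0) := by
    exact tendsto_one_div_add_atTop_nhds_zero_nat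
  have : (0:ℂ) = ∑ i ∈ Finset.range k, (f.coeff i : ℂ) * w ^ i * 0 := by simp
  rw [this]
  apply tendsto_finsetSum
  intro i hi
  rw [Finset.mem_range] at hi
  apply Tendsto.const_mul
  have h3 := h0.pow (k - i)
  rwa [zero_pow (by omega)] at h3

/-- Every multiplier sequence of a simple set is a classical multiplier sequence. -/
lemma MS_subset_classical (q : ℕ → ℝ[X]) (hq : SimpleSet q) (γ : ℕ → ℝ) (hγ : IsMS q γ) :
    IsMS (fun k => X ^ k) γ := by
  intro n a hf
  by_cases hF0 : (∑ k ∈ Finset.range (n + 1), C (a k * γ k) * (X:ℝ[X]) ^ k) = 0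
  · left; exact hF0
  right
  intro z hz
  by_contra hzim
  -- basis coefficients of X^k
  have hb : ∀ k : ℕ, ∃ b : ℕ → ℝ, (∀ l, k + 1 ≤ l → b l = 0) ∧
      (X:ℝ[X]) ^ k = ∑ l ∈ Finset.range (k + 1), C (b l) * q l := by
    intro k
    apply basis_exists q hq (k + 1)
    rw [degree_X_pow]
    exact_mod_cast Nat.lt_succ_self k
  choose b hb0 hb1 using hb
  have hb1' : ∀ k ≤ n, (X:ℝ[X]) ^ k = ∑ l ∈ Finset.range (n + 1), C (b k l) * q l := by
    intro k hk
    rw [hb1 k]
    apply Finset.sum_subset
    · intro l; simp only [Finset.mem_range]; omega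
    · intro l _ hl
      simp only [Finset.mem_range, not_lt] at hl
      rw [hb0 k l hl]; simp
  -- the remainder polynomials
  set Rm : ℕ → ℝ[X] := fun k => ∑ l ∈ Finset.range (n + 1), C (b k l * (γ l - γ k)) * q l with hRm
  have hRdeg : ∀ k ≤ n, (Rm k).degree < (k:ℕ) := by
    intro k hk
    have : Rm k = ∑ l ∈ Finset.range k, C (b k l * (γ l - γ k)) * q l := by
      rw [hRm]
      symm
      apply Finset.sum_subset
      · intro l; simp only [Finset.mem_range]; omega
      · intro l _ hl
        simp only [Finset.mem_range, not_lt] at hl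
        rcases hl.eq_or_lt with h | h
        · subst h; simp
        · rw [hb0 k l h]; simp
    rw [this, ← mem_degreeLT]
    apply Submodule.sum_mem
    intro l hl
    rw [Finset.mem_range] at hl
    rw [mem_degreeLT]
    rw [← smul_eq_C_mul]
    refine (degree_smul_le _ _).trans_lt ?_
    rw [hq l]
    exact_mod_cast hl
  have hT : ∀ k ≤ n, ∑ l ∈ Finset.range (n + 1), C (b k l * γ l) * q l
      = C (γ k) * X ^ k + Rm k := by
    intro k hk
    rw [hb1' k hk, Finset.mul_sum, hRm, ← Finset.sum_add_distrib]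
    apply Finset.sum_congr rfl
    intro l _
    simp only [C_mul, C_sub]
    ring
  -- the scaled polynomials
  have hscaled : ∀ s : ℝ, s ≠ 0 → RealRooted (∑ k ∈ Finset.range (n + 1),
      C (a k * s ^ k) * (C (γ k) * X ^ k + Rm k)) := by
    intro s hs
    have h1 : RealRooted (∑ l ∈ Finset.range (n + 1),
        C (∑ k ∈ Finset.range (n + 1), a k * s ^ k * b k l) * q l) := by
      have e : ∑ l ∈ Finset.range (n + 1),
          C (∑ k ∈ Finset.range (n + 1), a k * s ^ k * b k l) * q l
          = (∑ k ∈ Finset.range (n + 1), C (a k) * (X:ℝ[X]) ^ k).comp (C s * X) := by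
        have e1 : (∑ k ∈ Finset.range (n + 1), C (a k) * (X:ℝ[X]) ^ k).comp (C s * X)
            = ∑ k ∈ Finset.range (n + 1), C (a k * s ^ k) * X ^ k := by
          rw [Polynomial.sum_comp]
          apply Finset.sum_congr rfl
          intro k _
          simp only [mul_comp, C_comp, pow_comp, X_comp, mul_pow, C_mul, C_pow]
          ring
        rw [e1]
        have e2 : ∑ k ∈ Finset.range (n + 1), C (a k * s ^ k) * (X:ℝ[X]) ^ k
            = ∑ k ∈ Finset.range (n + 1), ∑ l ∈ Finset.range (n + 1),
              C (a k * s ^ k * b k l) * q l := by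
          apply Finset.sum_congr rfl
          intro k hk
          rw [Finset.mem_range] at hk
          conv_lhs => rw [hb1' k (by omega)]
          rw [Finset.mul_sum]
          apply Finset.sum_congr rfl
          intro l _
          simp only [C_mul]; ring
        rw [e2, Finset.sum_comm]
        apply Finset.sum_congr rfl
        intro l _
        rw [map_sum, Finset.sum_mul]
      rw [e]
      rcases hf with h0 | h
      · left; rw [h0]; simp
      · right
        intro z hz
        rw [aeval_comp] at hz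
        have := h _ hz
        simp only [map_mul, aeval_C, aeval_X, Complex.coe_algebraMap, Complex.mul_im,
          Complex.ofReal_re, Complex.ofReal_im, zero_mul, add_zero, mul_eq_zero] at this
        exact this.resolve_left hs
    have h2 := hγ n _ h1
    convert h2 using 1
    have e3 : ∑ k ∈ Finset.range (n + 1), C (a k * s ^ k) * (C (γ k) * X ^ k + Rm k)
        = ∑ k ∈ Finset.range (n + 1), ∑ l ∈ Finset.range (n + 1),
            C (a k * s ^ k) * (C (b k l * γ l) * q l) := by
      apply Finset.sum_congr rfl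
      intro k hk
      rw [Finset.mem_range] at hk
      rw [← hT k (by omega), Finset.mul_sum]
    rw [e3, Finset.sum_comm]
    apply Finset.sum_congr rfl
    intro l _
    rw [Finset.sum_mul, map_sum, Finset.sum_mul]
    apply Finset.sum_congr rfl
    intro k _
    simp only [C_mul]; ring
  -- limits
  set F : ℝ[X] := ∑ k ∈ Finset.range (n + 1), C (a k * γ k) * (X:ℝ[X]) ^ k with hF
  have hlim : ∀ w : ℂ, Tendsto (fun N : ℕ => aeval (w * ((N:ℂ) + 1))
      (∑ k ∈ Finset.range (n + 1), C (a k * (1 / ((N:ℝ) + 1)) ^ k) * (C (γ k) * X ^ k + Rm k)))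
      atTop (𝓝 (aeval w F)) := by
    intro w
    have e : ∀ N : ℕ, aeval (w * ((N:ℂ) + 1))
      (∑ k ∈ Finset.range (n + 1), C (a k * (1 / ((N:ℝ) + 1)) ^ k) * (C (γ k) * X ^ k + Rm k))
      = aeval w F + ∑ k ∈ Finset.range (n + 1),
        (a k : ℂ) * ((1 / ((N:ℂ) + 1)) ^ k * aeval (w * ((N:ℂ) + 1)) (Rm k)) := by
      intro N
      have hN : (N:ℂ) + 1 ≠ 0 := Nat.cast_add_one_ne_zero N
      rw [hF, map_sum, map_sum, ← Finset.sum_add_distrib]
      apply Finset.sum_congr rfl
      intro k _
      simp only [map_mul, map_add, map_pow, aeval_C, aeval_X, Complex.coe_algebraMap,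
        Complex.ofReal_mul, Complex.ofReal_pow, Complex.ofReal_div, Complex.ofReal_one,
        Complex.ofReal_add, Complex.ofReal_natCast]
      have h2 : (1 / ((N:ℂ) + 1)) ^ k * ((N:ℂ) + 1) ^ k = 1 := by
        rw [← mul_pow, one_div_mul_cancel hN, one_pow]
      rw [mul_pow]
      linear_combination ((a k : ℂ) * (γ k : ℂ) * w ^ k) * h2
    simp_rw [e]
    have h0 : Tendsto (fun N : ℕ => ∑ k ∈ Finset.range (n + 1),
        (a k : ℂ) * ((1 / ((N:ℂ) + 1)) ^ k * aeval (w * ((N:ℂ) + 1)) (Rm k))) atTop (𝓝 0) := by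
      have : (0:ℂ) = ∑ k ∈ Finset.range (n + 1), (a k : ℂ) * 0 := by simp
      rw [this]
      apply tendsto_finsetSum
      intro k hk
      rw [Finset.mem_range] at hk
      exact (scale_lim (Rm k) k (hRdeg k (by omega)) w).const_mul _
    simpa using h0.const_add (aeval w F)
  have hbound : ∀ w : ℂ, ‖aeval w F‖ ≤ (1 + ‖w - z‖ / |z.im|) ^ n * ‖aeval z F‖ := by
    intro w
    refine le_of_tendsto_of_tendsto (hlim w).norm ((hlim z).norm.const_mul _) ?_
    filter_upwards with N
    have hNpos : (0:ℝ) < (N:ℝ) + 1 := by positivity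
    have h1 := (hscaled (1 / ((N:ℝ) + 1)) (by positivity)).bound n ?_
      (z * ((N:ℂ) + 1)) (w * ((N:ℂ) + 1)) ?_
    · have e1 : ‖w * ((N:ℂ) + 1) - z * ((N:ℂ) + 1)‖ / |(z * ((N:ℂ) + 1)).im|
          = ‖w - z‖ / |z.im| := by
        rw [← sub_mul, norm_mul]
        have e2 : ‖(N:ℂ) + 1‖ = (N:ℝ) + 1 := by
          have : (N:ℂ) + 1 = (((N:ℝ) + 1 : ℝ) : ℂ) := by push_cast; ring
          rw [this, Complex.norm_real, Real.norm_eq_abs, abs_of_pos hNpos]
        have e3 : (z * ((N:ℂ) + 1)).im = z.im * ((N:ℝ) + 1) := by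
          simp [Complex.mul_im]
        rw [e2, e3, abs_mul, abs_of_pos hNpos]
        have : |z.im| ≠ 0 := abs_ne_zero.mpr hzim
        field_simp
      rw [e1] at h1
      exact h1
    · apply natDegree_sum_le_of_forall_le
      intro k hk
      rw [Finset.mem_range] at hk
      refine (natDegree_C_mul_le _ _).trans ?_
      refine (natDegree_add_le _ _).trans ?_
      apply max_le
      · exact (natDegree_C_mul_X_pow_le _ _).trans (by omega)
      · have := hRdeg k (by omega)
        have h2 : (Rm k).natDegree ≤ k := natDegree_le_of_degree_le this.le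
        omega
    · have e3 : (z * ((N:ℂ) + 1)).im = z.im * ((N:ℝ) + 1) := by
        simp [Complex.mul_im]
      rw [e3]
      exact mul_ne_zero hzim hNpos.ne'
  have hzero : ∀ w : ℂ, aeval w F = 0 := by
    intro w
    have := hbound w
    rw [hz, norm_zero, mul_zero] at this
    exact norm_le_zero_iff.mp this
  apply hF0
  have h3 : F.map (algebraMap ℝ ℂ) = 0 := by
    apply Polynomial.funext
    intro w
    rw [eval_map_algebraMap, hzero w]; simp
  exact (Polynomial.map_eq_zero_iff (algebraMap ℝ ℂ).injective).mp h3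

end Pool.Agent.R260.MS
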