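import Mathlib

set_option autoImplicit false

open Filter Set Topology

namespace Pool.Agent.R260.Orl

/-- the cosine coefficients -/
noncomputable def ac (n : ℕ) : ℝ :=
  Real.cos (Real.pi * (n:ℝ)^2 / (2 * 4 ^ (Nat.log 4 n))) / 2 ^ (Nat.log 4 n)

/-- the sine coefficients -/
noncomputable def bc (n : ℕ) : ℝ :=
  - Real.sin (Real.pi * (n:ℝ)^2 / (2 * 4 ^ (Nat.log 4 n))) / 2 ^ (Nat.log 4 n)

/-- the phase in block `k` -/
noncomputable def ph (k n : ℕ) (x : ℝ) : ℝ := (n:ℝ) * x + Real.pi * (n:ℝ)^2 / (2 * 4 ^ k)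

lemma term_eq (k n : ℕ) (x : ℝ) (h1 : 4 ^ k ≤ n) (h2 : n < 4 ^ (k+1)) :
    ac n * Real.cos (n * x) + bc n * Real.sin (n * x) = Real.cos (ph k n x) / 2 ^ k := by
  have hk : Nat.log 4 n = k := by
    rw [Nat.log_eq_iff]
    · exact ⟨h1, h2⟩
    · right
      have : 0 < 4 ^ k := by positivity
      exact ⟨by norm_num, by omega⟩
  unfold ac bc ph
  rw [hk, Real.cos_add]
  ring

lemma size (n : ℕ) (hn : 1 ≤ n) : ac n ^ 2 + bc n ^ 2 ≤ 4 / n := by
  unfold ac bc
  have h1 : n < 4 ^ (Nat.log 4 n + 1) := Nat.lt_pow_succ_log_self (by norm_num) n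
  have h2 : (n:ℝ) < 4 ^ (Nat.log 4 n + 1) := by exact_mod_cast h1
  have hn' : (0:ℝ) < n := by exact_mod_cast hn
  set k := Nat.log 4 n
  set θ := Real.pi * (n:ℝ)^2 / (2 * 4 ^ k)
  have e : (Real.cos θ / 2 ^ k) ^ 2 + (-Real.sin θ / 2 ^ k) ^ 2 = 1 / 4 ^ k := by
    have h3 : (4:ℝ) ^ k = 2 ^ k * 2 ^ k := by
      rw [← mul_pow]; norm_num
    rw [h3]
    have := Real.sin_sq_add_cos_sq θ
    field_simp
    linarith
  rw [e, div_le_div_iff₀ (by positivity) hn']
  rw [pow_succ] at h2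
  linarith

/-- a block of consecutive terms whose phases are close to a fixed angle has a large sum -/
lemma seg (k u m : ℕ) (x ψ : ℝ) (hu : 4 ^ k ≤ u) (hv : u + m ≤ 4 ^ (k+1))
    (hψ : 7/10 ≤ |Real.cos ψ|)
    (h : ∀ i < m, ∃ q : ℤ, |ph k (u + i) x - ψ - q * (2 * Real.pi)| ≤ 1/2) :
    (m:ℝ) / (5 * 2 ^ k) ≤ |∑ n ∈ Finset.Ico u (u + m),
      (ac n * Real.cos (n * x) + bc n * Real.sin (n * x))| := by
  have h1 : ∑ n ∈ Finset.Ico u (u + m), (ac n * Real.cos (n * x) + bc n * Real.sin (n * x))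
      = (∑ i ∈ Finset.range m, Real.cos (ph k (u + i) x)) / 2 ^ k := by
    rw [Finset.sum_Ico_eq_sum_range, Finset.sum_div]
    have : u + m - u = m := by omega
    rw [this]
    apply Finset.sum_congr rfl
    intro i hi
    rw [Finset.mem_range] at hi
    exact term_eq k (u + i) x (by omega) (by omega)
  have h2 : |(∑ i ∈ Finset.range m, Real.cos (ph k (u + i) x)) - m * Real.cos ψ| ≤ m * (1/2) := by
    have : (∑ i ∈ Finset.range m, Real.cos (ph k (u + i) x)) - m * Real.cos ψ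
        = ∑ i ∈ Finset.range m, (Real.cos (ph k (u + i) x) - Real.cos ψ) := by
      rw [Finset.sum_sub_distrib]; simp
    rw [this]
    refine (Finset.abs_sum_le_sum_abs _ _).trans ?_
    have h3 : ∑ i ∈ Finset.range m, |Real.cos (ph k (u + i) x) - Real.cos ψ|
        ≤ ∑ i ∈ Finset.range m, (1/2 : ℝ) := by
      apply Finset.sum_le_sum
      intro i hi
      rw [Finset.mem_range] at hi
      obtain ⟨q, hq⟩ := h i hi
      have e : Real.cos (ph k (u + i) x) = Real.cos (ph k (u + i) x - q * (2 * Real.pi)) := by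
        rw [Real.cos_sub_int_mul_two_pi]
      rw [e]
      refine (Real.abs_cos_sub_cos_le _ _).trans ?_
      have e2 : ph k (u + i) x - q * (2 * Real.pi) - ψ
          = ph k (u + i) x - ψ - q * (2 * Real.pi) := by ring
      rw [e2]
      exact hq
    simpa using h3
  have h4 : (m:ℝ) * (1/5) ≤ |∑ i ∈ Finset.range m, Real.cos (ph k (u + i) x)| := by
    have h5 : |(m:ℝ) * Real.cos ψ| = m * |Real.cos ψ| := by
      rw [abs_mul, abs_of_nonneg (by positivity : (0:ℝ) ≤ m)]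
    have h6 : (m:ℝ) * (7/10) ≤ m * |Real.cos ψ| := by gcongr
    have h7 := abs_sub_abs_le_abs_sub ((m:ℝ) * Real.cos ψ)
      (∑ i ∈ Finset.range m, Real.cos (ph k (u + i) x))
    rw [abs_sub_comm] at h7
    linarith
  rw [h1, abs_div, abs_of_pos (by positivity : (0:ℝ) < 2 ^ k), div_le_div_iff₀ (by positivity)
    (by positivity)]
  have : (0:ℝ) < 2 ^ k := by positivity
  nlinarith

lemma key (x : ℝ) (k : ℕ) (hk : 5 ≤ k) : ∃ u v : ℕ, 4 ^ k ≤ u ∧ u ≤ v ∧
    1/100 ≤ |∑ n ∈ Finset.Ico u v, (ac n * Real.cos (n * x) + bc n * Real.sin (n * x))| := by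
  have hpi := Real.pi_pos
  have hpi2 := Real.pi_lt_d2
  have hK32 : 32 ≤ 2 ^ k := by
    calc 32 = 2 ^ 5 := by norm_num
      _ ≤ 2 ^ k := Nat.pow_le_pow_right (by norm_num) hk
  set K : ℕ := 2 ^ k with hK
  have h4 : 4 ^ k = K * K := by rw [hK, ← mul_pow]; norm_num
  have h41 : 4 ^ (k+1) = 4 * (K * K) := by rw [pow_succ, h4]; ring
  have h4r : (4:ℝ) ^ k = (K:ℝ) * K := by exact_mod_cast h4
  have hKr : (32:ℝ) ≤ K := by exact_mod_cast hK32
  have hKpos : (0:ℝ) < K := by linarith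
  set w : ℝ := -x * ((K:ℝ) * K) / Real.pi with hw
  set L : ℤ := (K:ℤ) * K with hL
  have hLpos : 0 < L := by
    have : 0 < K := by omega
    positivity
  set n0 : ℤ := L + (⌈w⌉ - L) % (2 * L) with hn0
  have hn1 : L ≤ n0 := by
    have := Int.emod_nonneg (⌈w⌉ - L) (show (2 * L) ≠ 0 by omega)
    omega
  have hn2 : n0 < 3 * L := by
    have := Int.emod_lt_of_pos (⌈w⌉ - L) (show 0 < 2 * L by omega)
    omega
  obtain ⟨q, hq⟩ : ∃ q : ℤ, n0 = ⌈w⌉ + 2 * L * q := by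
    refine ⟨-((⌈w⌉ - L) / (2 * L)), ?_⟩
    have := Int.emod_add_mul_ediv (⌈w⌉ - L) (2 * L)
    rw [hn0]
    linear_combination this
  obtain ⟨n, hn⟩ : ∃ n : ℕ, (n:ℤ) = n0 := Int.eq_ofNat_of_zero_le (by omega) |>.imp (fun _ h => h.symm)
  have hnr : (n:ℝ) = ⌈w⌉ + 2 * ((K:ℝ) * K) * q := by
    have : (n:ℤ) = ⌈w⌉ + 2 * L * q := by rw [hn, hq]
    have h := congrArg (fun z : ℤ => (z:ℝ)) this
    simp only [Int.cast_natCast, Int.cast_add, Int.cast_mul, Int.cast_ofNat, hL] at h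
    exact h
  have hnL : K * K ≤ n := by
    have : L ≤ (n:ℤ) := by rw [hn]; exact hn1
    rw [hL] at this
    exact_mod_cast this
  have hnU : n < 3 * (K * K) := by
    have : (n:ℤ) < 3 * L := by rw [hn]; exact hn2
    rw [hL] at this
    exact_mod_cast this
  -- the residual slope
  set r : ℝ := x + Real.pi * ⌈w⌉ / ((K:ℝ) * K) with hr
  have hr0 : 0 ≤ r := by
    have h1 := Int.le_ceil w
    have h2 : -x ≤ Real.pi * ⌈w⌉ / ((K:ℝ) * K) := by
      rw [le_div_iff₀ (by positivity)]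
      have h3 : Real.pi * w ≤ Real.pi * ⌈w⌉ := by gcongr
      have h4 : Real.pi * w = -x * ((K:ℝ) * K) := by rw [hw]; field_simp
      linarith
    linarith
  have hr1 : r ≤ Real.pi / ((K:ℝ) * K) := by
    have h1 := Int.ceil_lt_add_one w
    have h2 : Real.pi * ⌈w⌉ / ((K:ℝ) * K) ≤ -x + Real.pi / ((K:ℝ) * K) := by
      rw [div_le_iff₀ (by positivity)]
      have h3 : Real.pi * ⌈w⌉ ≤ Real.pi * (w + 1) := by gcongr
      have h4 : Real.pi * w = -x * ((K:ℝ) * K) := by rw [hw]; field_simp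
      have h5 : (-x + Real.pi / ((K:ℝ) * K)) * ((K:ℝ) * K) = -x * ((K:ℝ) * K) + Real.pi := by
        field_simp
      rw [h5]
      linarith
    linarith
  -- phase expansion
  have hph : ∀ i : ℕ, ph k (n + i) x = ph k n x + i * r + ((i:ℤ) * q : ℤ) * (2 * Real.pi)
      + Real.pi * (i:ℝ)^2 / (2 * ((K:ℝ) * K)) := by
    intro i
    unfold ph
    rw [h4r, hr]
    push_cast
    rw [hnr]
    field_simp
    ring
  have hm1 : K / 10 * 10 ≤ K := Nat.div_mul_le_self K 10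
  set m := K / 10 with hm
  have hm2 : K < (m + 1) * 10 := by omega
  have hmr1 : (m:ℝ) * 10 ≤ K := by exact_mod_cast hm1
  have hmr2 : (K:ℝ) < ((m:ℝ) + 1) * 10 := by exact_mod_cast hm2
  have hfin : (1:ℝ)/100 ≤ (m:ℝ) / (5 * 2 ^ k) := by
    have h2k : (2:ℝ) ^ k = K := by rw [hK]; push_cast; rfl
    rw [h2k, div_le_div_iff₀ (by norm_num) (by positivity)]
    linarith
  have hKK : K * 32 ≤ K * K := Nat.mul_le_mul_left K hK32
  rcases le_total (7/10) |Real.cos (ph k n x)| with hc | hc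
  · refine ⟨n, n + m, by omega, by omega, hfin.trans ?_⟩
    apply seg k n m x (ph k n x) (by omega) (by omega) hc
    intro i hi
    refine ⟨(i:ℤ) * q, ?_⟩
    rw [hph i]
    have hir : (i:ℝ) ≤ m := by exact_mod_cast hi.le
    have hi0 : (0:ℝ) ≤ i := by positivity
    have e : ph k n x + i * r + ((i:ℤ) * q : ℤ) * (2 * Real.pi)
      + Real.pi * (i:ℝ)^2 / (2 * ((K:ℝ) * K)) - ph k n x - ((i:ℤ) * q : ℤ) * (2 * Real.pi)
      = i * r + Real.pi * (i:ℝ)^2 / (2 * ((K:ℝ) * K)) := by ring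
    rw [e, abs_of_nonneg (by positivity)]
    have b1 : (i:ℝ) * r ≤ 1/10 := by
      calc (i:ℝ) * r ≤ (K / 10) * (Real.pi / ((K:ℝ) * K)) := by
            apply mul_le_mul (by linarith) hr1 hr0 (by positivity)
        _ = Real.pi / (10 * K) := by field_simp
        _ ≤ 1/10 := by
            rw [div_le_div_iff₀ (by positivity) (by norm_num)]
            linarith
    have b2 : Real.pi * (i:ℝ)^2 / (2 * ((K:ℝ) * K)) ≤ 1/10 := by
      have : (i:ℝ)^2 ≤ (K / 10)^2 := by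
        apply pow_le_pow_left₀ hi0; linarith
      calc Real.pi * (i:ℝ)^2 / (2 * ((K:ℝ) * K)) ≤ Real.pi * (K / 10)^2 / (2 * ((K:ℝ) * K)) := by
            gcongr
        _ = Real.pi / 200 := by field_simp; norm_num
        _ ≤ 1/10 := by linarith
    linarith
  · -- use the second segment
    have hs : 7/10 ≤ |Real.cos (ph k n x + Real.pi / 2)| := by
      rw [Real.cos_add_pi_div_two, abs_neg]
      have h1 := Real.sin_sq_add_cos_sq (ph k n x)
      have h2 : Real.cos (ph k n x)^2 ≤ (7/10)^2 := by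
        rw [← sq_abs]; gcongr
      have h3 : (7/10)^2 ≤ |Real.sin (ph k n x)|^2 := by
        rw [sq_abs]; norm_num at h2 ⊢; linarith
      exact le_of_sq_le_sq h3 (abs_nonneg _) 
    refine ⟨n + K, n + K + m, by omega, by omega, hfin.trans ?_⟩
    apply seg k (n + K) m x (ph k n x + Real.pi / 2) (by omega) (by omega) hs
    intro l hl
    refine ⟨((K + l : ℕ):ℤ) * q, ?_⟩
    rw [add_assoc n K l, hph (K + l)]
    have hlr : (l:ℝ) ≤ m := by exact_mod_cast hl.le
    have hl0 : (0:ℝ) ≤ l := by positivity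
    have e : ph k n x + ((K + l : ℕ):ℝ) * r + (((K + l : ℕ):ℤ) * q : ℤ) * (2 * Real.pi)
      + Real.pi * ((K + l : ℕ):ℝ)^2 / (2 * ((K:ℝ) * K)) - (ph k n x + Real.pi / 2)
        - (((K + l : ℕ):ℤ) * q : ℤ) * (2 * Real.pi)
      = ((K:ℝ) + l) * r + Real.pi * (2 * K * l + (l:ℝ)^2) / (2 * ((K:ℝ) * K)) := by
      push_cast
      field_simp
      ring
    rw [e, abs_of_nonneg (by positivity)]
    have b1 : ((K:ℝ) + l) * r ≤ 11/100 := by
      calc ((K:ℝ) + l) * r ≤ (11 * K / 10) * (Real.pi / ((K:ℝ) * K)) := by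
            apply mul_le_mul (by linarith) hr1 hr0 (by positivity)
        _ = 11 * Real.pi / (10 * K) := by field_simp
        _ ≤ 11/100 := by
            rw [div_le_div_iff₀ (by positivity) (by norm_num)]
            linarith
    have b2 : Real.pi * (2 * K * l + (l:ℝ)^2) / (2 * ((K:ℝ) * K)) ≤ 34/100 := by
      have h1 : (l:ℝ)^2 ≤ (K / 10)^2 := by
        apply pow_le_pow_left₀ hl0; linarith
      have h2 : (l:ℝ) ≤ K / 10 := by linarith
      calc Real.pi * (2 * K * l + (l:ℝ)^2) / (2 * ((K:ℝ) * K))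
          ≤ Real.pi * (2 * K * (K / 10) + (K / 10)^2) / (2 * ((K:ℝ) * K)) := by
            gcongr
        _ = Real.pi * (21 / 200) := by field_simp; norm_num
        _ ≤ 34/100 := by linarith
    linarith

lemma summ (c : ℕ → ℝ) (hc : ∀ n : ℕ, 1 ≤ n → c n ^ 2 ≤ 4 / n) (ε : ℝ) (hε : 0 < ε) :
    Summable (fun n : ℕ => |c n| ^ (2 + ε)) := by
  have h1 : Summable (fun n : ℕ => (4:ℝ) ^ (1 + ε / 2) * (1 / (n:ℝ) ^ (1 + ε / 2))) := by
    apply Summable.mul_left
    rw [Real.summable_one_div_nat_rpow]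
    linarith
  rw [← summable_nat_add_iff 1] at h1 ⊢
  refine Summable.of_nonneg_of_le (fun n => by positivity) (fun n => ?_) h1
  have h2 := hc (n+1) (by omega)
  have h3 : |c (n+1)| ^ (2 + ε) = (c (n+1) ^ 2) ^ (1 + ε/2) := by
    rw [← sq_abs, ← Real.rpow_natCast, ← Real.rpow_mul (abs_nonneg _)]
    congr 1
    push_cast; ring
  rw [h3]
  calc (c (n+1) ^ 2) ^ (1 + ε/2) ≤ (4 / ((n+1 : ℕ):ℝ)) ^ (1 + ε/2) := by
        apply Real.rpow_le_rpow (sq_nonneg _) h2 (by positivity)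
    _ = _ := by
        rw [Real.div_rpow (by norm_num) (by positivity)]
        ring

lemma summ_both (ε : ℝ) (hε : 0 < ε) :
    Summable (fun n : ℕ => |ac n| ^ (2 + ε) + |bc n| ^ (2 + ε)) := by
  apply Summable.add
  · apply summ ac _ ε hε
    intro n hn
    have := size n hn
    nlinarith [sq_nonneg (bc n)]
  · apply summ bc _ ε hε
    intro n hn
    have := size n hn
    nlinarith [sq_nonneg (ac n)]

lemma osc (x : ℝ) (N : ℕ) : ∃ u v : ℕ, N ≤ u ∧ u ≤ v ∧
    1/100 ≤ |(∑ n ∈ Finset.Icc 1 v, (ac n * Real.cos (n * x) + bc n * Real.sin (n * x)))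
      - ∑ n ∈ Finset.Icc 1 u, (ac n * Real.cos (n * x) + bc n * Real.sin (n * x))| := by
  obtain ⟨u, v, h1, h2, h3⟩ := key x (N + 5) (by omega)
  have h4 : N + 5 < 4 ^ (N + 5) := Nat.lt_pow_self (by norm_num)
  refine ⟨u - 1, v - 1, by omega, by omega, ?_⟩
  have e : ∀ w : ℕ, 1 ≤ w → Finset.Icc 1 (w - 1) = Finset.Ico 1 w := by
    intro w hw
    ext i; simp only [Finset.mem_Icc, Finset.mem_Ico]; omega
  rw [e v (by omega), e u (by omega)]
  rw [← Finset.sum_Ico_consecutive _ (show 1 ≤ u by omega) h2, add_sub_cancel_left]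
  exact h3

end Pool.Agent.R260.Orl
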