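import Pool.Agent.R260.LrB

set_option autoImplicit false

open MeasureTheory Filter Set Topology Pool.Agent.R260.Lr

namespace Pool.Agent.R260.Sq

/-- `binom(k,s)` for real `s` -/
noncomputable def g (s : ℝ) (k : ℕ) : ℝ :=
  (k.factorial : ℝ) / (Real.Gamma (1 + s) * Real.Gamma (1 + k - s))

lemma g_rec (s : ℝ) (k : ℕ) (h0 : 0 < s) (h1 : s < k + 1) : g s (k+1) = g s k + g (s - 1) k := by
  unfold g
  have e1 : Real.Gamma (1 + s) = s * Real.Gamma s := by
    rw [add_comm, Real.Gamma_add_one h0.ne']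
  have e2 : Real.Gamma (1 + ((k+1:ℕ):ℝ) - s) = (1 + k - s) * Real.Gamma (1 + k - s) := by
    rw [← Real.Gamma_add_one (by linarith)]
    congr 1; push_cast; ring
  have e3 : Real.Gamma (1 + (s - 1)) = Real.Gamma s := by congr 1; ring
  have e4 : Real.Gamma (1 + (k:ℝ) - (s - 1)) = (1 + k - s) * Real.Gamma (1 + k - s) := by
    rw [← Real.Gamma_add_one (by linarith)]
    congr 1; ring
  have hs : 0 < Real.Gamma s := Real.Gamma_pos_of_pos h0
  have hk : 0 < Real.Gamma (1 + k - s) := Real.Gamma_pos_of_pos (by linarith)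
  have hk' : (0:ℝ) < 1 + k - s := by linarith
  rw [e1, e2, e3, e4, Nat.factorial_succ]
  push_cast
  field_simp
  ring

lemma g_zero (k : ℕ) : g 0 k = 1 := by
  unfold g
  have : Real.Gamma (1 + (k:ℝ) - 0) = (k.factorial : ℝ) := by
    rw [sub_zero, add_comm, Real.Gamma_nat_eq_factorial]
  rw [add_zero, Real.Gamma_one, one_mul, this]
  exact div_self (by positivity)

lemma g_self (k : ℕ) : g k k = 1 := by
  unfold g
  have h1 : Real.Gamma (1 + (k:ℝ)) = (k.factorial : ℝ) := by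
    rw [add_comm, Real.Gamma_nat_eq_factorial]
  have h2 : (1:ℝ) + k - k = 1 := by ring
  rw [h1, h2, Real.Gamma_one, mul_one]
  exact div_self (by positivity)

lemma g_symm (s : ℝ) (k : ℕ) : g (k - s) k = g s k := by
  unfold g
  have h1 : (1:ℝ) + (k - s) = 1 + k - s := by ring
  have h2 : (1:ℝ) + k - (k - s) = 1 + s := by ring
  rw [h1, h2, mul_comm (Real.Gamma (1 + k - s))]

/-- the kernel moments -/
noncomputable def kap (k : ℕ) (a b : ℝ) : ℝ :=
  ∑ m ∈ Finset.range (2 * k + 1), (-1) ^ m * g ((m:ℝ)/2) k * a ^ m * b ^ (2 * k - m)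

lemma kap_succ (k : ℕ) (a b : ℝ) : kap (k+1) a b = (a^2 + b^2) * kap k a b
    - g (-(1/2)) k * (a * b^(2*k+1) + a^(2*k+1) * b) := by
  unfold kap
  rw [show 2 * (k+1) + 1 = (2 * k + 1) + 1 + 1 by ring, Finset.sum_range_succ,
    Finset.sum_range_succ']
  have e1 : ∀ m ∈ Finset.range (2 * k + 1), (-1:ℝ) ^ (m+1) * g (((m+1:ℕ):ℝ)/2) (k+1) * a ^ (m+1)
      * b ^ (2 * (k+1) - (m+1))
      = (-1) ^ (m+1) * g (((m+1:ℕ):ℝ)/2) k * a ^ (m+1) * b ^ (2 * (k+1) - (m+1))
        + (-1) ^ (m+1) * g (((m+1:ℕ):ℝ)/2 - 1) k * a ^ (m+1) * b ^ (2 * (k+1) - (m+1)) := by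
    intro m hm
    have hm' := Finset.mem_range.mp hm
    rw [g_rec]
    · ring
    · positivity
    · rw [div_lt_iff₀ (by norm_num)]
      have : ((m+1:ℕ):ℝ) < ((2 * k + 2 : ℕ) : ℝ) := by exact_mod_cast (by omega)
      push_cast at this ⊢
      linarith
  rw [Finset.sum_congr rfl e1, Finset.sum_add_distrib]
  have e2 : ∑ m ∈ Finset.range (2 * k + 1), (-1:ℝ) ^ (m+1) * g (((m+1:ℕ):ℝ)/2) k * a ^ (m+1)
        * b ^ (2 * (k+1) - (m+1)) + b ^ (2 * (k+1))
      = b^2 * (∑ m ∈ Finset.range (2 * k + 1), (-1) ^ m * g ((m:ℝ)/2) k * a ^ m * b ^ (2 * k - m))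
        - g (-(1/2)) k * (a^(2*k+1) * b) := by
    rw [Finset.sum_range_succ, Finset.sum_range_succ' (fun m => (-1:ℝ) ^ m * g ((m:ℝ)/2) k * a ^ m * b ^ (2 * k - m)),
      mul_add (b^2), Finset.mul_sum]
    have e3 : ∀ m ∈ Finset.range (2 * k), (-1:ℝ) ^ (m+1) * g (((m+1:ℕ):ℝ)/2) k * a ^ (m+1)
        * b ^ (2 * (k+1) - (m+1)) = b^2 * ((-1:ℝ) ^ (m+1) * g (((m+1:ℕ):ℝ)/2) k * a ^ (m+1)
        * b ^ (2 * k - (m+1))) := by
      intro m hm
      have hm' := Finset.mem_range.mp hm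
      rw [show 2 * (k+1) - (m+1) = 2 + (2 * k - (m+1)) by omega, pow_add]
      ring
    rw [Finset.sum_congr rfl e3]
    have e4 : g (((2 * k + 1 : ℕ):ℝ)/2) k = g (-(1/2)) k := by
      rw [← g_symm]
      congr 1; push_cast; ring
    rw [e4, show 2 * (k+1) - (2 * k + 1) = 1 by omega]
    simp only [Nat.cast_zero, zero_div, g_zero, pow_zero, Nat.sub_zero]
    have e5 : (-1:ℝ)^(2 * k + 1) = -1 := by rw [pow_succ, pow_mul]; simp
    rw [e5]
    ring
  have e6 : ∑ m ∈ Finset.range (2 * k + 1), (-1:ℝ) ^ (m+1) * g (((m+1:ℕ):ℝ)/2 - 1) k * a ^ (m+1)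
        * b ^ (2 * (k+1) - (m+1)) + a ^ (2 * (k+1))
      = a^2 * (∑ m ∈ Finset.range (2 * k + 1), (-1) ^ m * g ((m:ℝ)/2) k * a ^ m * b ^ (2 * k - m))
        - g (-(1/2)) k * (a * b^(2*k+1)) := by
    rw [Finset.sum_range_succ', Finset.sum_range_succ (fun m => (-1:ℝ) ^ m * g ((m:ℝ)/2) k * a ^ m * b ^ (2 * k - m)),
      mul_add (a^2), Finset.mul_sum]
    have e3 : ∀ m ∈ Finset.range (2 * k), (-1:ℝ) ^ (m+1+1) * g (((m+1+1:ℕ):ℝ)/2 - 1) k * a ^ (m+1+1)
        * b ^ (2 * (k+1) - (m+1+1)) = a^2 * ((-1:ℝ) ^ m * g ((m:ℝ)/2) k * a ^ m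
        * b ^ (2 * k - m)) := by
      intro m hm
      have hm' := Finset.mem_range.mp hm
      rw [show 2 * (k+1) - (m+1+1) = 2 * k - m by omega]
      have : ((m+1+1:ℕ):ℝ)/2 - 1 = (m:ℝ)/2 := by push_cast; ring
      rw [this]
      ring
    rw [Finset.sum_congr rfl e3]
    have e4 : (((0 + 1 : ℕ):ℝ)/2 - 1) = -(1/2) := by push_cast; ring
    rw [e4, show 2 * (k+1) - (0+1) = 2 * k + 1 by omega]
    have e5 : (-1:ℝ)^(2 * k) = 1 := by rw [pow_mul]; simp
    have e7 : ((2 * k : ℕ):ℝ)/2 = k := by push_cast; ring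
    rw [e5, e7, g_self]
    simp only [Nat.sub_self, pow_zero]
    ring
  have e8 : (-1:ℝ)^(2 * k + 1 + 1) = 1 := by
    rw [show 2 * k + 1 + 1 = 2 * (k+1) by ring, pow_mul]; simp
  have e9 : ((2 * k + 1 + 1 : ℕ):ℝ)/2 = ((k+1:ℕ):ℝ) := by push_cast; ring
  rw [e8, e9, g_self]
  simp only [Nat.cast_zero, zero_div, g_zero, pow_zero, Nat.sub_zero]
  rw [show 2 * (k+1) - (2 * k + 1 + 1) = 0 by omega, pow_zero,
    show 2 * k + 1 + 1 = 2 * (k+1) by ring]
  linear_combination e2 + e6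

lemma kap_zero (a b : ℝ) : kap 0 a b = 1 := by
  unfold kap
  have := g_zero 0
  simp [this]

/-- `J_k = ∫_0^{b/a} (b^2 - a^2 x^2)^k dx` -/
lemma J_formula (a b : ℝ) (ha : 0 < a) (hb : 0 < b) (k : ℕ) :
    ∫ x in (0)..(b/a), (b^2 - a^2 * x^2)^k = (b^(2*k+1) / a) * (Real.pi / 2) * g (-(1/2)) k := by
  induction k with
  | zero =>
    have : g (-(1/2)) 0 = 2 / Real.pi := by
      unfold g
      have h1 : Real.Gamma (1 + -(1/2)) = √Real.pi := by
        rw [show (1:ℝ) + -(1/2) = 1/2 by norm_num, Real.Gamma_one_half_eq]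
      have h2 : Real.Gamma (1 + ((0:ℕ):ℝ) - -(1/2)) = √Real.pi / 2 := by
        rw [show (1:ℝ) + ((0:ℕ):ℝ) - -(1/2) = 1/2 + 1 by norm_num,
          Real.Gamma_add_one (by norm_num), Real.Gamma_one_half_eq]
        ring
      rw [h1, h2]
      have : √Real.pi * (√Real.pi / 2) = Real.pi / 2 := by
        rw [← mul_div_assoc, Real.mul_self_sqrt Real.pi_pos.le]
      rw [this]
      simp
    rw [this]
    simp
    field_simp
  | succ k ih =>
    have hder : ∀ x ∈ uIcc 0 (b/a), HasDerivAt (fun x => x * (b^2 - a^2 * x^2)^(k+1))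
        ((2 * (k:ℝ) + 3) * (b^2 - a^2 * x^2)^(k+1) - (2 * (k:ℝ) + 2) * b^2 * (b^2 - a^2 * x^2)^k) x := by
      intro x _
      have h1 : HasDerivAt (fun x : ℝ => b^2 - a^2 * x^2) (-(a^2 * (2 * x))) x := by
        have := ((hasDerivAt_pow 2 x).const_mul (a^2)).const_sub (b^2)
        simpa using this
      have h2 : HasDerivAt (fun x : ℝ => x * (b^2 - a^2 * x^2)^(k+1))
          (1 * (b^2 - a^2 * x^2)^(k+1) + x * (((k+1:ℕ):ℝ) * (b^2 - a^2 * x^2)^(k+1-1)
            * (-(a^2 * (2 * x))))) x := (hasDerivAt_id x).mul (h1.pow (k+1))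
      refine h2.congr_deriv ?_
      rw [Nat.add_sub_cancel]
      push_cast
      ring
    have hI := intervalIntegral.integral_eq_sub_of_hasDerivAt hder (by
      apply Continuous.intervalIntegrable; fun_prop)
    have hb0 : b^2 - a^2 * (b/a)^2 = 0 := by field_simp; ring
    rw [hb0, intervalIntegral.integral_sub (by apply Continuous.intervalIntegrable; fun_prop)
      (by apply Continuous.intervalIntegrable; fun_prop),
      intervalIntegral.integral_const_mul, intervalIntegral.integral_const_mul, ih] at hI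
    have hg : g (-(1/2)) (k+1) * (2 * (k:ℝ) + 3) = (2 * (k:ℝ) + 2) * g (-(1/2)) k := by
      unfold g
      have e2 : Real.Gamma (1 + ((k+1:ℕ):ℝ) - -(1/2)) = (k + 3/2) * Real.Gamma (1 + (k:ℝ) - -(1/2)) := by
        have : (1:ℝ) + ((k+1:ℕ):ℝ) - -(1/2) = (1 + (k:ℝ) - -(1/2)) + 1 := by push_cast; ring
        have hk0 : (0:ℝ) ≤ k := Nat.cast_nonneg k
        rw [this, Real.Gamma_add_one (by linarith)]
        ring
      rw [e2, Nat.factorial_succ]
      have hk0 : (0:ℝ) ≤ k := Nat.cast_nonneg k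
      have h1 : 0 < Real.Gamma (1 + (k:ℝ) - -(1/2)) := Real.Gamma_pos_of_pos (by linarith)
      have h2 : 0 < Real.Gamma (1 + -(1/2) : ℝ) := Real.Gamma_pos_of_pos (by norm_num)
      push_cast
      field_simp
    have h3 : (0:ℝ) < 2 * (k:ℝ) + 3 := by positivity
    have hI2 : (2 * (k:ℝ) + 3) * ∫ x in (0)..(b/a), (b^2 - a^2 * x^2)^(k+1)
        = (2 * (k:ℝ) + 3) * ((b^(2*(k+1)+1) / a) * (Real.pi / 2) * g (-(1/2)) (k+1)) := by
      have e : (2 * (k:ℝ) + 3) * ((b^(2*(k+1)+1) / a) * (Real.pi / 2) * g (-(1/2)) (k+1))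
        = (b^(2*(k+1)+1) / a) * (Real.pi / 2) * (g (-(1/2)) (k+1) * (2 * (k:ℝ) + 3)) := by ring
      rw [e, hg]
      have hz : (b/a) * (0:ℝ)^(k+1) - 0 * (b^2 - a^2 * 0^2)^(k+1) = 0 := by simp
      rw [hz] at hI
      have : b^(2*(k+1)+1) = b^2 * b^(2*k+1) := by ring
      rw [this]
      linear_combination hI
    exact mul_left_cancel₀ h3.ne' hI2

noncomputable def II (k : ℕ) (a b : ℝ) : ℝ :=
  ∫ x in (0)..(b/a), (b^2 - a^2 * x^2)^k / (1 + x^2)

lemma cont_II (k : ℕ) (a b : ℝ) : Continuous (fun x : ℝ => (b^2 - a^2 * x^2)^k / (1 + x^2)) := by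
  apply Continuous.div (by fun_prop) (by fun_prop)
  intro x; positivity

lemma II_succ (k : ℕ) (a b : ℝ) (ha : 0 < a) (hb : 0 < b) :
    II (k+1) a b = (a^2 + b^2) * II k a b - (Real.pi/2) * g (-(1/2)) k * (a * b^(2*k+1)) := by
  have h := J_formula a b ha hb k
  have e : ∀ x : ℝ, (b^2 - a^2 * x^2)^(k+1) / (1 + x^2)
      = (a^2 + b^2) * ((b^2 - a^2 * x^2)^k / (1 + x^2)) - a^2 * (b^2 - a^2 * x^2)^k := by
    intro x
    have : (1 + x^2) ≠ 0 := by positivity
    field_simp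
    ring
  unfold II
  simp_rw [e]
  have hi : IntervalIntegrable (fun x : ℝ => (a^2 + b^2) * ((b^2 - a^2 * x^2)^k / (1 + x^2)))
      volume 0 (b/a) := (continuous_const.mul (cont_II k a b)).intervalIntegrable _ _
  rw [intervalIntegral.integral_sub hi
    (by apply Continuous.intervalIntegrable; fun_prop),
    intervalIntegral.integral_const_mul, intervalIntegral.integral_const_mul, h]
  field_simp

lemma kap_eq (k : ℕ) (a b : ℝ) (ha : 0 < a) (hb : 0 < b) :
    kap k a b = (2/Real.pi) * (II k a b + II k b a) := by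
  induction k with
  | zero =>
    rw [kap_zero]
    unfold II
    simp only [pow_zero]
    rw [integral_one_div_one_add_sq, integral_one_div_one_add_sq, Real.arctan_zero, sub_zero,
      sub_zero]
    have : Real.arctan (b/a) + Real.arctan (a/b) = Real.pi/2 := by
      have h := Real.arctan_inv_of_pos (show 0 < b/a by positivity)
      rw [inv_div] at h
      linarith
    rw [this]
    have := Real.pi_pos
    field_simp
  | succ k ih =>
    rw [kap_succ, ih, II_succ k a b ha hb, II_succ k b a hb ha]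
    have := Real.pi_pos
    field_simp
    ring

lemma stj_add {a b : ℕ → ℝ} (ha : Stj a) (hb : Stj b) : Stj (fun n => a n + b n) := by
  obtain ⟨ha0, ν1, h1⟩ := ha
  obtain ⟨hb0, ν2, h2⟩ := hb
  refine ⟨fun n => add_nonneg (ha0 n) (hb0 n), ν1 + ν2, fun n => ?_⟩
  rw [lintegral_add_measure, h1, h2, ENNReal.ofReal_add (ha0 n) (hb0 n)]

lemma stj_II (a b : ℝ) (ha : 0 < a) (hb : 0 < b) : Stj (fun k => II k a b) := by
  have hba : 0 ≤ b / a := by positivity
  have hnn : ∀ x ∈ Ioc 0 (b/a), 0 ≤ b^2 - a^2 * x^2 := by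
    intro x hx
    have h1 : a * x ≤ b := by
      have := hx.2
      rw [le_div_iff₀ ha] at this
      linarith
    have h2 : 0 ≤ a * x := by have := hx.1; positivity
    nlinarith
  refine ⟨fun k => ?_, (((volume.restrict (Ioc 0 (b/a))).withDensity
    (fun x => ENNReal.ofReal (1 / (1 + x^2)))).map
      (fun x : ℝ => (b^2 - a^2 * x^2).toNNReal)), fun k => ?_⟩
  · unfold II
    beta_reduce
    rw [intervalIntegral.integral_of_le hba]
    apply setIntegral_nonneg measurableSet_Ioc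
    intro x hx
    have := hnn x hx
    positivity
  · rw [lintegral_map (by fun_prop) (by fun_prop),
      lintegral_withDensity_eq_lintegral_mul _ (by fun_prop) (by fun_prop)]
    unfold II
    beta_reduce
    rw [intervalIntegral.integral_of_le hba, ofReal_integral_eq_lintegral_ofReal]
    · apply setLIntegral_congr_fun measurableSet_Ioc
      intro x hx
      have h0 := hnn x hx
      simp only [Pi.mul_apply]
      have e1 : (((b^2 - a^2 * x^2).toNNReal : NNReal) : ENNReal) ^ k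
          = ENNReal.ofReal ((b^2 - a^2 * x^2)^k) := by
        rw [← ENNReal.ofReal, ← ENNReal.ofReal_pow h0]
      rw [e1, ← ENNReal.ofReal_mul (by positivity)]
      congr 1
      ring
    · exact ((cont_II k a b).integrableOn_Ioc)
    · filter_upwards [ae_restrict_mem measurableSet_Ioc] with x hx
      have := hnn x hx
      show 0 ≤ (b^2 - a^2 * x^2)^k / (1 + x^2)
      positivity

lemma kap_left_zero (k : ℕ) (b : ℝ) : kap k 0 b = (b^2)^k := by
  unfold kap
  rw [Finset.sum_range_succ']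
  have : ∑ m ∈ Finset.range (2*k), (-1:ℝ)^(m+1) * g (((m+1:ℕ):ℝ)/2) k * 0^(m+1) * b^(2*k-(m+1)) = 0 := by
    apply Finset.sum_eq_zero
    intro m _
    simp
  rw [this]
  simp [g_zero, pow_mul]

lemma kap_right_zero (k : ℕ) (a : ℝ) : kap k a 0 = (a^2)^k := by
  unfold kap
  rw [Finset.sum_range_succ]
  have : ∑ m ∈ Finset.range (2*k), (-1:ℝ)^m * g ((m:ℝ)/2) k * a^m * 0^(2*k-m) = 0 := by
    apply Finset.sum_eq_zero
    intro m hm
    have hm' := Finset.mem_range.mp hm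
    rw [zero_pow (by omega), mul_zero]
  have e7 : ((2 * k : ℕ):ℝ)/2 = k := by push_cast; ring
  have e5 : (-1:ℝ)^(2 * k) = 1 := by rw [pow_mul]; simp
  rw [this, e7, g_self, e5]
  simp [pow_mul]

lemma stj_kap (a b : ℝ) (ha : 0 ≤ a) (hb : 0 ≤ b) : Stj (fun k => kap k a b) := by
  rcases ha.eq_or_lt with h | h
  · subst h
    exact (Stj.geom (b^2) (by positivity)).congr (fun k => (kap_left_zero k b).symm)
  rcases hb.eq_or_lt with h' | h'
  · subst h'
    exact (Stj.geom (a^2) (by positivity)).congr (fun k => (kap_right_zero k a).symm)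
  have := (stj_add (stj_II a b h h') (stj_II b a h' h)).const_mul (2/Real.pi)
    (by have := Real.pi_pos; positivity)
  exact this.congr (fun k => (kap_eq k a b h h').symm)

lemma g_nonneg (k : ℕ) : 0 ≤ g (-(1/2)) k := by
  unfold g
  have h1 : 0 < Real.Gamma (1 + -(1/2) : ℝ) := Real.Gamma_pos_of_pos (by norm_num)
  have hk0 : (0:ℝ) ≤ k := Nat.cast_nonneg k
  have h2 : 0 < Real.Gamma (1 + (k:ℝ) - -(1/2)) := Real.Gamma_pos_of_pos (by linarith)
  positivity

lemma kap_le (k : ℕ) (a b : ℝ) (ha : 0 ≤ a) (hb : 0 ≤ b) : kap k a b ≤ (a^2 + b^2)^k := by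
  induction k with
  | zero => rw [kap_zero]; simp
  | succ k ih =>
    rw [kap_succ, pow_succ (a^2+b^2)]
    have h1 := g_nonneg k
    have h2 : 0 ≤ g (-(1/2)) k * (a * b^(2*k+1) + a^(2*k+1) * b) := by positivity
    have h3 : (a^2 + b^2) * kap k a b ≤ (a^2+b^2) * (a^2+b^2)^k := by gcongr
    linarith

end Pool.Agent.R260.Sq
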