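import Pool.Agent.R260.SqA

set_option autoImplicit false

open MeasureTheory Filter Set Topology Pool.Agent.R260.Lr

namespace Pool.Agent.R260.Sq

/-- moments of powers of a gamma variable -/
lemma stj_gam (δ a : ℝ) (hδ : 0 ≤ δ) (ha : 0 < a) :
    Stj (fun n => Real.Gamma (δ * n + a)) := by
  have hpos : ∀ n : ℕ, 0 ≤ δ * n := fun n => by positivity
  refine ⟨fun n => ?_, (((volume.restrict (Ioi (0:ℝ))).withDensity
    (fun y => ENNReal.ofReal (Real.exp (-y) * y ^ (a - 1)))).map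
      (fun x : ℝ => (x ^ δ).toNNReal)), fun n => ?_⟩
  · exact (Real.Gamma_pos_of_pos (by have := hpos n; linarith)).le
  · rw [lintegral_map (by fun_prop) (by fun_prop),
      lintegral_withDensity_eq_lintegral_mul _ (by fun_prop) (by fun_prop)]
    have hpt : ∀ y ∈ Ioi (0:ℝ), ((fun y => ENNReal.ofReal (Real.exp (-y) * y ^ (a - 1))) *
        fun x : ℝ => (((x ^ δ).toNNReal : NNReal) : ENNReal) ^ n) y
        = ENNReal.ofReal (Real.exp (-y) * y ^ ((δ * n + a) - 1)) := by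
      intro y hy
      have hy0 : 0 < y := hy
      simp only [Pi.mul_apply]
      have e1 : (((y ^ δ).toNNReal : NNReal) : ENNReal) ^ n = ENNReal.ofReal (y ^ (δ * n)) := by
        rw [← ENNReal.ofReal, ← ENNReal.ofReal_pow (by positivity), ← Real.rpow_natCast,
          ← Real.rpow_mul hy0.le]
      rw [e1, ← ENNReal.ofReal_mul (by positivity)]
      congr 1
      have e2 : y ^ ((δ * n + a) - 1) = y ^ (a - 1) * y ^ (δ * n) := by
        rw [← Real.rpow_add hy0]; congr 1; ring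
      rw [e2]; ring
    rw [setLIntegral_congr_fun measurableSet_Ioi hpt]
    have i3 := Real.GammaIntegral_convergent (s := δ * n + a) (by have := hpos n; linarith)
    rw [← ofReal_integral_eq_lintegral_ofReal i3]
    · rw [← Real.Gamma_eq_integral (by have := hpos n; linarith)]
    · filter_upwards [ae_restrict_mem measurableSet_Ioi] with y hy
      have hy0 : (0:ℝ) < y := hy
      show 0 ≤ Real.exp (-y) * y ^ ((δ * n + a) - 1)
      positivity

lemma stj_law (p q : ℕ) (hp : 1 ≤ p) (hpq : p ≤ q) :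
    Stj (fun n => Real.Gamma (1 + (n:ℝ)/2) / Real.Gamma (1 + ((p:ℝ)/(2 * q)) * n)) := by
  have hq : 1 ≤ q := le_trans hp hpq
  have hp0 : (0:ℝ) < p := by exact_mod_cast hp
  have hq0 : (0:ℝ) < q := by exact_mod_cast hq
  obtain ⟨Cq, hCq, hgq⟩ := gauss q hq
  obtain ⟨Cp, hCp, hgp⟩ := gauss p hp
  set δ : ℝ := 1 / (2 * q) with hδ
  have hδ0 : 0 ≤ δ := by positivity
  have s1 : Stj (fun n : ℕ => ∏ j ∈ Finset.range p,
      (Real.Gamma (δ * n + ((j:ℝ)+1)/q) / Real.Gamma (δ * n + ((j:ℝ)+1)/p))) := by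
    apply Stj.prod
    intro j _
    apply Stj.ratio' _ _ _ hδ0 (by positivity)
    have : (p:ℝ) ≤ q := by exact_mod_cast hpq
    gcongr
  have s2 : Stj (fun n : ℕ => ∏ j ∈ Finset.Ico p q, Real.Gamma (δ * n + ((j:ℝ)+1)/q)) := by
    apply Stj.prod
    intro j _
    exact stj_gam _ _ hδ0 (by positivity)
  have s3 := Stj.geom ((q:ℝ)^(1/2 : ℝ) / (p:ℝ)^((p:ℝ)/(2*q))) (by positivity)
  have s4 := ((s1.mul s2).mul s3).const_mul (Cq * q / (Cp * p)) (by positivity)
  refine s4.congr (fun n => ?_)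
  have hn : (0:ℝ) ≤ n := Nat.cast_nonneg n
  have g1 : Real.Gamma (1 + (n:ℝ)/2) = Cq * q * ((q:ℝ)^(1/2 : ℝ))^n *
      ∏ j ∈ Finset.range q, Real.Gamma (δ * n + ((j:ℝ)+1)/q) := by
    rw [hgq _ (by positivity)]
    have e1 : (q:ℝ) ^ (1 + (n:ℝ)/2) = q * ((q:ℝ)^(1/2 : ℝ))^n := by
      rw [Real.rpow_add hq0, Real.rpow_one, ← Real.rpow_natCast, ← Real.rpow_mul hq0.le]
      congr 2; ring
    have e : ∀ j : ℕ, ((1 + (n:ℝ)/2 + j) / (q:ℝ)) = δ * n + ((j:ℝ)+1)/q := by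
      intro j; rw [hδ]; field_simp; ring
    simp_rw [e]
    rw [e1]; ring
  have g2 : Real.Gamma (1 + ((p:ℝ)/(2 * q)) * n) = Cp * p * ((p:ℝ)^((p:ℝ)/(2*q)))^n *
      ∏ j ∈ Finset.range p, Real.Gamma (δ * n + ((j:ℝ)+1)/p) := by
    rw [hgp _ (by positivity)]
    have e1 : (p:ℝ) ^ (1 + ((p:ℝ)/(2 * q)) * n) = p * ((p:ℝ)^((p:ℝ)/(2*q)))^n := by
      rw [Real.rpow_add hp0, Real.rpow_one, Real.rpow_mul hp0.le, Real.rpow_natCast]
    have e : ∀ j : ℕ, ((1 + ((p:ℝ)/(2 * q)) * n + j) / (p:ℝ)) = δ * n + ((j:ℝ)+1)/p := by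
      intro j; rw [hδ]; field_simp; ring
    simp_rw [e]
    rw [e1]; ring
  have g3 : ∏ j ∈ Finset.range q, Real.Gamma (δ * n + ((j:ℝ)+1)/q)
      = (∏ j ∈ Finset.range p, Real.Gamma (δ * n + ((j:ℝ)+1)/q)) *
        ∏ j ∈ Finset.Ico p q, Real.Gamma (δ * n + ((j:ℝ)+1)/q) := by
    rw [Finset.prod_range_mul_prod_Ico _ hpq]
  rw [g1, g2, g3, Finset.prod_div_distrib, div_pow]
  have hP : 0 < ∏ j ∈ Finset.range p, Real.Gamma (δ * n + ((j:ℝ)+1)/p) := by
    apply Finset.prod_pos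
    intro j _
    exact Real.Gamma_pos_of_pos (by positivity)
  have h70p : (0:ℝ) < ((p:ℝ)^((p:ℝ)/(2*q))) ^ n := by positivity
  field_simp

/-- coefficients of the square sum -/
noncomputable def d (k : ℕ) (α : ℝ) : ℝ :=
  ∑ m ∈ Finset.range (2 * k + 1), (-1)^m * (1 / (Real.Gamma (1 + α * m) *
    Real.Gamma (1 + α * ((2 * k - m : ℕ) : ℝ))))

noncomputable def c (k : ℕ) (α : ℝ) : ℝ := (k.factorial : ℝ) * d k α

lemma d_bound (α0 X : ℝ) (h0 : 0 < α0) (hX : 1 ≤ X) : ∃ E : ℝ, 0 < E ∧ ∀ α : ℝ, α0 ≤ α → ∀ k : ℕ,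
    |d k α| ≤ (2 * k + 1) * (E / X ^ k) := by
  set K : ℝ := X ^ (1 / (2 * α0)) with hK
  have hX0 : 0 < X := by linarith
  have hK1 : 1 ≤ K := Real.one_le_rpow hX (by positivity)
  have hK0 : 0 < K := by linarith
  refine ⟨Real.exp (2 * K), Real.exp_pos _, ?_⟩
  intro α hα k
  have hα0 : 0 < α := by linarith
  unfold d
  have hterm : ∀ m ∈ Finset.range (2 * k + 1), |(-1:ℝ)^m * (1 / (Real.Gamma (1 + α * m) *
      Real.Gamma (1 + α * ((2 * k - m : ℕ) : ℝ))))| ≤ Real.exp (2 * K) / X ^ k := by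
    intro m hm
    have hm' := Finset.mem_range.mp hm
    have h1 := Gamma_lower K (1 + α * m) hK0 (by
      have : 0 ≤ α * m := by positivity
      linarith)
    have h2 := Gamma_lower K (1 + α * ((2 * k - m : ℕ) : ℝ)) hK0 (by
      have : 0 ≤ α * ((2 * k - m : ℕ) : ℝ) := by positivity
      linarith)
    have hG1 : 0 < Real.Gamma (1 + α * m) := Real.Gamma_pos_of_pos (by positivity)
    have hG2 : 0 < Real.Gamma (1 + α * ((2 * k - m : ℕ) : ℝ)) := Real.Gamma_pos_of_pos (by positivity)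
    rw [abs_mul, abs_pow, abs_neg, abs_one, one_pow, one_mul, abs_of_pos (by positivity)]
    rw [div_le_div_iff₀ (by positivity) (by positivity), one_mul]
    have h3 : (K ^ (1 + α * m - 1) * Real.exp (-K)) * (K ^ (1 + α * ((2 * k - m : ℕ) : ℝ) - 1)
        * Real.exp (-K)) ≤ Real.Gamma (1 + α * m) * Real.Gamma (1 + α * ((2 * k - m : ℕ) : ℝ)) := by
      gcongr
    have h4 : (K ^ (1 + α * m - 1) * Real.exp (-K)) * (K ^ (1 + α * ((2 * k - m : ℕ) : ℝ) - 1)
        * Real.exp (-K)) = K ^ (α * (2 * k)) * Real.exp (-(2 * K)) := by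
      have e1 : K ^ (α * (2 * k)) = K ^ (1 + α * m - 1) * K ^ (1 + α * ((2 * k - m : ℕ) : ℝ) - 1) := by
        rw [← Real.rpow_add hK0]
        congr 1
        rw [Nat.cast_sub (by omega)]
        push_cast; ring
      have e2 : Real.exp (-(2 * K)) = Real.exp (-K) * Real.exp (-K) := by
        rw [← Real.exp_add]; congr 1; ring
      rw [e1, e2]; ring
    have h5 : X ^ k ≤ K ^ (α * (2 * k)) := by
      have e1 : X ^ k = K ^ (α0 * (2 * k)) := by
        rw [hK, ← Real.rpow_mul hX0.le, ← Real.rpow_natCast]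
        congr 1; field_simp
      rw [e1]
      apply Real.rpow_le_rpow_of_exponent_le hK1
      gcongr
    have h6 : Real.exp (2 * K) * Real.exp (-(2 * K)) = 1 := by
      rw [← Real.exp_add]; simp
    calc X ^ k ≤ K ^ (α * (2 * k)) := h5
      _ = Real.exp (2 * K) * (K ^ (α * (2 * k)) * Real.exp (-(2 * K))) := by
        linear_combination (-(K ^ (α * (2 * k)))) * h6
      _ ≤ _ := by
        rw [← h4]
        gcongr
  calc |∑ m ∈ Finset.range (2 * k + 1), (-1:ℝ)^m * (1 / (Real.Gamma (1 + α * m) *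
      Real.Gamma (1 + α * ((2 * k - m : ℕ) : ℝ))))|
      ≤ ∑ m ∈ Finset.range (2 * k + 1), |(-1:ℝ)^m * (1 / (Real.Gamma (1 + α * m) *
      Real.Gamma (1 + α * ((2 * k - m : ℕ) : ℝ))))| := Finset.abs_sum_le_sum_abs _ _
    _ ≤ ∑ m ∈ Finset.range (2 * k + 1), Real.exp (2 * K) / X ^ k := Finset.sum_le_sum hterm
    _ = _ := by
      rw [Finset.sum_const, Finset.card_range, nsmul_eq_mul]
      push_cast; ring

lemma summ_aux (C : ℝ) : Summable (fun k : ℕ => C * ((2 * (k:ℝ) + 1) * (1/2)^k)) := by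
  have h1 := summable_pow_mul_geometric_of_norm_lt_one (R := ℝ) 1 (r := 1/2) (by norm_num)
  have h0 := summable_geometric_of_lt_one (r := (1/2:ℝ)) (by norm_num) (by norm_num)
  have h2 := ((h1.mul_left 2).add h0).mul_left C
  refine h2.congr (fun k => ?_)
  rw [pow_one]; ring

/-- growth class for test sequences -/
def Growth (lam : ℕ → ℝ) : Prop := ∃ C T : ℝ, 0 ≤ C ∧ 0 ≤ T ∧ ∀ k, |lam k| ≤ C * T ^ k / (k.factorial : ℝ)

lemma test_bound {lam : ℕ → ℝ} (h : Growth lam) (α0 : ℝ) (h0 : 0 < α0) :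
    ∃ M : ℝ, ∀ α : ℝ, α0 ≤ α → ∀ k : ℕ, |lam k * c k α| ≤ M * ((2 * (k:ℝ) + 1) * (1/2)^k) := by
  obtain ⟨C, T, hC, hT, hl⟩ := h
  obtain ⟨E, hE, hd⟩ := d_bound α0 (2 * T + 1) h0 (by linarith)
  refine ⟨C * E, ?_⟩
  intro α hα k
  have h1 := hl k
  have h2 := hd α hα k
  have hf : (0:ℝ) < k.factorial := by positivity
  unfold c
  rw [abs_mul, abs_mul, abs_of_pos hf]
  calc |lam k| * ((k.factorial : ℝ) * |d k α|)
      ≤ (C * T ^ k / (k.factorial : ℝ)) * ((k.factorial : ℝ) * ((2 * k + 1) * (E / (2 * T + 1) ^ k))) := by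
        gcongr
    _ = C * E * ((2 * k + 1) * (T / (2 * T + 1))^k) := by
        rw [div_pow]; field_simp
    _ ≤ _ := by
        have : T / (2 * T + 1) ≤ 1/2 := by
          rw [div_le_div_iff₀ (by linarith) (by norm_num)]
          linarith
        gcongr

/-- positivity on Stieltjes moment sequences of compact support type -/
lemma stj_pos {κ : ℕ → ℝ} (hκ : Stj κ) (lam : ℕ → ℝ) (hs : Summable (fun k => |lam k| * κ k))
    (hφ : ∀ w : ℝ, 0 ≤ w → 0 ≤ ∑' k, lam k * w ^ k) : 0 ≤ ∑' k, lam k * κ k := by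
  obtain ⟨hnn, ν, hν⟩ := hκ
  have hfin : IsFiniteMeasure ν := fin_of hν
  have hlint : ∀ n : ℕ, ∫⁻ t : NNReal, ENNReal.ofReal ((t:ℝ) ^ n) ∂ν = ENNReal.ofReal (κ n) := by
    intro n
    rw [← hν n]
    congr 1
    ext t
    rw [ENNReal.ofReal_pow (NNReal.coe_nonneg t)]
    simp
  have hint : ∀ n : ℕ, Integrable (fun t : NNReal => (t:ℝ) ^ n) ν := by
    intro n
    refine ⟨by fun_prop, ?_⟩
    rw [hasFiniteIntegral_iff_ofReal (Eventually.of_forall (fun t => pow_nonneg t.2 n)), hlint n]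
    exact ENNReal.ofReal_lt_top
  have hmom : ∀ n : ℕ, ∫ t : NNReal, (t:ℝ) ^ n ∂ν = κ n := by
    intro n
    rw [integral_eq_lintegral_of_nonneg_ae (Eventually.of_forall (fun t => pow_nonneg t.2 n))
      (by fun_prop), hlint n, ENNReal.toReal_ofReal (hnn n)]
  have h1 := hasSum_integral_of_summable_integral_norm (μ := ν)
    (F := fun n : ℕ => fun t : NNReal => lam n * (t:ℝ) ^ n) (fun n => (hint n).const_mul _) (by
      refine hs.congr (fun n => ?_)
      have : ∀ t : NNReal, ‖lam n * (t:ℝ)^n‖ = |lam n| * (t:ℝ)^n := by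
        intro t
        rw [norm_mul, Real.norm_eq_abs, norm_pow, Real.norm_eq_abs, abs_of_nonneg (NNReal.coe_nonneg t)]
      simp_rw [this]
      rw [integral_const_mul, hmom n])
  have h2 : ∀ n, ∫ t : NNReal, lam n * (t:ℝ)^n ∂ν = lam n * κ n := by
    intro n; rw [integral_const_mul, hmom n]
  simp_rw [h2] at h1
  rw [h1.tsum_eq]
  exact integral_nonneg (fun t => hφ _ t.2)

lemma c_eq_kap (k : ℕ) (α : ℝ) (hα : 0 < α) : c k α = ∑ m ∈ Finset.range (2 * k + 1),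
    (-1)^m * g ((m:ℝ)/2) k * (Real.Gamma (1 + (m:ℝ)/2) / Real.Gamma (1 + α * m)) *
      (Real.Gamma (1 + ((2 * k - m : ℕ):ℝ)/2) / Real.Gamma (1 + α * ((2 * k - m : ℕ) : ℝ))) := by
  unfold c d
  rw [Finset.mul_sum]
  apply Finset.sum_congr rfl
  intro m hm
  have hm' := Finset.mem_range.mp hm
  unfold g
  have e : (1:ℝ) + k - (m:ℝ)/2 = 1 + ((2 * k - m : ℕ):ℝ)/2 := by
    rw [Nat.cast_sub (by omega)]; push_cast; ring
  rw [e]
  have h1 : 0 < Real.Gamma (1 + (m:ℝ)/2) := Real.Gamma_pos_of_pos (by positivity)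
  have h2 : 0 < Real.Gamma (1 + ((2 * k - m : ℕ):ℝ)/2) := Real.Gamma_pos_of_pos (by positivity)
  have h3 : 0 < Real.Gamma (1 + α * m) := Real.Gamma_pos_of_pos (by positivity)
  have h4 : 0 < Real.Gamma (1 + α * ((2 * k - m : ℕ) : ℝ)) := Real.Gamma_pos_of_pos (by positivity)
  field_simp

lemma pos_of_law (α : ℝ) (hα : 0 < α)
    (hlaw : Stj (fun n => Real.Gamma (1 + (n:ℝ)/2) / Real.Gamma (1 + α * n)))
    (lam : ℕ → ℝ) (hg : Growth lam) (hφ : ∀ w : ℝ, 0 ≤ w → 0 ≤ ∑' k, lam k * w ^ k) :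
    0 ≤ ∑' k, lam k * c k α := by
  obtain ⟨hnn, ν, hν⟩ := hlaw
  have hfin : IsFiniteMeasure ν := fin_of hν
  set M : ℕ → ℝ := fun n => Real.Gamma (1 + (n:ℝ)/2) / Real.Gamma (1 + α * n) with hM
  have hlint : ∀ n : ℕ, ∫⁻ t : NNReal, ENNReal.ofReal ((t:ℝ) ^ n) ∂ν = ENNReal.ofReal (M n) := by
    intro n
    rw [← hν n]
    congr 1
    ext t
    rw [ENNReal.ofReal_pow (NNReal.coe_nonneg t)]
    simp
  have hint : ∀ n : ℕ, Integrable (fun t : NNReal => (t:ℝ) ^ n) ν := by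
    intro n
    refine ⟨by fun_prop, ?_⟩
    rw [hasFiniteIntegral_iff_ofReal (Eventually.of_forall (fun t => pow_nonneg t.2 n)), hlint n]
    exact ENNReal.ofReal_lt_top
  have hmom : ∀ n : ℕ, ∫ t : NNReal, (t:ℝ) ^ n ∂ν = M n := by
    intro n
    rw [integral_eq_lintegral_of_nonneg_ae (Eventually.of_forall (fun t => pow_nonneg t.2 n))
      (by fun_prop), hlint n, ENNReal.toReal_ofReal (hnn n)]
  have hkint1 : ∀ k m : ℕ, Integrable (fun p : NNReal × NNReal =>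
      (-1:ℝ) ^ m * g ((m:ℝ)/2) k * (p.1:ℝ) ^ m * (p.2:ℝ) ^ (2 * k - m)) (ν.prod ν) := by
    intro k m
    have := ((hint m).mul_prod (hint (2 * k - m))).const_mul ((-1:ℝ) ^ m * g ((m:ℝ)/2) k)
    refine this.congr (Eventually.of_forall (fun p => ?_))
    simp only
    ring
  have hkint : ∀ k : ℕ, Integrable (fun p : NNReal × NNReal => kap k (p.1:ℝ) (p.2:ℝ)) (ν.prod ν) := by
    intro k
    unfold kap
    exact integrable_finsetSum _ (fun m _ => hkint1 k m)
  have hkval : ∀ k : ℕ, ∫ p : NNReal × NNReal, kap k (p.1:ℝ) (p.2:ℝ) ∂(ν.prod ν) = c k α := by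
    intro k
    unfold kap
    rw [integral_finsetSum _ (fun m _ => hkint1 k m), c_eq_kap k α hα]
    apply Finset.sum_congr rfl
    intro m _
    have e : ∀ p : NNReal × NNReal, (-1:ℝ) ^ m * g ((m:ℝ)/2) k * (p.1:ℝ) ^ m * (p.2:ℝ) ^ (2 * k - m)
        = ((-1:ℝ) ^ m * g ((m:ℝ)/2) k) * ((p.1:ℝ) ^ m * (p.2:ℝ) ^ (2 * k - m)) := by
      intro p; ring
    simp_rw [e]
    rw [integral_const_mul, integral_prod_mul (fun t : NNReal => (t:ℝ)^m)
      (fun t : NNReal => (t:ℝ)^(2*k-m)), hmom, hmom, hM]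
    ring
  have hknn : ∀ (k : ℕ) (p : NNReal × NNReal), 0 ≤ kap k (p.1:ℝ) (p.2:ℝ) := fun k p =>
    (stj_kap _ _ p.1.2 p.2.2).1 k
  have hcnn : ∀ k, 0 ≤ c k α := by
    intro k; rw [← hkval k]; exact integral_nonneg (fun p => hknn k p)
  obtain ⟨B, hB⟩ := test_bound hg α hα
  have hsumm : Summable (fun k => |lam k| * c k α) := by
    refine Summable.of_nonneg_of_le (fun k => mul_nonneg (abs_nonneg _) (hcnn k)) (fun k => ?_)
      (summ_aux B)
    have := hB α le_rfl k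
    rwa [abs_mul, abs_of_nonneg (hcnn k)] at this
  have h1 := hasSum_integral_of_summable_integral_norm (μ := ν.prod ν)
    (F := fun n : ℕ => fun p : NNReal × NNReal => lam n * kap n (p.1:ℝ) (p.2:ℝ))
    (fun n => (hkint n).const_mul _) (by
      refine hsumm.congr (fun n => ?_)
      have : ∀ p : NNReal × NNReal, ‖lam n * kap n (p.1:ℝ) (p.2:ℝ)‖ = |lam n| * kap n (p.1:ℝ) (p.2:ℝ) := by
        intro p
        rw [norm_mul, Real.norm_eq_abs, Real.norm_eq_abs, abs_of_nonneg (hknn n p)]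
      simp_rw [this]
      rw [integral_const_mul, hkval n])
  have h2 : ∀ n, ∫ p : NNReal × NNReal, lam n * kap n (p.1:ℝ) (p.2:ℝ) ∂(ν.prod ν) = lam n * c n α := by
    intro n; rw [integral_const_mul, hkval n]
  simp_rw [h2] at h1
  rw [h1.tsum_eq]
  apply integral_nonneg
  intro p
  obtain ⟨C, T, hC, hT, hl⟩ := hg
  refine stj_pos (stj_kap _ _ p.1.2 p.2.2) lam ?_ hφ
  have hs : Summable (fun k : ℕ => C * ((T * ((p.1:ℝ)^2 + (p.2:ℝ)^2))^k / (k.factorial : ℝ))) :=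
    (Real.summable_pow_div_factorial _).mul_left C
  refine Summable.of_nonneg_of_le (fun k => mul_nonneg (abs_nonneg _) (hknn k p)) (fun k => ?_) hs
  have h3 := kap_le k (p.1:ℝ) (p.2:ℝ) p.1.2 p.2.2
  have h4 := hl k
  have h5 := hknn k p
  calc |lam k| * kap k (p.1:ℝ) (p.2:ℝ) ≤ (C * T ^ k / (k.factorial : ℝ)) * ((p.1:ℝ)^2 + (p.2:ℝ)^2)^k := by
        gcongr
    _ = _ := by rw [mul_pow]; ring

/-- positivity for all parameters -/
theorem pos_all (α : ℝ) (hα : 0 < α) (hα2 : α ≤ 1/2) (lam : ℕ → ℝ) (hg : Growth lam)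
    (hφ : ∀ w : ℝ, 0 ≤ w → 0 ≤ ∑' k, lam k * w ^ k) : 0 ≤ ∑' k, lam k * c k α := by
  -- rational approximations from above
  set s : ℕ → ℝ := fun n => ((⌈2 * α * ((n:ℝ)+1)⌉₊ : ℕ) : ℝ) / (2 * ((n+1 : ℕ):ℝ)) with hs
  have hsα : ∀ n, α ≤ s n := by
    intro n
    rw [hs]
    simp only
    rw [le_div_iff₀ (by positivity)]
    have := Nat.le_ceil (2 * α * ((n:ℝ)+1))
    push_cast
    linarith
  have hpos : ∀ n, 0 ≤ ∑' k, lam k * c k (s n) := by
    intro n
    have hp1 : 1 ≤ ⌈2 * α * ((n:ℝ)+1)⌉₊ := by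
      rw [Nat.one_le_ceil_iff]
      positivity
    have hpq : ⌈2 * α * ((n:ℝ)+1)⌉₊ ≤ n + 1 := by
      rw [Nat.ceil_le]
      push_cast
      nlinarith [Nat.cast_nonneg (α := ℝ) n]
    exact pos_of_law (s n) (lt_of_lt_of_le hα (hsα n)) (stj_law _ _ hp1 hpq) lam hg hφ
  have hlim : Tendsto s atTop (𝓝 α) := by
    have h1 : Tendsto (fun x : ℝ => ((⌈(2 * α) * x⌉₊ : ℕ) : ℝ) / x) atTop (𝓝 (2 * α)) :=
      tendsto_nat_ceil_mul_div_atTop (by positivity)
    have h2 : Tendsto (fun n : ℕ => ((n:ℝ)+1)) atTop atTop :=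
      tendsto_atTop_add_const_right _ _ tendsto_natCast_atTop_atTop
    have h3 := (h1.comp h2).div_const 2
    have e : 2 * α / 2 = α := by ring
    rw [e] at h3
    refine h3.congr (fun n => ?_)
    simp only [Function.comp, hs]
    push_cast
    field_simp
  obtain ⟨B, hB⟩ := test_bound hg α hα
  have htend : Tendsto (fun n => ∑' k, lam k * c k (s n)) atTop (𝓝 (∑' k, lam k * c k α)) := by
    apply tendsto_tsum_of_dominated_convergence (summ_aux B)
    · intro k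
      apply Tendsto.const_mul
      unfold c
      apply Tendsto.const_mul
      unfold d
      apply tendsto_finsetSum
      intro m _
      apply Tendsto.const_mul
      have hG : ∀ y : ℝ, 0 ≤ y → Tendsto (fun n => Real.Gamma (1 + s n * y)) atTop
          (𝓝 (Real.Gamma (1 + α * y))) := by
        intro y hy
        have hpos : 0 < 1 + α * y := by positivity
        have hc : ContinuousAt Real.Gamma (1 + α * y) := by
          apply DifferentiableAt.continuousAt (𝕜 := ℝ)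
          apply Real.differentiableAt_Gamma
          intro m hm
          have : (0:ℝ) ≤ m := Nat.cast_nonneg m
          linarith
        exact hc.tendsto.comp ((hlim.mul_const y).const_add 1)
      apply Tendsto.div tendsto_const_nhds ((hG _ (Nat.cast_nonneg _)).mul (hG _ (Nat.cast_nonneg _)))
      have h1 : 0 < Real.Gamma (1 + α * m) := Real.Gamma_pos_of_pos (by positivity)
      have h2 : 0 < Real.Gamma (1 + α * ((2 * k - m : ℕ):ℝ)) := Real.Gamma_pos_of_pos (by positivity)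
      positivity
    · refine Eventually.of_forall (fun n k => ?_)
      rw [Real.norm_eq_abs]
      exact hB (s n) (hsα n) k
  exact ge_of_tendsto' htend hpos

end Pool.Agent.R260.Sq
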