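import Pool.Agent.R260.SqB

set_option autoImplicit false

open MeasureTheory Filter Set Topology Pool.Agent.R260.Lr

namespace Pool.Agent.R260.Sq

/-- entire coefficient sequences -/
def Ent (e : ℕ → ℝ) : Prop := ∀ r : ℝ, 0 ≤ r → Summable (fun k => |e k| * r ^ k)

noncomputable def F (e : ℕ → ℝ) (x : ℝ) : ℝ := ∑' k, e k * x ^ k

def sh (e : ℕ → ℝ) : ℕ → ℝ := fun k => ((k:ℝ) + 1) * e (k + 1)

lemma Ent.sh {e : ℕ → ℝ} (he : Ent e) : Ent (sh e) := by
  intro r hr
  have h := (summable_nat_add_iff 1).mpr (he (2 * (r + 1)) (by positivity))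
  refine Summable.of_nonneg_of_le (fun k => by positivity) (fun k => ?_) h
  unfold Sq.sh
  rw [abs_mul, abs_of_nonneg (by positivity : (0:ℝ) ≤ (k:ℝ) + 1)]
  have h1 : (k:ℝ) + 1 ≤ 2 ^ (k+1) := by
    have := Nat.lt_two_pow_self (n := k + 1)
    exact_mod_cast this.le
  have h2 : r ^ k ≤ (r+1) ^ (k+1) := by
    calc r ^ k ≤ (r+1)^k := by gcongr; linarith
      _ ≤ (r+1)^(k+1) := pow_le_pow_right₀ (by linarith) (by omega)
  calc ((k:ℝ) + 1) * |e (k+1)| * r ^ k ≤ 2 ^ (k+1) * |e (k+1)| * (r+1) ^ (k+1) := by gcongr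
    _ = |e (k+1)| * (2 * (r+1)) ^ (k+1) := by rw [mul_pow]; ring

lemma F_hasDerivAt {e : ℕ → ℝ} (he : Ent e) (x : ℝ) : HasDerivAt (F e) (F (sh e) x) x := by
  set R : ℝ := |x| + 1 with hR
  have hR0 : 0 < R := by positivity
  have hu : Summable (fun n : ℕ => |e n| * ((n:ℝ) * R ^ (n-1))) := by
    rw [← summable_nat_add_iff 1]
    refine (he.sh R hR0.le).congr (fun n => ?_)
    unfold Sq.sh
    rw [abs_mul, abs_of_nonneg (by positivity : (0:ℝ) ≤ (n:ℝ) + 1), Nat.add_sub_cancel]
    push_cast; ring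
  have hbd : ∀ (n : ℕ) (y : ℝ), y ∈ Metric.ball (0:ℝ) R → ‖e n * ((n:ℝ) * y ^ (n-1))‖
      ≤ |e n| * ((n:ℝ) * R ^ (n-1)) := by
    intro n y hy
    rw [Metric.mem_ball, dist_zero_right, Real.norm_eq_abs] at hy
    rw [norm_mul, norm_mul, norm_pow, Real.norm_eq_abs, Real.norm_eq_abs, Real.norm_eq_abs,
      Nat.abs_cast]
    gcongr
  have hmem : x ∈ Metric.ball (0:ℝ) R := by
    rw [Metric.mem_ball, dist_zero_right, Real.norm_eq_abs]; linarith
  have h := hasDerivAt_tsum_of_isPreconnected (g := fun n y => e n * y ^ n)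
    (g' := fun n y => e n * ((n:ℝ) * y ^ (n-1))) hu Metric.isOpen_ball
    (convex_ball (0:ℝ) R).isPreconnected (fun n y _ => (hasDerivAt_pow n y).const_mul (e n)) hbd
    (Metric.mem_ball_self hR0) (by
      have : Summable (fun n : ℕ => |e n| * (0:ℝ)^n) := he 0 le_rfl
      refine Summable.of_norm (this.congr (fun n => ?_))
      rw [norm_mul, Real.norm_eq_abs, norm_pow, norm_zero]) hmem
  have e2 : ∑' n, e n * ((n:ℝ) * x ^ (n-1)) = F (Sq.sh e) x := by
    have hs : Summable (fun n => e n * ((n:ℝ) * x ^ (n-1))) :=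
      Summable.of_norm_bounded hu (fun n => hbd n x hmem)
    rw [hs.tsum_eq_zero_add]
    simp only [Nat.cast_zero, zero_mul, mul_zero, zero_add]
    unfold F Sq.sh
    congr 1
    ext n
    rw [Nat.add_sub_cancel]
    push_cast; ring
  rw [e2] at h
  exact h

lemma Ent.iter {e : ℕ → ℝ} (he : Ent e) (n : ℕ) : Ent (Sq.sh^[n] e) := by
  induction n with
  | zero => exact he
  | succ n ih => rw [Function.iterate_succ_apply']; exact ih.sh

lemma F_iteratedDeriv {e : ℕ → ℝ} (he : Ent e) (n : ℕ) :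
    iteratedDeriv n (F e) = F (Sq.sh^[n] e) := by
  induction n with
  | zero => simp
  | succ n ih =>
    rw [iteratedDeriv_succ, ih, Function.iterate_succ_apply']
    ext x
    exact (F_hasDerivAt (he.iter n) x).deriv

lemma F_contDiff {e : ℕ → ℝ} (he : Ent e) : ContDiff ℝ (⊤ : ℕ∞) (F e) := by
  apply contDiff_of_differentiable_iteratedDeriv
  intro m _
  rw [F_iteratedDeriv he]
  exact fun x => (F_hasDerivAt (he.iter m) x).differentiableAt

lemma sh_iter (e : ℕ → ℝ) (n : ℕ) : ∀ k : ℕ, (k.factorial : ℝ) * (Sq.sh^[n] e) k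
    = ((k + n).factorial : ℝ) * e (k + n) := by
  induction n with
  | zero => intro k; simp
  | succ n ih =>
    intro k
    rw [Function.iterate_succ_apply']
    have := ih (k+1)
    unfold Sq.sh at this ⊢
    rw [show k + (n + 1) = k + 1 + n by ring, ← this, Nat.factorial_succ k]
    push_cast
    ring

/-- the two-parameter Mittag-Leffler function at a real argument -/
noncomputable def E (a b z : ℝ) : ℝ := ∑' k : ℕ, z ^ k / Real.Gamma (a * k + b)

/-- the function of the problem -/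
noncomputable def f (α t : ℝ) : ℝ := |E (2 * α) 1 (-t)| ^ 2 + t * |E (2 * α) (1 + α) (-t)| ^ 2

lemma E_summable (a b : ℝ) (ha : 0 < a) (hb : 1 ≤ b) (z : ℝ) :
    Summable (fun k : ℕ => ‖z ^ k / Real.Gamma (a * k + b)‖) := by
  set X : ℝ := 2 * |z| + 1 with hX
  have hX0 : 0 < X := by positivity
  have hX1 : 1 ≤ X := by have := abs_nonneg z; linarith
  set K : ℝ := X ^ (1 / a) with hK
  have hK1 : 1 ≤ K := Real.one_le_rpow hX1 (by positivity)
  have hK0 : 0 < K := by linarith
  have hgeo : Summable (fun n : ℕ => Real.exp K * (1/2 : ℝ) ^ n) :=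
    (summable_geometric_of_lt_one (by norm_num) (by norm_num)).mul_left _
  refine Summable.of_nonneg_of_le (fun n => norm_nonneg _) (fun n => ?_) hgeo
  have hG := Gamma_lower K (a * n + b) hK0 (by
    have : 0 ≤ a * n := by positivity
    linarith)
  have hGp : 0 < Real.Gamma (a * n + b) := Real.Gamma_pos_of_pos (by positivity)
  have h1 : X ^ n ≤ K ^ (a * n + b - 1) := by
    have e1 : X ^ n = K ^ (a * n) := by
      rw [hK, ← Real.rpow_mul hX0.le, ← Real.rpow_natCast]
      congr 1; field_simp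
    rw [e1]
    apply Real.rpow_le_rpow_of_exponent_le hK1
    linarith
  rw [norm_div, norm_pow, Real.norm_eq_abs, Real.norm_of_nonneg hGp.le, div_le_iff₀ hGp]
  have h6 : Real.exp K * Real.exp (-K) = 1 := by rw [← Real.exp_add]; simp
  have h3 : |z| ≤ 1/2 * X := by linarith
  calc |z| ^ n ≤ (1/2 * X) ^ n := by gcongr
    _ = (1/2)^n * X ^ n := mul_pow _ _ _
    _ ≤ (1/2)^n * K ^ (a * n + b - 1) := by gcongr
    _ = Real.exp K * (1/2)^n * (K ^ (a * n + b - 1) * Real.exp (-K)) := by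
      linear_combination (-((1/2:ℝ)^n * K ^ (a * n + b - 1))) * h6
    _ ≤ _ := by gcongr

lemma alt_split (h : ℕ → ℝ) (k : ℕ) : ∑ m ∈ Finset.range (2 * k + 1), (-1:ℝ)^m * h m
    = ∑ i ∈ Finset.range (k+1), h (2 * i) - ∑ i ∈ Finset.range k, h (2 * i + 1) := by
  induction k with
  | zero => simp
  | succ k ih =>
    rw [show 2 * (k+1) + 1 = (2 * k + 1) + 1 + 1 by ring, Finset.sum_range_succ,
      Finset.sum_range_succ, ih, Finset.sum_range_succ (fun i => h (2 * i)) (k+1),
      Finset.sum_range_succ (fun i => h (2*i+1)) k]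
    have e1 : (-1:ℝ)^(2 * k + 1) = -1 := by rw [pow_succ, pow_mul]; simp
    have e2 : (-1:ℝ)^(2 * k + 1 + 1) = 1 := by
      rw [show 2 * k + 1 + 1 = 2 * (k+1) by ring, pow_mul]; simp
    rw [e1, e2, show 2 * k + 1 + 1 = 2 * (k+1) by ring]
    ring

noncomputable def uu (α : ℝ) (i : ℕ) : ℝ := 1 / Real.Gamma (2 * α * i + 1)
noncomputable def vv (α : ℝ) (i : ℕ) : ℝ := 1 / Real.Gamma (2 * α * i + (1 + α))

lemma d_zero (α : ℝ) : d 0 α = uu α 0 * uu α 0 := by
  unfold d uu; simp

lemma d_succ (α : ℝ) (k : ℕ) : d (k+1) α = ∑ i ∈ Finset.range (k+1+1), uu α i * uu α (k+1-i)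
    - ∑ i ∈ Finset.range (k+1), vv α i * vv α (k - i) := by
  unfold d
  rw [alt_split (fun m => 1 / (Real.Gamma (1 + α * m) *
    Real.Gamma (1 + α * ((2 * (k+1) - m : ℕ) : ℝ)))) (k+1)]
  congr 1
  · apply Finset.sum_congr rfl
    intro i hi
    have hi' := Finset.mem_range.mp hi
    unfold uu
    rw [one_div_mul_one_div]
    have a1 : 1 + α * ((2 * i : ℕ) : ℝ) = 2 * α * i + 1 := by push_cast; ring
    have a2 : 1 + α * ((2 * (k+1) - 2 * i : ℕ) : ℝ) = 2 * α * ((k + 1 - i : ℕ) : ℝ) + 1 := by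
      rw [show 2 * (k+1) - 2 * i = 2 * (k + 1 - i) by omega]
      push_cast; ring
    rw [a1, a2]
  · apply Finset.sum_congr rfl
    intro i hi
    have hi' := Finset.mem_range.mp hi
    unfold vv
    rw [one_div_mul_one_div]
    have a1 : 1 + α * ((2 * i + 1 : ℕ) : ℝ) = 2 * α * i + (1 + α) := by push_cast; ring
    have a2 : 1 + α * ((2 * (k+1) - (2 * i + 1) : ℕ) : ℝ) = 2 * α * ((k - i : ℕ) : ℝ) + (1 + α) := by
      rw [show 2 * (k+1) - (2 * i + 1) = 2 * (k - i) + 1 by omega]
      push_cast; ring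
    rw [a1, a2]

lemma ent_d (α : ℝ) (hα : 0 < α) : Ent (fun k => (-1)^k * d k α) := by
  intro r hr
  obtain ⟨X, hX, hd⟩ := d_bound α (2 * r + 1) hα (by linarith)
  refine Summable.of_nonneg_of_le (fun k => by positivity) (fun k => ?_) (summ_aux X)
  rw [abs_mul, abs_pow, abs_neg, abs_one, one_pow, one_mul]
  have h := hd α le_rfl k
  calc |d k α| * r ^ k ≤ ((2 * k + 1) * (X / (2 * r + 1) ^ k)) * r ^ k := by gcongr
    _ = X * ((2 * (k:ℝ) + 1) * (r / (2 * r + 1))^k) := by rw [div_pow]; ring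
    _ ≤ _ := by
      have : r / (2 * r + 1) ≤ 1/2 := by
        rw [div_le_div_iff₀ (by linarith) (by norm_num)]; linarith
      gcongr

lemma f_eq (α : ℝ) (hα : 0 < α) (t : ℝ) : f α t = F (fun k => (-1)^k * d k α) t := by
  unfold f
  rw [sq_abs, sq_abs]
  have h1 := E_summable (2 * α) 1 (by positivity) le_rfl (-t)
  have h2 := E_summable (2 * α) (1 + α) (by positivity) (by linarith) (-t)
  have e1 : E (2 * α) 1 (-t) ^ 2 = ∑' n, (-t)^n * ∑ i ∈ Finset.range (n+1), uu α i * uu α (n - i) := by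
    unfold E
    rw [sq, tsum_mul_tsum_eq_tsum_sum_range_of_summable_norm h1 h1]
    congr 1
    ext n
    rw [Finset.mul_sum]
    apply Finset.sum_congr rfl
    intro i hi
    have hi' := Finset.mem_range.mp hi
    have : (-t)^n = (-t)^i * (-t)^(n-i) := by rw [← pow_add]; congr 1; omega
    rw [this]
    unfold uu
    ring
  have e2 : E (2 * α) (1 + α) (-t) ^ 2 = ∑' n, (-t)^n * ∑ i ∈ Finset.range (n+1), vv α i * vv α (n - i) := by
    unfold E
    rw [sq, tsum_mul_tsum_eq_tsum_sum_range_of_summable_norm h2 h2]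
    congr 1
    ext n
    rw [Finset.mul_sum]
    apply Finset.sum_congr rfl
    intro i hi
    have hi' := Finset.mem_range.mp hi
    have : (-t)^n = (-t)^i * (-t)^(n-i) := by rw [← pow_add]; congr 1; omega
    rw [this]
    unfold vv
    ring
  have s1 : Summable (fun n => (-t)^n * ∑ i ∈ Finset.range (n+1), uu α i * uu α (n - i)) := by
    have := summable_norm_sum_mul_range_of_summable_norm h1 h1
    refine (Summable.of_norm this).congr (fun n => ?_)
    rw [Finset.mul_sum]
    apply Finset.sum_congr rfl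
    intro i hi
    have hi' := Finset.mem_range.mp hi
    have : (-t)^n = (-t)^i * (-t)^(n-i) := by rw [← pow_add]; congr 1; omega
    rw [this]
    unfold uu
    ring
  have s2 : Summable (fun n => (-t)^n * ∑ i ∈ Finset.range (n+1), vv α i * vv α (n - i)) := by
    have := summable_norm_sum_mul_range_of_summable_norm h2 h2
    refine (Summable.of_norm this).congr (fun n => ?_)
    rw [Finset.mul_sum]
    apply Finset.sum_congr rfl
    intro i hi
    have hi' := Finset.mem_range.mp hi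
    have : (-t)^n = (-t)^i * (-t)^(n-i) := by rw [← pow_add]; congr 1; omega
    rw [this]
    unfold vv
    ring
  have s3 : Summable (fun k => (-1:ℝ)^k * d k α * t ^ k) := by
    have := ent_d α hα |t| (abs_nonneg t)
    refine Summable.of_norm (this.congr (fun k => ?_))
    rw [norm_mul, Real.norm_eq_abs, norm_pow, Real.norm_eq_abs]
  unfold F
  rw [s3.tsum_eq_zero_add, e1, e2, s1.tsum_eq_zero_add, ← tsum_mul_left,
    add_assoc, ← ((summable_nat_add_iff 1).mpr s1).tsum_add (s2.mul_left t)]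
  congr 1
  · rw [d_zero]; simp
  · congr 1
    ext k
    rw [d_succ]
    have : (-t)^(k+1) = (-1)^(k+1) * t^(k+1) := neg_pow t (k+1)
    rw [this]
    have h3 : (-t)^k = (-1)^k * t^k := neg_pow t k
    rw [h3]
    ring

/-- test sequence for `w^n e^{-tw}` -/
noncomputable def tst (n : ℕ) (t : ℝ) (j : ℕ) : ℝ :=
  if n ≤ j then (-t)^(j-n) / ((j-n).factorial : ℝ) else 0

lemma tst_growth (n : ℕ) (t : ℝ) : Growth (tst n t) := by
  refine ⟨(n.factorial : ℝ), 2 * (|t| + 1), by positivity, by positivity, fun j => ?_⟩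
  unfold tst
  split_ifs with h
  · obtain ⟨i, rfl⟩ := Nat.exists_eq_add_of_le h
    rw [Nat.add_sub_cancel_left, abs_div, abs_pow, abs_neg, Nat.abs_cast]
    rw [div_le_div_iff₀ (by positivity) (by positivity)]
    have h1 : (((n + i).factorial : ℕ) : ℝ) = ((n+i).choose n : ℝ) * n.factorial * i.factorial := by
      have := Nat.choose_mul_factorial_mul_factorial (show n ≤ n + i by omega)
      rw [Nat.add_sub_cancel_left] at this
      exact_mod_cast this.symm
    have h2 : ((n+i).choose n : ℝ) ≤ 2^(n+i) := by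
      exact_mod_cast Nat.choose_le_two_pow _ _
    have h3 : |t|^i ≤ (|t|+1)^(n+i) := by
      calc |t|^i ≤ (|t|+1)^i := by gcongr; linarith
        _ ≤ _ := pow_le_pow_right₀ (by linarith [abs_nonneg t]) (by omega)
    rw [h1]
    calc |t| ^ i * (((n+i).choose n : ℝ) * n.factorial * i.factorial)
        ≤ (|t|+1)^(n+i) * (2^(n+i) * n.factorial * i.factorial) := by gcongr
      _ = _ := by rw [mul_pow]; ring
  · rw [abs_zero]; positivity

lemma tst_phi (n : ℕ) (t w : ℝ) : HasSum (fun j => tst n t j * w ^ j) (w ^ n * Real.exp (-(t*w))) := by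
  have h1 : HasSum (fun i : ℕ => (-(t*w))^i / (i.factorial : ℝ)) (Real.exp (-(t*w))) := by
    rw [Real.exp_eq_exp_ℝ]
    exact NormedSpace.expSeries_div_hasSum_exp _
  have h2 := h1.mul_left (w^n)
  rw [← hasSum_nat_add_iff' n]
  have hz : ∑ i ∈ Finset.range n, tst n t i * w ^ i = 0 := by
    apply Finset.sum_eq_zero
    intro i hi
    have := Finset.mem_range.mp hi
    unfold tst
    rw [if_neg (by omega), zero_mul]
  rw [hz, sub_zero]
  refine h2.congr_fun ?_ |> fun h => h
  intro i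
  unfold tst
  rw [if_pos (by omega), Nat.add_sub_cancel, pow_add]
  have : (-(t*w))^i = (-t)^i * w^i := by rw [← mul_pow]; congr 1; ring
  rw [this]
  ring

lemma Growth.add {a b : ℕ → ℝ} (ha : Growth a) (hb : Growth b) : Growth (fun k => a k + b k) := by
  obtain ⟨C, T, hC, hT, h1⟩ := ha
  obtain ⟨C', T', hC', hT', h2⟩ := hb
  refine ⟨C + C', T + T', by positivity, by positivity, fun k => ?_⟩
  calc |a k + b k| ≤ |a k| + |b k| := abs_add_le _ _
    _ ≤ C * T ^ k / (k.factorial : ℝ) + C' * T' ^ k / (k.factorial : ℝ) := add_le_add (h1 k) (h2 k)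
    _ ≤ C * (T + T') ^ k / (k.factorial : ℝ) + C' * (T + T') ^ k / (k.factorial : ℝ) := by
      gcongr <;> linarith
    _ = _ := by ring

lemma Growth.smul {a : ℕ → ℝ} (ha : Growth a) (x : ℝ) : Growth (fun k => x * a k) := by
  obtain ⟨C, T, hC, hT, h1⟩ := ha
  refine ⟨|x| * C, T, by positivity, hT, fun k => ?_⟩
  rw [abs_mul]
  calc |x| * |a k| ≤ |x| * (C * T ^ k / (k.factorial : ℝ)) := by gcongr; exact h1 k
    _ = _ := by ring

lemma growth_summable {lam : ℕ → ℝ} (h : Growth lam) (α : ℝ) (hα : 0 < α) :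
    Summable (fun k => lam k * c k α) := by
  obtain ⟨B, hB⟩ := test_bound h α hα
  exact Summable.of_norm_bounded (summ_aux B) (fun k => hB α le_rfl k)

/-- derivatives of `f` through the test sequences -/
lemma f_deriv (α : ℝ) (hα : 0 < α) (n : ℕ) (t : ℝ) :
    ∑' k, tst n t k * c k α = (-1)^n * iteratedDeriv n (f α) t := by
  have hf : f α = F (fun k => (-1)^k * d k α) := funext (f_eq α hα)
  rw [hf, F_iteratedDeriv (ent_d α hα)]
  have hs := growth_summable (tst_growth n t) α hα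
  rw [← hs.sum_add_tsum_nat_add n]
  have hz : ∑ i ∈ Finset.range n, tst n t i * c i α = 0 := by
    apply Finset.sum_eq_zero
    intro i hi
    have := Finset.mem_range.mp hi
    unfold tst
    rw [if_neg (by omega), zero_mul]
  rw [hz, zero_add]
  unfold F
  rw [← tsum_mul_left]
  congr 1
  ext k
  have h1 := sh_iter (fun k => (-1)^k * d k α) n k
  have hk : (0:ℝ) < k.factorial := by positivity
  have h2 : (Sq.sh^[n] (fun k => (-1)^k * d k α)) k
      = ((k + n).factorial : ℝ) * ((-1)^(k+n) * d (k+n) α) / k.factorial := by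
    rw [← h1]; field_simp
  rw [h2]
  unfold tst c
  rw [if_pos (by omega), Nat.add_sub_cancel]
  have h3 : (-t)^k = (-1)^k * t^k := neg_pow t k
  rw [h3, pow_add]
  have h4 : (-1:ℝ)^n * (-1)^n = 1 := by rw [← mul_pow]; simp
  linear_combination (-((-1)^k * t^k / k.factorial * ((k + n).factorial * d (k+n) α))) * h4

end Pool.Agent.R260.Sq
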