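import Pool.Agent.R260.BlA

set_option autoImplicit false

open Filter Set Topology Metric

namespace Pool.Agent.R260.Sz

/-- `F b z = ∑_{n ≥ 0} b_n / (z² + (n+1)²)` -/
noncomputable def F (b : ℕ → ℝ) (z : ℂ) : ℂ := ∑' n : ℕ, (b n : ℂ) / (z^2 + ((n:ℂ)+1)^2)

lemma summ_sq : Summable (fun n : ℕ => 1 / ((n:ℝ) + 1)^2) := by
  have h := (summable_nat_add_iff 1).mpr (Real.summable_one_div_nat_pow.mpr (one_lt_two))
  refine h.congr (fun n => ?_)
  push_cast; rfl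

lemma term_bound (b : ℕ → ℝ) (hb : ∀ n, |b n| ≤ 1) (z : ℂ) (R δ : ℝ) (hδ : 0 < δ) (hz : ‖z‖ ≤ R)
    (h : ∀ n : ℕ, δ ≤ ‖z^2 + ((n:ℂ)+1)^2‖) (n : ℕ) :
    ‖(b n : ℂ) / (z^2 + ((n:ℂ)+1)^2)‖ ≤ (2 + 2 * R^2 / δ) * (1 / ((n:ℝ) + 1)^2) := by
  have hR : 0 ≤ R := (norm_nonneg z).trans hz
  have hn : (0:ℝ) < ((n:ℝ) + 1)^2 := by positivity
  have hb' : ‖(b n : ℂ)‖ ≤ 1 := by rw [Complex.norm_real]; exact hb n
  have hpos : 0 < ‖z^2 + ((n:ℂ)+1)^2‖ := hδ.trans_le (h n)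
  rw [norm_div]
  have h1 : ‖(b n : ℂ)‖ / ‖z^2 + ((n:ℂ)+1)^2‖ ≤ 1 / ‖z^2 + ((n:ℂ)+1)^2‖ := by gcongr
  refine h1.trans ?_
  have hnn : ‖((n:ℂ)+1)^2‖ = ((n:ℝ) + 1)^2 := by
    have : ((n:ℂ)+1)^2 = (((n:ℝ)+1)^2 : ℝ) := by push_cast; ring
    rw [this, Complex.norm_real, Real.norm_eq_abs, abs_of_pos hn]
  rcases le_total (2 * R^2) (((n:ℝ) + 1)^2) with h2 | h2
  · have h3 : ((n:ℝ) + 1)^2 / 2 ≤ ‖z^2 + ((n:ℂ)+1)^2‖ := by
      have h4 : ‖((n:ℂ)+1)^2‖ - ‖z^2‖ ≤ ‖z^2 + ((n:ℂ)+1)^2‖ := by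
        have := norm_sub_le (z^2 + ((n:ℂ)+1)^2) (z^2)
        have e : z^2 + ((n:ℂ)+1)^2 - z^2 = ((n:ℂ)+1)^2 := by ring
        rw [e] at this; linarith
      have h5 : ‖z^2‖ ≤ R^2 := by rw [norm_pow]; gcongr
      rw [hnn] at h4
      linarith
    calc 1 / ‖z^2 + ((n:ℂ)+1)^2‖ ≤ 1 / (((n:ℝ) + 1)^2 / 2) := by gcongr
      _ = 2 * (1 / ((n:ℝ) + 1)^2) := by field_simp
      _ ≤ _ := by
        gcongr
        have : 0 ≤ 2 * R^2 / δ := by positivity
        linarith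
  · calc 1 / ‖z^2 + ((n:ℂ)+1)^2‖ ≤ 1 / δ := by gcongr; exact h n
      _ ≤ (2 * R^2 / δ) * (1 / ((n:ℝ) + 1)^2) := by
        rw [mul_one_div, le_div_iff₀ hn, div_mul_eq_mul_div, one_mul]
        gcongr
      _ ≤ _ := by
        gcongr
        linarith

lemma F_diffOn (b : ℕ → ℝ) (hb : ∀ n, |b n| ≤ 1) (U : Set ℂ) (hU : IsOpen U) (R δ : ℝ) (hδ : 0 < δ)
    (hz : ∀ z ∈ U, ‖z‖ ≤ R) (h : ∀ z ∈ U, ∀ n : ℕ, δ ≤ ‖z^2 + ((n:ℂ)+1)^2‖) :
    DifferentiableOn ℂ (F b) U := by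
  apply Complex.differentiableOn_tsum_of_summable_norm (summ_sq.mul_left (2 + 2 * R^2 / δ))
  · intro n
    apply DifferentiableOn.div (by fun_prop) (by fun_prop)
    intro z hzU h0
    have := h z hzU n
    rw [h0, norm_zero] at this
    linarith
  · exact hU
  · intro n w hw
    exact term_bound b hb w R δ hδ (hz w hw) (h w hw) n

lemma fact_norm (z : ℂ) (m : ℝ) : ‖z^2 + (m:ℂ)^2‖ = ‖z - Complex.I * m‖ * ‖z + Complex.I * m‖ := by
  rw [← norm_mul]
  congr 1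
  linear_combination ((m:ℂ)^2) * Complex.I_sq

lemma re_le1 (z : ℂ) (m : ℝ) : |z.re| ≤ ‖z - Complex.I * m‖ := by
  have := Complex.abs_re_le_norm (z - Complex.I * m)
  simpa using this

lemma re_le2 (z : ℂ) (m : ℝ) : |z.re| ≤ ‖z + Complex.I * m‖ := by
  have := Complex.abs_re_le_norm (z + Complex.I * m)
  simpa using this

lemma im_le1 (z : ℂ) (m : ℝ) : |z.im - m| ≤ ‖z - Complex.I * m‖ := by
  have := Complex.abs_im_le_norm (z - Complex.I * m)
  simpa using this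

lemma im_le2 (z : ℂ) (m : ℝ) : |z.im + m| ≤ ‖z + Complex.I * m‖ := by
  have := Complex.abs_im_le_norm (z + Complex.I * m)
  simpa using this

lemma F_diffAt_right (b : ℕ → ℝ) (hb : ∀ n, |b n| ≤ 1) (z : ℂ) (hz : 1 < z.re) :
    DifferentiableAt ℂ (F b) z := by
  set U : Set ℂ := {w | 1 < w.re} ∩ ball 0 (‖z‖ + 1) with hU
  have hUo : IsOpen U := (isOpen_lt continuous_const Complex.continuous_re).inter isOpen_ball
  have hzU : z ∈ U := ⟨hz, by rw [mem_ball_zero_iff]; linarith⟩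
  have := F_diffOn b hb U hUo (‖z‖ + 1) 1 one_pos (fun w hw => by
    have := hw.2; rw [mem_ball_zero_iff] at this; exact this.le) (by
    intro w hw n
    have h1 : (1:ℝ) < w.re := hw.1
    have e : w^2 + ((n:ℂ)+1)^2 = w^2 + (((n:ℝ)+1 : ℝ):ℂ)^2 := by push_cast; ring
    rw [e, fact_norm]
    have h2 := re_le1 w ((n:ℝ)+1)
    have h3 := re_le2 w ((n:ℝ)+1)
    rw [abs_of_pos (by linarith)] at h2 h3
    nlinarith)
  exact this.differentiableAt (hUo.mem_nhds hzU)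

lemma F_diffAt_strip (b : ℕ → ℝ) (hb : ∀ n, |b n| ≤ 1) (z : ℂ) (hz : |z.im| < 1) :
    DifferentiableAt ℂ (F b) z := by
  set η : ℝ := (1 - |z.im|) / 2 with hη
  have hη0 : 0 < η := by rw [hη]; linarith
  set U : Set ℂ := {w | |w.im| < 1 - η} ∩ ball 0 (‖z‖ + 1) with hU
  have hUo : IsOpen U :=
    (isOpen_lt (Complex.continuous_im.abs) continuous_const).inter isOpen_ball
  have hzU : z ∈ U := ⟨by show |z.im| < 1 - η; rw [hη]; linarith, by rw [mem_ball_zero_iff]; linarith⟩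
  have := F_diffOn b hb U hUo (‖z‖ + 1) (η * η) (by positivity) (fun w hw => by
    have := hw.2; rw [mem_ball_zero_iff] at this; exact this.le) (by
    intro w hw n
    have h1 : |w.im| < 1 - η := hw.1
    have e : w^2 + ((n:ℂ)+1)^2 = w^2 + (((n:ℝ)+1 : ℝ):ℂ)^2 := by push_cast; ring
    rw [e, fact_norm]
    have h2 := im_le1 w ((n:ℝ)+1)
    have h3 := im_le2 w ((n:ℝ)+1)
    have hn : (0:ℝ) ≤ n := by positivity
    rw [abs_lt] at h1
    have h4 : η ≤ |w.im - ((n:ℝ)+1)| := by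
      rw [abs_of_neg (by linarith)]; linarith
    have h5 : η ≤ |w.im + ((n:ℝ)+1)| := by
      rw [abs_of_pos (by linarith)]; linarith
    exact mul_le_mul (h4.trans h2) (h5.trans h3) hη0.le (norm_nonneg _))
  exact this.differentiableAt (hUo.mem_nhds hzU)

lemma summ_int : Summable (fun k : ℤ => 1 / (1 + (k:ℝ)^2)) := by
  have h1 : Summable (fun k : ℤ => 1 / (k:ℝ)^2) := Real.summable_one_div_int_pow.mpr one_lt_two
  have h2 : Summable (fun k : ℤ => if k = 0 then (1:ℝ) else 0) := by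
    apply summable_of_ne_finset_zero (s := {0})
    intro k hk
    simp at hk
    simp [hk]
  refine Summable.of_nonneg_of_le (fun k => by positivity) (fun k => ?_) (h1.add h2)
  by_cases hk : k = 0
  · subst hk; simp
  · simp only [hk, if_false, add_zero]
    have : (0:ℝ) < (k:ℝ)^2 := by positivity
    gcongr
    linarith

lemma shift_bound (y : ℝ) (n : ℕ) : 1 / (1 + (y - ((n:ℝ)+1))^2) ≤
    3 * (1 / (1 + ((((n:ℤ) + 1 - ⌊y⌋ : ℤ)) : ℝ)^2)) := by
  have h1 := Int.floor_le y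
  have h2 := Int.lt_floor_add_one y
  push_cast
  set m : ℝ := (⌊y⌋ : ℝ) with hm
  rw [mul_one_div, div_le_div_iff₀ (by positivity) (by positivity), one_mul]
  have h3 : 0 ≤ y - m := by linarith
  have h4 : y - m < 1 := by linarith
  nlinarith [sq_nonneg (2 * (y - m) - ((n:ℝ) + 1 - m)), sq_nonneg (y - ((n:ℝ)+1))]

lemma shift_tsum (y : ℝ) : Summable (fun n : ℕ => 1 / (1 + (y - ((n:ℝ)+1))^2)) ∧
    ∑' n : ℕ, 1 / (1 + (y - ((n:ℝ)+1))^2) ≤ 3 * ∑' k : ℤ, 1 / (1 + (k:ℝ)^2) := by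
  have hinj : Function.Injective (fun n : ℕ => ((n:ℤ) + 1 - ⌊y⌋)) := by
    intro a b hab
    simp only at hab
    omega
  have hs : Summable (fun n : ℕ => 3 * (1 / (1 + ((((n:ℤ) + 1 - ⌊y⌋ : ℤ)) : ℝ)^2))) :=
    (summ_int.comp_injective hinj).mul_left 3
  have hs1 : Summable (fun n : ℕ => 1 / (1 + (y - ((n:ℝ)+1))^2)) :=
    Summable.of_nonneg_of_le (fun n => by positivity) (fun n => shift_bound y n) hs
  refine ⟨hs1, ?_⟩
  rw [← tsum_mul_left]
  exact Summable.tsum_le_tsum_of_inj (fun n : ℕ => ((n:ℤ) + 1 - ⌊y⌋)) hinj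
    (fun c _ => by positivity) (fun n => shift_bound y n) hs1 (summ_int.mul_left 3)

lemma F_bdd (b : ℕ → ℝ) (hb : ∀ n, |b n| ≤ 1) (z : ℂ) (hz : 1 < z.re) :
    ‖F b z‖ ≤ 3 * ∑' k : ℤ, 1 / (1 + (k:ℝ)^2) := by
  obtain ⟨s1, t1⟩ := shift_tsum z.im
  obtain ⟨s2, t2⟩ := shift_tsum (-z.im)
  have hterm : ∀ n : ℕ, ‖(b n : ℂ) / (z^2 + ((n:ℂ)+1)^2)‖ ≤
      (1/2) * (1 / (1 + (z.im - ((n:ℝ)+1))^2) + 1 / (1 + (-z.im - ((n:ℝ)+1))^2)) := by
    intro n
    have e : z^2 + ((n:ℂ)+1)^2 = z^2 + (((n:ℝ)+1 : ℝ):ℂ)^2 := by push_cast; ring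
    rw [e, norm_div, fact_norm]
    have hb' : ‖(b n : ℂ)‖ ≤ 1 := by rw [Complex.norm_real]; exact hb n
    set u := ‖z - Complex.I * (((n:ℝ)+1 : ℝ):ℂ)‖ with hu
    set v := ‖z + Complex.I * (((n:ℝ)+1 : ℝ):ℂ)‖ with hv
    have hu2 : 1 + (z.im - ((n:ℝ)+1))^2 ≤ u^2 := by
      rw [hu, ← Complex.normSq_eq_norm_sq, Complex.normSq_apply]
      simp
      nlinarith
    have hv2 : 1 + (-z.im - ((n:ℝ)+1))^2 ≤ v^2 := by
      rw [hv, ← Complex.normSq_eq_norm_sq, Complex.normSq_apply]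
      simp
      nlinarith
    have hu0 : 0 < u := by
      have : 0 ≤ u := norm_nonneg _
      rcases this.eq_or_lt with h | h
      · rw [← h] at hu2; nlinarith [sq_nonneg (z.im - ((n:ℝ)+1))]
      · exact h
    have hv0 : 0 < v := by
      have : 0 ≤ v := norm_nonneg _
      rcases this.eq_or_lt with h | h
      · rw [← h] at hv2; nlinarith [sq_nonneg (-z.im - ((n:ℝ)+1))]
      · exact h
    calc ‖(b n : ℂ)‖ / (u * v) ≤ 1 / (u * v) := by gcongr
      _ ≤ (1/2) * (1 / u^2 + 1 / v^2) := by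
        have h3 : (1/2) * (1 / u^2 + 1 / v^2) - 1 / (u * v) = (1/2) * (1/u - 1/v)^2 := by
          field_simp; ring
        have h4 : 0 ≤ (1/2) * (1/u - 1/v)^2 := by positivity
        linarith
      _ ≤ _ := by gcongr
  have hsum : Summable (fun n : ℕ => (1/2) * (1 / (1 + (z.im - ((n:ℝ)+1))^2)
      + 1 / (1 + (-z.im - ((n:ℝ)+1))^2))) := (s1.add s2).mul_left _
  have h1 := tsum_of_norm_bounded hsum.hasSum hterm
  unfold F
  refine h1.trans ?_
  rw [tsum_mul_left, s1.tsum_add s2]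
  linarith

lemma F_ne (b : ℕ → ℝ) (hb : ∀ n, |b n| = 1) : F b (Complex.I * ((Real.sqrt (1/2) : ℝ) : ℂ)) ≠ 0 := by
  set z : ℂ := Complex.I * ((Real.sqrt (1/2) : ℝ) : ℂ) with hz
  have hz2 : z^2 = -(1/2) := by
    rw [hz, mul_pow, Complex.I_sq, ← Complex.ofReal_pow, Real.sq_sqrt (by norm_num)]
    push_cast; ring
  have hterm : ∀ n : ℕ, (b n : ℂ) / (z^2 + ((n:ℂ)+1)^2)
      = ((b n / (((n:ℝ)+1)^2 - 1/2) : ℝ) : ℂ) := by
    intro n; rw [hz2]; push_cast; ring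
  have hF : F b z = ((∑' n : ℕ, b n / (((n:ℝ)+1)^2 - 1/2) : ℝ) : ℂ) := by
    unfold F
    rw [Complex.ofReal_tsum]
    congr 1
    ext n
    exact hterm n
  rw [hF]
  rw [Ne, Complex.ofReal_eq_zero]
  have hps : ∀ N : ℕ, ∑ i ∈ Finset.range N, 1 / (((i:ℝ)+1) * ((i:ℝ)+2)) ≤ 1 := by
    have : ∀ N : ℕ, ∑ i ∈ Finset.range N, 1 / (((i:ℝ)+1) * ((i:ℝ)+2)) = 1 - 1 / ((N:ℝ) + 1) := by
      intro N
      induction N with
      | zero => simp
      | succ N ih =>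
        rw [Finset.sum_range_succ, ih]
        push_cast
        field_simp
        ring
    intro N
    rw [this N]
    have : (0:ℝ) ≤ 1 / ((N:ℝ) + 1) := by positivity
    linarith
  have hsT : Summable (fun i : ℕ => 1 / (((i:ℝ)+1) * ((i:ℝ)+2))) :=
    summable_of_sum_range_le (fun i => by positivity) hps
  have htT : ∑' i : ℕ, 1 / (((i:ℝ)+1) * ((i:ℝ)+2)) ≤ 1 :=
    Real.tsum_le_of_sum_range_le (fun i => by positivity) hps
  have hle : ∀ n : ℕ, ‖b (n+1) / ((((n+1 : ℕ):ℝ)+1)^2 - 1/2)‖ ≤ 1 / (((n:ℝ)+1) * ((n:ℝ)+2)) := by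
    intro n
    rw [norm_div, Real.norm_eq_abs, hb, Real.norm_eq_abs]
    push_cast
    have hn : (0:ℝ) ≤ n := by positivity
    rw [abs_of_pos (by nlinarith)]
    gcongr
    nlinarith
  have hs1 : Summable (fun n : ℕ => b (n+1) / ((((n+1 : ℕ):ℝ)+1)^2 - 1/2)) :=
    Summable.of_norm_bounded hsT hle
  have hs : Summable (fun n : ℕ => b n / (((n:ℝ)+1)^2 - 1/2)) := by
    rw [← summable_nat_add_iff 1]; exact hs1
  rw [hs.tsum_eq_zero_add]
  have h1 := tsum_of_norm_bounded hsT.hasSum hle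
  have h2 : |b 0 / ((((0:ℕ):ℝ)+1)^2 - 1/2)| = 2 := by
    rw [abs_div, hb]; norm_num
  intro h0
  have h3 : b 0 / ((((0:ℕ):ℝ)+1)^2 - 1/2) = -∑' n : ℕ, b (n+1) / ((((n+1 : ℕ):ℝ)+1)^2 - 1/2) := by
    linarith
  rw [h3, abs_neg] at h2
  rw [Real.norm_eq_abs] at h1
  linarith

lemma fin_zeros (b : ℕ → ℝ) (hb : ∀ n, |b n| = 1) (X : ℝ) :
    {t : ℝ | |t| ≤ X ∧ F b t = 0}.Finite := by
  by_contra hinf
  have hinf : {t : ℝ | |t| ≤ X ∧ F b t = 0}.Infinite := hinf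
  have hsub : {t : ℝ | |t| ≤ X ∧ F b t = 0} ⊆ Icc (-X) X := by
    rintro t ⟨h1, _⟩
    exact abs_le.mp h1
  obtain ⟨t0, _, hacc⟩ := hinf.exists_accPt_of_subset_isCompact isCompact_Icc hsub
  set U : Set ℂ := {z | |z.im| < 1} with hU
  have hUo : IsOpen U := isOpen_lt (Complex.continuous_im.abs) continuous_const
  have hUc : Convex ℝ U := by
    have : U = Complex.imLm ⁻¹' (Ioo (-1) 1) := by
      ext z; simp [hU, abs_lt]
    rw [this]
    exact (convex_Ioo (-1:ℝ) 1).linear_preimage Complex.imLm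
  have hdiff : DifferentiableOn ℂ (F b) U := fun z hz =>
    (F_diffAt_strip b (fun n => (hb n).le) z hz).differentiableWithinAt
  have han : AnalyticOnNhd ℂ (F b) U := hdiff.analyticOnNhd hUo
  have hfreq : ∃ᶠ z in 𝓝[≠] (t0:ℂ), F b z = 0 := by
    rw [accPt_iff_frequently] at hacc
    have hcont : Tendsto (fun t : ℝ => (t:ℂ)) (𝓝 t0) (𝓝 (t0:ℂ)) :=
      Complex.continuous_ofReal.tendsto t0
    rw [frequently_nhdsWithin_iff]
    apply hcont.frequently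
    refine hacc.mono ?_
    rintro t ⟨h1, h2⟩
    refine ⟨h2.2, ?_⟩
    simpa using h1
  have hzero := han.eqOn_zero_of_preconnected_of_frequently_eq_zero hUc.isPreconnected
    (show (t0:ℂ) ∈ U by simp [hU]) hfreq
  have hmem : Complex.I * ((Real.sqrt (1/2) : ℝ) : ℂ) ∈ U := by
    simp only [hU, mem_ofPred_eq, Complex.mul_im, Complex.I_re, Complex.I_im, Complex.ofReal_im,
      Complex.ofReal_re, zero_mul, one_mul, zero_add]
    rw [abs_of_nonneg (Real.sqrt_nonneg _), Real.sqrt_lt' one_pos]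
    norm_num
  exact F_ne b hb (hzero hmem)

lemma zeros_sum (b : ℕ → ℝ) (hb : ∀ n, |b n| = 1) (x0 : ℝ) (hx0 : 1 < x0) (hF : F b x0 ≠ 0) :
    ∃ C : ℝ, ∀ S : Finset ℝ, (∀ t ∈ S, 2 * x0 ≤ t ∧ F b t = 0) → ∑ t ∈ S, 1 / t ≤ C := by
  set M : ℝ := 3 * ∑' k : ℤ, 1 / (1 + (k:ℝ)^2) with hM
  have hbl : ∀ n, |b n| ≤ 1 := fun n => (hb n).le
  have hFpos : 0 < ‖F b x0‖ := norm_pos_iff.mpr hF
  have hMpos : 0 < M := hFpos.trans_le (F_bdd b hbl x0 (by simpa using hx0))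
  refine ⟨Real.log (M / ‖F b x0‖) / (x0 - 1), ?_⟩
  intro S hS
  set φ : ℂ → ℂ := fun ζ => 1 + ((x0:ℂ) - 1) * ((1 + ζ) / (1 - ζ)) with hφ
  have hne : ∀ ζ ∈ ball (0:ℂ) 1, 1 - ζ ≠ 0 := by
    intro ζ hζ h0
    have : ζ = 1 := by linear_combination -h0
    rw [this, mem_ball_zero_iff] at hζ
    simp at hζ
  have hre : ∀ ζ ∈ ball (0:ℂ) 1, 1 < (φ ζ).re := by
    intro ζ hζ
    have h1 := hne ζ hζ
    rw [mem_ball_zero_iff] at hζ
    have h2 : ((1 + ζ) / (1 - ζ)).re = (1 - ‖ζ‖^2) / Complex.normSq (1 - ζ) := by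
      rw [Complex.div_re, ← Complex.normSq_eq_norm_sq, Complex.normSq_apply ζ]
      simp only [Complex.add_re, Complex.sub_re, Complex.one_re, Complex.add_im, Complex.sub_im,
        Complex.one_im]
      ring
    have h3 : 0 < Complex.normSq (1 - ζ) := Complex.normSq_pos.mpr h1
    have h4 : 0 < 1 - ‖ζ‖^2 := by nlinarith [norm_nonneg ζ]
    have h5 : (φ ζ).re = 1 + (x0 - 1) * ((1 + ζ) / (1 - ζ)).re := by
      rw [hφ]
      simp [Complex.mul_re]
    rw [h5, h2]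
    have : 0 < (x0 - 1) * ((1 - ‖ζ‖^2) / Complex.normSq (1 - ζ)) := by
      apply mul_pos (by linarith)
      positivity
    linarith
  have hdφ : DifferentiableOn ℂ φ (ball 0 1) := by
    apply DifferentiableOn.const_add
    apply DifferentiableOn.const_mul
    exact DifferentiableOn.div (by fun_prop) (by fun_prop) hne
  have hdg : DifferentiableOn ℂ (fun ζ => F b (φ ζ)) (ball 0 1) := by
    intro ζ hζ
    exact (F_diffAt_right b hbl (φ ζ) (hre ζ hζ)).comp_differentiableWithinAt ζ (hdφ ζ hζ)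
  set w : ℝ → ℝ := fun t => (t - x0) / (t + x0 - 2) with hw
  have hwinj : ∀ t ∈ S, ∀ u ∈ S, ((w t : ℝ) : ℂ) = ((w u : ℝ) : ℂ) → t = u := by
    intro t ht u hu h
    have h1 := (hS t ht).1
    have h2 := (hS u hu).1
    have h3 : w t = w u := by exact_mod_cast h
    simp only [hw] at h3
    rw [div_eq_div_iff (by linarith) (by linarith)] at h3
    have h4 : (t - u) * (2 * x0 - 2) = 0 := by linear_combination h3
    rcases mul_eq_zero.mp h4 with h5 | h5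
    · linarith
    · linarith
  have hφw : ∀ t ∈ S, φ ((w t : ℝ) : ℂ) = (t:ℂ) := by
    intro t ht
    have h1 := (hS t ht).1
    have h2 : 1 - w t = (2 * x0 - 2) / (t + x0 - 2) := by
      simp only [hw]
      have : t + x0 - 2 ≠ 0 := by linarith
      field_simp; ring
    have h3 : 1 + w t = (2 * t - 2) / (t + x0 - 2) := by
      simp only [hw]
      have : t + x0 - 2 ≠ 0 := by linarith
      field_simp; ring
    have h4 : 1 + (x0 - 1) * ((1 + w t) / (1 - w t)) = t := by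
      rw [h2, h3]
      have : t + x0 - 2 ≠ 0 := by linarith
      have : 2 * x0 - 2 ≠ 0 := by linarith
      have : x0 - 1 ≠ 0 := by linarith
      field_simp; ring
    rw [hφ]
    simp only
    rw [← h4]; push_cast
    rw [h4]
  have hbound := Pool.Agent.R260.Bl.blaschke (S.image (fun t => ((w t : ℝ) : ℂ)))
    (fun ζ => F b (φ ζ)) M hdg (fun ζ hζ => F_bdd b hbl (φ ζ) (hre ζ hζ)) (by
      intro s hs
      rw [Finset.mem_image] at hs
      obtain ⟨t, ht, rfl⟩ := hs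
      refine ⟨?_, ?_⟩
      · rw [mem_ball_zero_iff, Complex.norm_real, Real.norm_eq_abs, abs_lt]
        have h1 := (hS t ht).1
        simp only [hw]
        constructor
        · rw [lt_div_iff₀ (by linarith)]; linarith
        · rw [div_lt_iff₀ (by linarith)]; linarith
      · show F b (φ ((w t : ℝ) : ℂ)) = 0
        rw [hφw t ht]; exact (hS t ht).2)
  rw [Finset.prod_image (fun t ht u hu h => hwinj t ht u hu h)] at hbound
  have hφ0 : φ 0 = (x0:ℂ) := by rw [hφ]; simp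
  simp only [hφ0] at hbound
  have hprod : ∏ t ∈ S, ‖((w t : ℝ) : ℂ)‖ ≤ Real.exp (-((x0 - 1) * ∑ t ∈ S, 1 / t)) := by
    rw [Finset.mul_sum, ← Finset.sum_neg_distrib, Real.exp_sum]
    apply Finset.prod_le_prod
    · intro t _; positivity
    · intro t ht
      have h1 := (hS t ht).1
      rw [Complex.norm_real, Real.norm_eq_abs]
      have h2 : 0 ≤ w t := by
        simp only [hw]; apply div_nonneg <;> linarith
      rw [abs_of_nonneg h2]
      have h3 := Real.add_one_le_exp (-((x0 - 1) * (1 / t)))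
      refine le_trans ?_ h3
      have h4 : (x0 - 1) * (1 / t) ≤ 1 - w t := by
        simp only [hw]
        have e : 1 - (t - x0) / (t + x0 - 2) = (2 * x0 - 2) / (t + x0 - 2) := by
          have : t + x0 - 2 ≠ 0 := by linarith
          field_simp; ring
        rw [e, mul_one_div, div_le_div_iff₀ (by linarith) (by linarith)]
        nlinarith
      linarith
  have h1 : ‖F b x0‖ ≤ M * Real.exp (-((x0 - 1) * ∑ t ∈ S, 1 / t)) :=
    hbound.trans (by gcongr)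
  have h2 : Real.exp ((x0 - 1) * ∑ t ∈ S, 1 / t) ≤ M / ‖F b x0‖ := by
    rw [le_div_iff₀ hFpos]
    calc Real.exp ((x0 - 1) * ∑ t ∈ S, 1 / t) * ‖F b x0‖
        ≤ Real.exp ((x0 - 1) * ∑ t ∈ S, 1 / t) *
          (M * Real.exp (-((x0 - 1) * ∑ t ∈ S, 1 / t))) := by gcongr
      _ = M := by
        rw [Real.exp_neg]
        field_simp
  rw [le_div_iff₀ (by linarith)]
  have h3 := Real.log_le_log (Real.exp_pos _) h2
  rw [Real.log_exp] at h3
  linarith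

end Pool.Agent.R260.Sz
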